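import Pool.Agent.P.MP_7aad9f_nt.ExcDefs

/-! Divisor bound, tuples with a given product, roots of unity modulo `ζ`, full numbers. -/

namespace Pool.Agent.P.MP_7aad9f_nt.Exc
open Finset

namespace ExcDiv

theorem succ_pow_le (B a : ℕ) (hB : 1 ≤ B) : (a + 1) ^ B ≤ B ^ B * 2 ^ a := by
  have h1 : a + 1 ≤ B * 2 ^ (a / B) := by
    have h2 : a / B + 1 ≤ 2 ^ (a / B) := Nat.lt_two_pow_self
    have h3 : a < B * (a / B + 1) := Nat.lt_mul_div_succ a hB
    calc a + 1 ≤ B * (a / B + 1) := h3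
      _ ≤ B * 2 ^ (a / B) := Nat.mul_le_mul_left _ h2
  calc (a + 1) ^ B ≤ (B * 2 ^ (a / B)) ^ B := Nat.pow_le_pow_left h1 _
    _ = B ^ B * 2 ^ (a / B * B) := by rw [mul_pow, ← pow_mul]
    _ ≤ B ^ B * 2 ^ a :=
      Nat.mul_le_mul_left _ (Nat.pow_le_pow_right (by omega) (Nat.div_mul_le_self a B))

theorem card_divisors_pow_le (B : ℕ) (hB : 1 ≤ B) :
    ∃ C : ℕ, 1 ≤ C ∧ ∀ n : ℕ, n ≠ 0 → n.divisors.card ^ B ≤ C * n := by
  have hBB : 1 ≤ B ^ B := Nat.one_le_pow _ _ hB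
  refine ⟨(B ^ B) ^ (2 ^ B), Nat.one_le_pow _ _ hBB, fun n hn => ?_⟩
  rw [Nat.card_divisors hn, ← Finset.prod_pow]
  have h1 : ∏ p ∈ n.primeFactors, (n.factorization p + 1) ^ B ≤
      ∏ p ∈ n.primeFactors, ((if p < 2 ^ B then B ^ B else 1) * p ^ n.factorization p) := by
    refine Finset.prod_le_prod' fun p hp => ?_
    have hp2 := (Nat.prime_of_mem_primeFactors hp).two_le
    split_ifs with h
    · exact (succ_pow_le B _ hB).trans (Nat.mul_le_mul_left _ (Nat.pow_le_pow_left hp2 _))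
    · rw [one_mul]
      have h2 : n.factorization p + 1 ≤ 2 ^ n.factorization p := Nat.lt_two_pow_self
      calc (n.factorization p + 1) ^ B ≤ (2 ^ n.factorization p) ^ B := Nat.pow_le_pow_left h2 _
        _ = (2 ^ B) ^ n.factorization p := by rw [← pow_mul, ← pow_mul, mul_comm]
        _ ≤ p ^ n.factorization p := Nat.pow_le_pow_left (by omega) _
  refine h1.trans ?_
  rw [Finset.prod_mul_distrib]
  have h2 : ∏ p ∈ n.primeFactors, p ^ n.factorization p = n := by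
    conv_rhs => rw [← Nat.prod_factorization_pow_eq_self hn]
    rfl
  rw [h2]
  refine Nat.mul_le_mul_right _ ?_
  rw [← Finset.prod_filter, Finset.prod_const]
  refine Nat.pow_le_pow_right hBB ?_
  calc (n.primeFactors.filter fun p => p < 2 ^ B).card ≤ (Finset.range (2 ^ B)).card :=
        Finset.card_le_card fun p hp => Finset.mem_range.2 (Finset.mem_filter.1 hp).2
    _ = 2 ^ B := Finset.card_range _

theorem tors_le {G : Type} [CommGroup G] [Finite G] (j : ℕ) (hj : 1 ≤ j) (g : G)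
    (h : Nat.card G ≤ 2 * orderOf g) : Nat.card (powMonoidHom j : G →* G).ker ≤ 2 * j := by
  have h1 := (powMonoidHom j : G →* G).ker.card_mul_index
  rw [Subgroup.index_ker] at h1
  have h2 : orderOf (g ^ j) ≤ Nat.card (powMonoidHom j : G →* G).range := by
    rw [← Nat.card_zpowers]
    exact Subgroup.card_le_of_le (by rw [Subgroup.zpowers_le]; exact ⟨g, rfl⟩)
  have h0 : 0 < orderOf (g ^ j) := orderOf_pos _
  have h3 : orderOf g ≤ j * orderOf (g ^ j) :=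
    orderOf_le_of_pow_eq_one (Nat.mul_pos hj h0) (by rw [pow_mul, pow_orderOf_eq_one])
  have h4 := Nat.mul_le_mul_left (Nat.card (powMonoidHom j : G →* G).ker) h2
  refine Nat.le_of_mul_le_mul_right ?_ h0
  nlinarith

theorem exists_big (p n : ℕ) (hp : p.Prime) :
    ∃ g : (ZMod (p ^ n))ˣ, Nat.card (ZMod (p ^ n))ˣ ≤ 2 * orderOf g := by
  have : NeZero (p ^ n) := ⟨pow_ne_zero _ hp.ne_zero⟩
  by_cases hc : IsCyclic (ZMod (p ^ n))ˣ
  · obtain ⟨g, hg⟩ := hc.exists_ofOrder_eq_natCard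
    exact ⟨g, by omega⟩
  · have hp2 : p = 2 := by
      by_contra h
      exact hc (ZMod.isCyclic_units_of_prime_pow p hp h n)
    subst hp2
    have hn : ¬ n ≤ 2 := fun h => hc ((ZMod.isCyclic_units_two_pow_iff n).2 h)
    obtain ⟨m, rfl⟩ : ∃ m, n = m + 2 := ⟨n - 2, by omega⟩
    let five : (ZMod (2 ^ (m + 2)))ˣ :=
      ZMod.unitOfCoprime 5 (Nat.Coprime.pow_right _ (by norm_num))
    refine ⟨five, ?_⟩
    have h5 : orderOf five = 2 ^ m := by
      rw [← ZMod.orderOf_five m, ← orderOf_units]; rfl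
    rw [h5, Nat.card_eq_fintype_card, ZMod.card_units_eq_totient,
      Nat.totient_prime_pow Nat.prime_two (by omega)]
    simp [pow_succ]; omega

theorem roots_le (j : ℕ) (hj : 1 ≤ j) (z : ℕ) : z ≠ 0 →
    Nat.card (powMonoidHom j : (ZMod z)ˣ →* (ZMod z)ˣ).ker ≤ z.divisors.card ^ (j + 1) := by
  induction z using Nat.recOnPosPrimePosCoprime with
  | prime_pow p n hp hn =>
    intro h0
    have : NeZero (p ^ n) := ⟨h0⟩
    obtain ⟨g, hg⟩ := exists_big p n hp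
    refine (tors_le j hj g hg).trans ?_
    have h1 : 2 ≤ (p ^ n).divisors.card := by
      rw [Nat.divisors_prime_pow hp, Finset.card_map, Finset.card_range]; omega
    have h2 : j < 2 ^ j := Nat.lt_two_pow_self
    calc 2 * j ≤ 2 ^ (j + 1) := by rw [pow_succ]; omega
      _ ≤ _ := Nat.pow_le_pow_left h1 _
  | zero => simp
  | one =>
    intro _
    simp only [Nat.divisors_one, card_singleton, one_pow]
    exact Finite.card_le_one_iff_subsingleton.2 inferInstance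
  | coprime a b ha hb hab iha ihb =>
    intro _
    have : NeZero a := ⟨by omega⟩
    have : NeZero b := ⟨by omega⟩
    let e : (ZMod (a * b))ˣ ≃* (ZMod a)ˣ × (ZMod b)ˣ :=
      (Units.mapEquiv (ZMod.chineseRemainder hab).toMulEquiv).trans MulEquiv.prodUnits
    have key : ∀ w : (powMonoidHom j : (ZMod (a * b))ˣ →* _).ker, (e w) ^ j = 1 := by
      intro w
      rw [← map_pow, show (w : (ZMod (a * b))ˣ) ^ j = 1 from w.2, map_one]
    let f : (powMonoidHom j : (ZMod (a * b))ˣ →* _).ker →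
        (powMonoidHom j : (ZMod a)ˣ →* _).ker × (powMonoidHom j : (ZMod b)ˣ →* _).ker :=
      fun w => (⟨(e w).1, congrArg Prod.fst (key w)⟩, ⟨(e w).2, congrArg Prod.snd (key w)⟩)
    have hf : Function.Injective f := by
      intro w w' h
      have h1 := congrArg (fun x => x.1.1) h
      have h2 := congrArg (fun x => x.2.1) h
      exact Subtype.ext (e.injective (Prod.ext h1 h2))
    refine (Nat.card_le_card_of_injective f hf).trans ?_
    rw [Nat.card_prod, hab.card_divisors_mul, mul_pow]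
    exact Nat.mul_le_mul (iha (by omega)) (ihb (by omega))

theorem full_dvd (K y : ℕ) (hK : 1 ≤ K) (hy : 1 ≤ y)
    (h : ∀ p : ℕ, p.Prime → p ∣ y → p ^ K ∣ y) : y ∣ (Nat.floorRoot K y) ^ (2 * K) := by
  have h0 : Nat.floorRoot K y ≠ 0 := Nat.floorRoot_ne_zero.2 ⟨by omega, by omega⟩
  rw [← Nat.factorization_le_iff_dvd (by omega) (pow_ne_zero _ h0)]
  intro p
  simp only [Nat.factorization_pow, Nat.factorization_floorRoot, Finsupp.smul_apply, smul_eq_mul,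
    Finsupp.floorDiv_apply, Nat.floorDiv_eq_div]
  rcases Nat.eq_zero_or_pos (y.factorization p) with h1 | h1
  · omega
  have hp : p ∈ y.primeFactors := by
    rw [← Nat.support_factorization, Finsupp.mem_support_iff]; omega
  have hpp := Nat.prime_of_mem_primeFactors hp
  have h2 := (hpp.pow_dvd_iff_le_factorization (by omega)).1
    (h p hpp (Nat.dvd_of_mem_primeFactors hp))
  have h3 : 1 ≤ y.factorization p / K := (Nat.one_le_div_iff hK).2 h2
  have h4 := Nat.lt_mul_div_succ (y.factorization p) hK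
  nlinarith

end ExcDiv
open ExcDiv

theorem card_divisors_le (ε : ℝ) (hε : 0 < ε) :
    ∃ C : ℝ, 0 < C ∧ ∀ m : ℕ, m ≠ 0 → (m.divisors.card : ℝ) ≤ C * (m : ℝ) ^ ε := by
  obtain ⟨B, hB⟩ := exists_nat_one_div_lt hε
  obtain ⟨C, hC1, hC⟩ := card_divisors_pow_le (B + 1) (by omega)
  have hC0 : (0 : ℝ) < C := by exact_mod_cast hC1
  refine ⟨(C : ℝ) ^ (((B + 1 : ℕ) : ℝ)⁻¹), by positivity, fun m hm => ?_⟩
  have hm1 : (1 : ℝ) ≤ m := by exact_mod_cast Nat.one_le_iff_ne_zero.2 hm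
  have h1 : (m.divisors.card : ℝ) ^ (B + 1) ≤ C * m := by exact_mod_cast hC m hm
  calc (m.divisors.card : ℝ) = ((m.divisors.card : ℝ) ^ (B + 1)) ^ (((B + 1 : ℕ) : ℝ)⁻¹) :=
        (Real.pow_rpow_inv_natCast (by positivity) (by omega)).symm
    _ ≤ ((C : ℝ) * m) ^ (((B + 1 : ℕ) : ℝ)⁻¹) :=
        Real.rpow_le_rpow (by positivity) h1 (by positivity)
    _ = (C : ℝ) ^ (((B + 1 : ℕ) : ℝ)⁻¹) * (m : ℝ) ^ (((B + 1 : ℕ) : ℝ)⁻¹) :=
        Real.mul_rpow hC0.le (by positivity)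
    _ ≤ _ := by
        refine mul_le_mul_of_nonneg_left (Real.rpow_le_rpow_of_exponent_le hm1 ?_) (by positivity)
        push_cast; rw [← one_div]; exact hB.le

/-- powers of the divisor function -/
theorem card_divisors_pow_le' (k : ℕ) (ε : ℝ) (hε : 0 < ε) :
    ∃ C : ℝ, 0 < C ∧ ∀ m : ℕ, m ≠ 0 → (m.divisors.card : ℝ) ^ k ≤ C * (m : ℝ) ^ ε := by
  obtain ⟨C, hC0, hC⟩ := card_divisors_le (ε / (k + 1)) (by positivity)
  refine ⟨C ^ k, by positivity, fun m hm => ?_⟩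
  have hm1 : (1 : ℝ) ≤ m := by exact_mod_cast Nat.one_le_iff_ne_zero.2 hm
  refine (pow_le_pow_left₀ (by positivity) (hC m hm) k).trans ?_
  rw [mul_pow, ← Real.rpow_mul_natCast (by positivity)]
  refine mul_le_mul_of_nonneg_left (Real.rpow_le_rpow_of_exponent_le hm1 ?_) (by positivity)
  rw [div_mul_eq_mul_div, div_le_iff₀ (by positivity)]
  nlinarith

theorem card_tuples_le (k : ℕ) (ε : ℝ) (hε : 0 < ε) :
    ∃ C : ℝ, 0 < C ∧ ∀ m : ℕ, m ≠ 0 → ∀ S : Finset (Fin k → ℕ), (∀ x ∈ S, ∏ i, x i = m) →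
      (S.card : ℝ) ≤ C * (m : ℝ) ^ ε := by
  obtain ⟨C, hC0, hC⟩ := card_divisors_pow_le' k ε hε
  refine ⟨C, hC0, fun m hm S hS => le_trans ?_ (hC m hm)⟩
  have : S ⊆ Fintype.piFinset fun _ : Fin k => m.divisors := by
    intro x hx
    rw [Fintype.mem_piFinset]
    intro i
    exact Nat.mem_divisors.2 ⟨hS x hx ▸ Finset.dvd_prod_of_mem x (mem_univ i), hm⟩
  have h := Finset.card_le_card this
  rw [Fintype.card_piFinset_const] at h
  exact_mod_cast h

theorem card_roots_le (j : ℕ) (hj : 1 ≤ j) (ε : ℝ) (hε : 0 < ε) :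
    ∃ C : ℝ, 0 < C ∧ ∀ ζ : ℕ, 1 ≤ ζ → ∀ S : Finset (ZMod ζ)ˣ, (∀ ω ∈ S, ω ^ j = 1) →
      (S.card : ℝ) ≤ C * (ζ : ℝ) ^ ε := by
  obtain ⟨C, hC0, hC⟩ := card_divisors_pow_le' (j + 1) ε hε
  refine ⟨C, hC0, fun z hz S hS => le_trans ?_ (hC z (by omega))⟩
  have : NeZero z := ⟨by omega⟩
  have h1 : S.card ≤ Nat.card (powMonoidHom j : (ZMod z)ˣ →* (ZMod z)ˣ).ker := by
    rw [← Nat.card_eq_finsetCard]
    exact Nat.card_le_card_of_injective (fun w : S => ⟨w.1, hS w.1 w.2⟩)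
      (fun w w' h => Subtype.ext (Subtype.mk.inj h))
  exact_mod_cast h1.trans (roots_le j hj z (by omega))

theorem card_full_le (J : ℕ) (ε : ℝ) (hε : 0 < ε) :
    ∃ C : ℝ, 0 < C ∧ ∀ X : ℕ, 1 ≤ X → ∀ S : Finset ℕ,
      (∀ y ∈ S, 1 ≤ y ∧ y ≤ X ∧ ∀ p : ℕ, p.Prime → p ∣ y → p ^ (J + 1) ∣ y) →
      (S.card : ℝ) ≤ C * (X : ℝ) ^ (1 / ((J : ℝ) + 1) + ε) := by
  obtain ⟨C, hC0, hC⟩ := card_divisors_le (ε / 2) (by positivity)
  refine ⟨C, hC0, fun X hX S hS => ?_⟩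
  have hX0 : (0 : ℝ) < X := by exact_mod_cast hX
  set T := (Icc 1 X).filter fun m => m ^ (J + 1) ≤ X with hT
  have hsub : S ⊆ T.biUnion fun m => (m ^ (2 * (J + 1))).divisors := by
    intro y hy
    obtain ⟨h1, h2, h3⟩ := hS y hy
    have h0 : Nat.floorRoot (J + 1) y ≠ 0 := Nat.floorRoot_ne_zero.2 ⟨by omega, by omega⟩
    have h4 : Nat.floorRoot (J + 1) y ^ (J + 1) ≤ X :=
      (Nat.le_of_dvd h1 Nat.floorRoot_pow_dvd).trans h2
    refine mem_biUnion.2 ⟨Nat.floorRoot (J + 1) y, mem_filter.2 ⟨mem_Icc.2 ⟨by omega, ?_⟩, h4⟩,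
      Nat.mem_divisors.2 ⟨full_dvd _ _ (by omega) h1 h3, pow_ne_zero _ h0⟩⟩
    exact (Nat.le_self_pow (by omega) _).trans h4
  have hTc : (T.card : ℝ) ≤ (X : ℝ) ^ (1 / ((J : ℝ) + 1)) := by
    have : T ⊆ Icc 1 ⌊(X : ℝ) ^ (1 / ((J : ℝ) + 1))⌋₊ := by
      intro m hm
      obtain ⟨h1, h2⟩ := mem_filter.1 hm
      refine mem_Icc.2 ⟨(mem_Icc.1 h1).1, Nat.le_floor ?_⟩
      have h3 : (m : ℝ) ^ (J + 1) ≤ X := by exact_mod_cast h2
      calc (m : ℝ) = ((m : ℝ) ^ (J + 1)) ^ (((J + 1 : ℕ) : ℝ)⁻¹) :=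
            (Real.pow_rpow_inv_natCast (by positivity) (by omega)).symm
        _ ≤ (X : ℝ) ^ (((J + 1 : ℕ) : ℝ)⁻¹) := Real.rpow_le_rpow (by positivity) h3 (by positivity)
        _ = _ := by push_cast; rw [one_div]
    have h := Finset.card_le_card this
    rw [Nat.card_Icc, Nat.add_sub_cancel] at h
    exact le_trans (by exact_mod_cast h) (Nat.floor_le (by positivity))
  have h1 : (S.card : ℝ) ≤ ∑ m ∈ T, ((m ^ (2 * (J + 1))).divisors.card : ℝ) := by
    exact_mod_cast (Finset.card_le_card hsub).trans Finset.card_biUnion_le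
  have h2 : ∀ m ∈ T, ((m ^ (2 * (J + 1))).divisors.card : ℝ) ≤ C * (X : ℝ) ^ ε := by
    intro m hm
    obtain ⟨h3, h4⟩ := mem_filter.1 hm
    have h5 := (mem_Icc.1 h3).1
    refine (hC _ (pow_ne_zero _ (by omega))).trans (mul_le_mul_of_nonneg_left ?_ hC0.le)
    have h6 : ((m ^ (2 * (J + 1)) : ℕ) : ℝ) ≤ (X : ℝ) ^ 2 := by
      rw [mul_comm, pow_mul]; exact_mod_cast Nat.pow_le_pow_left h4 2
    refine (Real.rpow_le_rpow (by positivity) h6 (by positivity)).trans (le_of_eq ?_)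
    rw [← Real.rpow_natCast_mul hX0.le]; congr 1; push_cast; ring
  refine h1.trans ((Finset.sum_le_card_nsmul _ _ _ h2).trans ?_)
  rw [nsmul_eq_mul, Real.rpow_add hX0]
  have := mul_le_mul_of_nonneg_right hTc (show 0 ≤ C * (X : ℝ) ^ ε by positivity)
  linarith

end Pool.Agent.P.MP_7aad9f_nt.Exc
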