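import Pool.Agent.P.MP_7aad9f_nt.SubDefs

/-! The auxiliary coefficients from Siegel's lemma. -/

set_option autoImplicit false

namespace Pool.Agent.P.MP_7aad9f_nt.Sub

open Finset

theorem siegel_mem {k Z : ℕ} {z : Fin k → ℕ} : z ∈ simplex k Z ↔ ∑ i, z i ≤ Z := by
  simp only [simplex, mem_filter, Fintype.mem_piFinset, mem_range]
  refine ⟨fun h => h.2, fun h => ⟨fun i => ?_, h⟩⟩
  have := single_le_sum (f := z) (fun j _ => Nat.zero_le _) (mem_univ i)
  omega

theorem siegel_card (k : ℕ) : ∀ Z : ℕ, (simplex k Z).card = (Z + k).choose k := by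
  induction k with
  | zero =>
    intro Z
    have : simplex 0 Z = {fun i => i.elim0} := by
      ext z
      simp only [siegel_mem, univ_eq_empty, sum_empty, zero_le, mem_singleton, true_iff]
      funext i; exact i.elim0
    simp [this]
  | succ k ih =>
    intro Z
    have h : (simplex (k + 1) Z).card =
        ((range (Z + 1)).sigma fun s => simplex k s).card := by
      refine card_bij' (fun z _ => ⟨Z - z 0, Fin.tail z⟩)
        (fun p _ => Fin.cons (Z - p.1) p.2) ?_ ?_ ?_ ?_
      · intro z hz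
        rw [siegel_mem, Fin.sum_univ_succ] at hz
        simp only [mem_sigma, mem_range, siegel_mem, Fin.tail]
        omega
      · rintro ⟨s, w⟩ hp
        simp only [mem_sigma, mem_range, siegel_mem] at hp
        simp only [siegel_mem, Fin.sum_univ_succ, Fin.cons_zero, Fin.cons_succ]
        omega
      · intro z hz
        rw [siegel_mem, Fin.sum_univ_succ] at hz
        have : Z - (Z - z 0) = z 0 := by omega
        simp only [this, Fin.cons_self_tail]
      · rintro ⟨s, w⟩ hp
        simp only [mem_sigma, mem_range, siegel_mem] at hp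
        have : Z - (Z - s) = s := by omega
        simp only [Fin.cons_zero, Fin.tail_cons, this]
    rw [h, card_sigma, sum_congr rfl fun s _ => ih s, Nat.sum_range_add_choose]
    rfl

theorem siegel_ratio (k ω Z : ℕ) (ρ : ℝ) (h1 : 1 ≤ ρ) (hZ : ρ * (ω + k) ≤ Z) :
    ∀ i ≤ k, ρ ^ i * ((ω + i).choose i : ℝ) ≤ (Z + i).choose i := by
  intro i
  induction i with
  | zero => simp
  | succ i ih =>
    intro hi
    have h0 := ih (by omega)
    have e1 : ((Z + (i + 1)).choose (i + 1) : ℝ) * (i + 1) = (Z + i + 1) * (Z + i).choose i := by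
      have := Nat.add_one_mul_choose_eq (Z + i) i
      exact_mod_cast this.symm
    have e2 : ((ω + (i + 1)).choose (i + 1) : ℝ) * (i + 1) = (ω + i + 1) * (ω + i).choose i := by
      have := Nat.add_one_mul_choose_eq (ω + i) i
      exact_mod_cast this.symm
    have hik : (i : ℝ) + 1 ≤ k := by exact_mod_cast hi
    have h2 : ρ * (ω + i + 1) ≤ Z + i + 1 := by
      have : ρ * (ω + i + 1) ≤ ρ * (ω + k) :=
        mul_le_mul_of_nonneg_left (by linarith) (by linarith)
      have : (0 : ℝ) ≤ i := by positivity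
      linarith
    have hpos : (0 : ℝ) < i + 1 := by positivity
    refine le_of_mul_le_mul_right ?_ hpos
    rw [e1, mul_assoc, e2]
    calc ρ ^ (i + 1) * ((ω + i + 1) * ((ω + i).choose i : ℝ))
        = (ρ * (ω + i + 1)) * (ρ ^ i * ((ω + i).choose i : ℝ)) := by ring
      _ ≤ (Z + i + 1) * (Z + i).choose i := by gcongr

attribute [local instance] Matrix.seminormedAddCommGroup

theorem siegel : S_SIEGEL := by
  intro k l ω Z ρ x hl h1 hZ hρ hx
  have hcard : (simplex k Z).card ≤ 2 ^ (Z + k) := by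
    rw [siegel_card]; exact Nat.choose_le_two_pow _ _
  refine ⟨hcard, ?_⟩
  let A : Matrix (Fin l × simplex k ω) (simplex k Z) ℤ := fun p z =>
    (((x z).choose p.1 * ∏ s, (z.1 s).choose (p.2.1 s) : ℕ) : ℤ)
  have hm : Fintype.card (Fin l × simplex k ω) = l * (ω + k).choose k := by
    simp [siegel_card]
  have hn : Fintype.card (simplex k Z) = (Z + k).choose k := by simp [siegel_card]
  have hmpos : 0 < Fintype.card (Fin l × simplex k ω) := by
    rw [hm]; exact Nat.mul_pos hl (Nat.choose_pos (by omega))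
  have h2 : 2 * Fintype.card (Fin l × simplex k ω) ≤ Fintype.card (simplex k Z) := by
    rw [hm, hn]
    have h3 := siegel_ratio k ω Z ρ h1 hZ k le_rfl
    have h4 : (2 * (l : ℝ)) * ((ω + k).choose k : ℝ) ≤ ρ ^ k * (ω + k).choose k := by gcongr
    have : ((2 * (l * (ω + k).choose k) : ℕ) : ℝ) ≤ ((Z + k).choose k : ℕ) := by
      push_cast; linarith
    exact_mod_cast this
  obtain ⟨t, ht0, ht1, ht2⟩ := Int.Matrix.exists_ne_zero_int_vec_norm_le A (by omega) hmpos
  have hA : ‖A‖ ≤ (4 : ℝ) ^ Z := by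
    rw [Matrix.norm_le_iff (by positivity)]
    intro p z
    have h5 : (x z).choose p.1 ≤ 2 ^ Z :=
      (Nat.choose_le_two_pow _ _).trans (Nat.pow_le_pow_right (by norm_num) (hx _))
    have h6 : ∏ s, (z.1 s).choose (p.2.1 s) ≤ 2 ^ Z := by
      calc ∏ s, (z.1 s).choose (p.2.1 s) ≤ ∏ s, 2 ^ (z.1 s) :=
            prod_le_prod' fun s _ => Nat.choose_le_two_pow _ _
        _ = 2 ^ ∑ s, z.1 s := prod_pow_eq_pow_sum _ _ _
        _ ≤ 2 ^ Z := Nat.pow_le_pow_right (by norm_num) (siegel_mem.1 z.2)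
    have h7 : (x z).choose p.1 * ∏ s, (z.1 s).choose (p.2.1 s) ≤ 4 ^ Z := by
      calc _ ≤ 2 ^ Z * 2 ^ Z := Nat.mul_le_mul h5 h6
        _ = 4 ^ Z := by rw [← mul_pow]; norm_num
    simp only [A, Int.norm_natCast]
    exact_mod_cast h7
  have hnorm : ‖t‖ ≤ (2 : ℝ) ^ (Z + k) * 4 ^ Z := by
    refine ht2.trans ?_
    have hn1 : (1 : ℝ) ≤ Fintype.card (simplex k Z) := by
      exact_mod_cast (by omega : 1 ≤ Fintype.card (simplex k Z))
    have hb : (1 : ℝ) ≤ Fintype.card (simplex k Z) * max 1 ‖A‖ :=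
      one_le_mul_of_one_le_of_one_le hn1 (le_max_left _ _)
    have h8 : (2 : ℝ) * Fintype.card (Fin l × simplex k ω) ≤ Fintype.card (simplex k Z) := by
      exact_mod_cast h2
    have h9 : (0 : ℝ) < Fintype.card (Fin l × simplex k ω) := by exact_mod_cast hmpos
    have he : (Fintype.card (Fin l × simplex k ω) : ℝ) /
        (Fintype.card (simplex k Z) - Fintype.card (Fin l × simplex k ω)) ≤ 1 := by
      rw [div_le_one (by linarith)]; linarith
    calc _ ≤ (Fintype.card (simplex k Z) * max 1 ‖A‖) ^ (1 : ℝ) :=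
          Real.rpow_le_rpow_of_exponent_le hb he
      _ = Fintype.card (simplex k Z) * max 1 ‖A‖ := Real.rpow_one _
      _ ≤ (2 : ℝ) ^ (Z + k) * 4 ^ Z := by
        gcongr
        · rw [Fintype.card_coe]; exact_mod_cast hcard
        · exact max_le (one_le_pow₀ (by norm_num)) hA
  refine ⟨fun z => if h : z ∈ simplex k Z then t ⟨z, h⟩ else 0, ?_, fun z => ?_,
    fun j i hj hi => ?_⟩
  · obtain ⟨z, hz⟩ := Function.ne_iff.1 ht0
    exact ⟨z, z.2, by simpa [z.2] using hz⟩
  · beta_reduce
    split_ifs with h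
    · have h10 := (norm_le_pi_norm t ⟨z, h⟩).trans hnorm
      rw [Int.norm_eq_abs] at h10
      exact_mod_cast h10
    · positivity
  · have h10 := congrFun ht1 (⟨j, hj⟩, ⟨i, siegel_mem.2 hi⟩)
    rw [← sum_coe_sort]
    simp only [Matrix.mulVec, dotProduct, A, Pi.zero_apply] at h10
    rw [← h10]
    exact sum_congr rfl fun z _ => by simp only [z.2, dif_pos, mul_comm]

end Pool.Agent.P.MP_7aad9f_nt.Sub
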