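import Pool.Agent.P.MP_7aad9f_nt.ExcDefs

/-! Basic facts about dyadic boxes. -/

namespace Pool.Agent.P.MP_7aad9f_nt.Exc.BoxLem
open Finset

variable {J : ℕ} (B : Box J)

lemma one_lt_Y : (1 : ℝ) < B.Y := by
  have h : (2 : ℝ) ≤ B.Y := by exact_mod_cast B.hY
  linarith

lemma Y_pos : (0 : ℝ) < B.Y := lt_trans one_pos (one_lt_Y B)

lemma logY_pos : 0 < Real.log B.Y := Real.log_pos (one_lt_Y B)

lemma rpow_log_div {a : ℝ} (ha : 0 < a) : (B.Y : ℝ) ^ (Real.log a / Real.log B.Y) = a := by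
  rw [Real.rpow_def_of_pos (Y_pos B), mul_div_cancel₀ _ (logY_pos B).ne', Real.exp_log ha]

lemma P_pos (t : Fin 3) (j : ℕ) : (0 : ℝ) < B.P t j := by
  have h : (1 : ℝ) ≤ B.P t j := by exact_mod_cast B.hP t j
  linarith

lemma rpow_v (t : Fin 3) (j : ℕ) : (B.Y : ℝ) ^ B.v t j = B.P t j :=
  rpow_log_div B (P_pos B t j)

lemma v_nonneg (t : Fin 3) (j : ℕ) : 0 ≤ B.v t j :=
  div_nonneg (Real.log_nonneg (by exact_mod_cast B.hP t j)) (logY_pos B).le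

lemma rpow_ms (t : Fin 3) (K : Finset ℕ) :
    (B.Y : ℝ) ^ ms B.v t K = ∏ j ∈ K, (B.P t j : ℝ) := by
  unfold ms
  rw [Real.rpow_sum_of_pos (Y_pos B)]
  exact prod_congr rfl fun j _ => rpow_v B t j

lemma rpow_mul_v (t : Fin 3) (j m : ℕ) :
    (B.Y : ℝ) ^ ((m : ℝ) * B.v t j) = (B.P t j : ℝ) ^ m := by
  rw [mul_comm, Real.rpow_mul (Y_pos B).le, rpow_v, Real.rpow_natCast]

lemma rpow_wt (t : Fin 3) (K : Finset ℕ) :
    (B.Y : ℝ) ^ wt B.v t K = ∏ j ∈ K, (B.P t j : ℝ) ^ j := by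
  unfold wt
  rw [Real.rpow_sum_of_pos (Y_pos B)]
  exact prod_congr rfl fun j _ => rpow_mul_v B t j j

lemma rpow_σ : (B.Y : ℝ) ^ B.σ = B.y 0 * ∏ j ∈ Icc 1 J, (B.P 0 j : ℝ) ^ j := by
  unfold Box.σ
  rw [rpow_log_div]
  · push_cast; rfl
  · have h1 := B.hy 0
    have h2 : 0 < ∏ j ∈ Icc 1 J, B.P 0 j ^ j :=
      prod_pos fun j _ => pow_pos (B.hP 0 j) j
    exact_mod_cast Nat.mul_pos h1 h2

lemma le_of_rpow_le {a b : ℝ} (h : (B.Y : ℝ) ^ a ≤ (B.Y : ℝ) ^ b) : a ≤ b :=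
  (Real.rpow_le_rpow_left_iff (one_lt_Y B)).1 h

lemma rpow_mono {a b : ℝ} (h : a ≤ b) : (B.Y : ℝ) ^ a ≤ (B.Y : ℝ) ^ b :=
  Real.rpow_le_rpow_of_exponent_le (one_lt_Y B).le h

variable {B}

lemma x_pos {n : Fin 3 → ℕ} (hn : n ∈ B.S) (t : Fin 3) {j : ℕ} (hj : j ∈ Icc 1 J) :
    1 ≤ B.x t (n t) j := (B.hP t j).trans (B.box n hn t j hj).1

lemma n_pos {n : Fin 3 → ℕ} (hn : n ∈ B.S) (t : Fin 3) : 1 ≤ n t := by
  rw [B.dec n hn t]
  exact Nat.mul_pos (B.hy t) (prod_pos fun j hj => pow_pos (x_pos hn t hj) j)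

lemma n_le {n : Fin 3 → ℕ} (hn : n ∈ B.S) (t : Fin 3) : n t ≤ B.Y := by
  have h1 := B.eqn n hn
  have h2 := B.big n hn
  fin_cases t <;> simp <;> omega

lemma Y_le {n : Fin 3 → ℕ} (hn : n ∈ B.S) {t : Fin 3} (ht : t ≠ 0) : B.Y ≤ 4 * n t := by
  have h1 := B.eqn n hn
  have h2 := B.big n hn
  fin_cases t
  · exact absurd rfl ht
  · simp; omega
  · simp; omega

lemma cop3 {n : Fin 3 → ℕ} (hn : n ∈ B.S) {s t : Fin 3} (hst : s ≠ t) :
    Nat.Coprime (n s) (n t) := by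
  have h1 := B.eqn n hn
  have h01 := B.cop n hn
  have h02 : Nat.Coprime (n 0) (n 2) := by rw [← h1]; simpa using h01
  have h12 : Nat.Coprime (n 1) (n 2) := by rw [← h1]; simpa using h01.symm
  fin_cases s <;> fin_cases t <;> first
    | exact absurd rfl hst
    | exact h01
    | exact h02
    | exact h12
    | exact h01.symm
    | exact h02.symm
    | exact h12.symm

lemma ext_two {n n' : Fin 3 → ℕ} (hn : n ∈ B.S) (hn' : n' ∈ B.S) {s t : Fin 3} (hst : s ≠ t)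
    (hs : n s = n' s) (ht : n t = n' t) : n = n' := by
  have h1 := B.eqn n hn
  have h2 := B.eqn n' hn'
  funext u
  fin_cases s <;> fin_cases t <;> fin_cases u <;> simp at hst hs ht ⊢ <;> omega

lemma x_dvd {n : Fin 3 → ℕ} (hn : n ∈ B.S) (t : Fin 3) {j : ℕ} (hj : j ∈ Icc 1 J) :
    B.x t (n t) j ∣ n t := by
  conv_rhs => rw [B.dec n hn t]
  refine Dvd.dvd.mul_left ?_ _
  refine dvd_trans ?_ (dvd_prod_of_mem (fun j => B.x t (n t) j ^ j) hj)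
  exact dvd_pow_self _ (by have := (mem_Icc.1 hj).1; omega)

lemma y_dvd {n : Fin 3 → ℕ} (hn : n ∈ B.S) (t : Fin 3) : B.y t ∣ n t := by
  conv_rhs => rw [B.dec n hn t]
  exact Dvd.intro _ rfl

lemma P_le_Y {n : Fin 3 → ℕ} (hn : n ∈ B.S) (t : Fin 3) {j : ℕ} (hj : j ∈ Icc 1 J) :
    B.P t j ≤ B.Y :=
  (B.box n hn t j hj).1.trans ((Nat.le_of_dvd (n_pos hn t) (x_dvd hn t hj)).trans (n_le hn t))

lemma prodP_le {n : Fin 3 → ℕ} (hn : n ∈ B.S) (t : Fin 3) {K : Finset ℕ} (hK : K ⊆ Icc 1 J) :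
    ∏ j ∈ K, B.P t j ^ j ≤ ∏ j ∈ K, B.x t (n t) j ^ j :=
  prod_le_prod' fun j hj => Nat.pow_le_pow_left (B.box n hn t j (hK hj)).1 j

lemma prodx_le {n : Fin 3 → ℕ} (hn : n ∈ B.S) (t : Fin 3) {K : Finset ℕ} (hK : K ⊆ Icc 1 J) :
    ∏ j ∈ K, B.x t (n t) j ^ j ≤ (∏ j ∈ Icc 1 J, 2 ^ j) * ∏ j ∈ K, B.P t j ^ j := by
  calc ∏ j ∈ K, B.x t (n t) j ^ j ≤ ∏ j ∈ K, (2 ^ j * B.P t j ^ j) :=
        prod_le_prod' fun j hj => by
          rw [← mul_pow]; exact Nat.pow_le_pow_left (B.box n hn t j (hK hj)).2.le j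
    _ = (∏ j ∈ K, 2 ^ j) * ∏ j ∈ K, B.P t j ^ j := prod_mul_distrib
    _ ≤ _ := Nat.mul_le_mul_right _
        (prod_le_prod_of_subset_of_one_le' hK fun j _ _ => Nat.one_le_two_pow)

lemma σ_le_one (hS : B.S.Nonempty) : B.σ ≤ 1 := by
  obtain ⟨n, hn⟩ := hS
  apply le_of_rpow_le B
  rw [rpow_σ, Real.rpow_one]
  have h1 : B.y 0 * ∏ j ∈ Icc 1 J, B.P 0 j ^ j ≤ B.Y := by
    refine le_trans ?_ (n_le hn 0)
    conv_rhs => rw [B.dec n hn 0]
    exact Nat.mul_le_mul_left _ (prodP_le hn 0 subset_rfl)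
  exact_mod_cast h1

lemma wt_le_sz (hS : B.S.Nonempty) (t : Fin 3) : wt B.v t (Icc 1 J) ≤ sz B.σ t := by
  obtain ⟨n, hn⟩ := hS
  apply le_of_rpow_le B
  rw [rpow_wt]
  unfold sz
  split_ifs with ht
  · subst ht
    rw [rpow_σ]
    have h1 : (1 : ℝ) ≤ B.y 0 := by exact_mod_cast B.hy 0
    have h2 : 0 ≤ ∏ j ∈ Icc 1 J, (B.P 0 j : ℝ) ^ j := by positivity
    nlinarith
  · rw [Real.rpow_one]
    have h1 : ∏ j ∈ Icc 1 J, B.P t j ^ j ≤ B.Y := by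
      refine le_trans ?_ (n_le hn t)
      conv_rhs => rw [B.dec n hn t]
      exact (prodP_le hn t subset_rfl).trans (Nat.le_mul_of_pos_left _ (B.hy t))
    exact_mod_cast h1

/-- the modulus attached to row `r` -/
def modu (B : Box J) (r : Fin 3) (K : Finset ℕ) (fl : Bool) (m : ℕ) : ℕ :=
  (if fl then B.y r else 1) * ∏ j ∈ K, B.x r m j ^ j

lemma modu_dvd {n : Fin 3 → ℕ} (hn : n ∈ B.S) (r : Fin 3) {K : Finset ℕ} (hK : K ⊆ Icc 1 J)
    (fl : Bool) : modu B r K fl (n r) ∣ n r := by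
  conv_rhs => rw [B.dec n hn r]
  unfold modu
  refine mul_dvd_mul ?_ (prod_dvd_prod_of_subset _ _ _ hK)
  split_ifs
  · exact dvd_rfl
  · exact one_dvd _

lemma rpow_zz_le {n : Fin 3 → ℕ} (hn : n ∈ B.S) (r : Fin 3) {K : Finset ℕ} (hK : K ⊆ Icc 1 J)
    (fl : Bool) : (B.Y : ℝ) ^ zz J B.v B.σ r K fl ≤
      ((4 * ∏ j ∈ Icc 1 J, 2 ^ j : ℕ) : ℝ) * (modu B r K fl (n r) : ℝ) := by
  have hD : 1 ≤ ∏ j ∈ Icc 1 J, 2 ^ j := prod_pos fun j _ => Nat.two_pow_pos j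
  have hPx := prodP_le hn r hK
  unfold zz modu
  cases fl
  · simp only [Bool.false_eq_true, if_false, one_mul]
    rw [rpow_wt]
    have h : ∏ j ∈ K, B.P r j ^ j ≤ (4 * ∏ j ∈ Icc 1 J, 2 ^ j) * ∏ j ∈ K, B.x r (n r) j ^ j :=
      hPx.trans (Nat.le_mul_of_pos_left _ (by omega))
    exact_mod_cast h
  · simp only [if_true]
    have hpos : (0 : ℝ) < ∏ j ∈ Icc 1 J \ K, (B.P r j : ℝ) ^ j :=
      prod_pos fun j _ => pow_pos (P_pos B r j) j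
    rw [Real.rpow_sub (Y_pos B), rpow_wt, div_le_iff₀ hpos]
    unfold sz
    split_ifs with hr
    · subst hr
      rw [rpow_σ]
      have h : B.y 0 * ∏ j ∈ Icc 1 J, B.P 0 j ^ j ≤
          (4 * ∏ j ∈ Icc 1 J, 2 ^ j) * (B.y 0 * ∏ j ∈ K, B.x 0 (n 0) j ^ j) *
            ∏ j ∈ Icc 1 J \ K, B.P 0 j ^ j := by
        rw [← prod_sdiff hK]
        calc B.y 0 * ((∏ j ∈ Icc 1 J \ K, B.P 0 j ^ j) * ∏ j ∈ K, B.P 0 j ^ j)
            = 1 * (B.y 0 * ∏ j ∈ K, B.P 0 j ^ j) * ∏ j ∈ Icc 1 J \ K, B.P 0 j ^ j := by ring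
          _ ≤ _ := by
            refine Nat.mul_le_mul_right _ (Nat.mul_le_mul ?_ (Nat.mul_le_mul_left _ hPx))
            omega
      exact_mod_cast h
    · rw [Real.rpow_one]
      have h : B.Y ≤ (4 * ∏ j ∈ Icc 1 J, 2 ^ j) * (B.y r * ∏ j ∈ K, B.x r (n r) j ^ j) *
            ∏ j ∈ Icc 1 J \ K, B.P r j ^ j := by
        refine (Y_le hn hr).trans ?_
        have h2 := prodx_le hn r (K := Icc 1 J \ K) sdiff_subset
        have h3 : n r = B.y r * ((∏ j ∈ Icc 1 J \ K, B.x r (n r) j ^ j) *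
            ∏ j ∈ K, B.x r (n r) j ^ j) := by
          rw [prod_sdiff hK]; exact B.dec n hn r
        calc 4 * n r = 4 * (B.y r * ∏ j ∈ K, B.x r (n r) j ^ j) *
              ∏ j ∈ Icc 1 J \ K, B.x r (n r) j ^ j := by
              conv_lhs => rw [h3]
              ring
          _ ≤ 4 * (B.y r * ∏ j ∈ K, B.x r (n r) j ^ j) *
              ((∏ j ∈ Icc 1 J, 2 ^ j) * ∏ j ∈ Icc 1 J \ K, B.P r j ^ j) :=
              Nat.mul_le_mul_left _ h2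
          _ = _ := by ring
      exact_mod_cast h

/-- the tuples `(x r (n r) j)_{j ∈ K}` take at most `Y ^ ms` values -/
lemma card_image_le (B : Box J) (r : Fin 3) {K : Finset ℕ} (hK : K ⊆ Icc 1 J) :
    ((B.S.image (fun n => fun j : K => B.x r (n r) j)).card : ℝ) ≤ (B.Y : ℝ) ^ ms B.v r K := by
  classical
  rw [rpow_ms]
  have h : B.S.image (fun n => fun j : K => B.x r (n r) j) ⊆
      Fintype.piFinset (fun j : K => Ico (B.P r j) (2 * B.P r j)) := by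
    intro w hw
    obtain ⟨n, hn, rfl⟩ := mem_image.1 hw
    refine Fintype.mem_piFinset.2 fun j => mem_Ico.2 (B.box n hn r j (hK j.2))
  have h2 := card_le_card h
  rw [Fintype.card_piFinset] at h2
  have h3 : ∏ j : K, (Ico (B.P r j) (2 * B.P r j)).card = ∏ j ∈ K, B.P r j := by
    rw [← prod_coe_sort K (fun j => B.P r j)]
    refine prod_congr rfl fun j _ => ?_
    rw [Nat.card_Ico]; omega
  rw [h3] at h2
  exact_mod_cast h2

/-- counting through fibres -/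
lemma card_le_fib {α β : Type} [DecidableEq β] (S : Finset α) (f : α → β) (b : ℝ)
    (h : ∀ a ∈ S, ((S.filter (fun a' => f a' = f a)).card : ℝ) ≤ b) :
    (S.card : ℝ) ≤ (S.image f).card * b := by
  rw [card_eq_sum_card_image f S]
  push_cast
  calc ∑ w ∈ S.image f, ((S.filter (fun a => f a = w)).card : ℝ) ≤ ∑ _w ∈ S.image f, b := by
        refine sum_le_sum fun w hw => ?_
        obtain ⟨a, ha, rfl⟩ := mem_image.1 hw
        exact h a ha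
    _ = _ := by rw [sum_const, nsmul_eq_mul]

end Pool.Agent.P.MP_7aad9f_nt.Exc.BoxLem
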