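import Pool.Agent.P.MP_7aad9f_nt.ExcM
import Pool.Agent.P.MP_7aad9f_nt.ExcBoxLem

/-! The multiplicative-character bound for a dyadic box. -/

namespace Pool.Agent.P.MP_7aad9f_nt.Exc
open Finset

namespace ExcBoxM

lemma prod_side {J : ℕ} {M : Type} [CommMonoid M] (b : Bool) (f : Bool → ℕ → M) :
    ∏ i : Bool × Fin J with i.1 = b, f i.1 (i.2 + 1) = ∏ j ∈ Icc 1 J, f b j := by
  have h1 : (univ.filter (fun i : Bool × Fin J => i.1 = b)) =
      (univ : Finset (Fin J)).image (fun i => (b, i)) := by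
    ext ⟨c, i⟩
    simp only [mem_filter, mem_univ, true_and, mem_image, Prod.mk.injEq]
    constructor
    · rintro rfl; exact ⟨i, rfl, rfl⟩
    · rintro ⟨_, h, _⟩; exact h.symm
  rw [h1, prod_image (fun i _ i' _ h => by simpa using h)]
  dsimp only
  rw [Fin.prod_univ_eq_prod_range (fun i => f b (i + 1)) J, ← Finset.Ico_add_one_right_eq_Icc,
    prod_Ico_eq_prod_range]
  simp [add_comm]

lemma prod_all {J : ℕ} {M : Type} [CommMonoid M] (f : Bool → ℕ → M) :
    ∏ i : Bool × Fin J, f i.1 (i.2 + 1) = (∏ j ∈ Icc 1 J, f true j) * ∏ j ∈ Icc 1 J, f false j := by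
  rw [← prod_side true f, ← prod_side false f,
    ← prod_filter_mul_prod_filter_not univ (fun i : Bool × Fin J => i.1 = true)]
  simp

lemma sum_all {J : ℕ} (f : Bool → ℕ → ℝ) :
    ∑ i : Bool × Fin J, f i.1 (i.2 + 1) = (∑ j ∈ Icc 1 J, f true j) + ∑ j ∈ Icc 1 J, f false j :=
  prod_all (M := Multiplicative ℝ) f

lemma mem_succ {J : ℕ} (i : Fin J) : (i : ℕ) + 1 ∈ Icc 1 J := by
  have := i.2
  exact mem_Icc.2 ⟨by omega, by omega⟩

lemma sign_exists {J : ℕ} (B : Box J) (r s t : Fin 3) (hrs : r ≠ s) (hrt : r ≠ t) (hst : s ≠ t) :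
    ∃ e : ℤ, (e = 1 ∨ e = -1) ∧ ∀ n ∈ B.S, (n r : ℤ) ∣ (n s : ℤ) + e * n t := by
  by_cases hr : r = 2
  · refine ⟨1, Or.inl rfl, fun n hn => ?_⟩
    have h := B.eqn n hn
    have h2 : (n s : ℤ) + 1 * n t = n r := by
      subst hr
      fin_cases s <;> fin_cases t <;> simp at hrs hrt hst ⊢ <;> omega
    rw [h2]
  · refine ⟨-1, Or.inr rfl, fun n hn => ?_⟩
    have h := B.eqn n hn
    have h2 : (n s : ℤ) + -1 * n t = n r ∨ (n s : ℤ) + -1 * n t = -n r := by
      fin_cases r <;> fin_cases s <;> fin_cases t <;> simp at hr hrs hrt hst ⊢ <;> omega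
    rcases h2 with h2 | h2 <;> rw [h2]
    exact (dvd_neg).2 dvd_rfl

lemma rpow_half {J : ℕ} (B : Box J) (u : Fin 3) (k : ℕ → ℕ) :
    (B.Y : ℝ) ^ (∑ j ∈ Icc 1 J, (if k j = 0 then B.v u j else B.v u j / 2)) =
      ∏ j ∈ Icc 1 J, (if k j = 0 then (B.P u j : ℝ) else Real.sqrt (B.P u j)) := by
  rw [Real.rpow_sum_of_pos (BoxLem.Y_pos B)]
  refine prod_congr rfl fun j _ => ?_
  split_ifs
  · exact BoxLem.rpow_v B u j
  · rw [Real.sqrt_eq_rpow, ← BoxLem.rpow_v B u j, ← Real.rpow_mul (BoxLem.Y_pos B).le]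
    congr 1; ring

end ExcBoxM

open ExcBoxM BoxLem in
theorem boxM (J Kmax : ℕ) (ε : ℝ) (hε : 0 < ε) :
    ∃ C : ℝ, 0 < C ∧ ∀ (B : Box J) (r s t : Fin 3), r ≠ s → r ≠ t → s ≠ t →
      ∀ (K : Finset ℕ) (fl : Bool) (k : Fin 3 → ℕ → ℕ), K ⊆ Icc 1 J →
      admM J Kmax B.v B.σ r s t K fl k →
      (B.S.card : ℝ) ≤ C * (B.Y : ℝ) ^ (exM J B.v r s t K k + ε) := by
  classical
  obtain ⟨C, hC, H⟩ := lemM (2 * J) J Kmax ε hε
  set D : ℝ := ((4 * ∏ j ∈ Icc 1 J, 2 ^ j : ℕ) : ℝ) with hDdef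
  have hD : 1 ≤ D := by
    have h : 1 ≤ ∏ j ∈ Icc 1 J, 2 ^ j := prod_pos fun j _ => Nat.two_pow_pos j
    have h2 : 1 ≤ 4 * ∏ j ∈ Icc 1 J, 2 ^ j := by omega
    rw [hDdef]; exact_mod_cast h2
  refine ⟨C * D, by positivity, fun B r s t hrs hrt hst K fl k hK hadm => ?_⟩
  obtain ⟨hk, hsum, hz⟩ := hadm
  obtain ⟨e, he, hdvd⟩ := sign_exists B r s t hrs hrt hst
  let u : Bool → Fin 3 := fun b => if b then s else t
  have hur : ∀ b, u b ≠ r := by
    intro b; cases b
    · exact hrt.symm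
    · exact hrs.symm
  let W : ℝ := (∏ j ∈ Icc 1 J, (if k s j = 0 then (B.P s j : ℝ) else Real.sqrt (B.P s j))) *
    ∏ j ∈ Icc 1 J, (if k t j = 0 then (B.P t j : ℝ) else Real.sqrt (B.P t j))
  have hfib : ∀ n₀ ∈ B.S, ((B.S.filter (fun n => (fun j : K => B.x r (n r) j) =
      (fun j : K => B.x r (n₀ r) j))).card : ℝ) ≤ C * D * (B.Y : ℝ) ^ ε * W := by
    intro n₀ hn₀
    set F := B.S.filter (fun n => (fun j : K => B.x r (n r) j) = (fun j : K => B.x r (n₀ r) j))
      with hF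
    let ψ : (Fin 3 → ℕ) → (Bool × Fin J → ℕ) := fun n i => B.x (u i.1) (n (u i.1)) (i.2 + 1)
    have hprod : ∀ n ∈ B.S, ∀ b : Bool, (B.y (u b) : ℤ) *
        ∏ i : Bool × Fin J with i.1 = b, (ψ n i : ℤ) ^ ((i.2 : ℕ) + 1) = n (u b) := by
      intro n hn b
      have h := prod_side (J := J) b (fun c j => (B.x (u c) (n (u c)) j : ℤ) ^ j)
      simp only [ψ]
      rw [h]
      have h2 := B.dec n hn (u b)
      conv_rhs => rw [h2]
      push_cast; rfl
    have hinj : Set.InjOn ψ F := by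
      intro n hn n' hn' h
      have hn1 : n ∈ B.S := (mem_filter.1 hn).1
      have hn2 : n' ∈ B.S := (mem_filter.1 hn').1
      have hb : ∀ b, n (u b) = n' (u b) := by
        intro b
        have h1 := hprod n hn1 b
        have h2 := hprod n' hn2 b
        rw [h] at h1
        exact_mod_cast h1.symm.trans h2
      exact ext_two hn1 hn2 hst (hb true) (hb false)
    rw [← card_image_of_injOn hinj]
    have hζ0 := modu_dvd hn₀ r hK fl
    have hζ : ∀ n ∈ F, modu B r K fl (n₀ r) ∣ n r := by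
      intro n hn
      obtain ⟨hn1, hn2⟩ := mem_filter.1 hn
      have h : modu B r K fl (n₀ r) = modu B r K fl (n r) := by
        unfold modu
        congr 1
        refine prod_congr rfl fun j hj => ?_
        rw [congrFun hn2 ⟨j, hj⟩]
      rw [h]
      exact modu_dvd hn1 r hK fl
    have key := H (Bool × Fin J) (by simp) (fun i => i.1) (fun i => i.2 + 1)
      (fun i => k (u i.1) (i.2 + 1)) (fun i => B.P (u i.1) (i.2 + 1))
      (modu B r K fl (n₀ r)) (B.y s) (B.y t) e B.Y D (F.image ψ)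
      (Nat.pos_of_dvd_of_pos hζ0 (n_pos hn₀ r))
      (by exact_mod_cast (Nat.le_of_dvd (n_pos hn₀ r) hζ0).trans (n_le hn₀ r))
      he
      (Nat.Coprime.mul_left
        (Nat.Coprime.coprime_dvd_left (y_dvd hn₀ s)
          (Nat.Coprime.coprime_dvd_right hζ0 (cop3 hn₀ hrs.symm)))
        (Nat.Coprime.coprime_dvd_left (y_dvd hn₀ t)
          (Nat.Coprime.coprime_dvd_right hζ0 (cop3 hn₀ hrt.symm))))
      (fun i => mem_Icc.1 (mem_succ i.2))
      (fun i => hk _ _)
      (by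
        have h := sum_all (J := J) (fun c j => (1 : ℝ) / (2 * k (u c) j))
        rw [h]; exact hsum)
      (fun i => ⟨B.hP _ _, by exact_mod_cast P_le_Y hn₀ _ (mem_succ i.2)⟩)
      hD
      (by
        intro i
        rw [← rpow_mul_v B]
        refine le_trans (rpow_mono B ?_) (rpow_zz_le hn₀ r hK fl)
        obtain ⟨b, i⟩ := i
        cases b
        · exact (hz _ (mem_succ i)).2
        · exact (hz _ (mem_succ i)).1)
      (by
        intro w hw
        obtain ⟨n, hn, rfl⟩ := mem_image.1 hw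
        have hn1 : n ∈ B.S := (mem_filter.1 hn).1
        refine ⟨fun i => ⟨(B.box n hn1 _ _ (mem_succ i.2)).1, (B.box n hn1 _ _ (mem_succ i.2)).2,
          Nat.Coprime.coprime_dvd_left (x_dvd hn1 _ (mem_succ i.2))
            (Nat.Coprime.coprime_dvd_right (hζ n hn) (cop3 hn1 (hur _)))⟩, ?_⟩
        have h1 := hprod n hn1 true
        have h2 := hprod n hn1 false
        have h3 : (B.y s : ℤ) * ∏ i : Bool × Fin J with i.1 = true, (ψ n i : ℤ) ^ ((i.2 : ℕ) + 1)
            + e * B.y t * ∏ i : Bool × Fin J with i.1 = false, (ψ n i : ℤ) ^ ((i.2 : ℕ) + 1) =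
            n s + e * n t := by
          rw [mul_assoc]
          exact congrArg₂ (· + ·) h1 (congrArg (e * ·) h2)
        rw [h3]
        exact (Int.natCast_dvd_natCast.2 (hζ n hn)).trans (hdvd n hn1))
    refine key.trans (le_of_eq ?_)
    congr 1
    exact prod_all (J := J)
      (fun c j => if k (u c) j = 0 then (B.P (u c) j : ℝ) else Real.sqrt (B.P (u c) j))
  have h1 := card_le_fib B.S (fun n => fun j : K => B.x r (n r) j) _ hfib
  have h2 := card_image_le B r hK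
  have hW : 0 ≤ W := by positivity
  have hY := Y_pos B
  refine h1.trans ((mul_le_mul_of_nonneg_right h2 (by positivity)).trans (le_of_eq ?_))
  unfold exM
  rw [Real.rpow_add hY, Real.rpow_add hY, Real.rpow_add hY, rpow_half B s (k s),
    rpow_half B t (k t)]
  simp only [W]
  ring

end Pool.Agent.P.MP_7aad9f_nt.Exc
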