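import Pool.Agent.P.MP_7aad9f_nt.ExcDiv

/-! Exceptional set in the abc conjecture: the congruence (lattice spacing) bound. -/

namespace Pool.Agent.P.MP_7aad9f_nt.Exc
open Finset

namespace ExcC

/-- points with mutual distances in `[η, Δ]` are few -/
theorem card_spaced {ι : Type*} (T : Finset ι) (g : ι → ℝ) (η Δ : ℝ) (hη : 0 < η) (hΔ : 0 ≤ Δ)
    (h1 : ∀ a ∈ T, ∀ b ∈ T, a ≠ b → η ≤ |g a - g b|)
    (h2 : ∀ a ∈ T, ∀ b ∈ T, |g a - g b| ≤ Δ) : (T.card : ℝ) ≤ 2 * (1 + Δ / η) := by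
  rcases T.eq_empty_or_nonempty with rfl | ⟨a0, ha0⟩
  · simp only [card_empty, Nat.cast_zero]; positivity
  have hmap : ∀ a ∈ T, ⌊(g a - g a0 + Δ) / η⌋₊ ∈ range (⌊2 * Δ / η⌋₊ + 1) := by
    intro a ha
    rw [mem_range, Nat.lt_succ_iff]
    apply Nat.floor_le_floor
    have := (abs_le.1 (h2 a ha a0 ha0)).2
    exact div_le_div_of_nonneg_right (by linarith) hη.le
  have hinj : Set.InjOn (fun a => ⌊(g a - g a0 + Δ) / η⌋₊) T := by
    intro a ha b hb hab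
    by_contra hne
    have ha' : 0 ≤ (g a - g a0 + Δ) / η := by
      have := (abs_le.1 (h2 a ha a0 ha0)).1
      exact div_nonneg (by linarith) hη.le
    have hb' : 0 ≤ (g b - g a0 + Δ) / η := by
      have := (abs_le.1 (h2 b hb a0 ha0)).1
      exact div_nonneg (by linarith) hη.le
    have e1 := Nat.floor_le ha'
    have e2 := Nat.lt_floor_add_one ((g a - g a0 + Δ) / η)
    have e3 := Nat.floor_le hb'
    have e4 := Nat.lt_floor_add_one ((g b - g a0 + Δ) / η)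
    have hab' : (⌊(g a - g a0 + Δ) / η⌋₊ : ℝ) = ⌊(g b - g a0 + Δ) / η⌋₊ := by
      exact_mod_cast hab
    have hlt : |(g a - g a0 + Δ) / η - (g b - g a0 + Δ) / η| < 1 := by
      rw [abs_lt]; constructor <;> linarith
    have heq : (g a - g a0 + Δ) / η - (g b - g a0 + Δ) / η = (g a - g b) / η := by ring
    rw [heq, abs_div, abs_of_pos hη, div_lt_one hη] at hlt
    exact absurd (h1 a ha b hb hne) (not_le.2 hlt)
  have hc := card_le_card_of_injOn _ hmap hinj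
  rw [card_range] at hc
  have hc' : (T.card : ℝ) ≤ ⌊2 * Δ / η⌋₊ + 1 := by exact_mod_cast hc
  have hf : (⌊2 * Δ / η⌋₊ : ℝ) ≤ 2 * Δ / η := Nat.floor_le (by positivity)
  have : 2 * Δ / η = 2 * (Δ / η) := by ring
  have h0 : 0 ≤ Δ / η := by positivity
  linarith

/-- fibrewise counting with a real bound -/
theorem card_le_fib {ι κ : Type*} [DecidableEq κ] (S : Finset ι) (T : Finset κ) (f : ι → κ)
    (b : ℝ) (hf : ∀ a ∈ S, f a ∈ T) (hb : ∀ k ∈ T, ((S.filter (fun a => f a = k)).card : ℝ) ≤ b) :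
    (S.card : ℝ) ≤ T.card * b := by
  rw [card_eq_sum_card_fiberwise hf]
  push_cast
  calc ∑ k ∈ T, ((S.filter (fun a => f a = k)).card : ℝ) ≤ ∑ _k ∈ T, b := sum_le_sum hb
    _ = T.card * b := by rw [sum_const, nsmul_eq_mul]

/-- residue class of the ratio -/
noncomputable def cls (ζ : ℕ) (q : ℕ × ℕ) : (ZMod ζ)ˣ :=
  if h : Nat.Coprime q.1 ζ ∧ Nat.Coprime q.2 ζ then
    ZMod.unitOfCoprime q.1 h.1 * (ZMod.unitOfCoprime q.2 h.2)⁻¹ else 1

theorem cls_mul (ζ : ℕ) (q : ℕ × ℕ) (h : Nat.Coprime (q.1 * q.2) ζ) :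
    (cls ζ q : ZMod ζ) * (q.2 : ZMod ζ) = q.1 := by
  have h1 : Nat.Coprime q.1 ζ := Nat.Coprime.coprime_mul_right h
  have h2 : Nat.Coprime q.2 ζ := Nat.Coprime.coprime_mul_left h
  rw [cls, dif_pos ⟨h1, h2⟩, ← ZMod.coe_unitOfCoprime q.2 h2, ← Units.val_mul,
    inv_mul_cancel_right, ZMod.coe_unitOfCoprime]

end ExcC

open ExcC in
theorem lemC (p : ℕ) (hp : 1 ≤ p) (ε : ℝ) (hε : 0 < ε) :
    ∃ C : ℝ, 0 < C ∧ ∀ (ζ α β : ℕ) (e : ℤ) (Nx Δ : ℝ) (S : Finset (ℕ × ℕ)),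
      1 ≤ ζ → (e = 1 ∨ e = -1) → Nat.Coprime (α * β) ζ → 0 ≤ Δ →
      (∀ q ∈ S, 1 ≤ q.1 ∧ 1 ≤ q.2 ∧ (q.2 : ℝ) ≤ Nx ∧ Nat.Coprime q.1 q.2 ∧
        Nat.Coprime (q.1 * q.2) ζ ∧ (ζ : ℤ) ∣ α * (q.1 : ℤ) ^ p + e * β * (q.2 : ℤ) ^ p) →
      (∀ q ∈ S, ∀ q' ∈ S, |(q.1 : ℝ) / q.2 - (q'.1 : ℝ) / q'.2| ≤ Δ) →
      (S.card : ℝ) ≤ C * (ζ : ℝ) ^ ε * (1 + Δ * Nx ^ 2 / ζ) := by
  classical
  obtain ⟨C, hC, hroot⟩ := card_roots_le p hp ε hε
  refine ⟨2 * C, by positivity, ?_⟩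
  intro ζ α β e Nx Δ S hζ _ hαβ hΔ hS hD
  have hζ' : (0 : ℝ) < ζ := by exact_mod_cast hζ
  rcases S.eq_empty_or_nonempty with rfl | ⟨q0, hq0⟩
  · simp only [card_empty, Nat.cast_zero]; positivity
  have hNx : 0 < Nx := by
    obtain ⟨_, h2, h3, _⟩ := hS q0 hq0
    have : (1 : ℝ) ≤ q0.2 := by exact_mod_cast h2
    linarith
  have hα : Nat.Coprime α ζ := Nat.Coprime.coprime_mul_right hαβ
  -- the class equation
  have key : ∀ q ∈ S, (α : ZMod ζ) * (cls ζ q : ZMod ζ) ^ p + e * β = 0 := by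
    intro q hq
    obtain ⟨_, _, _, _, h5, h6⟩ := hS q hq
    have h2 : Nat.Coprime q.2 ζ := Nat.Coprime.coprime_mul_left h5
    have hu : IsUnit ((q.2 : ZMod ζ) ^ p) := ((ZMod.isUnit_iff_coprime _ _).2 h2).pow p
    have h7 := (ZMod.intCast_zmod_eq_zero_iff_dvd _ ζ).2 h6
    push_cast at h7
    rw [← cls_mul ζ q h5] at h7
    apply hu.mul_right_cancel
    rw [zero_mul, ← h7]; ring
  have hpow : ∀ q ∈ S, (cls ζ q * (cls ζ q0)⁻¹) ^ p = 1 := by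
    intro q hq
    have hu : IsUnit (α : ZMod ζ) := (ZMod.isUnit_iff_coprime _ _).2 hα
    have h1 : (cls ζ q : ZMod ζ) ^ p = (cls ζ q0 : ZMod ζ) ^ p := by
      apply hu.mul_left_cancel
      have a1 := key q hq
      have a2 := key q0 hq0
      linear_combination a1 - a2
    have h2 : cls ζ q ^ p = cls ζ q0 ^ p := by
      apply Units.ext; simpa using h1
    rw [mul_pow, h2, inv_pow, mul_inv_cancel]
  set T := S.image (fun q => cls ζ q * (cls ζ q0)⁻¹) with hT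
  have hTc : (T.card : ℝ) ≤ C * (ζ : ℝ) ^ ε := by
    apply hroot ζ hζ
    intro ω hω
    obtain ⟨q, hq, rfl⟩ := mem_image.1 hω
    exact hpow q hq
  have hfib := card_le_fib S T (fun q => cls ζ q * (cls ζ q0)⁻¹) (2 * (1 + Δ / (ζ / Nx ^ 2)))
    (fun q hq => mem_image_of_mem _ hq) (by
      intro k _
      apply card_spaced _ (fun q : ℕ × ℕ => (q.1 : ℝ) / q.2) _ _ (by positivity) hΔ
      · intro a ha b hb hab
        obtain ⟨ha, ha'⟩ := mem_filter.1 ha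
        obtain ⟨hb, hb'⟩ := mem_filter.1 hb
        have hcl : cls ζ a = cls ζ b := mul_right_cancel (ha'.trans hb'.symm)
        obtain ⟨a1, a2, a3, a4, a5, _⟩ := hS a ha
        obtain ⟨b1, b2, b3, b4, b5, _⟩ := hS b hb
        have e1 := cls_mul ζ a a5
        have e2 := cls_mul ζ b b5
        have hdvd : (ζ : ℤ) ∣ (a.1 : ℤ) * b.2 - b.1 * a.2 := by
          rw [← ZMod.intCast_zmod_eq_zero_iff_dvd]
          push_cast
          rw [← e1, ← e2, hcl]; ring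
        have hne : (a.1 : ℤ) * b.2 - b.1 * a.2 ≠ 0 := by
          intro h0
          have h0' : a.1 * b.2 = b.1 * a.2 := by
            have : (a.1 : ℤ) * b.2 = b.1 * a.2 := by linarith
            exact_mod_cast this
          have d1 : a.1 ∣ b.1 := a4.dvd_of_dvd_mul_right ⟨b.2, h0'.symm⟩
          have d2 : b.1 ∣ a.1 := b4.dvd_of_dvd_mul_right ⟨a.2, h0'⟩
          have h11 : a.1 = b.1 := Nat.dvd_antisymm d1 d2
          have h22 : b.2 = a.2 := by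
            rw [h11] at h0'
            exact Nat.eq_of_mul_eq_mul_left b1 h0'
          exact hab (Prod.ext h11 h22.symm)
        have hle : (ζ : ℤ) ≤ |(a.1 : ℤ) * b.2 - b.1 * a.2| :=
          Int.le_of_dvd (abs_pos.2 hne) ((dvd_abs _ _).2 hdvd)
        have hle' : (ζ : ℝ) ≤ |(a.1 : ℝ) * b.2 - b.1 * a.2| := by exact_mod_cast hle
        have pa : (0 : ℝ) < a.2 := by exact_mod_cast a2
        have pb : (0 : ℝ) < b.2 := by exact_mod_cast b2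
        have heq : (a.1 : ℝ) / a.2 - (b.1 : ℝ) / b.2
            = ((a.1 : ℝ) * b.2 - b.1 * a.2) / (a.2 * b.2) := by field_simp
        show (ζ : ℝ) / Nx ^ 2 ≤ |(a.1 : ℝ) / a.2 - (b.1 : ℝ) / b.2|
        rw [heq, abs_div, abs_of_pos (mul_pos pa pb)]
        apply div_le_div₀ (abs_nonneg _) hle' (mul_pos pa pb)
        rw [sq]; exact mul_le_mul a3 b3 pb.le hNx.le
      · intro a ha b hb
        exact hD a (mem_filter.1 ha).1 b (mem_filter.1 hb).1)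
  have heq : Δ / (ζ / Nx ^ 2) = Δ * Nx ^ 2 / ζ := by field_simp
  rw [heq] at hfib
  have h0 : 0 ≤ 2 * (1 + Δ * Nx ^ 2 / ζ) := by positivity
  calc (S.card : ℝ) ≤ T.card * (2 * (1 + Δ * Nx ^ 2 / ζ)) := hfib
    _ ≤ C * (ζ : ℝ) ^ ε * (2 * (1 + Δ * Nx ^ 2 / ζ)) := mul_le_mul_of_nonneg_right hTc h0
    _ = _ := by ring

namespace ExcC
variable {J : ℕ}

/-- the dyadic distortion constant -/
def DD (J : ℕ) : ℕ := ∏ j ∈ Icc 1 J, 2 ^ j

theorem one_le_DD (J : ℕ) : 1 ≤ DD J :=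
  Nat.one_le_iff_ne_zero.2 (prod_ne_zero_iff.2 fun _ _ => by positivity)

theorem Y_pos (B : Box J) : (1 : ℝ) < B.Y := by
  have := B.hY
  exact_mod_cast (by omega : 1 < B.Y)

theorem rpow_logdiv (B : Box J) (m : ℕ) (hm : 1 ≤ m) :
    (B.Y : ℝ) ^ (Real.log m / Real.log B.Y) = m := by
  have h := Y_pos B
  exact Real.rpow_logb (by linarith) h.ne' (by exact_mod_cast hm)

theorem rpow_v (B : Box J) (t : Fin 3) (j : ℕ) : (B.Y : ℝ) ^ B.v t j = B.P t j :=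
  rpow_logdiv B _ (B.hP t j)

theorem rpow_σ (B : Box J) :
    (B.Y : ℝ) ^ B.σ = ((B.y 0 * ∏ j ∈ Icc 1 J, B.P 0 j ^ j : ℕ) : ℝ) := by
  apply rpow_logdiv B
  apply Nat.one_le_iff_ne_zero.2
  have := B.hy 0
  refine mul_ne_zero (by omega) (prod_ne_zero_iff.2 fun j _ => pow_ne_zero _ ?_)
  have := B.hP 0 j
  omega

theorem rpow_sum_mul (B : Box J) (t : Fin 3) (K : Finset ℕ) (a : ℕ → ℕ) :
    (B.Y : ℝ) ^ (∑ j ∈ K, (a j : ℝ) * B.v t j) = ((∏ j ∈ K, B.P t j ^ a j : ℕ) : ℝ) := by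
  have h := Y_pos B
  rw [Real.rpow_sum_of_pos (by linarith)]
  push_cast
  refine prod_congr rfl fun j _ => ?_
  rw [mul_comm, Real.rpow_mul (by linarith), rpow_v, Real.rpow_natCast]

theorem rpow_ms (B : Box J) (t : Fin 3) (K : Finset ℕ) :
    (B.Y : ℝ) ^ ms B.v t K = ((∏ j ∈ K, B.P t j : ℕ) : ℝ) := by
  have := rpow_sum_mul B t K (fun _ => 1)
  simpa [ms] using this

theorem rpow_wt (B : Box J) (t : Fin 3) (K : Finset ℕ) :
    (B.Y : ℝ) ^ wt B.v t K = ((∏ j ∈ K, B.P t j ^ j : ℕ) : ℝ) :=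
  rpow_sum_mul B t K (fun j => j)

theorem rpow_wtp (B : Box J) (t : Fin 3) (K : Finset ℕ) (p : ℕ) (hp : 1 ≤ p)
    (hK : ∀ j ∈ K, p ∣ j) :
    (B.Y : ℝ) ^ (wt B.v t K / p) = ((∏ j ∈ K, B.P t j ^ (j / p) : ℕ) : ℝ) := by
  rw [← rpow_sum_mul B t K (fun j => j / p), wt, sum_div]
  congr 1
  refine sum_congr rfl fun j hj => ?_
  have hp' : (p : ℝ) ≠ 0 := by exact_mod_cast (by omega : p ≠ 0)
  rw [Nat.cast_div (hK j hj) hp']; ring

theorem prod_P_pos (B : Box J) (t : Fin 3) (K : Finset ℕ) (a : ℕ → ℕ) :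
    1 ≤ ∏ j ∈ K, B.P t j ^ a j := by
  apply Nat.one_le_iff_ne_zero.2
  refine prod_ne_zero_iff.2 fun j _ => pow_ne_zero _ ?_
  have := B.hP t j
  omega

theorem prod_lower (B : Box J) {n : Fin 3 → ℕ} (hn : n ∈ B.S) (t : Fin 3) {K : Finset ℕ}
    (hK : K ⊆ Icc 1 J) (a : ℕ → ℕ) :
    ∏ j ∈ K, B.P t j ^ a j ≤ ∏ j ∈ K, B.x t (n t) j ^ a j :=
  prod_le_prod' fun j hj => Nat.pow_le_pow_left (B.box n hn t j (hK hj)).1 _

theorem prod_upper (B : Box J) {n : Fin 3 → ℕ} (hn : n ∈ B.S) (t : Fin 3) {K : Finset ℕ}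
    (hK : K ⊆ Icc 1 J) (a : ℕ → ℕ) (ha : ∀ j, a j ≤ j) :
    ∏ j ∈ K, B.x t (n t) j ^ a j ≤ DD J * ∏ j ∈ K, B.P t j ^ a j := by
  calc ∏ j ∈ K, B.x t (n t) j ^ a j ≤ ∏ j ∈ K, (2 ^ j * B.P t j ^ a j) := by
        refine prod_le_prod' fun j hj => ?_
        calc B.x t (n t) j ^ a j ≤ (2 * B.P t j) ^ a j :=
              Nat.pow_le_pow_left (B.box n hn t j (hK hj)).2.le _
          _ = 2 ^ a j * B.P t j ^ a j := mul_pow _ _ _
          _ ≤ 2 ^ j * B.P t j ^ a j :=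
              Nat.mul_le_mul_right _ (Nat.pow_le_pow_right (by norm_num) (ha j))
    _ = (∏ j ∈ K, 2 ^ j) * ∏ j ∈ K, B.P t j ^ a j := prod_mul_distrib
    _ ≤ DD J * ∏ j ∈ K, B.P t j ^ a j := by
        apply Nat.mul_le_mul_right
        exact prod_le_prod_of_subset_of_one_le' hK fun j _ _ => Nat.one_le_two_pow

theorem n_pos (B : Box J) {n : Fin 3 → ℕ} (hn : n ∈ B.S) (t : Fin 3) : 1 ≤ n t := by
  rw [B.dec n hn t]
  have h1 := prod_lower B hn t (subset_refl (Icc 1 J)) (fun j => j)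
  have h2 := prod_P_pos B t (Icc 1 J) (fun j => j)
  exact Nat.mul_pos (B.hy t) (lt_of_lt_of_le h2 h1)

theorem n_le (B : Box J) {n : Fin 3 → ℕ} (hn : n ∈ B.S) (t : Fin 3) : n t ≤ B.Y := by
  have h1 := B.eqn n hn
  have h2 := B.big n hn
  fin_cases t <;> simp <;> omega

theorem n_big (B : Box J) {n : Fin 3 → ℕ} (hn : n ∈ B.S) {t : Fin 3} (ht : t ≠ 0) :
    B.Y ≤ 4 * n t := by
  have h1 := B.eqn n hn
  have h2 := B.big n hn
  fin_cases t
  · exact absurd rfl ht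
  · simp; omega
  · simp; omega

theorem n_cop (B : Box J) {n : Fin 3 → ℕ} (hn : n ∈ B.S) {s t : Fin 3} (h : s ≠ t) :
    Nat.Coprime (n s) (n t) := by
  have h01 := B.cop n hn
  have h02 : Nat.Coprime (n 0) (n 2) := by
    rw [← B.eqn n hn]; simpa using h01
  have h12 : Nat.Coprime (n 1) (n 2) := by
    rw [← B.eqn n hn]; simpa using h01.symm
  fin_cases s <;> fin_cases t <;> first
    | exact absurd rfl h
    | exact h01 | exact h02 | exact h12 | exact h01.symm | exact h02.symm | exact h12.symm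

theorem n_abs (B : Box J) {n : Fin 3 → ℕ} (hn : n ∈ B.S) {r s t : Fin 3} (h1 : r ≠ s)
    (h2 : r ≠ t) (h3 : s ≠ t) :
    |(n s : ℤ) + (if r = 2 then 1 else -1) * n t| = n r := by
  have h : (n 0 : ℤ) + n 1 = n 2 := by exact_mod_cast B.eqn n hn
  fin_cases r <;> fin_cases s <;> fin_cases t <;> first
    | exact absurd rfl h1 | exact absurd rfl h2 | exact absurd rfl h3
    | (simp; rw [abs_eq (by positivity)]; omega)

theorem n_split (B : Box J) {n : Fin 3 → ℕ} (hn : n ∈ B.S) (t : Fin 3) {F : Finset ℕ}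
    (hF : F ⊆ Icc 1 J) :
    n t = B.y t * (∏ j ∈ Icc 1 J \ F, B.x t (n t) j ^ j) * ∏ j ∈ F, B.x t (n t) j ^ j := by
  rw [mul_assoc, prod_sdiff hF]
  exact B.dec n hn t

theorem prod_pow_div (f : ℕ → ℕ) {F : Finset ℕ} {p : ℕ} (hF : ∀ j ∈ F, p ∣ j) :
    ∏ j ∈ F, f j ^ j = (∏ j ∈ F, f j ^ (j / p)) ^ p := by
  rw [← prod_pow]
  refine prod_congr rfl fun j hj => ?_
  rw [← pow_mul, Nat.div_mul_cancel (hF j hj)]

/-- ratio estimate when the two large terms are close -/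
theorem ratio_close {p : ℕ} (hp : 1 ≤ p) {α β a a' u w u' w' Y H m : ℝ} (hα : 0 < α) (hβ : 0 < β)
    (ha' : 0 < a') (hY : 0 < Y) (hH : 0 ≤ H) (e1 : α / β * a ^ p = u / w)
    (e2 : α / β * a' ^ p = u' / w') (hw : Y ≤ 4 * w) (hu' : Y ≤ 4 * u') (hw' : 0 < w')
    (h1 : u - w ≤ H) (h2 : w' - u' ≤ H) (hm : a ≤ m) (hm' : a' ≤ m) :
    a - a' ≤ 3 * (4 * H / Y) * m := by
  set η := 4 * H / Y with hη
  have hη0 : 0 ≤ η := by positivity
  have hm0 : 0 < m := lt_of_lt_of_le ha' hm'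
  rcases le_or_gt a a' with h | h
  · have : 0 ≤ 3 * η * m := by positivity
    linarith
  rcases le_or_gt η 1 with hη1 | hη1
  · have hw0 : 0 < w := by linarith
    have hu0 : 0 < u' := by linarith
    have hHw : H ≤ η * w := by
      rw [hη, div_mul_eq_mul_div, le_div_iff₀ hY]; nlinarith
    have hHu : H ≤ η * u' := by
      rw [hη, div_mul_eq_mul_div, le_div_iff₀ hY]; nlinarith
    have b1 : u / w ≤ 1 + η := by rw [div_le_iff₀ hw0]; linarith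
    have b2 : w' / u' ≤ 1 + η := by rw [div_le_iff₀ hu0]; linarith
    have hρ : 1 ≤ a / a' := by rw [le_div_iff₀ ha']; linarith
    have hρp : (a / a') ^ p = u / w * (w' / u') := by
      have hc : α / β ≠ 0 := by positivity
      have : (a / a') ^ p = (α / β * a ^ p) / (α / β * a' ^ p) := by
        rw [div_pow, mul_div_mul_left _ _ hc]
      rw [this, e1, e2]; field_simp
    have hle : a / a' ≤ (a / a') ^ p := le_self_pow₀ hρ (by omega)
    have hb : u / w * (w' / u') ≤ (1 + η) * (1 + η) :=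
      mul_le_mul b1 b2 (by positivity) (by positivity)
    have h3 : a / a' ≤ 1 + 3 * η := by nlinarith
    rw [div_le_iff₀ ha'] at h3
    nlinarith
  · nlinarith

theorem zeta_lower (B : Box J) {n : Fin 3 → ℕ} (hn : n ∈ B.S) (r : Fin 3) {K : Finset ℕ}
    (hK : K ⊆ Icc 1 J) (fl : Bool) :
    (B.Y : ℝ) ^ zz J B.v B.σ r K fl ≤
      4 * DD J * (((if fl then B.y r else 1) * ∏ j ∈ K, B.x r (n r) j ^ j : ℕ) : ℝ) := by
  have hY := Y_pos B
  have hD : (1 : ℝ) ≤ DD J := by exact_mod_cast one_le_DD J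
  have hl := prod_lower B hn r hK (fun j => j)
  cases fl
  · simp only [zz, Bool.false_eq_true, if_false, one_mul]
    rw [rpow_wt]
    have h1 : ((∏ j ∈ K, B.P r j ^ j : ℕ) : ℝ) ≤ ((∏ j ∈ K, B.x r (n r) j ^ j : ℕ) : ℝ) := by
      exact_mod_cast hl
    have h0 : (0 : ℝ) ≤ ((∏ j ∈ K, B.x r (n r) j ^ j : ℕ) : ℝ) := by positivity
    nlinarith
  · simp only [zz, if_true]
    have hQ := prod_P_pos B r (Icc 1 J \ K) (fun j => j)
    have hQ' : (0 : ℝ) < ((∏ j ∈ Icc 1 J \ K, B.P r j ^ j : ℕ) : ℝ) := by exact_mod_cast hQ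
    rw [Real.rpow_sub (by linarith), rpow_wt, div_le_iff₀ hQ']
    by_cases hr : r = 0
    · subst hr
      simp only [sz, if_true]
      rw [rpow_σ]
      have h1 : B.y 0 * ∏ j ∈ Icc 1 J, B.P 0 j ^ j ≤
          4 * DD J * (B.y 0 * ∏ j ∈ K, B.x 0 (n 0) j ^ j) * ∏ j ∈ Icc 1 J \ K, B.P 0 j ^ j := by
        rw [← prod_sdiff hK]
        have hD' := one_le_DD J
        calc B.y 0 * ((∏ j ∈ Icc 1 J \ K, B.P 0 j ^ j) * ∏ j ∈ K, B.P 0 j ^ j)
            = 1 * (B.y 0 * ∏ j ∈ K, B.P 0 j ^ j) * ∏ j ∈ Icc 1 J \ K, B.P 0 j ^ j := by ring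
          _ ≤ _ := by gcongr; omega
      exact_mod_cast h1
    · simp only [sz, if_neg hr, Real.rpow_one]
      have h1 := n_big B hn hr
      have h2 := n_split B hn r hK
      have h3 := prod_upper B hn r (sdiff_subset : Icc 1 J \ K ⊆ Icc 1 J) (fun j => j)
        (fun _ => le_rfl)
      have h4 : B.Y ≤
          4 * DD J * (B.y r * ∏ j ∈ K, B.x r (n r) j ^ j) * ∏ j ∈ Icc 1 J \ K, B.P r j ^ j := by
        calc B.Y ≤ 4 * n r := h1
          _ = 4 * (B.y r * (∏ j ∈ Icc 1 J \ K, B.x r (n r) j ^ j) * ∏ j ∈ K, B.x r (n r) j ^ j) := by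
              rw [← h2]
          _ ≤ 4 * (B.y r * (DD J * ∏ j ∈ Icc 1 J \ K, B.P r j ^ j) *
                ∏ j ∈ K, B.x r (n r) j ^ j) := by gcongr
          _ = _ := by ring
      exact_mod_cast h4

theorem n0_le (B : Box J) {n : Fin 3 → ℕ} (hn : n ∈ B.S) :
    (n 0 : ℝ) ≤ DD J * (B.Y : ℝ) ^ B.σ := by
  rw [rpow_σ]
  have h3 := prod_upper B hn 0 (subset_refl (Icc 1 J)) (fun j => j) (fun _ => le_rfl)
  have : n 0 ≤ DD J * (B.y 0 * ∏ j ∈ Icc 1 J, B.P 0 j ^ j) := by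
    calc n 0 = B.y 0 * ∏ j ∈ Icc 1 J, B.x 0 (n 0) j ^ j := B.dec n hn 0
      _ ≤ B.y 0 * (DD J * ∏ j ∈ Icc 1 J, B.P 0 j ^ j) := by gcongr
      _ = _ := by ring
  exact_mod_cast this

/-- the statement of `lemC` for fixed `p`, `ε`, `C` -/
def LemC (p : ℕ) (ε C : ℝ) : Prop :=
  ∀ (ζ α β : ℕ) (e : ℤ) (Nx Δ : ℝ) (S : Finset (ℕ × ℕ)),
      1 ≤ ζ → (e = 1 ∨ e = -1) → Nat.Coprime (α * β) ζ → 0 ≤ Δ →
      (∀ q ∈ S, 1 ≤ q.1 ∧ 1 ≤ q.2 ∧ (q.2 : ℝ) ≤ Nx ∧ Nat.Coprime q.1 q.2 ∧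
        Nat.Coprime (q.1 * q.2) ζ ∧ (ζ : ℤ) ∣ α * (q.1 : ℤ) ^ p + e * β * (q.2 : ℤ) ^ p) →
      (∀ q ∈ S, ∀ q' ∈ S, |(q.1 : ℝ) / q.2 - (q'.1 : ℝ) / q'.2| ≤ Δ) →
      (S.card : ℝ) ≤ C * (ζ : ℝ) ^ ε * (1 + Δ * Nx ^ 2 / ζ)

theorem fibre_bound {p : ℕ} (hp : 1 ≤ p) {ε C : ℝ} (hε : 0 < ε) (hC : 0 < C) (hL : LemC p ε C)
    (B : Box J) {r s t : Fin 3} (hrs : r ≠ s) (hrt : r ≠ t) (hst : s ≠ t) {K Fs Ft : Finset ℕ}
    (fl : Bool) (hK : K ⊆ Icc 1 J) (hFs : Fs ⊆ Icc 1 J) (hFt : Ft ⊆ Icc 1 J)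
    (ds : ∀ j ∈ Fs, p ∣ j) (dt : ∀ j ∈ Ft, p ∣ j) (T : Finset (Fin 3 → ℕ)) (hT : T ⊆ B.S)
    (ar : ∀ n ∈ T, ∀ n' ∈ T, ∀ j ∈ K, B.x r (n r) j = B.x r (n' r) j)
    (as : ∀ n ∈ T, ∀ n' ∈ T, ∀ j ∈ Icc 1 J \ Fs, B.x s (n s) j = B.x s (n' s) j)
    (at' : ∀ n ∈ T, ∀ n' ∈ T, ∀ j ∈ Icc 1 J \ Ft, B.x t (n t) j = B.x t (n' t) j) :
    (T.card : ℝ) ≤ C * (1 + 48 * (DD J : ℝ) ^ 5) * (B.Y : ℝ) ^ (ε +
      max 0 ((wt B.v s Fs + wt B.v t Ft) / p - (zz J B.v B.σ r K fl + (1 - sz B.σ r)))) := by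
  classical
  have hY := Y_pos B
  have hY0 : (0 : ℝ) < B.Y := by linarith
  have hD : (1 : ℝ) ≤ DD J := by exact_mod_cast one_le_DD J
  rcases T.eq_empty_or_nonempty with rfl | ⟨n0, hn0⟩
  · simp only [card_empty, Nat.cast_zero]; positivity
  set ζ : ℕ := (if fl then B.y r else 1) * ∏ j ∈ K, B.x r (n0 r) j ^ j with hζ
  set α : ℕ := B.y s * ∏ j ∈ Icc 1 J \ Fs, B.x s (n0 s) j ^ j with hα
  set β : ℕ := B.y t * ∏ j ∈ Icc 1 J \ Ft, B.x t (n0 t) j ^ j with hβ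
  set M : (Fin 3 → ℕ) → ℕ := fun n => ∏ j ∈ Fs, B.x s (n s) j ^ (j / p) with hM
  set N : (Fin 3 → ℕ) → ℕ := fun n => ∏ j ∈ Ft, B.x t (n t) j ^ (j / p) with hN
  set M0 : ℕ := ∏ j ∈ Fs, B.P s j ^ (j / p) with hM0
  set N0 : ℕ := ∏ j ∈ Ft, B.P t j ^ (j / p) with hN0
  have hM0p : 1 ≤ M0 := prod_P_pos B s Fs _
  have hN0p : 1 ≤ N0 := prod_P_pos B t Ft _
  have hM0r : (0 : ℝ) < M0 := by exact_mod_cast hM0p
  have hN0r : (0 : ℝ) < N0 := by exact_mod_cast hN0p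
  have hns : ∀ n ∈ T, n s = α * M n ^ p := by
    intro n hn
    rw [n_split B (hT hn) s hFs, prod_pow_div _ ds, hα,
      prod_congr rfl fun j hj => by rw [as n hn n0 hn0 j hj]]
  have hnt : ∀ n ∈ T, n t = β * N n ^ p := by
    intro n hn
    rw [n_split B (hT hn) t hFt, prod_pow_div _ dt, hβ,
      prod_congr rfl fun j hj => by rw [at' n hn n0 hn0 j hj]]
  have hnr : ∀ n ∈ T, ζ ∣ n r := by
    intro n hn
    have h1 : ∏ j ∈ K, B.x r (n0 r) j ^ j = ∏ j ∈ K, B.x r (n r) j ^ j :=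
      prod_congr rfl fun j hj => by rw [ar n hn n0 hn0 j hj]
    rw [n_split B (hT hn) r hK, hζ, h1]
    apply mul_dvd_mul _ dvd_rfl
    cases fl
    · simp
    · simp
  have hMl : ∀ n ∈ T, M0 ≤ M n := fun n hn => prod_lower B (hT hn) s hFs _
  have hNl : ∀ n ∈ T, N0 ≤ N n := fun n hn => prod_lower B (hT hn) t hFt _
  have hMu : ∀ n ∈ T, M n ≤ DD J * M0 := fun n hn =>
    prod_upper B (hT hn) s hFs _ fun j => Nat.div_le_self _ _
  have hNu : ∀ n ∈ T, N n ≤ DD J * N0 := fun n hn =>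
    prod_upper B (hT hn) t hFt _ fun j => Nat.div_le_self _ _
  have hζ1 : 1 ≤ ζ := Nat.pos_of_dvd_of_pos (hnr n0 hn0) (n_pos B (hT hn0) r)
  have hζY : ζ ≤ B.Y := (Nat.le_of_dvd (n_pos B (hT hn0) r) (hnr n0 hn0)).trans (n_le B (hT hn0) r)
  have hαd : ∀ n ∈ T, α ∣ n s := fun n hn => ⟨_, hns n hn⟩
  have hβd : ∀ n ∈ T, β ∣ n t := fun n hn => ⟨_, hnt n hn⟩
  have hMd : ∀ n ∈ T, M n ∣ n s := fun n hn => by
    rw [hns n hn]; exact Dvd.dvd.mul_left (dvd_pow_self _ (by omega)) _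
  have hNd : ∀ n ∈ T, N n ∣ n t := fun n hn => by
    rw [hnt n hn]; exact Dvd.dvd.mul_left (dvd_pow_self _ (by omega)) _
  have hα1 : 1 ≤ α := Nat.pos_of_dvd_of_pos (hαd n0 hn0) (n_pos B (hT hn0) s)
  have hβ1 : 1 ≤ β := Nat.pos_of_dvd_of_pos (hβd n0 hn0) (n_pos B (hT hn0) t)
  have cop : ∀ n ∈ T, ∀ a b : ℕ, a ∣ n s → b ∣ n t → Nat.Coprime (a * b) ζ := by
    intro n hn a b ha hb
    apply Nat.Coprime.mul_left
    · exact Nat.Coprime.coprime_dvd_left ha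
        (Nat.Coprime.coprime_dvd_right (hnr n hn) (n_cop B (hT hn) hrs.symm))
    · exact Nat.Coprime.coprime_dvd_left hb
        (Nat.Coprime.coprime_dvd_right (hnr n hn) (n_cop B (hT hn) hrt.symm))
  set e : ℤ := if r = 2 then 1 else -1 with he
  have hinj : Set.InjOn (fun n => (M n, N n)) T := by
    intro n hn n' hn' h
    have h1 : M n = M n' := congrArg Prod.fst h
    have h2 : N n = N n' := congrArg Prod.snd h
    have e1 : n s = n' s := by rw [hns n hn, hns n' hn', h1]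
    have e2 : n t = n' t := by rw [hnt n hn, hnt n' hn', h2]
    have e3 : n r = n' r := by
      have a1 := n_abs B (hT hn) hrs hrt hst
      have a2 := n_abs B (hT hn') hrs hrt hst
      rw [e1, e2, a2] at a1
      exact_mod_cast a1.symm
    funext u
    have : u = r ∨ u = s ∨ u = t := by
      clear * - hrs hrt hst
      revert u r s t; decide
    rcases this with rfl | rfl | rfl <;> assumption
  set m : ℝ := DD J * M0 / N0 with hm
  have hm0 : 0 < m := by positivity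
  have hrat : ∀ n ∈ T, 0 < (M n : ℝ) / N n ∧ (M n : ℝ) / N n ≤ m := by
    intro n hn
    have a1 : (M0 : ℝ) ≤ M n := by exact_mod_cast hMl n hn
    have a2 : (N0 : ℝ) ≤ N n := by exact_mod_cast hNl n hn
    have a3 : (M n : ℝ) ≤ DD J * M0 := by exact_mod_cast hMu n hn
    exact ⟨div_pos (by linarith) (by linarith), div_le_div₀ (by positivity) a3 hN0r a2⟩
  set Δ : ℝ := 12 * DD J * (B.Y : ℝ) ^ (sz B.σ r - 1) * m with hΔ
  have hone : ∀ n ∈ T, ∀ n' ∈ T, (M n : ℝ) / N n - (M n' : ℝ) / N n' ≤ Δ := by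
    intro n hn n' hn'
    by_cases hr : r = 0
    · have hs0 : s ≠ 0 := fun h => hrs (hr.trans h.symm)
      have ht0 : t ≠ 0 := fun h => hrt (hr.trans h.symm)
      have hq : ∀ n ∈ T, (α : ℝ) / β * ((M n : ℝ) / N n) ^ p = (n s : ℝ) / n t := by
        intro n hn
        rw [hns n hn, hnt n hn]; push_cast
        rw [div_pow, div_mul_div_comm]
      have habs : ∀ n ∈ T, |(n s : ℝ) - n t| ≤ DD J * (B.Y : ℝ) ^ B.σ := by
        intro n hn
        have a1 := n_abs B (hT hn) hrs hrt hst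
        have h2 : r ≠ 2 := by rw [hr]; decide
        rw [if_neg h2, hr] at a1
        have a2 : |(n s : ℝ) + (-1) * n t| = n 0 := by exact_mod_cast a1
        have a3 : (n s : ℝ) - n t = n s + (-1) * n t := by ring
        rw [a3, a2]; exact n0_le B (hT hn)
      have := ratio_close hp (α := α) (β := β) (by exact_mod_cast hα1) (by exact_mod_cast hβ1)
        (hrat n' hn').1 hY0 (H := DD J * (B.Y : ℝ) ^ B.σ) (by positivity) (hq n hn) (hq n' hn')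
        (by exact_mod_cast n_big B (hT hn) ht0) (by exact_mod_cast n_big B (hT hn') hs0)
        (by exact_mod_cast n_pos B (hT hn') t) (abs_le.1 (habs n hn)).2
        (by have := (abs_le.1 (habs n' hn')).1; linarith) (hrat n hn).2 (hrat n' hn').2
      refine this.trans (le_of_eq ?_)
      rw [hΔ, hr]
      simp only [sz, if_true]
      rw [Real.rpow_sub hY0, Real.rpow_one]; ring
    · have a1 := (hrat n hn).2
      have a2 := (hrat n' hn').1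
      rw [hΔ]
      simp only [sz, if_neg hr, sub_self, Real.rpow_zero]
      nlinarith
  have hmain := hL ζ α β e (DD J * N0) Δ (T.image fun n => (M n, N n)) hζ1
    (by rw [he]; split_ifs <;> simp) (cop n0 hn0 α β (hαd n0 hn0) (hβd n0 hn0)) (by positivity)
    (by
      intro q hq
      obtain ⟨n, hn, rfl⟩ := mem_image.1 hq
      refine ⟨hM0p.trans (hMl n hn), hN0p.trans (hNl n hn), by exact_mod_cast hNu n hn,
        Nat.Coprime.coprime_dvd_left (hMd n hn)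
          (Nat.Coprime.coprime_dvd_right (hNd n hn) (n_cop B (hT hn) hst)),
        cop n hn _ _ (hMd n hn) (hNd n hn), ?_⟩
      have a1 := n_abs B (hT hn) hrs hrt hst
      have a2 : (ζ : ℤ) ∣ (n r : ℤ) := Int.natCast_dvd_natCast.2 (hnr n hn)
      rw [← a1, dvd_abs, hns n hn, hnt n hn] at a2
      push_cast at a2
      simpa only [mul_assoc] using a2)
    (by
      intro q hq q' hq'
      obtain ⟨n, hn, rfl⟩ := mem_image.1 hq
      obtain ⟨n', hn', rfl⟩ := mem_image.1 hq'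
      have a1 := hone n hn n' hn'
      have a2 := hone n' hn' n hn
      rw [abs_le]; constructor
      · simp only; linarith
      · exact a1)
  rw [card_image_of_injOn hinj] at hmain
  have hζr : (0 : ℝ) < ζ := by exact_mod_cast hζ1
  have hzl : (B.Y : ℝ) ^ zz J B.v B.σ r K fl ≤ 4 * DD J * ζ := zeta_lower B (hT hn0) r hK fl
  set x : ℝ := (wt B.v s Fs + wt B.v t Ft) / p - (zz J B.v B.σ r K fl + (1 - sz B.σ r)) with hx
  have hYx : (B.Y : ℝ) ^ x * (B.Y : ℝ) ^ zz J B.v B.σ r K fl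
      = M0 * N0 * (B.Y : ℝ) ^ (sz B.σ r - 1) := by
    rw [hM0, hN0, ← rpow_wtp B s Fs p hp ds, ← rpow_wtp B t Ft p hp dt, ← Real.rpow_add hY0,
      ← Real.rpow_add hY0, ← Real.rpow_add hY0]
    congr 1; rw [hx]; ring
  have hterm : Δ * (DD J * N0 : ℝ) ^ 2 / ζ ≤ 48 * (DD J : ℝ) ^ 5 * (B.Y : ℝ) ^ x := by
    rw [div_le_iff₀ hζr]
    have e1 : Δ * (DD J * N0 : ℝ) ^ 2
        = 12 * (DD J : ℝ) ^ 4 * (M0 * N0 * (B.Y : ℝ) ^ (sz B.σ r - 1)) := by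
      rw [hΔ, hm]; field_simp
    rw [e1, ← hYx]
    calc 12 * (DD J : ℝ) ^ 4 * ((B.Y : ℝ) ^ x * (B.Y : ℝ) ^ zz J B.v B.σ r K fl)
        ≤ 12 * (DD J : ℝ) ^ 4 * ((B.Y : ℝ) ^ x * (4 * DD J * ζ)) := by gcongr
      _ = _ := by ring
  have b1 : (B.Y : ℝ) ^ x ≤ (B.Y : ℝ) ^ max 0 x :=
    Real.rpow_le_rpow_of_exponent_le hY.le (le_max_right _ _)
  have b2 : (1 : ℝ) ≤ (B.Y : ℝ) ^ max 0 x := Real.one_le_rpow hY.le (le_max_left _ _)
  have b3 : (ζ : ℝ) ^ ε ≤ (B.Y : ℝ) ^ ε :=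
    Real.rpow_le_rpow hζr.le (by exact_mod_cast hζY) hε.le
  have b4 : 1 + Δ * (DD J * N0 : ℝ) ^ 2 / ζ ≤ (1 + 48 * (DD J : ℝ) ^ 5) * (B.Y : ℝ) ^ max 0 x := by
    have : 48 * (DD J : ℝ) ^ 5 * (B.Y : ℝ) ^ x ≤ 48 * (DD J : ℝ) ^ 5 * (B.Y : ℝ) ^ max 0 x := by
      gcongr
    nlinarith
  calc (T.card : ℝ) ≤ C * (ζ : ℝ) ^ ε * (1 + Δ * (DD J * N0 : ℝ) ^ 2 / ζ) := hmain
    _ ≤ C * (B.Y : ℝ) ^ ε * ((1 + 48 * (DD J : ℝ) ^ 5) * (B.Y : ℝ) ^ max 0 x) := by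
        gcongr
    _ = _ := by rw [Real.rpow_add hY0]; ring

/-- the possible values of the variables of row `t` on the index set `K` -/
noncomputable def keys (B : Box J) (t : Fin 3) (K : Finset ℕ) : Finset (K → ℕ) := by
  classical
  exact Fintype.piFinset fun j : K => Ico (B.P t j) (2 * B.P t j)

theorem card_keys (B : Box J) (t : Fin 3) (K : Finset ℕ) :
    ((keys B t K).card : ℝ) = (B.Y : ℝ) ^ ms B.v t K := by
  rw [rpow_ms, keys, Fintype.card_piFinset, ← prod_coe_sort K]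
  congr 1
  refine prod_congr rfl fun j _ => ?_
  rw [Nat.card_Ico]; omega

theorem mem_keys (B : Box J) {n : Fin 3 → ℕ} (hn : n ∈ B.S) (t : Fin 3) {K : Finset ℕ}
    (hK : K ⊆ Icc 1 J) : (fun j : K => B.x t (n t) j) ∈ keys B t K := by
  rw [keys, Fintype.mem_piFinset]
  intro j
  exact mem_Ico.2 (B.box n hn t j (hK j.2))

end ExcC

open ExcC in
theorem boxC (J : ℕ) (ε : ℝ) (hε : 0 < ε) :
    ∃ C : ℝ, 0 < C ∧ ∀ (B : Box J) (r s t : Fin 3), r ≠ s → r ≠ t → s ≠ t →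
      ∀ (K : Finset ℕ) (fl : Bool) (p : ℕ) (Fs Ft : Finset ℕ), K ⊆ Icc 1 J → 1 ≤ p → p ≤ J →
      Fs ⊆ Icc 1 J → Ft ⊆ Icc 1 J → (∀ j ∈ Fs, p ∣ j) → (∀ j ∈ Ft, p ∣ j) →
      (B.S.card : ℝ) ≤ C * (B.Y : ℝ) ^ (exC J B.v B.σ r s t K fl p Fs Ft + ε) := by
  classical
  have hex : ∀ p : ℕ, ∃ C : ℝ, 0 < C ∧ LemC (p + 1) ε C := fun p => lemC (p + 1) (by omega) ε hε
  choose C hC hL using hex
  have hsum : 0 ≤ ∑ q ∈ range J, C q := sum_nonneg fun q _ => (hC q).le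
  refine ⟨(1 + ∑ q ∈ range J, C q) * (1 + 48 * (DD J : ℝ) ^ 5), by positivity, ?_⟩
  intro B r s t hrs hrt hst K fl p Fs Ft hK hp hpJ hFs hFt ds dt
  obtain ⟨q, rfl⟩ : ∃ q, p = q + 1 := ⟨p - 1, by omega⟩
  have hY := Y_pos B
  have hY0 : (0 : ℝ) < B.Y := by linarith
  have hCq : C q ≤ 1 + ∑ q ∈ range J, C q := by
    have := single_le_sum (f := C) (fun i _ => (hC i).le) (mem_range.2 (by omega : q < J))
    linarith
  have hfib := card_le_fib B.S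
    (keys B r K ×ˢ keys B s (Icc 1 J \ Fs) ×ˢ keys B t (Icc 1 J \ Ft))
    (fun n => (fun j : K => B.x r (n r) j, fun j : (Icc 1 J \ Fs : Finset ℕ) => B.x s (n s) j,
      fun j : (Icc 1 J \ Ft : Finset ℕ) => B.x t (n t) j)) _
    (fun n hn => mem_product.2 ⟨mem_keys B hn r hK, mem_product.2
      ⟨mem_keys B hn s sdiff_subset, mem_keys B hn t sdiff_subset⟩⟩)
    (fun k _ => fibre_bound hp hε (hC q) (hL q) B hrs hrt hst fl hK hFs hFt ds dt _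
      (filter_subset _ _)
      (fun n hn n' hn' j hj => congrFun (congrArg Prod.fst
        ((mem_filter.1 hn).2.trans (mem_filter.1 hn').2.symm)) ⟨j, hj⟩)
      (fun n hn n' hn' j hj => congrFun (congrArg (fun z => z.2.1)
        ((mem_filter.1 hn).2.trans (mem_filter.1 hn').2.symm)) ⟨j, hj⟩)
      (fun n hn n' hn' j hj => congrFun (congrArg (fun z => z.2.2)
        ((mem_filter.1 hn).2.trans (mem_filter.1 hn').2.symm)) ⟨j, hj⟩))
  rw [card_product, card_product] at hfib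
  push_cast at hfib
  rw [card_keys, card_keys, card_keys] at hfib
  refine hfib.trans ?_
  rw [exC]
  push_cast
  simp only [Real.rpow_add hY0]
  set a := (B.Y : ℝ) ^ ms B.v r K
  set b := (B.Y : ℝ) ^ ms B.v s (Icc 1 J \ Fs)
  set c := (B.Y : ℝ) ^ ms B.v t (Icc 1 J \ Ft)
  set d := (B.Y : ℝ) ^ ε
  set f := (B.Y : ℝ) ^ max 0 ((wt B.v s Fs + wt B.v t Ft) / ((q : ℝ) + 1) -
    (zz J B.v B.σ r K fl + (1 - sz B.σ r)))
  have ha : 0 ≤ a := by positivity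
  have hb : 0 ≤ b := by positivity
  have hc : 0 ≤ c := by positivity
  have hd : 0 ≤ d := by positivity
  have hf : 0 ≤ f := by positivity
  calc a * (b * c) * (C q * (1 + 48 * (DD J : ℝ) ^ 5) * (d * f))
      = C q * ((1 + 48 * (DD J : ℝ) ^ 5) * (a * b * c * f * d)) := by ring
    _ ≤ (1 + ∑ q ∈ range J, C q) * ((1 + 48 * (DD J : ℝ) ^ 5) * (a * b * c * f * d)) := by
        gcongr
    _ = _ := by ring

end Pool.Agent.P.MP_7aad9f_nt.Exc
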