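import Pool.Agent.P.MP_7aad9f_nt.ExcData1
import Pool.Agent.P.MP_7aad9f_nt.ExcData2
import Pool.Agent.P.MP_7aad9f_nt.ExcData3
import Pool.Agent.P.MP_7aad9f_nt.ExcData4

/-! Gluing of the certificate (machine generated). -/

namespace Pool.Agent.P.MP_7aad9f_nt.Exc.LP

set_option maxRecDepth 100000

noncomputable section

theorem v28 : Cov c27_0 := cov_glue (.C 2 16 3 8 8) [f28_0, f28_1] _ (by decide +kernel)
  ⟨v29, v30, trivial⟩

theorem v27 : Cov c26_0 := cov_glue (.C 0 52 2 20 20) [f27_0, f27_1] _ (by decide +kernel)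
  ⟨v28, v31, trivial⟩

theorem v26 : Cov c25_0 := cov_glue (.C 0 52 3 8 8) [f26_0, f26_1] _ (by decide +kernel)
  ⟨v27, v32, trivial⟩

theorem v25 : Cov c24_0 := cov_glue (.C 2 56 2 20 20) [f25_0, f25_1] _ (by decide +kernel)
  ⟨v26, v33, trivial⟩

theorem v24 : Cov c23_0 := cov_glue (.C 0 56 2 20 20) [f24_0, f24_1] _ (by decide +kernel)
  ⟨v25, v34, trivial⟩

theorem v23 : Cov c22_0 := cov_glue (.C 0 52 4 16 16) [f23_0, f23_1] _ (by decide +kernel)
  ⟨v24, v35, trivial⟩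

theorem v22 : Cov c21_0 := cov_glue (.C 2 56 2 4 16) [f22_0, f22_1] _ (by decide +kernel)
  ⟨v23, v36, trivial⟩

theorem v44 : Cov c43_0 := cov_glue (.F 1 false 2) [f44_0, f44_1] _ (by decide +kernel)
  ⟨v45, v46, trivial⟩

theorem v47 : Cov c43_1 := cov_glue (.C 0 16 3 8 8) [f47_0, f47_1] _ (by decide +kernel)
  ⟨v48, v49, trivial⟩

theorem v43 : Cov c42_0 := cov_glue (.C 0 32 3 8 8) [f43_0, f43_1] _ (by decide +kernel)
  ⟨v44, v47, trivial⟩

theorem v42 : Cov c41_0 := cov_glue (.C 2 52 2 4 16) [f42_0, f42_1] _ (by decide +kernel)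
  ⟨v43, v50, trivial⟩

theorem v41 : Cov c40_0 := cov_glue (.M 2 56 2 32767 32767) [f41_0, f41_1, f41_2, f41_3, f41_4, f41_5, f41_6, f41_7, f41_8, f41_9, f41_10, f41_11] _ (by decide +kernel)
  ⟨v42, v51, v52, v53, v54, v55, v56, v57, v58, v59, v60, v61, trivial⟩

theorem v40 : Cov c39_0 := cov_glue (.M 1 56 2 32767 32767) [f40_0, f40_1, f40_2, f40_3, f40_4, f40_5, f40_6, f40_7, f40_8, f40_9, f40_10, f40_11] _ (by decide +kernel)
  ⟨v41, v62, v63, v64, v65, v66, v67, v68, v69, v70, v71, v72, trivial⟩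

theorem v39 : Cov c38_0 := cov_glue (.M 2 60 2 32767 32447) [f39_0, f39_1, f39_2, f39_3, f39_4, f39_5, f39_6, f39_7, f39_8, f39_9, f39_10, f39_11] _ (by decide +kernel)
  ⟨v40, v73, v74, v75, v76, v77, v78, v79, v80, v81, v82, v83, trivial⟩

theorem v38 : Cov c37_0 := cov_glue (.C 2 56 1 2 6) [f38_0, f38_1] _ (by decide +kernel)
  ⟨v39, v84, trivial⟩

theorem v37 : Cov c21_1 := cov_glue (.C 2 48 3 8 8) [f37_0, f37_1] _ (by decide +kernel)
  ⟨v38, v85, trivial⟩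

theorem v21 : Cov c19_1 := cov_glue (.C 2 48 1 6 10) [f21_0, f21_1] _ (by decide +kernel)
  ⟨v22, v37, trivial⟩

theorem v19 : Cov c18_0 := cov_glue (.C 0 48 1 14 6) [f19_0, f19_1] _ (by decide +kernel)
  ⟨v20, v21, trivial⟩

theorem v92 : Cov c91_0 := cov_glue (.M 0 56 1 32767 32767) [f92_0, f92_1, f92_2, f92_3, f92_4, f92_5, f92_6, f92_7, f92_8, f92_9, f92_10, f92_11] _ (by decide +kernel)
  ⟨v93, v94, v95, v96, v97, v98, v99, v100, v101, v102, v103, v104, trivial⟩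

theorem v107 : Cov c106_0 := cov_glue (.M 2 56 1 32767 32767) [f107_0, f107_1, f107_2, f107_3, f107_4, f107_5, f107_6, f107_7, f107_8, f107_9, f107_10, f107_11] _ (by decide +kernel)
  ⟨v108, v109, v110, v111, v112, v113, v114, v115, v116, v117, v118, v119, trivial⟩

theorem v106 : Cov c105_0 := cov_glue (.C 1 40 1 6 6) [f106_0, f106_1] _ (by decide +kernel)
  ⟨v107, v120, trivial⟩

theorem v105 : Cov c91_1 := cov_glue (.C 0 60 1 6 6) [f105_0, f105_1] _ (by decide +kernel)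
  ⟨v106, v121, trivial⟩

theorem v91 : Cov c89_1 := cov_glue (.C 1 16 3 8 8) [f91_0, f91_1] _ (by decide +kernel)
  ⟨v92, v105, trivial⟩

theorem v89 : Cov c88_0 := cov_glue (.C 1 16 1 6 6) [f89_0, f89_1] _ (by decide +kernel)
  ⟨v90, v91, trivial⟩

theorem v88 : Cov c87_0 := cov_glue (.C 0 52 3 8 8) [f88_0, f88_1] _ (by decide +kernel)
  ⟨v89, v122, trivial⟩

theorem v87 : Cov c86_0 := cov_glue (.C 2 56 2 20 20) [f87_0, f87_1] _ (by decide +kernel)
  ⟨v88, v123, trivial⟩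

theorem v126 : Cov c125_0 := cov_glue (.C 0 16 1 14 6) [f126_0, f126_1] _ (by decide +kernel)
  ⟨v127, v128, trivial⟩

theorem v125 : Cov c124_0 := cov_glue (.F 2 true 2) [f125_0, f125_1] _ (by decide +kernel)
  ⟨v126, v129, trivial⟩

theorem v124 : Cov c86_1 := cov_glue (.M 1 60 2 32767 32767) [f124_0, f124_1, f124_2, f124_3, f124_4, f124_5, f124_6, f124_7, f124_8, f124_9, f124_10, f124_11] _ (by decide +kernel)
  ⟨v125, v130, v131, v132, v133, v134, v135, v136, v137, v138, v139, v140, trivial⟩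

theorem v86 : Cov c18_1 := cov_glue (.C 2 52 4 16 16) [f86_0, f86_1] _ (by decide +kernel)
  ⟨v87, v124, trivial⟩

theorem v18 : Cov c17_0 := cov_glue (.C 0 56 1 2 14) [f18_0, f18_1] _ (by decide +kernel)
  ⟨v19, v86, trivial⟩

theorem v17 : Cov c16_0 := cov_glue (.C 1 56 2 20 20) [f17_0, f17_1] _ (by decide +kernel)
  ⟨v18, v141, trivial⟩

theorem v16 : Cov c15_0 := cov_glue (.C 0 60 2 20 20) [f16_0, f16_1] _ (by decide +kernel)
  ⟨v17, v142, trivial⟩

theorem v148 : Cov c147_0 := cov_glue (.C 0 8 1 14 6) [f148_0, f148_1] _ (by decide +kernel)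
  ⟨v149, v150, trivial⟩

theorem v147 : Cov c146_0 := cov_glue (.C 1 52 3 8 8) [f147_0, f147_1] _ (by decide +kernel)
  ⟨v148, v151, trivial⟩

theorem v146 : Cov c145_0 := cov_glue (.M 2 60 2 32767 32767) [f146_0, f146_1, f146_2, f146_3, f146_4, f146_5, f146_6, f146_7, f146_8, f146_9, f146_10, f146_11] _ (by decide +kernel)
  ⟨v147, v152, v153, v154, v155, v156, v157, v158, v159, v160, v161, v162, trivial⟩

theorem v145 : Cov c144_0 := cov_glue (.C 2 28 3 8 0) [f145_0, f145_1] _ (by decide +kernel)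
  ⟨v146, v163, trivial⟩

theorem v144 : Cov c143_0 := cov_glue (.C 0 56 1 6 2) [f144_0, f144_1] _ (by decide +kernel)
  ⟨v145, v164, trivial⟩

theorem v143 : Cov c15_1 := cov_glue (.C 0 60 2 20 20) [f143_0, f143_1] _ (by decide +kernel)
  ⟨v144, v165, trivial⟩

theorem v15 : Cov c14_0 := cov_glue (.C 1 56 1 2 10) [f15_0, f15_1] _ (by decide +kernel)
  ⟨v16, v143, trivial⟩

theorem v14 : Cov c13_0 := cov_glue (.C 2 56 3 8 8) [f14_0, f14_1] _ (by decide +kernel)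
  ⟨v15, v166, trivial⟩

theorem v13 : Cov c12_0 := cov_glue (.C 1 56 3 8 8) [f13_0, f13_1] _ (by decide +kernel)
  ⟨v14, v167, trivial⟩

theorem v12 : Cov c11_0 := cov_glue (.C 2 60 1 2 4) [f12_0, f12_1] _ (by decide +kernel)
  ⟨v13, v168, trivial⟩

theorem v11 : Cov c10_0 := cov_glue (.C 2 56 1 6 2) [f11_0, f11_1] _ (by decide +kernel)
  ⟨v12, v169, trivial⟩

theorem v10 : Cov c9_0 := cov_glue (.C 0 56 3 8 8) [f10_0, f10_1] _ (by decide +kernel)
  ⟨v11, v170, trivial⟩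

theorem v9 : Cov c8_0 := cov_glue (.C 1 60 2 4 4) [f9_0, f9_1] _ (by decide +kernel)
  ⟨v10, v171, trivial⟩

theorem v8 : Cov c7_0 := cov_glue (.C 2 60 3 8 8) [f8_0, f8_1] _ (by decide +kernel)
  ⟨v9, v172, trivial⟩

theorem v7 : Cov c6_0 := cov_glue (.C 0 56 3 8 0) [f7_0, f7_1] _ (by decide +kernel)
  ⟨v8, v173, trivial⟩

theorem v6 : Cov c5_0 := cov_glue (.C 2 60 2 20 20) [f6_0, f6_1] _ (by decide +kernel)
  ⟨v7, v174, trivial⟩

theorem v5 : Cov c4_0 := cov_glue (.C 2 60 1 2 2) [f5_0, f5_1] _ (by decide +kernel)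
  ⟨v6, v175, trivial⟩

theorem v4 : Cov c3_0 := cov_glue (.T 1) [f4_0] _ (by decide +kernel)
  ⟨v5, trivial⟩

theorem v3 : Cov c2_0 := cov_glue (.T 2) [f3_0] _ (by decide +kernel)
  ⟨v4, trivial⟩

theorem v2 : Cov c1_0 := cov_glue (.C 1 56 1 2 0) [f2_0, f2_1] _ (by decide +kernel)
  ⟨v3, v176, trivial⟩

theorem v1 : Cov [] := cov_glue (.T 0) [f1_0] _ (by decide +kernel)
  ⟨v2, trivial⟩

theorem cov_root : Cov [] := v1

end

end Pool.Agent.P.MP_7aad9f_nt.Exc.LP
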