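import Pool.Agent.P.MP_7aad9f_nt.ExcDefs
import Pool.Agent.P.MP_7aad9f_nt.ExcData

/-! The linear-programming cover, transported to the full set of variables. -/

namespace Pool.Agent.P.MP_7aad9f_nt.Exc
open Finset

namespace Cover
open LP

/-- lumped masses -/
noncomputable def V (J : ℕ) (v : Fin 3 → ℕ → ℝ) (t : Fin 3) (j : ℕ) : ℝ :=
  if j ≤ 4 then v t j else ∑ i ∈ Icc 5 J, v t i

noncomputable def pt (J : ℕ) (v : Fin 3 → ℕ → ℝ) (σ lam : ℝ) (i : ℕ) : ℝ :=
  if i < 5 then V J v 0 (i + 1) else if i < 10 then V J v 1 (i - 4) else if i < 15 then V J v 2 (i - 9)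
  else if i = 15 then lam - 1 else if i = 16 then σ else 1

lemma split {J : ℕ} (hJ : 5 ≤ J) (f : ℕ → ℝ) :
    ∑ j ∈ Icc 1 J, f j = f 1 + f 2 + f 3 + f 4 + ∑ j ∈ Icc 5 J, f j := by
  have : Icc 1 J = Icc 1 4 ∪ Icc 5 J := by ext j; simp; omega
  rw [this, Finset.sum_union]
  · congr 1
    simp [Finset.sum_Icc_succ_top]
  · rw [Finset.disjoint_left]; intro j h1 h2; simp at h1 h2; omega

variable {J : ℕ} {v : Fin 3 → ℕ → ℝ} {σ lam : ℝ}

lemma pt_V (t : Fin 3) (j : ℕ) (h1 : 1 ≤ j) (h5 : j ≤ 5) :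
    pt J v σ lam (5 * t.val + j - 1) = V J v t j := by
  fin_cases t <;> interval_cases j <;> simp [pt]

lemma ev_rw (hJ : 5 ≤ J) (t : Fin 3) (c : ℕ → ℕ) :
    ev (pt J v σ lam) (rw t c) = ∑ j ∈ Icc 1 J, (c (min j 5) : ℝ) * v t j := by
  have h1 := pt_V (J := J) (v := v) (σ := σ) (lam := lam) t 1 (by norm_num) (by norm_num)
  have h2 := pt_V (J := J) (v := v) (σ := σ) (lam := lam) t 2 (by norm_num) (by norm_num)
  have h3 := pt_V (J := J) (v := v) (σ := σ) (lam := lam) t 3 (by norm_num) (by norm_num)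
  have h4 := pt_V (J := J) (v := v) (σ := σ) (lam := lam) t 4 (by norm_num) (by norm_num)
  have h5 := pt_V (J := J) (v := v) (σ := σ) (lam := lam) t 5 (by norm_num) (by norm_num)
  simp only [Nat.add_sub_cancel, Nat.add_succ_sub_one] at h1 h2 h3 h4 h5
  have h6 : ∑ j ∈ Icc 5 J, (c (min j 5) : ℝ) * v t j = c 5 * ∑ j ∈ Icc 5 J, v t j := by
    rw [Finset.mul_sum]
    refine Finset.sum_congr rfl fun j hj => ?_
    rw [min_eq_right (Finset.mem_Icc.1 hj).1]
  rw [split hJ, h6]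
  simp only [LP.rw, ev, h1, h2, h3, h4, h5, V]
  norm_num
  ring

def Lf (J K : ℕ) : Finset ℕ := (Icc 1 J).filter fun j => K.testBit (min j 5) = true

lemma Lf_sub (K : ℕ) : Lf J K ⊆ Icc 1 J := Finset.filter_subset _ _

lemma sdiff_Lf (K : ℕ) : Icc 1 J \ Lf J K = (Icc 1 J).filter fun j => ¬ K.testBit (min j 5) = true := by
  rw [Lf, Finset.filter_not]

lemma ev_mass (hJ : 5 ≤ J) (t : Fin 3) : ev (pt J v σ lam) (mass t) = ms v t (Icc 1 J) := by
  simp [mass, ev_rw hJ, ms]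

lemma ev_mS (hJ : 5 ≤ J) (t : Fin 3) (K : ℕ) : ev (pt J v σ lam) (mS t K) = ms v t (Lf J K) := by
  rw [mS, ev_rw hJ, ms, Lf, Finset.sum_filter]
  refine Finset.sum_congr rfl fun j _ => ?_
  cases K.testBit (min j 5) <;> simp

lemma ev_mN (hJ : 5 ≤ J) (t : Fin 3) (K : ℕ) :
    ev (pt J v σ lam) (mN t K) = ms v t (Icc 1 J \ Lf J K) := by
  rw [mN, ev_rw hJ, ms, sdiff_Lf, Finset.sum_filter]
  refine Finset.sum_congr rfl fun j _ => ?_
  cases K.testBit (min j 5) <;> simp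

lemma ev_wS (hJ : 5 ≤ J) (t : Fin 3) (K : ℕ) (h : K.testBit 5 = false) :
    ev (pt J v σ lam) (wS t K) = wt v t (Lf J K) := by
  rw [wS, ev_rw hJ, wt, Lf, Finset.sum_filter]
  refine Finset.sum_congr rfl fun j _ => ?_
  rcases le_total j 5 with hj | hj
  · rw [min_eq_left hj]; cases K.testBit j <;> simp
  · rw [min_eq_right hj, h]; simp

lemma ev_wN (hJ : 5 ≤ J) (t : Fin 3) (K : ℕ) (h : K.testBit 5 = true) :
    ev (pt J v σ lam) (wN t K) = wt v t (Icc 1 J \ Lf J K) := by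
  rw [wN, ev_rw hJ, wt, sdiff_Lf, Finset.sum_filter]
  refine Finset.sum_congr rfl fun j _ => ?_
  rcases le_total j 5 with hj | hj
  · rw [min_eq_left hj]; cases K.testBit j <;> simp
  · rw [min_eq_right hj, h]; simp

lemma ev_size (t : Fin 3) : ev (pt J v σ lam) (size t) = sz σ t := by
  fin_cases t <;> simp [size, sz, ev, pt, Nat.beq]

lemma ev_th : ev (pt J v σ lam) th = 18 * (lam / 2 + 1 / 18) := by
  simp [th, ev, pt]; ring

lemma ev_one : pt J v σ lam 17 = 1 := by simp [pt]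

lemma ev_zf (hJ : 5 ≤ J) (r : Fin 3) (K : ℕ) :
    ev (pt J v σ lam) (zf r K) = zz J v σ r (Lf J K) (K.testBit 5) := by
  cases h : K.testBit 5
  · simp [zf, zz, h, ev_wS hJ r K h]
  · simp [zf, zz, h, ev, ev_wN hJ r K h, ev_size, sub_eq_add_neg]

lemma okF_spec {p F : ℕ} (h : okF p F = true) :
    F.testBit 5 = false ∧ ∀ j ∈ Lf J F, p ∣ j := by
  simp only [okF, List.all_cons, List.all_nil, Bool.and_true, Bool.and_eq_true, Bool.or_eq_true,
    Bool.not_eq_eq_eq_not, Bool.not_true, Nat.ble_eq, Nat.beq_eq] at h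
  have h5 : F.testBit 5 = false := by
    rcases h.2.2.2.2 with h | h
    · exact h
    · omega
  refine ⟨h5, fun j hj => ?_⟩
  simp only [Lf, Finset.mem_filter, Finset.mem_Icc] at hj
  rcases le_total j 5 with hj5 | hj5
  · rw [min_eq_left hj5] at hj
    obtain ⟨⟨h1, _⟩, hb⟩ := hj
    apply Nat.dvd_of_mod_eq_zero
    interval_cases j <;> simp_all
  · rw [min_eq_right hj5, h5] at hj; simp at hj

lemma wt_mono (hv : ∀ t j, 0 ≤ v t j) (t : Fin 3) {A B : Finset ℕ} (h : A ⊆ B) : wt v t A ≤ wt v t B :=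
  Finset.sum_le_sum_of_subset_of_nonneg h fun j _ _ => mul_nonneg (Nat.cast_nonneg _) (hv t j)

lemma wt_nonneg (hv : ∀ t j, 0 ≤ v t j) (t : Fin 3) (A : Finset ℕ) : 0 ≤ wt v t A :=
  Finset.sum_nonneg fun j _ => mul_nonneg (Nat.cast_nonneg _) (hv t j)

lemma zz_bounds (hv : ∀ t j, 0 ≤ v t j) (hσ : σ ≤ 1) (hw : ∀ t, wt v t (Icc 1 J) ≤ sz σ t)
    (r : Fin 3) (K : Finset ℕ) (hK : K ⊆ Icc 1 J) (fl : Bool) :
    0 ≤ zz J v σ r K fl ∧ zz J v σ r K fl ≤ 1 := by
  have h1 : sz σ r ≤ 1 := by unfold sz; split_ifs <;> linarith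
  have h2 := hw r
  have h3 := wt_mono hv r hK
  have h4 := wt_mono hv r (Finset.sdiff_subset (s := Icc 1 J) (t := K))
  have h5 := wt_nonneg hv r K
  have h6 := wt_nonneg hv r (Icc 1 J \ K)
  unfold zz; split_ifs <;> constructor <;> linarith

lemma found (hJ : 5 ≤ J) (hv : ∀ t j, 0 ≤ v t j) (hσ : σ ≤ 1) (h1 : 1 ≤ lam) (h2 : lam ≤ 6 / 5)
    (hw : ∀ t, wt v t (Icc 1 J) ≤ sz σ t)
    (hm : ms v 0 (Icc 1 J) + ms v 1 (Icc 1 J) + ms v 2 (Icc 1 J) ≤ lam) : Found (pt J v σ lam) := by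
  have hV : ∀ t j, 0 ≤ V J v t j := by
    intro t j; unfold V; split_ifs
    · exact hv t j
    · exact Finset.sum_nonneg fun i _ => hv t i
  have hσ0 : 0 ≤ σ := by
    have := hw 0
    have := wt_nonneg hv 0 (Icc 1 J)
    simp only [sz, if_true] at *
    linarith
  have hwt : ∀ t, ev (pt J v σ lam) (rw t fun j => j) ≤ sz σ t := by
    intro t
    rw [ev_rw hJ]
    refine le_trans (Finset.sum_le_sum fun j _ => ?_) (hw t)
    exact mul_le_mul_of_nonneg_right (by exact_mod_cast min_le_left j 5) (hv t j)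
  refine cov_root _ (fun i => ?_) (fun f hf => ?_) (by simp)
  · unfold pt; split_ifs <;> first | exact hV _ _ | linarith
  · simp only [baseF, List.mem_cons, List.not_mem_nil, or_false] at hf
    have e15 : pt J v σ lam 15 = lam - 1 := by simp [pt]
    have e16 : pt J v σ lam 16 = σ := by simp [pt]
    rcases hf with rfl | rfl | rfl | rfl | rfl | rfl
    · simp only [ev, ev_mass hJ, ev_one, e15]; linarith
    · simp only [ev, ev_one, e15]; push_cast; linarith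
    · simp only [ev, ev_size]; linarith [hwt 0]
    · simp only [ev, ev_size]; linarith [hwt 1]
    · simp only [ev, ev_size]; linarith [hwt 2]
    · simp only [ev, ev_one, e16]; linarith

/-- Hölder exponents for one row -/
noncomputable def kk (c : ℕ) (z δ : ℝ) (w : ℕ → ℝ) (j : ℕ) : ℕ :=
  if dg c (min j 5) = 7 then (if w j < δ then 0 else ⌊z / w j⌋₊) else dg c (min j 5)

lemma dg_lt (c j : ℕ) : dg c j < 8 := Nat.mod_lt _ (by norm_num)

lemma kk_le (c : ℕ) {z δ : ℝ} (hδ : 0 < δ) (hz : z ≤ 1) (w : ℕ → ℝ) (j : ℕ) :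
    kk c z δ w j ≤ max 6 ⌊1 / δ⌋₊ := by
  unfold kk
  split_ifs with h1 h2
  · exact Nat.zero_le _
  · refine le_trans (Nat.floor_le_floor ?_) (le_max_right _ _)
    push Not at h2
    calc z / w j ≤ 1 / w j := div_le_div_of_nonneg_right hz (by linarith)
      _ ≤ 1 / δ := one_div_le_one_div_of_le hδ h2
  · have := dg_lt c (min j 5)
    exact le_trans (by omega) (le_max_left _ _)

section row
variable (hJ : 5 ≤ J) (hv : ∀ t j, 0 ≤ v t j) (u : Fin 3) (c k0 : ℕ) (Z : E) (z δ : ℝ)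
  (hZ : ev (pt J v σ lam) Z = z) (hz : 0 ≤ z) (hδ : 0 < δ) (hk0 : 1 ≤ k0)
  (h5 : dg c 5 = 0 ∨ dg c 5 = 7)
  (hc : ∀ j, 1 ≤ j → j ≤ 5 → ev (pt J v σ lam) (cnd u c k0 Z j) ≤ 0)
include hJ hv hZ hz hδ hk0 h5 hc

lemma cnd_spec (j : ℕ) (hj : j ∈ Icc 1 J) :
    (dg c (min j 5) = 7 → (k0 : ℝ) * v u j ≤ z) ∧
      (dg c (min j 5) ≠ 7 → (dg c (min j 5) : ℝ) * v u j ≤ z) := by
  have hj' := Finset.mem_Icc.1 hj
  have h := hc (min j 5) (by omega) (min_le_right _ _)
  have hle : v u j ≤ V J v u (min j 5) := by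
    unfold V
    split_ifs with h4
    · rw [min_eq_left (by omega)]
    · exact Finset.single_le_sum (f := fun i => v u i) (fun i _ => hv u i)
        (Finset.mem_Icc.2 ⟨by omega, hj'.2⟩)
  have hp := pt_V (J := J) (v := v) (σ := σ) (lam := lam) u (min j 5) (by omega) (min_le_right _ _)
  constructor
  · intro h7
    simp only [cnd, h7, Nat.beq, cond_false, cond_true, ev, hZ, hp] at h
    have := mul_le_mul_of_nonneg_left hle (Nat.cast_nonneg (α := ℝ) k0)
    linarith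
  · intro h7
    by_cases h0 : dg c (min j 5) = 0
    · simp [h0, hz]
    · have e0 : Nat.beq (dg c (min j 5)) 0 = false := by
        rw [← Bool.not_eq_true, Nat.beq_eq]; exact h0
      have e7 : Nat.beq (dg c (min j 5)) 7 = false := by
        rw [← Bool.not_eq_true, Nat.beq_eq]; exact h7
      simp only [cnd, e0, e7, cond_false, ev, hZ, hp] at h
      have := mul_le_mul_of_nonneg_left hle (Nat.cast_nonneg (α := ℝ) (dg c (min j 5)))
      linarith

lemma kk_mul (j : ℕ) (hj : j ∈ Icc 1 J) : (kk c z δ (v u) j : ℝ) * v u j ≤ z := by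
  have h := cnd_spec hJ hv u c k0 Z z δ hZ hz hδ hk0 h5 hc j hj
  unfold kk
  split_ifs with h1 h2
  · simpa using hz
  · push Not at h2
    have hw : 0 < v u j := by linarith
    have := Nat.floor_le (div_nonneg hz hw.le)
    calc _ ≤ z / v u j * v u j := mul_le_mul_of_nonneg_right this hw.le
      _ = z := div_mul_cancel₀ _ hw.ne'
  · exact h.2 h1

lemma kk_ge (j : ℕ) (hj : j ∈ Icc 1 J) (h7 : dg c (min j 5) = 7) (h2 : δ ≤ v u j) :
    k0 ≤ ⌊z / v u j⌋₊ := by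
  have h := (cnd_spec hJ hv u c k0 Z z δ hZ hz hδ hk0 h5 hc j hj).1 h7
  have hw : 0 < v u j := by linarith
  exact Nat.le_floor ((le_div_iff₀ hw).2 h)

lemma kk_cost : ∑ j ∈ Icc 1 J, (if kk c z δ (v u) j = 0 then v u j else v u j / 2) ≤
    ev (pt J v σ lam) (rw u fun j => cond (Nat.beq (dg c j) 0) 18 9) / 18 + J * δ / 2 := by
  rw [ev_rw hJ, Finset.sum_div]
  have : (J : ℝ) * δ / 2 = ∑ j ∈ Icc 1 J, δ / 2 := by simp; ring
  rw [this, ← Finset.sum_add_distrib]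
  refine Finset.sum_le_sum fun j hj => ?_
  have hw := hv u j
  by_cases h0 : dg c (min j 5) = 0
  · simp only [kk, h0, Nat.beq, cond_true]
    norm_num; linarith
  · have e0 : Nat.beq (dg c (min j 5)) 0 = false := by
      rw [← Bool.not_eq_true, Nat.beq_eq]; exact h0
    simp only [e0, cond_false]
    unfold kk
    by_cases h7 : dg c (min j 5) = 7
    · rw [if_pos h7]
      by_cases h2 : v u j < δ
      · rw [if_pos h2, if_pos rfl]; push_cast; linarith
      · have := kk_ge hJ hv u c k0 Z z δ hZ hz hδ hk0 h5 hc j hj h7 (not_lt.1 h2)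
        rw [if_neg h2, if_neg (by omega)]; push_cast; linarith
    · rw [if_neg h7, if_neg h0]; push_cast; linarith

lemma kk_budget : ∑ j ∈ Icc 1 J, (1 : ℝ) / (2 * kk c z δ (v u) j) ≤
    (budS c : ℝ) / 120 + (k0 + 1) / (2 * k0) *
      (ev (pt J v σ lam) (rw u fun j => cond (Nat.beq (dg c j) 7) 1 0) / z) := by
  have hb5 : bud c 5 = 0 := by rcases h5 with h | h <;> simp [bud, h]
  have e1 : (budS c : ℝ) / 120 = ∑ j ∈ Icc 1 J, (bud c (min j 5) : ℝ) / 120 := by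
    rw [split hJ, Finset.sum_eq_zero (s := Icc 5 J)]
    · simp [budS, hb5]; ring
    · intro j hj; rw [min_eq_right (Finset.mem_Icc.1 hj).1, hb5]; simp
  rw [ev_rw hJ, e1, Finset.sum_div, Finset.mul_sum, ← Finset.sum_add_distrib]
  refine Finset.sum_le_sum fun j hj => ?_
  have hw := hv u j
  have hk0' : (1 : ℝ) ≤ k0 := by exact_mod_cast hk0
  unfold kk
  by_cases h7 : dg c (min j 5) = 7
  · simp only [h7, if_true, bud, Nat.beq, cond_true, Nat.cast_zero, zero_div, zero_add, Nat.cast_one,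
      one_mul]
    by_cases h2 : v u j < δ
    · rw [if_pos h2]; simp only [Nat.cast_zero, mul_zero, div_zero]; positivity
    · rw [if_neg h2]
      have hk := kk_ge hJ hv u c k0 Z z δ hZ hz hδ hk0 h5 hc j hj h7 (not_lt.1 h2)
      have hw' : 0 < v u j := by linarith [not_lt.1 h2]
      have hk' : (k0 : ℝ) ≤ ⌊z / v u j⌋₊ := by exact_mod_cast hk
      have hlt := Nat.lt_floor_add_one (z / v u j)
      generalize ((⌊z / v u j⌋₊ : ℕ) : ℝ) = k at hk' hlt ⊢
      have hzp : 0 < z := by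
        have := (cnd_spec hJ hv u c k0 Z z δ hZ hz hδ hk0 h5 hc j hj).1 h7
        nlinarith
      rw [div_lt_iff₀ hw'] at hlt
      have hkp : 0 < k := by linarith
      rw [div_mul_div_comm, div_le_div_iff₀ (by positivity) (by positivity)]
      nlinarith [mul_nonneg (sub_nonneg.2 hk') hw'.le, mul_le_mul_of_nonneg_left hlt.le (by linarith : (0 : ℝ) ≤ k0)]
  · have e7 : Nat.beq (dg c (min j 5)) 7 = false := by
      rw [← Bool.not_eq_true, Nat.beq_eq]; exact h7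
    simp only [if_neg h7, bud, e7, cond_false, Nat.cast_zero, zero_mul, zero_div, mul_zero, add_zero]
    have := dg_lt c (min j 5)
    generalize dg c (min j 5) = d at *
    interval_cases d <;> first | contradiction | norm_num

end row

end Cover

open Cover LP in
theorem cover_full (J : ℕ) (hJ : 5 ≤ J) (δ : ℝ) (hδ : 0 < δ) :
    ∃ Kmax : ℕ, ∀ (v : Fin 3 → ℕ → ℝ) (σ lam : ℝ), (∀ t j, 0 ≤ v t j) → σ ≤ 1 →
      1 ≤ lam → lam ≤ 6 / 5 → (∀ t, wt v t (Icc 1 J) ≤ sz σ t) →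
      ms v 0 (Icc 1 J) + ms v 1 (Icc 1 J) + ms v 2 (Icc 1 J) ≤ lam →
      ∃ r s t : Fin 3, r ≠ s ∧ r ≠ t ∧ s ≠ t ∧
        (exT J v s t ≤ lam / 2 + 1 / 18 ∨
        (∃ (K : Finset ℕ) (fl : Bool) (p : ℕ) (Fs Ft : Finset ℕ), K ⊆ Icc 1 J ∧ 1 ≤ p ∧ p ≤ J ∧
          Fs ⊆ Icc 1 J ∧ Ft ⊆ Icc 1 J ∧ (∀ j ∈ Fs, p ∣ j) ∧ (∀ j ∈ Ft, p ∣ j) ∧
          exC J v σ r s t K fl p Fs Ft ≤ lam / 2 + 1 / 18) ∨
        (∃ (p : ℕ) (Fs : Finset ℕ), 2 ≤ p ∧ p ≤ J ∧ Fs ⊆ Icc 1 J ∧ (∀ j ∈ Fs, p ∣ j) ∧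
          exF J v r s t Fs ≤ lam / 2 + 1 / 18) ∨
        (∃ (K : Finset ℕ) (fl : Bool) (k : Fin 3 → ℕ → ℕ), K ⊆ Icc 1 J ∧
          admM J Kmax v σ r s t K fl k ∧ exM J v r s t K k ≤ lam / 2 + 1 / 18 + δ)) := by
  have hJ0 : (0 : ℝ) < J := by exact_mod_cast (by omega : 0 < J)
  have hδ' : 0 < δ / J := div_pos hδ hJ0
  refine ⟨max 6 ⌊1 / (δ / J)⌋₊, fun v σ lam hv hσ h1 h2 hw hm => ?_⟩
  obtain ⟨R, hok, hf⟩ := found hJ hv hσ h1 h2 hw hm
  have d1 : ∀ r : Fin 3, r ≠ r + 1 ∧ r ≠ r + 2 ∧ r + 1 ≠ r + 2 := by decide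
  cases R with
  | T r =>
    refine ⟨r, r + 1, r + 2, (d1 r).1, (d1 r).2.1, (d1 r).2.2, Or.inl ?_⟩
    have := hf _ (List.mem_singleton.2 rfl)
    simp only [ev, ev_mass hJ, ev_th] at this
    unfold exT; push_cast at this; linarith
  | C r K p Fs Ft =>
    simp only [Rule.ok, Bool.and_eq_true, Nat.ble_eq] at hok
    obtain ⟨⟨⟨hp1, hp4⟩, hs⟩, ht⟩ := hok
    have hs' := okF_spec (J := J) hs
    have ht' := okF_spec (J := J) ht
    refine ⟨r, r + 1, r + 2, (d1 r).1, (d1 r).2.1, (d1 r).2.2, Or.inr (Or.inl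
      ⟨Lf J K, K.testBit 5, p, Lf J Fs, Lf J Ft, Lf_sub _, hp1, by omega, Lf_sub _, Lf_sub _,
        hs'.2, ht'.2, ?_⟩)⟩
    have a1 := hf _ (List.mem_cons_self ..)
    have a2 := hf _ (List.mem_cons_of_mem _ (List.mem_cons_self ..))
    simp only [ev, ev_mS hJ, ev_mN hJ, ev_th, ev_wS hJ _ _ hs'.1, ev_wS hJ _ _ ht'.1, ev_zf hJ,
      ev_one, ev_size] at a1 a2
    push_cast at a1 a2
    have hp : (0 : ℝ) < p := by exact_mod_cast hp1
    unfold exC
    rcases le_total 0 ((wt v (r + 1) (Lf J Fs) + wt v (r + 2) (Lf J Ft)) / p -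
      (zz J v σ r (Lf J K) (K.testBit 5) + (1 - sz σ r))) with h | h
    · rw [max_eq_right h]
      have : (wt v (r + 1) (Lf J Fs) + wt v (r + 2) (Lf J Ft)) / p ≤
          (lam / 2 + 1 / 18) - (ms v r (Lf J K) + ms v (r + 1) (Icc 1 J \ Lf J Fs) +
            ms v (r + 2) (Icc 1 J \ Lf J Ft)) + (zz J v σ r (Lf J K) (K.testBit 5) + (1 - sz σ r)) := by
        rw [div_le_iff₀ hp]; linarith
      linarith
    · rw [max_eq_left h]; linarith
  | F r sw p =>
    simp only [Rule.ok, Bool.and_eq_true, Nat.ble_eq] at hok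
    have d2 : ∀ (r : Fin 3) (sw : Bool), r ≠ cond sw (r + 2) (r + 1) ∧ r ≠ cond sw (r + 1) (r + 2) ∧
      cond sw (r + 2) (r + 1) ≠ cond sw (r + 1) (r + 2) := by decide
    refine ⟨r, cond sw (r + 2) (r + 1), cond sw (r + 1) (r + 2), (d2 r sw).1, (d2 r sw).2.1,
      (d2 r sw).2.2, Or.inr (Or.inr (Or.inl ⟨p, (Icc 1 J).filter fun j => j ≤ 4 ∧ j % p = 0, hok.1,
        by omega, Finset.filter_subset _ _,
        fun j hj => Nat.dvd_of_mod_eq_zero (Finset.mem_filter.1 hj).2.2, ?_⟩))⟩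
    have a1 := hf _ (List.mem_cons_self ..)
    have a2 := hf _ (List.mem_cons_of_mem _ (List.mem_cons_self ..))
    have hU : ∀ a : Fin 3, ev (pt J v σ lam) (rw a fun j => cond (Nat.ble j 4 && Nat.beq (j % p) 0) 0 1)
        = ms v a (Icc 1 J \ (Icc 1 J).filter fun j => j ≤ 4 ∧ j % p = 0) := by
      intro a
      rw [ev_rw hJ, ms, ← Finset.filter_not, Finset.sum_filter]
      refine Finset.sum_congr rfl fun j _ => ?_
      by_cases hj : j ≤ 4
      · rw [min_eq_left (by omega)]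
        have e4 : Nat.ble j 4 = true := by rw [Nat.ble_eq]; exact hj
        by_cases hp : j % p = 0
        · simp [hj, hp, e4]
        · have e0 : Nat.beq (j % p) 0 = false := by rw [← Bool.not_eq_true, Nat.beq_eq]; exact hp
          simp [hj, hp, e0]
      · rw [min_eq_right (by omega)]
        have e4 : Nat.ble 5 4 = false := rfl
        simp [hj, e4]
    simp only [ev, hU, ev_mass hJ, ev_th] at a1 a2
    push_cast at a1 a2
    unfold exF
    rcases le_total (ms v (cond sw (r + 2) (r + 1)) (Icc 1 J)) (ms v (cond sw (r + 1) (r + 2)) (Icc 1 J))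
      with h | h
    · rw [max_eq_right h]; linarith
    · rw [max_eq_left h]; linarith
  | M r K k0 ks kt =>
    simp only [Rule.ok, Bool.and_eq_true, Bool.or_eq_true, Nat.ble_eq, Nat.beq_eq] at hok
    obtain ⟨⟨⟨hk0, hs5⟩, ht5⟩, hbud⟩ := hok
    set z := zz J v σ r (Lf J K) (K.testBit 5) with hzdef
    have hZ : ev (pt J v σ lam) (zf r K) = z := ev_zf hJ r K
    have hz := zz_bounds hv hσ hw r (Lf J K) (Lf_sub _) (K.testBit 5)
    simp only [Rule.forms, List.mem_cons, List.not_mem_nil, or_false, forall_eq_or_imp,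
      forall_eq] at hf
    obtain ⟨a1, a2, s1, s2, s3, s4, s5, t1, t2, t3, t4, t5⟩ := hf
    have hcs : ∀ j, 1 ≤ j → j ≤ 5 → ev (pt J v σ lam) (cnd (r + 1) ks k0 (zf r K) j) ≤ 0 := by
      intro j h1 h5; interval_cases j <;> assumption
    have hct : ∀ j, 1 ≤ j → j ≤ 5 → ev (pt J v σ lam) (cnd (r + 2) kt k0 (zf r K) j) ≤ 0 := by
      intro j h1 h5; interval_cases j <;> assumption
    let k : Fin 3 → ℕ → ℕ := fun u => kk (if u = r + 1 then ks else kt) z (δ / J) (v u)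
    have ek1 : k (r + 1) = kk ks z (δ / J) (v (r + 1)) := by simp [k]
    have ek2 : k (r + 2) = kk kt z (δ / J) (v (r + 2)) := by simp [k, (d1 r).2.2.symm]
    refine ⟨r, r + 1, r + 2, (d1 r).1, (d1 r).2.1, (d1 r).2.2, Or.inr (Or.inr (Or.inr
      ⟨Lf J K, K.testBit 5, k, Lf_sub _, ⟨fun u j => kk_le _ hδ' hz.2 _ _, ?_, fun j hj => ?_⟩, ?_⟩))⟩
    · rw [ek1, ek2]
      have b1 := kk_budget hJ hv (r + 1) ks k0 _ z _ hZ hz.1 hδ' hk0 hs5 hcs
      have b2 := kk_budget hJ hv (r + 2) kt k0 _ z _ hZ hz.1 hδ' hk0 ht5 hct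
      simp only [ev, hZ] at a2
      rw [Nat.cast_mul, Nat.cast_mul, Nat.cast_mul, Nat.cast_sub hbud] at a2
      push_cast at a2
      set A := ev (pt J v σ lam) (rw (r + 1) fun j => cond (Nat.beq (dg ks j) 7) 1 0)
      set B := ev (pt J v σ lam) (rw (r + 2) fun j => cond (Nat.beq (dg kt j) 7) 1 0)
      have hk0' : (1 : ℝ) ≤ k0 := by exact_mod_cast hk0
      have hb' : (budS ks : ℝ) + budS kt ≤ 120 := by exact_mod_cast hbud
      have key : (k0 + 1) / (2 * k0) * (A / z) + (k0 + 1) / (2 * k0) * (B / z) ≤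
          1 - (budS ks + budS kt : ℝ) / 120 := by
        rcases hz.1.eq_or_lt with h0 | h0
        · rw [← hzdef] at h0
          rw [← h0]; simp only [div_zero, mul_zero, add_zero]; linarith
        · rw [← hzdef] at h0
          rw [← mul_add, ← add_div, div_mul_div_comm, div_le_iff₀ (by positivity)]
          linarith
      linarith
    · rw [ek1, ek2]
      exact ⟨kk_mul hJ hv (r + 1) ks k0 _ z _ hZ hz.1 hδ' hk0 hs5 hcs j hj,
        kk_mul hJ hv (r + 2) kt k0 _ z _ hZ hz.1 hδ' hk0 ht5 hct j hj⟩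
    · unfold exM
      rw [ek1, ek2]
      have c1 := kk_cost hJ hv (r + 1) ks k0 _ z _ hZ hz.1 hδ' hk0 hs5 hcs
      have c2 := kk_cost hJ hv (r + 2) kt k0 _ z _ hZ hz.1 hδ' hk0 ht5 hct
      simp only [ev, ev_mS hJ, ev_th] at a1
      push_cast at a1
      have : (J : ℝ) * (δ / J) = δ := by field_simp
      rw [this] at c1 c2
      linarith

end Pool.Agent.P.MP_7aad9f_nt.Exc
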