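import Mathlib

/-! Exceptional set in the abc conjecture: shared definitions (dyadic boxes and their exponents). -/

namespace Pool.Agent.P.MP_7aad9f_nt.Exc
open Finset

/-- A dyadic box of abc triples `n 0 + n 1 = n 2`, each written as
`n t = y t * ∏_{j=1}^J (x t (n t) j)^j` with `y t` fixed and `x t (n t) j ∈ [P t j, 2 P t j)`. -/
structure Box (J : ℕ) where
  Y : ℕ
  y : Fin 3 → ℕ
  P : Fin 3 → ℕ → ℕ
  x : Fin 3 → ℕ → ℕ → ℕ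
  S : Finset (Fin 3 → ℕ)
  hY : 2 ≤ Y
  hy : ∀ t, 1 ≤ y t
  hP : ∀ t j, 1 ≤ P t j
  dec : ∀ n ∈ S, ∀ t, n t = y t * ∏ j ∈ Icc 1 J, x t (n t) j ^ j
  box : ∀ n ∈ S, ∀ t, ∀ j ∈ Icc 1 J, P t j ≤ x t (n t) j ∧ x t (n t) j < 2 * P t j
  eqn : ∀ n ∈ S, n 0 + n 1 = n 2
  cop : ∀ n ∈ S, Nat.Coprime (n 0) (n 1)
  big : ∀ n ∈ S, n 0 ≤ n 1 ∧ n 2 ≤ Y ∧ Y ≤ 2 * n 2

/-- total mass of row `t` on the index set `K` -/
def ms (v : Fin 3 → ℕ → ℝ) (t : Fin 3) (K : Finset ℕ) : ℝ := ∑ j ∈ K, v t j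

/-- weight of row `t` on the index set `K` -/
def wt (v : Fin 3 → ℕ → ℝ) (t : Fin 3) (K : Finset ℕ) : ℝ := ∑ j ∈ K, (j : ℝ) * v t j

/-- logarithmic size of row `t` -/
def sz (σ : ℝ) (t : Fin 3) : ℝ := if t = 0 then σ else 1

/-- logarithmic size of the modulus `ζ = y^fl * ∏_{j ∈ K} x_j^j` in row `r` -/
def zz (J : ℕ) (v : Fin 3 → ℕ → ℝ) (σ : ℝ) (r : Fin 3) (K : Finset ℕ) (fl : Bool) : ℝ :=
  if fl then sz σ r - wt v r (Icc 1 J \ K) else wt v r K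

/-- exponent of the trivial bound -/
def exT (J : ℕ) (v : Fin 3 → ℕ → ℝ) (s t : Fin 3) : ℝ := ms v s (Icc 1 J) + ms v t (Icc 1 J)

/-- exponent of the congruence (lattice spacing) bound -/
noncomputable def exC (J : ℕ) (v : Fin 3 → ℕ → ℝ) (σ : ℝ) (r s t : Fin 3) (K : Finset ℕ) (fl : Bool)
    (p : ℕ) (Fs Ft : Finset ℕ) : ℝ :=
  ms v r K + ms v s (Icc 1 J \ Fs) + ms v t (Icc 1 J \ Ft) +
    max 0 ((wt v s Fs + wt v t Ft) / p - (zz J v σ r K fl + (1 - sz σ r)))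

/-- exponent of the additive-energy bound -/
noncomputable def exF (J : ℕ) (v : Fin 3 → ℕ → ℝ) (r s t : Fin 3) (Fs : Finset ℕ) : ℝ :=
  (ms v s (Icc 1 J \ Fs) + ms v r (Icc 1 J) + ms v t (Icc 1 J) +
    max (ms v s (Icc 1 J)) (ms v t (Icc 1 J))) / 2

/-- exponent of the multiplicative-character bound -/
noncomputable def exM (J : ℕ) (v : Fin 3 → ℕ → ℝ) (r s t : Fin 3) (K : Finset ℕ)
    (k : Fin 3 → ℕ → ℕ) : ℝ :=
  ms v r K + ∑ j ∈ Icc 1 J, (if k s j = 0 then v s j else v s j / 2)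
    + ∑ j ∈ Icc 1 J, (if k t j = 0 then v t j else v t j / 2)

/-- admissible Hölder data for the character bound -/
def admM (J Kmax : ℕ) (v : Fin 3 → ℕ → ℝ) (σ : ℝ) (r s t : Fin 3) (K : Finset ℕ) (fl : Bool)
    (k : Fin 3 → ℕ → ℕ) : Prop :=
  (∀ u j, k u j ≤ Kmax) ∧
  (∑ j ∈ Icc 1 J, (1 : ℝ) / (2 * k s j) + ∑ j ∈ Icc 1 J, (1 : ℝ) / (2 * k t j) ≤ 1) ∧
  (∀ j ∈ Icc 1 J, (k s j : ℝ) * v s j ≤ zz J v σ r K fl ∧ (k t j : ℝ) * v t j ≤ zz J v σ r K fl)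

namespace Box
variable {J : ℕ} (B : Box J)

/-- logarithmic sizes of the variables -/
noncomputable def v (t : Fin 3) (j : ℕ) : ℝ := Real.log (B.P t j) / Real.log B.Y

/-- logarithmic size of the smallest term -/
noncomputable def σ : ℝ :=
  Real.log ((B.y 0 * ∏ j ∈ Icc 1 J, B.P 0 j ^ j : ℕ) : ℝ) / Real.log B.Y

end Box

end Pool.Agent.P.MP_7aad9f_nt.Exc
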