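import Pool.Agent.P.MP_7aad9f_nt.ExcDefs

/-! Exceptional set in the abc conjecture: trivial bound and additive-energy bound. -/

namespace Pool.Agent.P.MP_7aad9f_nt.Exc
open Finset

namespace F

theorem succ_pow_le (B a : ℕ) (hB : 1 ≤ B) : (a + 1) ^ B ≤ B ^ B * 2 ^ a := by
  have h1 : a + 1 ≤ B * 2 ^ (a / B) := by
    have h2 : a / B + 1 ≤ 2 ^ (a / B) := Nat.lt_two_pow_self
    have h3 : a < B * (a / B + 1) := Nat.lt_mul_div_succ a hB
    calc a + 1 ≤ B * (a / B + 1) := h3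
      _ ≤ B * 2 ^ (a / B) := Nat.mul_le_mul_left _ h2
  calc (a + 1) ^ B ≤ (B * 2 ^ (a / B)) ^ B := Nat.pow_le_pow_left h1 _
    _ = B ^ B * 2 ^ (a / B * B) := by rw [mul_pow, ← pow_mul]
    _ ≤ B ^ B * 2 ^ a :=
      Nat.mul_le_mul_left _ (Nat.pow_le_pow_right (by omega) (Nat.div_mul_le_self a B))

theorem card_divisors_pow_le (B : ℕ) (hB : 1 ≤ B) :
    ∃ C : ℕ, 1 ≤ C ∧ ∀ n : ℕ, n ≠ 0 → n.divisors.card ^ B ≤ C * n := by
  have hBB : 1 ≤ B ^ B := Nat.one_le_pow _ _ hB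
  refine ⟨(B ^ B) ^ (2 ^ B), Nat.one_le_pow _ _ hBB, fun n hn => ?_⟩
  rw [Nat.card_divisors hn, ← Finset.prod_pow]
  have h1 : ∏ p ∈ n.primeFactors, (n.factorization p + 1) ^ B ≤
      ∏ p ∈ n.primeFactors, ((if p < 2 ^ B then B ^ B else 1) * p ^ n.factorization p) := by
    refine Finset.prod_le_prod' fun p hp => ?_
    have hp2 := (Nat.prime_of_mem_primeFactors hp).two_le
    split_ifs with h
    · exact (succ_pow_le B _ hB).trans (Nat.mul_le_mul_left _ (Nat.pow_le_pow_left hp2 _))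
    · rw [one_mul]
      have h2 : n.factorization p + 1 ≤ 2 ^ n.factorization p := Nat.lt_two_pow_self
      calc (n.factorization p + 1) ^ B ≤ (2 ^ n.factorization p) ^ B := Nat.pow_le_pow_left h2 _
        _ = (2 ^ B) ^ n.factorization p := by rw [← pow_mul, ← pow_mul, mul_comm]
        _ ≤ p ^ n.factorization p := Nat.pow_le_pow_left (by omega) _
  refine h1.trans ?_
  rw [Finset.prod_mul_distrib]
  have h2 : ∏ p ∈ n.primeFactors, p ^ n.factorization p = n := by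
    conv_rhs => rw [← Nat.prod_factorization_pow_eq_self hn]
    rfl
  rw [h2]
  refine Nat.mul_le_mul_right _ ?_
  rw [← Finset.prod_filter, Finset.prod_const]
  refine Nat.pow_le_pow_right hBB ?_
  calc (n.primeFactors.filter fun p => p < 2 ^ B).card ≤ (Finset.range (2 ^ B)).card :=
        Finset.card_le_card fun p hp => Finset.mem_range.2 (Finset.mem_filter.1 hp).2
    _ = 2 ^ B := Finset.card_range _

/-- divisor bound, squared form: `d(h)^2 ≤ C X^ε` for `h ≤ X` -/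
theorem divisors_sq_le (ε : ℝ) (hε : 0 < ε) :
    ∃ C : ℝ, 0 < C ∧ ∀ (X : ℝ) (h : ℕ), 1 ≤ X → (h : ℝ) ≤ X →
      (h.divisors.card : ℝ) ^ 2 ≤ C * X ^ ε := by
  obtain ⟨N, hN⟩ := exists_nat_gt (2 / ε)
  have hN0 : (0 : ℝ) < N := lt_trans (by positivity) hN
  have hN1 : 1 ≤ N := by
    have : 0 < N := by exact_mod_cast hN0
    omega
  obtain ⟨C, hC1, hC⟩ := card_divisors_pow_le N hN1
  have hC1' : (1 : ℝ) ≤ C := by exact_mod_cast hC1
  refine ⟨(C : ℝ) ^ 2, by positivity, fun X h hX hh => ?_⟩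
  rcases Nat.eq_zero_or_pos h with rfl | h0
  · simp only [Nat.divisors_zero, card_empty, Nat.cast_zero]
    have : (0 : ℝ) ≤ (C : ℝ) ^ 2 * X ^ ε := by positivity
    simpa using this
  have h1 : (h.divisors.card : ℝ) ^ N ≤ C * X := by
    have : ((h.divisors.card ^ N : ℕ) : ℝ) ≤ ((C * h : ℕ) : ℝ) := by exact_mod_cast hC h h0.ne'
    push_cast at this
    exact this.trans (by gcongr)
  have h2 : C * X ≤ ((C : ℝ) * X ^ (ε / 2)) ^ N := by
    rw [mul_pow, ← Real.rpow_natCast (X ^ (ε / 2)), ← Real.rpow_mul (by linarith)]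
    have h3 : (C : ℝ) ≤ (C : ℝ) ^ N := le_self_pow₀ hC1' (by omega)
    have h4 : X ≤ X ^ (ε / 2 * N) := by
      conv_lhs => rw [← Real.rpow_one X]
      refine Real.rpow_le_rpow_of_exponent_le hX ?_
      rw [div_lt_iff₀ hε] at hN
      nlinarith
    gcongr
  have h5 : (h.divisors.card : ℝ) ≤ C * X ^ (ε / 2) :=
    le_of_pow_le_pow_left₀ (by omega) (by positivity) (h1.trans h2)
  calc (h.divisors.card : ℝ) ^ 2 ≤ (C * X ^ (ε / 2)) ^ 2 := by gcongr
    _ = (C : ℝ) ^ 2 * X ^ ε := by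
      rw [mul_pow, ← Real.rpow_natCast (X ^ (ε / 2)), ← Real.rpow_mul (by linarith)]
      congr 2
      push_cast
      ring

theorem diff_nonneg (p : ℕ) (a d : ℤ) (ha : 0 ≤ a) (hd : 0 ≤ d) : 0 ≤ (a + d) ^ p - a ^ p := by
  have : a ^ p ≤ (a + d) ^ p := pow_le_pow_left₀ ha (by linarith) p
  linarith

theorem diff_mono (p : ℕ) (a a' d : ℤ) (ha : 0 ≤ a) (haa : a ≤ a') (hd : 0 ≤ d) :
    (a + d) ^ p - a ^ p ≤ (a' + d) ^ p - a' ^ p := by
  induction p with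
  | zero => simp
  | succ p ih =>
    have e1 : (a + d) ^ (p + 1) - a ^ (p + 1) = (a + d) * ((a + d) ^ p - a ^ p) + d * a ^ p := by
      ring
    have e2 : (a' + d) ^ (p + 1) - a' ^ (p + 1) =
        (a' + d) * ((a' + d) ^ p - a' ^ p) + d * a' ^ p := by ring
    rw [e1, e2]
    have h1 := diff_nonneg p a d ha hd
    have h2 : a ^ p ≤ a' ^ p := pow_le_pow_left₀ ha haa p
    have h3 : (a + d) * ((a + d) ^ p - a ^ p) ≤ (a' + d) * ((a' + d) ^ p - a' ^ p) :=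
      mul_le_mul (by linarith) ih h1 (by linarith)
    have h4 : d * a ^ p ≤ d * a' ^ p := mul_le_mul_of_nonneg_left h2 hd
    linarith

theorem diff_strict (p : ℕ) (hp : 2 ≤ p) (a a' d : ℤ) (ha : 0 ≤ a) (haa : a < a') (hd : 0 < d) :
    (a + d) ^ p - a ^ p < (a' + d) ^ p - a' ^ p := by
  obtain ⟨k, rfl⟩ : ∃ k, p = k + 1 := ⟨p - 1, by omega⟩
  have e1 : (a + d) ^ (k + 1) - a ^ (k + 1) = (a + d) * ((a + d) ^ k - a ^ k) + d * a ^ k := by
    ring
  have e2 : (a' + d) ^ (k + 1) - a' ^ (k + 1) =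
      (a' + d) * ((a' + d) ^ k - a' ^ k) + d * a' ^ k := by ring
  rw [e1, e2]
  have h1 := diff_nonneg k a d ha hd.le
  have h2 : a ^ k < a' ^ k := pow_lt_pow_left₀ haa ha (by omega)
  have h3 : (a + d) * ((a + d) ^ k - a ^ k) ≤ (a' + d) * ((a' + d) ^ k - a' ^ k) :=
    mul_le_mul (by linarith) (diff_mono k a a' d ha haa.le hd.le) h1 (by linarith)
  have h4 : d * a ^ k < d * a' ^ k := mul_lt_mul_of_pos_left h2 hd
  linarith

theorem diff_inj (p : ℕ) (hp : 2 ≤ p) (a a' d : ℤ) (ha : 0 ≤ a) (ha' : 0 ≤ a') (hd : 0 < d)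
    (h : (a + d) ^ p - a ^ p = (a' + d) ^ p - a' ^ p) : a = a' := by
  rcases lt_trichotomy a a' with h1 | h1 | h1
  · exact absurd h (diff_strict p hp a a' d ha h1 hd).ne
  · exact h1
  · exact absurd h (diff_strict p hp a' a d ha' h1 hd).ne'

/-- two pairs with the same gap in absolute value and the same difference of powers agree -/
theorem pair_inj (p : ℕ) (hp : 2 ≤ p) (m m' n n' : ℕ) (hne : m ≠ m')
    (hd : ((m : ℤ) - m').natAbs = ((n : ℤ) - n').natAbs)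
    (h : (m : ℤ) ^ p - (m' : ℤ) ^ p = (n : ℤ) ^ p - (n' : ℤ) ^ p) : m = n ∧ m' = n' := by
  have hp0 : p ≠ 0 := by omega
  rcases lt_or_gt_of_ne hne with h1 | h1
  · have h2 : (m : ℤ) ^ p < (m' : ℤ) ^ p := pow_lt_pow_left₀ (by exact_mod_cast h1) (by positivity) hp0
    have h3 : n < n' := by
      by_contra h4
      have h5 : (n' : ℤ) ^ p ≤ (n : ℤ) ^ p :=
        pow_le_pow_left₀ (by positivity) (by exact_mod_cast not_lt.1 h4) p
      linarith
    have e1 : (m' : ℤ) = m + ((m' : ℤ) - m) := by ring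
    have e2 : (n' : ℤ) = n + ((m' : ℤ) - m) := by omega
    have h6 : (m : ℤ) = n := by
      refine diff_inj p hp m n ((m' : ℤ) - m) (by positivity) (by positivity) (by omega) ?_
      rw [← e1, ← e2]
      linarith
    omega
  · have h2 : (m' : ℤ) ^ p < (m : ℤ) ^ p := pow_lt_pow_left₀ (by exact_mod_cast h1) (by positivity) hp0
    have h3 : n' < n := by
      by_contra h4
      have h5 : (n : ℤ) ^ p ≤ (n' : ℤ) ^ p :=
        pow_le_pow_left₀ (by positivity) (by exact_mod_cast not_lt.1 h4) p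
      linarith
    have e1 : (m : ℤ) = m' + ((m : ℤ) - m') := by ring
    have e2 : (n : ℤ) = n' + ((m : ℤ) - m') := by omega
    have h6 : (m' : ℤ) = n' := by
      refine diff_inj p hp m' n' ((m : ℤ) - m') (by positivity) (by positivity) (by omega) ?_
      rw [← e1, ← e2]
      linarith
    omega

/-- Cauchy-Schwarz over the fibres of a map -/
theorem card_sq_le_fibres {α β : Type*} [DecidableEq α] [DecidableEq β] (S : Finset α)
    (T : Finset β) (f : α → β) (hf : ∀ a ∈ S, f a ∈ T) :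
    S.card ^ 2 ≤ T.card * ((S ×ˢ S).filter (fun q => f q.1 = f q.2)).card := by
  have h1 : S.card = ∑ b ∈ T, (S.filter (fun a => f a = b)).card :=
    Finset.card_eq_sum_card_fiberwise hf
  have h2 : ((S ×ˢ S).filter (fun q => f q.1 = f q.2)).card =
      ∑ b ∈ T, (S.filter (fun a => f a = b)).card ^ 2 := by
    rw [Finset.card_eq_sum_card_fiberwise (f := fun q => f q.1) (t := T)]
    · refine Finset.sum_congr rfl fun b _ => ?_
      rw [sq, ← Finset.card_product]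
      congr 1
      ext q
      simp only [mem_filter, mem_product]
      constructor
      · rintro ⟨⟨⟨h1, h2⟩, h3⟩, h4⟩
        exact ⟨⟨h1, h4⟩, h2, h3 ▸ h4⟩
      · rintro ⟨⟨h1, h4⟩, h2, h3⟩
        exact ⟨⟨⟨h1, h2⟩, h4.trans h3.symm⟩, h4⟩
    · intro q hq
      have := (mem_product.1 (mem_filter.1 hq).1).1
      exact hf _ this
  rw [h2, h1]
  exact sq_sum_le_card_mul_sum_sq

theorem third {r s t : Fin 3} {n n' : Fin 3 → ℕ} (hst : s ≠ t) (h : n 0 + n 1 = n 2)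
    (h' : n' 0 + n' 1 = n' 2) (hs : n s = n' s) (ht : n t = n' t) : n r = n' r := by
  fin_cases r <;> fin_cases s <;> fin_cases t <;> simp_all <;> omega

/-- the sign of a term in `n 0 + n 1 - n 2 = 0` -/
def sg (i : Fin 3) : ℤ := if i = 2 then -1 else 1

theorem sg_cases (i : Fin 3) : sg i = 1 ∨ sg i = -1 := by
  unfold sg
  split_ifs <;> simp

theorem sg_eq {r s t : Fin 3} (hrs : r ≠ s) (hrt : r ≠ t) (hst : s ≠ t) (n : Fin 3 → ℕ)
    (h : n 0 + n 1 = n 2) : sg s * (n s : ℤ) + sg t * (n t : ℤ) + sg r * (n r : ℤ) = 0 := by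
  fin_cases r <;> fin_cases s <;> fin_cases t <;> simp_all [sg] <;> omega

theorem final_ineq (Y a b mt mr ε C C0 s u m v w : ℝ) (hY1 : 1 ≤ Y) (hε : 0 < ε) (hC : 0 ≤ C)
    (hC0 : C ≤ C0) (hu0 : 0 ≤ u) (hm0 : 0 ≤ m) (hv0 : 0 ≤ v) (hw0 : 0 ≤ w)
    (hu : u ≤ Y ^ a) (hm : m ≤ Y ^ b) (hv : v ≤ Y ^ mt) (hw : w ≤ Y ^ mr)
    (h : s ^ 2 ≤ u * w * (u * m * v + C * Y ^ (2 * ε) * v ^ 2)) :
    s ≤ (1 + C0) * Y ^ ((a + mr + mt + max (a + b) mt) / 2 + ε) := by
  have hY : 0 < Y := by linarith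
  have hC0n : 0 ≤ C0 := hC.trans hC0
  have k1 : Y ^ a * Y ^ b ≤ Y ^ max (a + b) mt * Y ^ (2 * ε) := by
    rw [← Real.rpow_add hY, ← Real.rpow_add hY]
    refine Real.rpow_le_rpow_of_exponent_le hY1 ?_
    have := le_max_left (a + b) mt
    linarith
  have k2 : Y ^ mt ≤ Y ^ max (a + b) mt := Real.rpow_le_rpow_of_exponent_le hY1 (le_max_right _ _)
  have k3 : (Y ^ ((a + mr + mt + max (a + b) mt) / 2 + ε)) ^ 2 =
      Y ^ a * Y ^ mr * (Y ^ mt * (Y ^ max (a + b) mt * Y ^ (2 * ε))) := by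
    rw [← Real.rpow_natCast, ← Real.rpow_mul hY.le, ← Real.rpow_add hY, ← Real.rpow_add hY,
      ← Real.rpow_add hY, ← Real.rpow_add hY]
    congr 1
    push_cast
    ring
  have p1 : 0 ≤ Y ^ a := by positivity
  have p2 : 0 ≤ Y ^ b := by positivity
  have p3 : 0 ≤ Y ^ mt := by positivity
  have p4 : 0 ≤ Y ^ mr := by positivity
  have p5 : 0 ≤ Y ^ (2 * ε) := by positivity
  have p6 : 0 ≤ Y ^ max (a + b) mt := by positivity
  have p7 : 0 ≤ Y ^ ((a + mr + mt + max (a + b) mt) / 2 + ε) := by positivity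
  generalize Y ^ ((a + mr + mt + max (a + b) mt) / 2 + ε) = Z at *
  generalize Y ^ max (a + b) mt = Q at *
  generalize Y ^ (2 * ε) = E at *
  generalize Y ^ mr = R at *
  generalize Y ^ mt = T at *
  generalize Y ^ b = B at *
  generalize Y ^ a = A at *
  have k4 : s ^ 2 ≤ (1 + C0) * Z ^ 2 := by
    refine h.trans ?_
    rw [k3]
    calc _ ≤ A * R * (A * B * T + C0 * E * T ^ 2) := by gcongr
      _ = A * R * (T * (A * B) + C0 * (T * (T * E))) := by ring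
      _ ≤ A * R * (T * (Q * E) + C0 * (T * (Q * E))) := by gcongr
      _ = _ := by ring
  refine le_of_pow_le_pow_left₀ two_ne_zero (by positivity) (k4.trans ?_)
  rw [mul_pow]
  refine mul_le_mul_of_nonneg_right ?_ (by positivity)
  nlinarith

variable {J : ℕ}

theorem Ypow (B : Box J) (t : Fin 3) (K : Finset ℕ) :
    (B.Y : ℝ) ^ ms B.v t K = ∏ j ∈ K, (B.P t j : ℝ) := by
  have hY : (1 : ℝ) < B.Y := by
    have := B.hY
    exact_mod_cast (by omega : 1 < B.Y)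
  have hl : 0 < Real.log B.Y := Real.log_pos hY
  unfold ms
  rw [Real.rpow_sum_of_pos (by linarith)]
  refine Finset.prod_congr rfl fun j _ => ?_
  have hP : (0 : ℝ) < B.P t j := by
    have := B.hP t j
    exact_mod_cast (by omega : 0 < B.P t j)
  unfold Box.v
  rw [Real.rpow_def_of_pos (by linarith), mul_div_cancel₀ _ hl.ne', Real.exp_log hP]

theorem card_image_le {α : Type*} [DecidableEq α] (B : Box J) (t : Fin 3) (K : Finset ℕ)
    (hK : K ⊆ Icc 1 J) (f : (Fin 3 → ℕ) → α)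
    (hf : ∀ n ∈ B.S, ∀ n' ∈ B.S, (∀ j ∈ K, B.x t (n t) j = B.x t (n' t) j) → f n = f n') :
    ((B.S.image f).card : ℝ) ≤ (B.Y : ℝ) ^ ms B.v t K := by
  classical
  rw [Ypow]
  set T := K.pi (fun j => Ico (B.P t j) (2 * B.P t j)) with hT
  have hTc : T.card = ∏ j ∈ K, B.P t j := by
    rw [hT, Finset.card_pi]
    refine Finset.prod_congr rfl fun j _ => ?_
    rw [Nat.card_Ico]
    omega
  let τ : (Fin 3 → ℕ) → (∀ j ∈ K, ℕ) := fun n j _ => B.x t (n t) j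
  let g : (∀ j ∈ K, ℕ) → α := fun w =>
    if h : ∃ n ∈ B.S, τ n = w then f h.choose else f 0
  have h1 : (B.S.image f).card ≤ T.card := by
    refine Finset.card_le_card_of_surjOn g ?_
    intro a ha
    obtain ⟨n, hn, rfl⟩ := mem_image.1 (mem_coe.1 ha)
    refine ⟨τ n, ?_, ?_⟩
    · rw [mem_coe, hT, mem_pi]
      intro j hj
      exact mem_Ico.2 (B.box n hn t j (hK hj))
    · have h : ∃ n' ∈ B.S, τ n' = τ n := ⟨n, hn, rfl⟩
      simp only [g, dif_pos h]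
      refine hf _ h.choose_spec.1 _ hn fun j hj => ?_
      exact congrFun (congrFun h.choose_spec.2 j) hj
  rw [hTc] at h1
  exact_mod_cast h1

theorem card_row_le (B : Box J) (t : Fin 3) :
    ((B.S.image (fun n => n t)).card : ℝ) ≤ (B.Y : ℝ) ^ ms B.v t (Icc 1 J) := by
  refine card_image_le B t _ subset_rfl _ fun n hn n' hn' h => ?_
  rw [B.dec n hn t, B.dec n' hn' t]
  congr 1
  exact Finset.prod_congr rfl fun j hj => by rw [h j hj]

theorem row_pos (B : Box J) (n : Fin 3 → ℕ) (hn : n ∈ B.S) (t : Fin 3) : 1 ≤ n t := by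
  rw [B.dec n hn t]
  refine Nat.mul_pos (B.hy t) (Finset.prod_pos fun j hj => Nat.pow_pos ?_)
  have h1 := (B.box n hn t j hj).1
  have h2 := B.hP t j
  omega

theorem row_le (B : Box J) (n : Fin 3 → ℕ) (hn : n ∈ B.S) (t : Fin 3) : n t ≤ B.Y := by
  have h1 := B.eqn n hn
  have h2 := (B.big n hn).2.1
  fin_cases t <;> simp <;> omega

end F

open F

theorem boxT (J : ℕ) (B : Box J) (s t : Fin 3) (hst : s ≠ t) :
    (B.S.card : ℝ) ≤ (B.Y : ℝ) ^ exT J B.v s t := by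
  have hY : (0 : ℝ) < B.Y := by
    have := B.hY
    exact_mod_cast (by omega : 0 < B.Y)
  have h1 : B.S.card ≤ ((B.S.image (fun n => n s)) ×ˢ (B.S.image (fun n => n t))).card := by
    refine Finset.card_le_card_of_injOn (fun n => (n s, n t)) ?_ ?_
    · intro n hn
      exact mem_coe.2 (mem_product.2 ⟨mem_image_of_mem _ hn, mem_image_of_mem _ hn⟩)
    · intro n hn n' hn' h
      funext r
      exact third hst (B.eqn n hn) (B.eqn n' hn') (congrArg Prod.fst h) (congrArg Prod.snd h)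
  rw [card_product] at h1
  unfold exT
  rw [Real.rpow_add hY]
  calc (B.S.card : ℝ) ≤ ((B.S.image (fun n => n s)).card : ℝ) * (B.S.image (fun n => n t)).card := by
        exact_mod_cast h1
    _ ≤ _ := mul_le_mul (card_row_le B s) (card_row_le B t) (by positivity) (by positivity)

theorem lemF (p : ℕ) (hp : 2 ≤ p) (ε : ℝ) (hε : 0 < ε) :
    ∃ C : ℝ, 0 < C ∧ ∀ (X : ℝ) (e₁ e₂ e₃ : ℤ) (U M B R : Finset ℕ) (S : Finset (ℕ × ℕ × ℕ × ℕ)),
      1 ≤ X → (e₁ = 1 ∨ e₁ = -1) → (e₂ = 1 ∨ e₂ = -1) → (e₃ = 1 ∨ e₃ = -1) →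
      (∀ b ∈ B, 1 ≤ b ∧ (b : ℝ) ≤ X) → (∀ u ∈ U, 1 ≤ u) → (∀ m ∈ M, 1 ≤ m) →
      (∀ q ∈ S, q.1 ∈ U ∧ q.2.1 ∈ M ∧ q.2.2.1 ∈ B ∧ q.2.2.2 ∈ R ∧
        e₁ * q.1 * (q.2.1 : ℤ) ^ p + e₂ * q.2.2.1 + e₃ * q.2.2.2 = 0) →
      (S.card : ℝ) ^ 2 ≤ U.card * R.card *
        (U.card * M.card * B.card + C * X ^ ε * (B.card : ℝ) ^ 2) := by
  obtain ⟨C, hC, hdiv⟩ := divisors_sq_le ε hε
  refine ⟨C, hC, fun X e₁ e₂ e₃ U M B R S hX h₁ h₂ h₃ hB hU hM hS => ?_⟩
  have hcs := card_sq_le_fibres S (U ×ˢ R) (fun q => (q.1, q.2.2.2))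
    (fun q hq => mem_product.2 ⟨(hS q hq).1, (hS q hq).2.2.2.1⟩)
  set E := (S ×ˢ S).filter (fun q => (q.1.1, q.1.2.2.2) = (q.2.1, q.2.2.2.2)) with hE
  have hmem : ∀ q ∈ E, q.1 ∈ S ∧ q.2 ∈ S ∧ q.1.1 = q.2.1 ∧ q.1.2.2.2 = q.2.2.2.2 := by
    intro q hq
    obtain ⟨ha, hb⟩ := mem_filter.1 hq
    exact ⟨(mem_product.1 ha).1, (mem_product.1 ha).2, (Prod.mk.inj hb).1, (Prod.mk.inj hb).2⟩
  have hkey : ∀ q ∈ E, e₁ * q.1.1 * ((q.1.2.1 : ℤ) ^ p - (q.2.2.1 : ℤ) ^ p) =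
      -e₂ * ((q.1.2.2.1 : ℤ) - q.2.2.2.1) := by
    intro q hq
    obtain ⟨ha, hb, hc, hd⟩ := hmem q hq
    have k1 := (hS _ ha).2.2.2.2
    have k2 := (hS _ hb).2.2.2.2
    rw [← hc, ← hd] at k2
    linear_combination k1 - k2
  have hr : ∀ q ∈ S, ∀ q' ∈ S, q.1 = q'.1 → q.2.1 = q'.2.1 → q.2.2.1 = q'.2.2.1 → q = q' := by
    intro q hq q' hq' a1 a2 a3
    have k1 := (hS _ hq).2.2.2.2
    have k2 := (hS _ hq').2.2.2.2
    rw [← a1, ← a2, ← a3] at k2
    have k3 : e₃ * ((q.2.2.2 : ℤ) - q'.2.2.2) = 0 := by linear_combination k1 - k2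
    have k4 : q.2.2.2 = q'.2.2.2 := by
      rcases h₃ with rfl | rfl <;> omega
    exact Prod.ext a1 (Prod.ext a2 (Prod.ext a3 k4))
  -- diagonal part
  have hE1 : (E.filter (fun q => q.1.2.1 = q.2.2.1)).card ≤ (U ×ˢ M ×ˢ B).card := by
    refine Finset.card_le_card_of_injOn (fun q => (q.1.1, q.1.2.1, q.1.2.2.1)) ?_ ?_
    · intro q hq
      have ha := (hmem q (mem_filter.1 (mem_coe.1 hq)).1).1
      exact mem_coe.2 (mem_product.2 ⟨(hS _ ha).1, mem_product.2 ⟨(hS _ ha).2.1, (hS _ ha).2.2.1⟩⟩)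
    · have hdiag : ∀ q ∈ E.filter (fun q => q.1.2.1 = q.2.2.1), q.1 = q.2 := by
        intro q hq
        obtain ⟨hqE, hm⟩ := mem_filter.1 hq
        obtain ⟨ha, hb, hc, hd⟩ := hmem q hqE
        have k := hkey q hqE
        rw [hm, sub_self, mul_zero] at k
        have k4 : q.1.2.2.1 = q.2.2.2.1 := by
          rcases h₂ with rfl | rfl <;> omega
        exact hr _ ha _ hb hc hm k4
      intro q hq q' hq' h
      have hq1 := mem_coe.1 hq
      have hq2 := mem_coe.1 hq'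
      simp only [Prod.mk.injEq] at h
      have e := hr _ (hmem q (mem_filter.1 hq1).1).1 _ (hmem q' (mem_filter.1 hq2).1).1
        h.1 h.2.1 h.2.2
      exact Prod.ext e (by rw [← hdiag q hq1, ← hdiag q' hq2, e])
  -- off-diagonal part
  let hh : ℕ × ℕ → ℕ := fun bb => ((bb.1 : ℤ) - bb.2).natAbs
  have hE2 : (E.filter (fun q => ¬ q.1.2.1 = q.2.2.1)).card ≤
      ((B ×ˢ B).sigma (fun bb => (hh bb).divisors ×ˢ (hh bb).divisors)).card := by
    refine Finset.card_le_card_of_injOn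
      (fun q => (⟨(q.1.2.2.1, q.2.2.2.1), (q.1.1, ((q.1.2.1 : ℤ) - q.2.2.1).natAbs)⟩ :
        Σ _ : ℕ × ℕ, ℕ × ℕ)) ?_ ?_
    · intro q hq
      obtain ⟨hqE, hm⟩ := mem_filter.1 (mem_coe.1 hq)
      obtain ⟨ha, hb, hc, hd⟩ := hmem q hqE
      have k := hkey q hqE
      have k1 : hh (q.1.2.2.1, q.2.2.2.1) =
          q.1.1 * ((q.1.2.1 : ℤ) ^ p - (q.2.2.1 : ℤ) ^ p).natAbs := by
        have k2 := congrArg Int.natAbs k
        rw [Int.natAbs_mul, Int.natAbs_mul, Int.natAbs_mul, Int.natAbs_natCast] at k2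
        have k3 : e₁.natAbs = 1 := by rcases h₁ with rfl | rfl <;> rfl
        have k4 : (-e₂).natAbs = 1 := by rcases h₂ with rfl | rfl <;> rfl
        rw [k3, k4, one_mul, one_mul] at k2
        exact k2.symm
      have k5 : ((q.1.2.1 : ℤ) ^ p - (q.2.2.1 : ℤ) ^ p) ≠ 0 := by
        intro h0
        apply hm
        have h6 : (q.1.2.1 : ℤ) ^ p = (q.2.2.1 : ℤ) ^ p := by linarith
        have h7 : q.1.2.1 ^ p = q.2.2.1 ^ p := by exact_mod_cast h6
        exact Nat.pow_left_injective (by omega) h7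
      have k6 : hh (q.1.2.2.1, q.2.2.2.1) ≠ 0 := by
        rw [k1]
        have := hU _ (hS _ ha).1
        exact Nat.mul_ne_zero (by omega) (Int.natAbs_ne_zero.2 k5)
      rw [mem_coe, mem_sigma]
      refine ⟨mem_product.2 ⟨(hS _ ha).2.2.1, (hS _ hb).2.2.1⟩, mem_product.2 ⟨?_, ?_⟩⟩
      · refine Nat.mem_divisors.2 ⟨?_, k6⟩
        rw [k1]
        exact Dvd.intro _ rfl
      · refine Nat.mem_divisors.2 ⟨?_, k6⟩
        rw [k1]
        exact Dvd.dvd.mul_left (Int.natAbs_dvd_natAbs.2 (sub_dvd_pow_sub_pow _ _ p)) _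
    · intro q hq q' hq' h
      obtain ⟨hqE, hm⟩ := mem_filter.1 (mem_coe.1 hq)
      obtain ⟨hqE', hm'⟩ := mem_filter.1 (mem_coe.1 hq')
      obtain ⟨ha, hb, hc, hd⟩ := hmem q hqE
      obtain ⟨ha', hb', hc', hd'⟩ := hmem q' hqE'
      simp only [Sigma.mk.injEq, Prod.mk.injEq, heq_eq_eq] at h
      obtain ⟨⟨b1, b2⟩, b3, b4⟩ := h
      have k := hkey q hqE
      have k' := hkey q' hqE'
      rw [← b1, ← b2, ← b3, ← k] at k'
      have hu : e₁ * (q.1.1 : ℤ) ≠ 0 := by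
        have := hU _ (hS _ ha).1
        rcases h₁ with rfl | rfl <;> omega
      have k2 := mul_left_cancel₀ hu k'
      obtain ⟨c1, c2⟩ := pair_inj p hp _ _ _ _ hm b4 k2.symm
      exact Prod.ext (hr _ ha _ ha' b3 c1 b1) (hr _ hb _ hb' (by rw [← hc, ← hc', b3]) c2 b2)
  have hE3 : (((B ×ˢ B).sigma (fun bb => (hh bb).divisors ×ˢ (hh bb).divisors)).card : ℝ) ≤
      C * X ^ ε * (B.card : ℝ) ^ 2 := by
    rw [card_sigma]
    push_cast
    have : ∀ bb ∈ B ×ˢ B, ((((hh bb).divisors ×ˢ (hh bb).divisors).card : ℕ) : ℝ) ≤ C * X ^ ε := by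
      intro bb hbb
      rw [card_product]
      push_cast
      rw [← sq]
      refine hdiv X _ hX ?_
      obtain ⟨c1, c2⟩ := mem_product.1 hbb
      have d1 := hB _ c1
      have d2 := hB _ c2
      have d3 : hh bb ≤ bb.1 ∨ hh bb ≤ bb.2 := by
        simp only [hh]
        omega
      rcases d3 with d3 | d3
      · exact le_trans (by exact_mod_cast d3) d1.2
      · exact le_trans (by exact_mod_cast d3) d2.2
    refine (Finset.sum_le_card_nsmul _ _ _ this).trans ?_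
    rw [card_product, nsmul_eq_mul]
    push_cast
    ring_nf
    exact le_rfl
  have hsplit : E.card = (E.filter (fun q => q.1.2.1 = q.2.2.1)).card +
      (E.filter (fun q => ¬ q.1.2.1 = q.2.2.1)).card :=
    (Finset.card_filter_add_card_filter_not _).symm
  have hEb : (E.card : ℝ) ≤ U.card * M.card * B.card + C * X ^ ε * (B.card : ℝ) ^ 2 := by
    rw [hsplit]
    push_cast
    refine add_le_add ?_ (le_trans (by exact_mod_cast hE2) hE3)
    rw [card_product, card_product, ← mul_assoc] at hE1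
    exact_mod_cast hE1
  rw [card_product] at hcs
  calc (S.card : ℝ) ^ 2 ≤ U.card * R.card * E.card := by exact_mod_cast hcs
    _ ≤ _ := by gcongr

theorem boxF (J : ℕ) (ε : ℝ) (hε : 0 < ε) :
    ∃ C : ℝ, 0 < C ∧ ∀ (B : Box J) (r s t : Fin 3), r ≠ s → r ≠ t → s ≠ t →
      ∀ (p : ℕ) (Fs : Finset ℕ), 2 ≤ p → p ≤ J → Fs ⊆ Icc 1 J → (∀ j ∈ Fs, p ∣ j) →
      (B.S.card : ℝ) ≤ C * (B.Y : ℝ) ^ (exF J B.v r s t Fs + ε) := by
  have hall : ∀ p : ℕ, ∃ C : ℝ, 0 < C ∧ (2 ≤ p → ∀ (X : ℝ) (e₁ e₂ e₃ : ℤ) (U M B R : Finset ℕ)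
      (S : Finset (ℕ × ℕ × ℕ × ℕ)),
      1 ≤ X → (e₁ = 1 ∨ e₁ = -1) → (e₂ = 1 ∨ e₂ = -1) → (e₃ = 1 ∨ e₃ = -1) →
      (∀ b ∈ B, 1 ≤ b ∧ (b : ℝ) ≤ X) → (∀ u ∈ U, 1 ≤ u) → (∀ m ∈ M, 1 ≤ m) →
      (∀ q ∈ S, q.1 ∈ U ∧ q.2.1 ∈ M ∧ q.2.2.1 ∈ B ∧ q.2.2.2 ∈ R ∧
        e₁ * q.1 * (q.2.1 : ℤ) ^ p + e₂ * q.2.2.1 + e₃ * q.2.2.2 = 0) →
      (S.card : ℝ) ^ 2 ≤ U.card * R.card *
        (U.card * M.card * B.card + C * X ^ (2 * ε) * (B.card : ℝ) ^ 2)) := by
    intro p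
    by_cases hp : 2 ≤ p
    · obtain ⟨C, hC, h⟩ := lemF p hp (2 * ε) (by positivity)
      exact ⟨C, hC, fun _ => h⟩
    · exact ⟨1, one_pos, fun h => absurd h hp⟩
  choose Cp hCp hF using hall
  obtain ⟨C0, hC0⟩ : ∃ C0 : ℝ, C0 = ∑ p ∈ range (J + 1), Cp p := ⟨_, rfl⟩
  have hC0n : 0 ≤ C0 := hC0 ▸ Finset.sum_nonneg fun p _ => (hCp p).le
  refine ⟨1 + C0, by positivity, fun B r s t hrs hrt hst p Fs hp hpJ hFs hdvd => ?_⟩
  have hCle : Cp p ≤ C0 :=
    hC0 ▸ Finset.single_le_sum (f := Cp) (fun p _ => (hCp p).le) (mem_range.2 (by omega))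
  have hY1 : (1 : ℝ) ≤ B.Y := by
    have := B.hY
    exact_mod_cast (by omega : 1 ≤ B.Y)
  have hY : (0 : ℝ) < B.Y := by linarith
  let fu : (Fin 3 → ℕ) → ℕ := fun n => B.y s * ∏ j ∈ Icc 1 J \ Fs, B.x s (n s) j ^ j
  let fm : (Fin 3 → ℕ) → ℕ := fun n => ∏ j ∈ Fs, B.x s (n s) j ^ (j / p)
  have hxpos : ∀ n ∈ B.S, ∀ j ∈ Icc 1 J, 0 < B.x s (n s) j := by
    intro n hn j hj
    have h1 := (B.box n hn s j hj).1
    have h2 := B.hP s j
    omega
  have hum : ∀ n ∈ B.S, fu n * fm n ^ p = n s := by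
    intro n hn
    conv_rhs => rw [B.dec n hn s]
    simp only [fu, fm]
    rw [← Finset.prod_sdiff hFs, ← Finset.prod_pow, mul_assoc]
    congr 2
    refine Finset.prod_congr rfl fun j hj => ?_
    rw [← pow_mul, Nat.div_mul_cancel (hdvd j hj)]
  let φ : (Fin 3 → ℕ) → ℕ × ℕ × ℕ × ℕ := fun n => (fu n, fm n, n t, n r)
  have hφ : (B.S.image φ).card = B.S.card := by
    refine Finset.card_image_of_injOn fun n hn n' hn' h => ?_
    simp only [φ, Prod.mk.injEq] at h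
    funext i
    exact third hrt (B.eqn n hn) (B.eqn n' hn') h.2.2.2 h.2.2.1
  have hmain := hF p hp B.Y (sg s) (sg t) (sg r) (B.S.image fu) (B.S.image fm)
    (B.S.image (fun n => n t)) (B.S.image (fun n => n r)) (B.S.image φ) hY1 (sg_cases s) (sg_cases t)
    (sg_cases r)
    (by
      intro b hb
      obtain ⟨n, hn, rfl⟩ := mem_image.1 hb
      exact ⟨row_pos B n hn t, by exact_mod_cast row_le B n hn t⟩)
    (by
      intro u hu
      obtain ⟨n, hn, rfl⟩ := mem_image.1 hu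
      exact Nat.mul_pos (B.hy s)
        (Finset.prod_pos fun j hj => Nat.pow_pos (hxpos n hn j (mem_sdiff.1 hj).1)))
    (by
      intro m hm
      obtain ⟨n, hn, rfl⟩ := mem_image.1 hm
      exact Finset.prod_pos fun j hj => Nat.pow_pos (hxpos n hn j (hFs hj)))
    (by
      intro q hq
      obtain ⟨n, hn, rfl⟩ := mem_image.1 hq
      refine ⟨mem_image_of_mem _ hn, mem_image_of_mem _ hn, mem_image_of_mem _ hn,
        mem_image_of_mem _ hn, ?_⟩
      have h1 : ((fu n : ℤ)) * (fm n : ℤ) ^ p = n s := by exact_mod_cast hum n hn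
      change sg s * (fu n : ℤ) * (fm n : ℤ) ^ p + sg t * (n t : ℤ) + sg r * (n r : ℤ) = 0
      rw [mul_assoc, h1]
      exact sg_eq hrs hrt hst n (B.eqn n hn))
  rw [hφ] at hmain
  have hU := card_image_le B s (Icc 1 J \ Fs) sdiff_subset fu (fun n hn n' hn' h => by
    simp only [fu]
    congr 1
    exact Finset.prod_congr rfl fun j hj => by rw [h j hj])
  have hM := card_image_le B s Fs hFs fm (fun n hn n' hn' h => by
    simp only [fm]
    exact Finset.prod_congr rfl fun j hj => by rw [h j hj])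
  have hB := card_row_le B t
  have hR := card_row_le B r
  have hsum : ms B.v s (Icc 1 J \ Fs) + ms B.v s Fs = ms B.v s (Icc 1 J) := by
    unfold ms
    exact Finset.sum_sdiff hFs
  unfold exF
  rw [← hsum]
  exact final_ineq _ _ _ _ _ ε (Cp p) C0 _ _ _ _ _ hY1 hε (hCp p).le hCle (Nat.cast_nonneg _)
    (Nat.cast_nonneg _) (Nat.cast_nonneg _) (Nat.cast_nonneg _) hU hM hB hR hmain

end Pool.Agent.P.MP_7aad9f_nt.Exc
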