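import Mathlib

/-! A small verified checker for a polyhedral cover (Farkas certificates at the leaves).
Linear forms in 18 variables are packed into pairs of naturals in base `2^96`. -/

namespace Pool.Agent.P.MP_7aad9f_nt.Exc.LP
open Finset

inductive E
  | un (k : ℕ)
  | add (a b : E)
  | sm (c : ℕ) (a : E)
  | neg (a : E)
  | zero

noncomputable def ev (x : ℕ → ℝ) : E → ℝ
  | .un k => x k
  | .add a b => ev x a + ev x b
  | .sm c a => c * ev x a
  | .neg a => - ev x a
  | .zero => 0

def BB : ℕ := 79228162514264337593543950336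

def pk : E → ℕ × ℕ
  | .un k => (Nat.pow BB k, 0)
  | .add a b => (Nat.add (pk a).1 (pk b).1, Nat.add (pk a).2 (pk b).2)
  | .sm c a => (Nat.mul c (pk a).1, Nat.mul c (pk a).2)
  | .neg a => ((pk a).2, (pk a).1)
  | .zero => (0, 0)

def bd : E → ℕ
  | .un k => cond (Nat.ble k 17) 1 BB
  | .add a b => Nat.add (bd a) (bd b)
  | .sm c a => Nat.mul c (bd a)
  | .neg a => bd a
  | .zero => 0

def rw (t : Fin 3) (c : ℕ → ℕ) : E :=
  .add (.sm (c 1) (.un (5 * t.val))) (.add (.sm (c 2) (.un (5 * t.val + 1)))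
    (.add (.sm (c 3) (.un (5 * t.val + 2))) (.add (.sm (c 4) (.un (5 * t.val + 3)))
      (.sm (c 5) (.un (5 * t.val + 4))))))

def mass (t : Fin 3) : E := rw t fun _ => 1
def mS (t : Fin 3) (K : ℕ) : E := rw t fun j => cond (K.testBit j) 1 0
def mN (t : Fin 3) (K : ℕ) : E := rw t fun j => cond (K.testBit j) 0 1
def wS (t : Fin 3) (K : ℕ) : E := rw t fun j => cond (K.testBit j) j 0
def wN (t : Fin 3) (K : ℕ) : E := rw t fun j => cond (K.testBit j) 0 j
def size (t : Fin 3) : E := cond (Nat.beq t.val 0) (.un 16) (.un 17)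
def th : E := .add (.sm 10 (.un 17)) (.sm 9 (.un 15))
def zf (r : Fin 3) (K : ℕ) : E :=
  cond (K.testBit 5) (.add (size r) (.neg (wN r K))) (wS r K)
def dg (c j : ℕ) : ℕ := c / 8 ^ (j - 1) % 8

inductive Rule
  | T (r : Fin 3)
  | C (r : Fin 3) (K p Fs Ft : ℕ)
  | F (r : Fin 3) (sw : Bool) (p : ℕ)
  | M (r : Fin 3) (K k0 ks kt : ℕ)

def bud (c j : ℕ) : ℕ := cond (Nat.beq (dg c j) 7) 0 (60 / dg c j)
def budS (c : ℕ) : ℕ := bud c 1 + bud c 2 + bud c 3 + bud c 4 + bud c 5
def cnd (u : Fin 3) (c k0 : ℕ) (z : E) (j : ℕ) : E :=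
  cond (Nat.beq (dg c j) 0) .zero
    (.add (.sm (cond (Nat.beq (dg c j) 7) k0 (dg c j)) (.un (5 * u.val + j - 1))) (.neg z))

def okF (p F : ℕ) : Bool :=
  [1, 2, 3, 4, 5].all fun j => !(F.testBit j) || (Nat.ble j 4 && Nat.beq (j % p) 0)

def Rule.ok : Rule → Bool
  | .T _ => true
  | .C _ _ p Fs Ft => Nat.ble 1 p && Nat.ble p 4 && okF p Fs && okF p Ft
  | .F _ _ p => Nat.ble 2 p && Nat.ble p 4
  | .M _ _ k0 ks kt => Nat.ble 1 k0 && (Nat.beq (dg ks 5) 0 || Nat.beq (dg ks 5) 7) &&
      (Nat.beq (dg kt 5) 0 || Nat.beq (dg kt 5) 7) && Nat.ble (budS ks + budS kt) 120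

def Rule.forms : Rule → List E
  | .T r => [.add (.sm 18 (.add (mass (r + 1)) (mass (r + 2)))) (.neg th)]
  | .C r K p Fs Ft =>
      [.add (.sm 18 (.add (mS r K) (.add (mN (r + 1) Fs) (mN (r + 2) Ft)))) (.neg th),
       .add (.sm p (.add (.sm 18 (.add (mS r K) (.add (mN (r + 1) Fs) (mN (r + 2) Ft)))) (.neg th)))
        (.sm 18 (.add (.add (wS (r + 1) Fs) (wS (r + 2) Ft))
          (.neg (.sm p (.add (zf r K) (.add (.un 17) (.neg (size r))))))))]
  | .F r sw p =>
      [.add (.sm 9 (.add (.add (rw (cond sw (r + 2) (r + 1))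
          fun j => cond (Nat.ble j 4 && Nat.beq (j % p) 0) 0 1) (mass r))
          (.add (mass (cond sw (r + 2) (r + 1))) (mass (cond sw (r + 1) (r + 2)))))) (.neg th),
       .add (.sm 9 (.add (.add (rw (cond sw (r + 2) (r + 1))
          fun j => cond (Nat.ble j 4 && Nat.beq (j % p) 0) 0 1) (mass r))
          (.sm 2 (mass (cond sw (r + 1) (r + 2)))))) (.neg th)]
  | .M r K k0 ks kt =>
      [.add (.add (.sm 18 (mS r K)) (.add (rw (r + 1) fun j => cond (Nat.beq (dg ks j) 0) 18 9)
          (rw (r + 2) fun j => cond (Nat.beq (dg kt j) 0) 18 9))) (.neg th),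
       .add (.sm (120 * (k0 + 1)) (.add (rw (r + 1) fun j => cond (Nat.beq (dg ks j) 7) 1 0)
          (rw (r + 2) fun j => cond (Nat.beq (dg kt j) 7) 1 0)))
          (.neg (.sm (2 * k0 * (120 - (budS ks + budS kt))) (zf r K))),
       cnd (r + 1) ks k0 (zf r K) 1, cnd (r + 1) ks k0 (zf r K) 2, cnd (r + 1) ks k0 (zf r K) 3,
       cnd (r + 1) ks k0 (zf r K) 4, cnd (r + 1) ks k0 (zf r K) 5,
       cnd (r + 2) kt k0 (zf r K) 1, cnd (r + 2) kt k0 (zf r K) 2, cnd (r + 2) kt k0 (zf r K) 3,
       cnd (r + 2) kt k0 (zf r K) 4, cnd (r + 2) kt k0 (zf r K) 5]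

def baseF : List E :=
  [.add (.add (mass 0) (.add (mass 1) (mass 2))) (.neg (.add (.un 15) (.un 17))),
   .add (.sm 5 (.un 15)) (.neg (.un 17)),
   .add (rw 0 fun j => j) (.neg (size 0)), .add (rw 1 fun j => j) (.neg (size 1)),
   .add (rw 2 fun j => j) (.neg (size 2)), .add (.un 16) (.neg (.un 17))]

/-! ### digits -/

def dig (n i : ℕ) : ℕ := n / BB ^ i % BB

lemma BB_pos : 0 < BB := by norm_num [BB]

lemma dig_succ (n i : ℕ) : dig n (i + 1) = dig (n / BB) i := by
  simp only [dig, Nat.div_div_eq_div_mul, pow_succ']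

lemma dig_lin (m : ℕ) (i : ℕ) : ∀ U P : ℕ, (∀ j ≤ i, dig U j + m * dig P j < BB) →
    dig (U + m * P) i = dig U i + m * dig P i := by
  induction i with
  | zero =>
    intro U P h
    have h0 := h 0 le_rfl
    simp only [dig, pow_zero, Nat.div_one] at h0 ⊢
    have e : U + m * P = (U % BB + m * (P % BB)) + BB * (U / BB + m * (P / BB)) := by
      conv_lhs => rw [← Nat.mod_add_div U BB, ← Nat.mod_add_div P BB]
      ring
    rw [e, Nat.add_mul_mod_self_left, Nat.mod_eq_of_lt h0]
  | succ i ih =>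
    intro U P h
    have h0 := h 0 (Nat.zero_le _)
    simp only [dig, pow_zero, Nat.div_one] at h0
    have e : U + m * P = (U % BB + m * (P % BB)) + BB * (U / BB + m * (P / BB)) := by
      conv_lhs => rw [← Nat.mod_add_div U BB, ← Nat.mod_add_div P BB]
      ring
    have e2 : (U + m * P) / BB = U / BB + m * (P / BB) := by
      rw [e, Nat.add_mul_div_left _ _ BB_pos, Nat.div_eq_of_lt h0, zero_add]
    rw [dig_succ, dig_succ, dig_succ, e2]
    refine ih _ _ fun j hj => ?_
    have := h (j + 1) (by omega)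
    rwa [dig_succ, dig_succ] at this

lemma dig_zero (i : ℕ) : dig 0 i = 0 := by simp [dig]

lemma dig_pow (k i : ℕ) : dig (BB ^ k) i = if i = k then 1 else 0 := by
  have h1 : 1 < BB := by norm_num [BB]
  unfold dig
  rcases lt_trichotomy i k with h | h | h
  · rw [if_neg h.ne, Nat.pow_div h.le BB_pos]
    exact Nat.mod_eq_zero_of_dvd (dvd_pow_self _ (by omega))
  · subst h
    rw [if_pos rfl, Nat.div_self (pow_pos BB_pos _), Nat.mod_eq_of_lt h1]
  · rw [if_neg h.ne', Nat.div_eq_of_lt (Nat.pow_lt_pow_right h1 h), Nat.zero_mod]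

/-- digits bounded by `M` -/
def Bd (q : ℕ × ℕ) (M : ℕ) : Prop := ∀ i < 18, dig q.1 i ≤ M ∧ dig q.2 i ≤ M

noncomputable def val (x : ℕ → ℝ) (q : ℕ × ℕ) : ℝ :=
  ∑ i ∈ range 18, ((dig q.1 i : ℝ) - dig q.2 i) * x i

lemma lin (x : ℕ → ℝ) (m : ℕ) (a q : ℕ × ℕ) (A Q : ℕ) (ha : Bd a A) (hq : Bd q Q)
    (h : A + m * Q < BB) :
    Bd (a.1 + m * q.1, a.2 + m * q.2) (A + m * Q) ∧
      val x (a.1 + m * q.1, a.2 + m * q.2) = val x a + m * val x q := by
  have k1 : ∀ i < 18, dig (a.1 + m * q.1) i = dig a.1 i + m * dig q.1 i := fun i hi =>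
    dig_lin m i _ _ fun j hj => lt_of_le_of_lt
      (add_le_add (ha j (by omega)).1 (Nat.mul_le_mul_left _ (hq j (by omega)).1)) h
  have k2 : ∀ i < 18, dig (a.2 + m * q.2) i = dig a.2 i + m * dig q.2 i := fun i hi =>
    dig_lin m i _ _ fun j hj => lt_of_le_of_lt
      (add_le_add (ha j (by omega)).2 (Nat.mul_le_mul_left _ (hq j (by omega)).2)) h
  refine ⟨fun i hi => ?_, ?_⟩
  · simp only [k1 i hi, k2 i hi]
    exact ⟨add_le_add (ha i hi).1 (Nat.mul_le_mul_left _ (hq i hi).1),
      add_le_add (ha i hi).2 (Nat.mul_le_mul_left _ (hq i hi).2)⟩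
  · simp only [val, Finset.mul_sum, ← Finset.sum_add_distrib]
    refine Finset.sum_congr rfl fun i hi => ?_
    rw [k1 i (Finset.mem_range.1 hi), k2 i (Finset.mem_range.1 hi)]
    push_cast; ring

lemma bd_zero : Bd (0, 0) 0 := fun i _ => by simp [dig_zero]
lemma val_zero (x : ℕ → ℝ) : val x (0, 0) = 0 := by simp [val, dig_zero]
lemma val_swap (x : ℕ → ℝ) (q : ℕ × ℕ) : val x (q.2, q.1) = - val x q := by
  simp only [val, ← Finset.sum_neg_distrib]
  exact Finset.sum_congr rfl fun i _ => by ring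
lemma bd_swap {q : ℕ × ℕ} {M : ℕ} (h : Bd q M) : Bd (q.2, q.1) M := fun i hi => (h i hi).symm
lemma Bd.mono {q : ℕ × ℕ} {M N : ℕ} (h : Bd q M) (hMN : M ≤ N) : Bd q N :=
  fun i hi => ⟨(h i hi).1.trans hMN, (h i hi).2.trans hMN⟩

lemma pk_sound (x : ℕ → ℝ) (e : E) (h : bd e < BB) : Bd (pk e) (bd e) ∧ val x (pk e) = ev x e := by
  induction e with
  | un k =>
    have hk : k ≤ 17 := by
      by_contra hk
      have : Nat.ble k 17 = false := by
        rw [← Bool.not_eq_true, Nat.ble_eq]; exact hk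
      simp [bd, this] at h
    have : Nat.ble k 17 = true := by simpa [Nat.ble_eq] using hk
    refine ⟨fun i _ => ?_, ?_⟩
    · simp only [pk, bd, this, cond_true, Nat.pow_eq, dig_pow, dig_zero]
      split_ifs <;> simp
    · simp only [pk, val, ev, Nat.pow_eq, dig_pow, dig_zero]
      rw [Finset.sum_eq_single k]
      · simp
      · intro i _ hi; simp [hi]
      · intro hk'; exact absurd (Finset.mem_range.2 (by omega)) hk'
  | add a b iha ihb =>
    simp only [bd, Nat.add_eq] at h
    have := lin x 1 (pk a) (pk b) _ _ (iha (by omega)).1 (ihb (by omega)).1 (by omega)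
    simp only [one_mul, Nat.cast_one] at this
    simpa [pk, bd, ev, (iha (by omega)).2, (ihb (by omega)).2] using this
  | sm c a ih =>
    simp only [bd, Nat.mul_eq] at h
    rcases Nat.eq_zero_or_pos c with rfl | hc
    · simpa [pk, bd, ev, val_zero] using bd_zero
    · have ha : bd a < BB := lt_of_le_of_lt (Nat.le_mul_of_pos_left _ hc) h
      have := lin x c (0, 0) (pk a) 0 _ bd_zero (ih ha).1 (by simpa using h)
      simpa [pk, bd, ev, val_zero, (ih ha).2] using this
  | neg a ih =>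
    exact ⟨bd_swap (ih h).1, by simp only [pk, ev, val_swap, (ih h).2]⟩
  | zero => exact ⟨bd_zero, val_zero x⟩

/-! ### the checker -/

def fN {β : Type} (n : ℕ) (k : ℕ → β) : β :=
  match n with
  | 0 => k 0
  | m + 1 => k (Nat.succ m)

@[simp] lemma fN_eq {β : Type} (n : ℕ) (k : ℕ → β) : fN n k = k n := by cases n <;> rfl

def fP {β : Type} : List E → (List (ℕ × ℕ) → β) → β
  | [], k => k []
  | a :: l, k => fN (pk a).1 fun u => fN (pk a).2 fun w => fP l fun l => k ((u, w) :: l)

@[simp] lemma fP_eq {β : Type} (l : List E) (k : List (ℕ × ℕ) → β) : fP l k = k (l.map pk) := by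
  induction l generalizing k with
  | nil => rfl
  | cons a l ih => simp [fP, ih]

def nth : List (ℕ × ℕ) → ℕ → ℕ × ℕ
  | [], _ => (0, 0)
  | a :: _, 0 => a
  | _ :: l, i + 1 => nth l i

def cmp : ℕ → ℕ → ℕ → Bool
  | 0, _, _ => true
  | n + 1, U, W => Nat.ble (Nat.mod U BB) (Nat.mod W BB) &&
      fN (Nat.div U BB) fun U => fN (Nat.div W BB) fun W => cmp n U W

def go (base ctx : List (ℕ × ℕ)) : ℕ → ℕ → ℕ → ℕ → Bool
  | 0, _, U, W => cmp 18 U W
  | n + 1, code, U, W =>
      fN (Nat.mod code 18446744073709551616) fun d =>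
        fN (Nat.div code 18446744073709551616) fun c' =>
        fN (Nat.mod d 64) fun i => fN (Nat.div d 64) fun m =>
          cond (Nat.ble 48 i)
            (fN (Nat.add U (Nat.mul m (nth base (Nat.sub i 48)).2)) fun U =>
              fN (Nat.add W (Nat.mul m (nth base (Nat.sub i 48)).1)) fun W => go base ctx n c' U W)
            (fN (Nat.add U (Nat.mul m (nth ctx i).1)) fun U =>
              fN (Nat.add W (Nat.mul m (nth ctx i).2)) fun W => go base ctx n c' U W)

def farkas (base ctx : List (ℕ × ℕ)) (n code : ℕ) : Bool :=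
  match ctx with
  | [] => false
  | f :: _ => fN (Nat.div (Nat.mod code 18446744073709551616) 64) fun m =>
      Nat.ble 1 m && Nat.ble n 60 &&
        go base ctx n (Nat.div code 18446744073709551616) (Nat.mul m f.1) (Nat.mul m f.2)

inductive Tr
  | leaf (n code : ℕ)
  | node (R : Rule) (ch : Tr)
  | cons (c rest : Tr)
  | nil

def Tr.chain : Tr → Bool
  | .cons _ _ => true
  | .nil => true
  | _ => false

def small (l : List E) : Bool := l.all fun e => Nat.ble (bd e) 1048576

def check (base : List (ℕ × ℕ)) : Tr → List (ℕ × ℕ) → List (ℕ × ℕ) → Bool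
  | .leaf n code, ctx, _ => farkas base ctx n code
  | .node R ch, ctx, _ => R.ok && small R.forms && fP R.forms fun fs => check base ch ctx fs
  | .cons c rest, ctx, pend =>
      match pend with
      | [] => false
      | f :: fs => !c.chain && check base c (f :: ctx) [] && check base rest ctx fs
  | .nil, _, pend => pend.isEmpty

lemma cmp_sound (n : ℕ) : ∀ U W : ℕ, cmp n U W = true → ∀ i < n, dig U i ≤ dig W i := by
  induction n with
  | zero => intro _ _ _ i hi; omega
  | succ n ih =>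
    intro U W h i hi
    simp only [cmp, fN_eq, Bool.and_eq_true, Nat.ble_eq] at h
    rcases i with _ | i
    · simp only [dig, pow_zero, Nat.div_one]; exact h.1
    · rw [dig_succ, dig_succ]; exact ih _ _ h.2 i (by omega)

lemma nth_prop (P : ℕ × ℕ → Prop) (h0 : P (0, 0)) (L : List (ℕ × ℕ)) (h : ∀ f ∈ L, P f) (i : ℕ) :
    P (nth L i) := by
  induction L generalizing i with
  | nil => exact h0
  | cons a l ih =>
    cases i with
    | zero => exact h a (by simp)
    | succ i => exact ih (fun f hf => h f (by simp [hf])) i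

lemma go_sound (x : ℕ → ℝ) (hx : ∀ i, 0 ≤ x i) (base ctx : List (ℕ × ℕ))
    (hb : ∀ f ∈ base, Bd f 1048576 ∧ val x f ≤ 0) (hc : ∀ f ∈ ctx, Bd f 1048576 ∧ 0 ≤ val x f)
    (n : ℕ) : ∀ (code U W A : ℕ), A + n * 2 ^ 78 < BB → Bd (U, W) A →
      go base ctx n code U W = true → val x (U, W) ≤ 0 := by
  induction n with
  | zero =>
    intro code U W A _ _ h
    refine Finset.sum_nonpos fun i hi => mul_nonpos_of_nonpos_of_nonneg ?_ (hx i)
    have := cmp_sound 18 U W h i (Finset.mem_range.1 hi)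
    have : (dig U i : ℝ) ≤ dig W i := by exact_mod_cast this
    simpa using this
  | succ n ih =>
    intro code U W A hA hB h
    simp only [go, fN_eq] at h
    set d := Nat.mod code 18446744073709551616 with hd
    have hdl : d < 18446744073709551616 := Nat.mod_lt _ (by norm_num)
    set m := Nat.div d 64 with hm
    have hml : m * 1048576 ≤ 2 ^ 78 := by
      have : m = d / 64 := hm
      omega
    have hlt2 : A + m * 1048576 + n * 2 ^ 78 < BB := by
      rw [add_mul, one_mul] at hA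
      exact lt_of_le_of_lt (by rw [add_assoc, add_comm (m * 1048576)]; gcongr) hA
    have hlt : A + m * 1048576 < BB := lt_of_le_of_lt (Nat.le_add_right _ _) hlt2
    cases hi : Nat.ble 48 (Nat.mod d 64) with
    | true =>
      rw [hi, cond_true] at h
      have hq := nth_prop (fun f => Bd f 1048576 ∧ val x f ≤ 0)
        ⟨bd_zero.mono (by norm_num), (val_zero x).le⟩ base hb (Nat.sub (Nat.mod d 64) 48)
      have hl := lin x m (U, W) (_, _) A _ hB (bd_swap hq.1) hlt
      have h2 := ih _ _ _ _ hlt2 hl.1 h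
      rw [hl.2, val_swap] at h2
      have := mul_nonneg (Nat.cast_nonneg (α := ℝ) m) (neg_nonneg.2 hq.2)
      linarith
    | false =>
      rw [hi, cond_false] at h
      have hq := nth_prop (fun f => Bd f 1048576 ∧ 0 ≤ val x f)
        ⟨bd_zero.mono (by norm_num), (val_zero x).ge⟩ ctx hc (Nat.mod d 64)
      have hl := lin x m (U, W) _ A _ hB hq.1 hlt
      have h2 := ih _ _ _ _ hlt2 hl.1 h
      rw [hl.2] at h2
      have := mul_nonneg (Nat.cast_nonneg (α := ℝ) m) hq.2
      linarith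

lemma farkas_sound (x : ℕ → ℝ) (hx : ∀ i, 0 ≤ x i) (base ctx : List (ℕ × ℕ))
    (hb : ∀ f ∈ base, Bd f 1048576 ∧ val x f ≤ 0) (hc : ∀ f ∈ ctx, Bd f 1048576 ∧ 0 < val x f)
    (n code : ℕ) (h : farkas base ctx n code = true) : False := by
  cases ctx with
  | nil => simp [farkas] at h
  | cons f ctx =>
    simp only [farkas, fN_eq, Bool.and_eq_true, Nat.ble_eq] at h
    set d := Nat.mod code 18446744073709551616 with hd
    have hdl : d < 18446744073709551616 := Nat.mod_lt _ (by norm_num)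
    set m := Nat.div d 64 with hm
    have hml : m * 1048576 ≤ 2 ^ 78 := by
      have : m = d / 64 := hm
      omega
    have hf := hc f (by simp)
    have hn := h.1.2
    have hl := lin x m (0, 0) f 0 _ bd_zero hf.1 (by unfold BB; omega)
    simp only [zero_add, val_zero] at hl
    have h2 := go_sound x hx base (f :: ctx) hb (fun g hg => ⟨(hc g hg).1, (hc g hg).2.le⟩) n _ _ _ _
      (by unfold BB; omega) hl.1 h.2
    have h3 : (0 : ℝ) < m := by exact_mod_cast h.1.1
    have h4 := mul_pos h3 hf.2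
    have h5 := hl.2
    linarith

/-- some rule applies at `x` -/
def Found (x : ℕ → ℝ) : Prop := ∃ R : Rule, R.ok = true ∧ ∀ f ∈ R.forms, ev x f ≤ 0

lemma small_sound (x : ℕ → ℝ) (l : List E) (h : small l = true) :
    ∀ e ∈ l, Bd (pk e) 1048576 ∧ val x (pk e) = ev x e := by
  intro e he
  simp only [small, List.all_eq_true, Nat.ble_eq] at h
  have h1 := h e he
  have := pk_sound x e (by unfold BB; omega)
  exact ⟨this.1.mono h1, this.2⟩

lemma check_sound (x : ℕ → ℝ) (hx : ∀ i, 0 ≤ x i) (base : List (ℕ × ℕ))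
    (hb : ∀ f ∈ base, Bd f 1048576 ∧ val x f ≤ 0) (T : Tr) (ctx pend : List (ℕ × ℕ))
    (hc : ∀ f ∈ ctx, Bd f 1048576 ∧ 0 < val x f) (hp : ∀ f ∈ pend, Bd f 1048576)
    (h : check base T ctx pend = true) :
    Found x ∨ (T.chain = true ∧ ∀ f ∈ pend, val x f ≤ 0) := by
  induction T generalizing ctx pend with
  | leaf n code => exact (farkas_sound x hx base ctx hb hc n code h).elim
  | node R ch ih =>
    simp only [check, fP_eq, Bool.and_eq_true] at h
    have hs := small_sound x _ h.1.2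
    rcases ih ctx _ hc (by
      intro f hf
      obtain ⟨e, he, rfl⟩ := List.mem_map.1 hf
      exact (hs e he).1) h.2 with h1 | h1
    · exact Or.inl h1
    · refine Or.inl ⟨R, h.1.1, fun f hf => ?_⟩
      rw [← (hs f hf).2]; exact h1.2 _ (List.mem_map_of_mem hf)
  | cons c rest ih1 ih2 =>
    cases pend with
    | nil => simp [check] at h
    | cons f fs =>
      simp only [check, Bool.and_eq_true, Bool.not_eq_eq_eq_not, Bool.not_true] at h
      by_cases hf : val x f ≤ 0
      · rcases ih2 ctx fs hc (fun g hg => hp g (by simp [hg])) h.2 with h1 | h1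
        · exact Or.inl h1
        · refine Or.inr ⟨rfl, fun g hg => ?_⟩
          rcases List.mem_cons.1 hg with rfl | hg
          · exact hf
          · exact h1.2 g hg
      · have hc' : ∀ g ∈ f :: ctx, Bd g 1048576 ∧ 0 < val x g := by
          intro g hg
          rcases List.mem_cons.1 hg with rfl | hg
          · exact ⟨hp _ (by simp), lt_of_not_ge hf⟩
          · exact hc g hg
        rcases ih1 (f :: ctx) [] hc' (by simp) h.1.2 with h1 | h1
        · exact Or.inl h1
        · rw [h.1.1] at h1; exact absurd h1.1 (by simp)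
  | nil =>
    refine Or.inr ⟨rfl, ?_⟩
    simp only [check, List.isEmpty_iff] at h
    simp [h]

/-- the statement proved for a subtree: in context `ctx` some rule applies -/
def Cov (ctx : List (ℕ × ℕ)) : Prop :=
  ∀ x : ℕ → ℝ, (∀ i, 0 ≤ x i) → (∀ f ∈ baseF, ev x f ≤ 0) →
    (∀ f ∈ ctx, Bd f 1048576 ∧ 0 < val x f) → Found x

def run (T : Tr) (ctx : List (ℕ × ℕ)) : Bool :=
  !T.chain && small baseF && fP baseF fun b => check b T ctx []

lemma cov_of_run (T : Tr) (ctx : List (ℕ × ℕ)) (h : run T ctx = true) : Cov ctx := by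
  intro x hx hb hc
  simp only [run, fP_eq, Bool.and_eq_true, Bool.not_eq_eq_eq_not, Bool.not_true] at h
  have hs := small_sound x _ h.1.2
  rcases check_sound x hx _ (by
    intro f hf
    obtain ⟨e, he, rfl⟩ := List.mem_map.1 hf
    exact ⟨(hs e he).1, (hs e he).2 ▸ hb e he⟩) T ctx [] hc (by simp) h.2 with h1 | h1
  · exact h1
  · rw [h.1.1] at h1; exact absurd h1.1 (by simp)

/-- gluing: a rule whose packed forms are `fs` and a cover of each branch -/
def nodeOk (R : Rule) (fs : List (ℕ × ℕ)) : Bool :=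
  R.ok && small R.forms && decide (R.forms.map pk = fs)

lemma cov_node (R : Rule) (fs ctx : List (ℕ × ℕ)) (h : nodeOk R fs = true)
    (hch : ∀ f ∈ fs, Cov (f :: ctx)) : Cov ctx := by
  intro x hx hb hc
  simp only [nodeOk, Bool.and_eq_true, decide_eq_true_eq] at h
  have hs := small_sound x _ h.1.2
  by_cases hall : ∀ e ∈ R.forms, ev x e ≤ 0
  · exact ⟨R, h.1.1, hall⟩
  · push Not at hall
    obtain ⟨e, he, hpos⟩ := hall
    refine hch (pk e) (h.2 ▸ List.mem_map_of_mem he) x hx hb fun g hg => ?_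
    rcases List.mem_cons.1 hg with rfl | hg
    · exact ⟨(hs e he).1, (hs e he).2 ▸ hpos⟩
    · exact hc g hg

def AllCov (ctx : List (ℕ × ℕ)) : List (ℕ × ℕ) → Prop
  | [] => True
  | f :: l => Cov (f :: ctx) ∧ AllCov ctx l

lemma cov_glue (R : Rule) (fs ctx : List (ℕ × ℕ)) (h : nodeOk R fs = true) (hch : AllCov ctx fs) :
    Cov ctx := by
  refine cov_node R fs ctx h ?_
  clear h
  induction fs with
  | nil => simp
  | cons f l ih =>
    intro g hg
    rcases List.mem_cons.1 hg with rfl | hg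
    · exact hch.1
    · exact ih hch.2 g hg

end Pool.Agent.P.MP_7aad9f_nt.Exc.LP
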