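import Pool.Agent.P.MP_7aad9f_nt.ExcDiv

/-! Exceptional set in the abc conjecture: the multiplicative character bound. -/

namespace Pool.Agent.P.MP_7aad9f_nt.Exc
open Finset Fintype

namespace ExcM

section Abstract
variable {A β : Type} [AddCommGroup A] [Fintype A] [DecidableEq A]

omit [Fintype A] [DecidableEq A] in
theorem char_sum {ι : Type} (s : Finset ι) (ψ : AddChar A ℂ) (f : ι → A) :
    ψ (∑ i ∈ s, f i) = ∏ i ∈ s, ψ (f i) := by
  classical
  induction s using Finset.induction_on with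
  | empty => simp
  | insert a s h ih => rw [sum_insert h, prod_insert h, ψ.map_add_eq_mul, ih]

theorem count_eq {ι : Type} [Fintype ι] [DecidableEq ι] (T : ι → Finset β) (φ : ι → β → A)
    (g : A) : ∑ ψ : AddChar A ℂ, ψ (-g) * ∏ i, ∑ y ∈ T i, ψ (φ i y) =
      (card A : ℂ) * ((piFinset T).filter fun x => ∑ i, φ i (x i) = g).card := by
  simp only [prod_univ_sum, mul_sum, ← char_sum, ← AddChar.map_add_eq_mul]
  rw [sum_comm]
  simp only [AddChar.sum_apply_eq_ite, neg_add_eq_zero, eq_comm (a := g)]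
  rw [← sum_filter, sum_const, nsmul_eq_mul, mul_comm]

theorem moment_le (T : Finset β) (φ : β → A) (k : ℕ) (W : ℝ)
    (hW : ∀ c, (((piFinset fun _ : Fin k => T).filter fun x => ∑ l, φ (x l) = c).card : ℝ) ≤ W) :
    ∑ ψ : AddChar A ℂ, ‖∑ y ∈ T, ψ (φ y)‖ ^ (2 * k) ≤ card A * (T.card ^ k * W) := by
  have h : ((∑ ψ : AddChar A ℂ, ‖∑ y ∈ T, ψ (φ y)‖ ^ (2 * k) : ℝ) : ℂ) =
      ((∑ x' ∈ piFinset fun _ : Fin k => T, card A * ((piFinset fun _ : Fin k => T).filter
        fun x => ∑ l, φ (x l) = ∑ l, φ (x' l)).card : ℝ) : ℂ) := by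
    push_cast
    simp only [← count_eq (fun _ : Fin k => T) fun _ => φ]
    rw [sum_comm]
    refine sum_congr rfl fun ψ _ => ?_
    rw [← sum_mul, pow_mul, ← Complex.conj_mul', mul_pow, prod_const, card_univ, Fintype.card_fin,
      map_sum, sum_pow']
    simp only [AddChar.map_neg_eq_conj, char_sum, map_prod]
  rw [Complex.ofReal_injective h, ← mul_sum]
  refine mul_le_mul_of_nonneg_left ((sum_le_card_nsmul _ _ W fun x _ => hW _).trans_eq ?_)
    (by positivity)
  simp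

theorem count_le {ι : Type} [Fintype ι] [DecidableEq ι] (T : ι → Finset β) (φ : ι → β → A)
    (g : A) (k : ι → ℕ) (P : ι → ℝ) (W : ℝ) (hW : 1 ≤ W) (hP : ∀ i, 0 < P i)
    (hT : ∀ i, ((T i).card : ℝ) ≤ P i) (hk : ∑ i, (1 : ℝ) / (2 * k i) ≤ 1)
    (hM : ∀ i c, (((piFinset fun _ : Fin (k i) => T i).filter
      fun x => ∑ l, φ i (x l) = c).card : ℝ) ≤ W) :
    (((piFinset T).filter fun x => ∑ i, φ i (x i) = g).card : ℝ) ≤
      W * ∏ i, (if k i = 0 then P i else Real.sqrt (P i)) := by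
  have hA : (0 : ℝ) < card A := by exact_mod_cast Fintype.card_pos
  have hW0 : 0 < W := one_pos.trans_le hW
  set w : ι → ℝ := fun i => 1 / (2 * k i) with hw
  have hw0 : ∀ i, 0 ≤ w i := fun i => by positivity
  let f : AddChar A ℂ → ι → ℝ := fun ψ i => ‖∑ y ∈ T i, ψ (φ i y)‖ ^ (2 * k i) / (P i ^ k i * W)
  have hf0 : ∀ ψ i, 0 ≤ f ψ i := fun ψ i => by have := hP i; positivity
  have h1 : ∀ ψ i, ‖∑ y ∈ T i, ψ (φ i y)‖ ≤
      (if k i = 0 then P i else Real.sqrt (P i)) * W ^ w i * f ψ i ^ w i := by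
    intro ψ i
    have hPi := hP i
    split_ifs with h
    · simp only [hw, h, Nat.cast_zero, mul_zero, div_zero, Real.rpow_zero, mul_one]
      refine (norm_sum_le _ _).trans (le_trans (le_of_eq ?_) (hT i))
      simp
    · have hk0 : (k i : ℝ) ≠ 0 := by exact_mod_cast h
      have e1 : (‖∑ y ∈ T i, ψ (φ i y)‖ ^ (2 * k i)) ^ w i = ‖∑ y ∈ T i, ψ (φ i y)‖ := by
        rw [← Real.rpow_natCast, ← Real.rpow_mul (norm_nonneg _), hw]
        push_cast
        rw [mul_one_div_cancel (by positivity), Real.rpow_one]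
      have e2 : (P i ^ k i) ^ w i = Real.sqrt (P i) := by
        rw [← Real.rpow_natCast, ← Real.rpow_mul hPi.le, Real.sqrt_eq_rpow, hw]
        congr 1
        field_simp
      have := Real.sqrt_pos.2 hPi
      have := Real.rpow_pos_of_pos hW0 (w i)
      rw [Real.div_rpow (by positivity) (by positivity), Real.mul_rpow (by positivity) hW0.le,
        e1, e2]
      apply le_of_eq
      field_simp
  have h2 : ∀ ψ, ∏ i, f ψ i ^ w i ≤ ∑ i, w i * f ψ i + (1 - ∑ i, w i) := fun ψ => by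
    have := Real.geom_mean_le_arith_mean_weighted (univ : Finset (Option ι))
      (fun o => o.elim (1 - ∑ i, w i) w) (fun o => o.elim 1 (f ψ))
      (fun o _ => by cases o; exacts [sub_nonneg.2 hk, hw0 _]) (by simp)
      fun o _ => by cases o; exacts [zero_le_one, hf0 _ _]
    simpa [add_comm] using this
  set Q := ∏ i, (if k i = 0 then P i else Real.sqrt (P i))
  have hQ : 0 ≤ Q := prod_nonneg fun i _ => by have := hP i; positivity
  have h3 : ∀ ψ : AddChar A ℂ, ‖ψ (-g) * ∏ i, ∑ y ∈ T i, ψ (φ i y)‖ ≤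
      W * Q * (∑ i, w i * f ψ i + (1 - ∑ i, w i)) := fun ψ => by
    rw [norm_mul, AddChar.norm_apply, one_mul, norm_prod]
    refine (prod_le_prod (fun i _ => norm_nonneg _) fun i _ => h1 ψ i).trans ?_
    rw [prod_mul_distrib, prod_mul_distrib, ← Real.rpow_sum_of_pos hW0, mul_comm W]
    refine mul_le_mul (mul_le_mul_of_nonneg_left ?_ hQ) (h2 ψ)
      (prod_nonneg fun i _ => Real.rpow_nonneg (hf0 _ _) _) (by positivity)
    simpa using Real.rpow_le_rpow_of_exponent_le hW hk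
  have h4 : ∀ i, ∑ ψ, f ψ i ≤ card A := fun i => by
    have := hP i
    rw [← sum_div, div_le_iff₀ (by positivity)]
    refine (moment_le (T i) (φ i) (k i) W (hM i)).trans ?_
    gcongr
    exact hT i
  have h5 := (norm_sum_le _ _).trans (sum_le_sum fun ψ (_ : ψ ∈ univ) => h3 ψ)
  rw [count_eq, norm_mul, Complex.norm_natCast, Complex.norm_natCast, ← mul_sum, sum_add_distrib,
    sum_comm, sum_const, card_univ, AddChar.card_eq, nsmul_eq_mul] at h5
  refine le_of_mul_le_mul_left (h5.trans ?_) hA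
  rw [mul_comm (card A : ℝ) (W * Q)]
  refine mul_le_mul_of_nonneg_left ?_ (by positivity)
  have : ∑ i, ∑ ψ, w i * f ψ i ≤ ∑ i, w i * card A :=
    sum_le_sum fun i _ => by rw [← mul_sum]; exact mul_le_mul_of_nonneg_left (h4 i) (hw0 i)
  rw [← sum_mul] at this
  linarith

end Abstract

theorem card_le_real {α β : Type} [DecidableEq β] (s : Finset α) (f : α → β) (t : Finset β)
    (ht : ∀ x ∈ s, f x ∈ t) (c : ℝ) (h : ∀ b ∈ t, ((s.filter fun x => f x = b).card : ℝ) ≤ c) :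
    (s.card : ℝ) ≤ t.card * c := by
  rw [card_eq_sum_card_fiberwise (f := f) (t := t) fun x hx => ht x hx]
  push_cast
  simpa using sum_le_card_nsmul _ _ c h

/-- The unit attached to a number coprime to the modulus. -/
noncomputable def un (ζ y : ℕ) : (ZMod ζ)ˣ :=
  if h : Nat.Coprime y ζ then ZMod.unitOfCoprime y h else 1

theorem un_val {ζ y : ℕ} (h : Nat.Coprime y ζ) : (un ζ y : ZMod ζ) = y := by
  rw [un, dif_pos h, ZMod.coe_unitOfCoprime]

theorem fibre_le (J Kmax : ℕ) (ε : ℝ) (hε : 0 < ε) : ∃ C : ℝ, 1 ≤ C ∧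
    ∀ (ζ P j k : ℕ) (X D : ℝ), 1 ≤ ζ → (ζ : ℝ) ≤ X → j ≤ J → 1 ≤ j → k ≤ Kmax → 1 ≤ P →
      (P : ℝ) ≤ X → 1 ≤ D → (P : ℝ) ^ k ≤ D * ζ → ∀ F : Finset (Fin k → ℕ),
      (∀ x ∈ F, ∀ l, P ≤ x l ∧ x l < 2 * P ∧ Nat.Coprime (x l) ζ) →
      (∀ x ∈ F, ∀ x' ∈ F, (∏ l, un ζ (x l)) ^ j = (∏ l, un ζ (x' l)) ^ j) →
      (F.card : ℝ) ≤ C * D * X ^ ε := by
  classical
  obtain ⟨Cr, hCr0, hCr⟩ := card_roots_le J.factorial J.factorial_pos (ε / 2) (by positivity)
  choose Ct hCt0 hCt using fun k => card_tuples_le k (ε / 2 / (Kmax + 1)) (by positivity)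
  have hS : 0 ≤ ∑ k ∈ range (Kmax + 1), Ct k := sum_nonneg fun k _ => (hCt0 k).le
  refine ⟨1 + Cr * (2 ^ Kmax + 1) * ((∑ k ∈ range (Kmax + 1), Ct k) * 2 ^ (ε / 2)),
    le_add_of_nonneg_right (by positivity), ?_⟩
  intro ζ P j k X D hζ hζX hjJ hj hk hP hPX hD hPD F hF hF'
  have hζ0 : (0 : ℝ) < ζ := by exact_mod_cast hζ
  have hX : 1 ≤ X := le_trans (by exact_mod_cast hζ) hζX
  rcases F.eq_empty_or_nonempty with rfl | ⟨x₀, hx₀⟩
  · simp only [Finset.card_empty, Nat.cast_zero]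
    positivity
  have : NeZero ζ := ⟨by omega⟩
  have hm : ∀ x ∈ F, ∏ l, x l ≤ (2 * P) ^ k := fun x hx => by
    simpa using prod_le_pow_card univ x (2 * P) fun l _ => (hF x hx l).2.1.le
  have h1 := card_le_real F (fun x => ((∏ l, un ζ (x l)) / ∏ l, un ζ (x₀ l), (∏ l, x l) / ζ))
    ((univ.filter fun ω => ω ^ J.factorial = 1) ×ˢ range ((2 * P) ^ k / ζ + 1))
    (fun x hx => by
      obtain ⟨a, ha⟩ := Nat.dvd_factorial hj hjJ
      simp only [mem_product, mem_filter, mem_univ, true_and, mem_range, Nat.lt_succ_iff]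
      refine ⟨?_, Nat.div_le_div_right (hm x hx)⟩
      rw [ha, pow_mul, div_pow, hF' x hx x₀ hx₀, div_self', one_pow])
    ((∑ k ∈ range (Kmax + 1), Ct k) * 2 ^ (ε / 2) * X ^ (ε / 2)) fun b _ => by
      rcases (F.filter fun x => ((∏ l, un ζ (x l)) / ∏ l, un ζ (x₀ l), (∏ l, x l) / ζ) =
        b).eq_empty_or_nonempty with h | ⟨x₁, hx₁⟩
      · rw [h, Finset.card_empty, Nat.cast_zero]
        positivity
      obtain ⟨hx₁, hb⟩ := mem_filter.1 hx₁
      refine (hCt k (∏ l, x₁ l) (prod_ne_zero_iff.2 fun l _ => by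
        have := (hF x₁ hx₁ l).1; omega) _ fun x hx => ?_).trans ?_
      · obtain ⟨hx, hb'⟩ := mem_filter.1 hx
        obtain ⟨e1, e2⟩ := Prod.mk.inj (hb'.trans hb.symm)
        have e3 := congrArg Units.val (div_left_inj.1 e1)
        simp only [Units.coe_prod, un_val (hF x hx _).2.2, un_val (hF x₁ hx₁ _).2.2] at e3
        rw [← Nat.cast_prod, ← Nat.cast_prod, ZMod.natCast_eq_natCast_iff'] at e3
        rw [← Nat.div_add_mod (∏ l, x l) ζ, e2, e3, Nat.div_add_mod]
      rw [mul_assoc, ← Real.mul_rpow (by positivity) (by positivity)]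
      refine mul_le_mul (single_le_sum (fun k _ => (hCt0 k).le) (mem_range.2 (by omega))) ?_
        (by positivity) hS
      have e4 : ((∏ l, x₁ l : ℕ) : ℝ) ≤ (2 * X) ^ (Kmax + 1) := by
        refine le_trans (by exact_mod_cast hm x₁ hx₁ : _ ≤ ((2 : ℝ) * P) ^ k) ?_
        exact (pow_le_pow_left₀ (by positivity) (by linarith) k).trans
          (pow_le_pow_right₀ (by linarith) (by omega))
      refine (Real.rpow_le_rpow (by positivity) e4 (by positivity)).trans_eq ?_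
      rw [← Real.rpow_natCast, ← Real.rpow_mul (by positivity)]
      congr 1
      push_cast
      field_simp
  have h2 := hCr ζ hζ (univ.filter fun ω => ω ^ J.factorial = 1) fun ω h => (mem_filter.1 h).2
  have h3 : (((2 * P) ^ k / ζ + 1 : ℕ) : ℝ) ≤ (2 ^ Kmax + 1) * D := by
    have e1 : (((2 * P) ^ k / ζ : ℕ) : ℝ) ≤ 2 ^ Kmax * D := by
      refine Nat.cast_div_le.trans ?_
      rw [div_le_iff₀ hζ0, mul_assoc]
      push_cast
      rw [mul_pow]
      exact mul_le_mul (pow_le_pow_right₀ one_le_two hk) hPD (by positivity) (by positivity)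
    rw [Nat.cast_add, Nat.cast_one]
    linarith
  rw [card_product, Finset.card_range, Nat.cast_mul] at h1
  have h4 : (ζ : ℝ) ^ (ε / 2) ≤ X ^ (ε / 2) := Real.rpow_le_rpow hζ0.le hζX (by positivity)
  have h5 : X ^ ε = X ^ (ε / 2) * X ^ (ε / 2) := by
    rw [← Real.rpow_add (by linarith), add_halves]
  refine h1.trans (le_trans (mul_le_mul_of_nonneg_right (mul_le_mul (h2.trans
    (mul_le_mul_of_nonneg_left h4 hCr0.le)) h3 (by positivity) (by positivity))
    (by positivity)) ?_)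
  have : 0 ≤ D * X ^ ε := by positivity
  rw [h5] at this ⊢
  linarith

end ExcM

open ExcM in
theorem lemM (n J Kmax : ℕ) (ε : ℝ) (hε : 0 < ε) :
    ∃ C : ℝ, 0 < C ∧ ∀ (ι : Type) [Fintype ι] [DecidableEq ι], Fintype.card ι ≤ n →
      ∀ (side : ι → Bool) (j k P : ι → ℕ) (ζ α β : ℕ) (e : ℤ) (X D : ℝ) (S : Finset (ι → ℕ)),
      1 ≤ ζ → (ζ : ℝ) ≤ X → (e = 1 ∨ e = -1) → Nat.Coprime (α * β) ζ →
      (∀ i, 1 ≤ j i ∧ j i ≤ J) → (∀ i, k i ≤ Kmax) → (∑ i, (1 : ℝ) / (2 * k i) ≤ 1) →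
      (∀ i, 1 ≤ P i ∧ (P i : ℝ) ≤ X) → 1 ≤ D → (∀ i, (P i : ℝ) ^ k i ≤ D * ζ) →
      (∀ x ∈ S, (∀ i, P i ≤ x i ∧ x i < 2 * P i ∧ Nat.Coprime (x i) ζ) ∧
        (ζ : ℤ) ∣ α * ∏ i with side i = true, (x i : ℤ) ^ j i
          + e * β * ∏ i with side i = false, (x i : ℤ) ^ j i) →
      (S.card : ℝ) ≤ C * D * X ^ ε * ∏ i, (if k i = 0 then (P i : ℝ) else Real.sqrt (P i)) := by
  classical
  obtain ⟨C, hC, h⟩ := fibre_le J Kmax ε hε
  refine ⟨C, by linarith, ?_⟩
  intro ι _ _ _ side j k P ζ α β e X D S hζ hζX _ hα hj hk hk' hP hD hPD hS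
  have hX : 1 ≤ X := le_trans (by exact_mod_cast hζ) hζX
  rcases S.eq_empty_or_nonempty with rfl | ⟨x₀, hx₀⟩
  · simp only [Finset.card_empty, Nat.cast_zero]
    exact mul_nonneg (by positivity) (prod_nonneg fun i _ => by positivity)
  have : NeZero ζ := ⟨by omega⟩
  let φ : ι → ℕ → Additive (ZMod ζ)ˣ := fun i y =>
    Additive.ofMul (if side i = true then un ζ y ^ j i else (un ζ y ^ j i)⁻¹)
  have hφ : ∀ x : ι → ℕ, ∑ i, φ i (x i) = Additive.ofMul
      ((∏ i with side i = true, un ζ (x i) ^ j i) / ∏ i with side i = false, un ζ (x i) ^ j i) := by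
    intro x
    rw [← ofMul_prod, prod_ite, prod_inv_distrib, div_eq_mul_inv]
    simp
  have key : ∀ x ∈ S, (un ζ α * ∏ i with side i = true, un ζ (x i) ^ j i : (ZMod ζ)ˣ) =
      -(e * β : ZMod ζ) * (∏ i with side i = false, un ζ (x i) ^ j i : (ZMod ζ)ˣ) := by
    intro x hx
    have := (ZMod.intCast_zmod_eq_zero_iff_dvd _ ζ).2 (hS x hx).2
    push_cast at this
    simp only [Units.val_mul, Units.coe_prod, Units.val_pow_eq_pow_val, un_val ((hS x hx).1 _).2.2,
      un_val (Nat.Coprime.coprime_mul_right hα)]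
    linear_combination this
  refine le_trans ?_ (count_le (fun i => (Ico (P i) (2 * P i)).filter fun y => Nat.Coprime y ζ) φ
    (∑ i, φ i (x₀ i)) k (fun i => P i) (C * D * X ^ ε)
    (one_le_mul_of_one_le_of_one_le (one_le_mul_of_one_le_of_one_le hC hD)
      (Real.one_le_rpow hX hε.le)) (fun i => by exact_mod_cast (hP i).1) (fun i => ?_) hk'
    fun i c => h ζ (P i) (j i) (k i) X D hζ hζX (hj i).2 (hj i).1 (hk i) (hP i).1 (hP i).2 hD
      (hPD i) _ (fun x hx l => ?_) fun x hx x' hx' => ?_)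
  · refine Nat.cast_le.2 (card_le_card fun x hx => mem_filter.2 ⟨mem_piFinset.2 fun i => ?_, ?_⟩)
    · simpa [and_assoc] using (hS x hx).1 i
    rw [hφ, hφ, div_eq_div_iff_mul_eq_mul.2]
    refine mul_left_cancel (a := un ζ α) (Units.ext ?_)
    rw [← mul_assoc, ← mul_assoc, Units.val_mul, key x hx, Units.val_mul _ (∏ i with _, _),
      key x₀ hx₀]
    ring
  · refine Nat.cast_le.2 ((card_filter_le _ _).trans ?_)
    rw [Nat.card_Ico]
    omega
  · simpa [and_assoc] using mem_piFinset.1 (mem_filter.1 hx).1 l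
  · have := (mem_filter.1 hx).2.trans (mem_filter.1 hx').2.symm
    rw [← ofMul_prod, ← ofMul_prod] at this
    have := Additive.ofMul.injective this
    by_cases hs : side i = true
    · simpa [hs, prod_pow] using this
    · simpa [hs, prod_pow] using this

end Pool.Agent.P.MP_7aad9f_nt.Exc
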