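import Pool.Agent.P.MP_7aad9f_nt.ExcBoxLem

/-! Canonical decomposition of integers by exponent, and the reduction of the counting problem
to dyadic boxes. -/

namespace Pool.Agent.P.MP_7aad9f_nt.Exc.MainLem
open Finset

/-- product of the primes whose exponent in `m` is exactly `j` -/
def cx (m j : ℕ) : ℕ := ∏ p ∈ m.primeFactors with m.factorization p = j, p

/-- the part of `m` made of primes with exponent larger than `J` -/
def cy (J m : ℕ) : ℕ := ∏ p ∈ m.primeFactors with J < m.factorization p, p ^ m.factorization p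

lemma cx_pos (m j : ℕ) : 1 ≤ cx m j :=
  prod_pos fun _ hp => (Nat.prime_of_mem_primeFactors (mem_filter.1 hp).1).pos

lemma cy_pos (J m : ℕ) : 1 ≤ cy J m :=
  prod_pos fun _ hp => pow_pos (Nat.prime_of_mem_primeFactors (mem_filter.1 hp).1).pos _

lemma maps_to (J m : ℕ) : ∀ p ∈ m.primeFactors.filter (fun p => ¬ J < m.factorization p),
    m.factorization p ∈ Icc 1 J := by
  intro p hp
  obtain ⟨h1, h2⟩ := mem_filter.1 hp
  have h3 : m.factorization p ≠ 0 := by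
    rw [← Finsupp.mem_support_iff, Nat.support_factorization]; exact h1
  exact mem_Icc.2 ⟨by omega, by omega⟩

lemma filter_eq (J m : ℕ) {j : ℕ} (hj : j ∈ Icc 1 J) :
    (m.primeFactors.filter (fun p => ¬ J < m.factorization p)).filter
      (fun p => m.factorization p = j) = m.primeFactors.filter (fun p => m.factorization p = j) := by
  rw [filter_filter]
  refine filter_congr fun p _ => ?_
  have := mem_Icc.1 hj
  omega

lemma dec (J : ℕ) {m : ℕ} (hm : m ≠ 0) : m = cy J m * ∏ j ∈ Icc 1 J, cx m j ^ j := by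
  have h1 : ∏ p ∈ m.primeFactors, p ^ m.factorization p = m := 
    Nat.prod_factorization_pow_eq_self hm
  conv_lhs => rw [← h1, ← prod_filter_mul_prod_filter_not _ (fun p => J < m.factorization p)]
  unfold cy
  congr 1
  rw [← prod_fiberwise_of_maps_to (maps_to J m)]
  refine prod_congr rfl fun j hj => ?_
  rw [filter_eq J m hj]
  unfold cx
  rw [← prod_pow]
  exact prod_congr rfl fun p hp => by rw [(mem_filter.1 hp).2]

lemma prod_cx_le (J m : ℕ) : ∏ j ∈ Icc 1 J, cx m j ≤ ∏ p ∈ m.primeFactors, p := by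
  have h1 : ∏ j ∈ Icc 1 J, cx m j =
      ∏ p ∈ m.primeFactors.filter (fun p => ¬ J < m.factorization p), p := by
    rw [← prod_fiberwise_of_maps_to (maps_to J m)]
    refine prod_congr rfl fun j hj => ?_
    rw [filter_eq J m hj]; rfl
  rw [h1]
  exact prod_le_prod_of_subset_of_one_le' (filter_subset _ _)
    fun p hp _ => (Nat.prime_of_mem_primeFactors hp).pos

lemma cy_full (J m p : ℕ) (hp : p.Prime) (h : p ∣ cy J m) : p ^ (J + 1) ∣ cy J m := by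
  unfold cy at h ⊢
  obtain ⟨q, hq, hpq⟩ := (Prime.dvd_finsetProd_iff hp.prime _).1 h
  have hq1 := mem_filter.1 hq
  have hqp := Nat.prime_of_mem_primeFactors hq1.1
  have h2 : p = q := (Nat.prime_dvd_prime_iff_eq hp hqp).1 (hp.dvd_of_dvd_pow hpq)
  subst h2
  exact (pow_dvd_pow p hq1.2).trans (dvd_prod_of_mem (fun p => p ^ m.factorization p) hq)

lemma cy_le (J : ℕ) {m : ℕ} (hm : m ≠ 0) : cy J m ≤ m :=
  Nat.le_of_dvd (Nat.pos_of_ne_zero hm) ⟨_, dec J hm⟩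

lemma cx_le {m : ℕ} (hm : m ≠ 0) (j : ℕ) : cx m j ≤ m :=
  (prod_le_prod_of_subset_of_one_le' (filter_subset _ _)
    fun _ hp _ => (Nat.prime_of_mem_primeFactors hp).pos).trans
    (Nat.le_of_dvd (Nat.pos_of_ne_zero hm) (Nat.prod_primeFactors_dvd m))

lemma rad_mul {a b : ℕ} (h : Nat.Coprime a b) :
    ∏ p ∈ (a * b).primeFactors, p = (∏ p ∈ a.primeFactors, p) * ∏ p ∈ b.primeFactors, p := by
  rw [h.primeFactors_mul, prod_union h.disjoint_primeFactors]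

lemma log_le (η : ℝ) (hη : 0 < η) :
    ∃ C : ℝ, 0 < C ∧ ∀ X : ℕ, 1 ≤ X → ((Nat.log 2 X + 2 : ℕ) : ℝ) ≤ C * (X : ℝ) ^ η := by
  refine ⟨2 + 2 / η, by positivity, fun X hX => ?_⟩
  have hX1 : (1 : ℝ) ≤ X := by exact_mod_cast hX
  have h1 : (1 : ℝ) ≤ (X : ℝ) ^ η := Real.one_le_rpow hX1 hη.le
  have h2 : ((2 ^ Nat.log 2 X : ℕ) : ℝ) ≤ X := by
    exact_mod_cast Nat.pow_log_le_self 2 (by omega : X ≠ 0)
  have h3 : (Nat.log 2 X : ℝ) * Real.log 2 ≤ Real.log X := by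
    rw [← Real.log_pow]
    refine Real.log_le_log (by positivity) ?_
    exact_mod_cast h2
  have h4 := Real.log_le_rpow_div (by positivity : (0 : ℝ) ≤ X) hη
  have h5 := Real.log_two_gt_d9
  have h6 : (0 : ℝ) ≤ Nat.log 2 X := by positivity
  have h7 : (Nat.log 2 X : ℝ) ≤ 2 / η * (X : ℝ) ^ η := by
    have : (X : ℝ) ^ η / η = 1 / 2 * (2 / η * (X : ℝ) ^ η) := by field_simp
    nlinarith
  push_cast
  nlinarith

/-- the data fixing a dyadic box -/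
def key (J : ℕ) (n : Fin 3 → ℕ) : ℕ × (Fin 3 → ℕ) × (Fin 3 × (Icc 1 J) → ℕ) :=
  (Nat.clog 2 (n 2), fun t => cy J (n t), fun i => Nat.log 2 (cx (n i.1) i.2))

/-- the conditions satisfied by the triples -/
def Good (lam : ℝ) (X : ℕ) (n : Fin 3 → ℕ) : Prop :=
  (∀ t, 1 ≤ n t ∧ n t ≤ X) ∧ Nat.Coprime (n 0) (n 1) ∧ n 0 + n 1 = n 2 ∧ n 0 ≤ n 1 ∧
    ((∏ p ∈ (n 0 * n 1 * n 2).primeFactors, p : ℕ) : ℝ) ≤ (n 2 : ℝ) ^ lam

lemma clog_bounds {c : ℕ} (hc : 2 ≤ c) : c ≤ 2 ^ Nat.clog 2 c ∧ 2 ^ Nat.clog 2 c ≤ 2 * c := by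
  refine ⟨Nat.le_pow_clog one_lt_two c, ?_⟩
  have h1 := Nat.pow_pred_clog_lt_self one_lt_two (by omega : 1 < c)
  have h2 : 0 < Nat.clog 2 c := Nat.clog_pos one_lt_two (by omega)
  have h3 : 2 ^ Nat.clog 2 c = 2 * 2 ^ (Nat.clog 2 c).pred := by
    rw [← pow_succ']; congr 1; exact (Nat.succ_pred_eq_of_pos h2).symm
  omega

/-- the box attached to a fibre of `key` -/
def mkBox (J : ℕ) (lam : ℝ) (X : ℕ) (S : Finset (Fin 3 → ℕ)) (hS : ∀ n ∈ S, Good lam X n)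
    (n₀ : Fin 3 → ℕ) (hn₀ : n₀ ∈ S) : Box J where
  Y := 2 ^ Nat.clog 2 (n₀ 2)
  y := fun t => cy J (n₀ t)
  P := fun t j => 2 ^ Nat.log 2 (cx (n₀ t) j)
  x := fun _ m j => cx m j
  S := S.filter (fun n => key J n = key J n₀)
  hY := by
    obtain ⟨h1, -, h3, -⟩ := hS n₀ hn₀
    have := h1 0; have := h1 1
    have := (clog_bounds (c := n₀ 2) (by omega)).1
    omega
  hy := fun t => cy_pos J _
  hP := fun t j => Nat.one_le_two_pow
  dec := by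
    intro n hn t
    obtain ⟨hn1, hn2⟩ := mem_filter.1 hn
    have h : cy J (n t) = cy J (n₀ t) := congrFun (congrArg (fun z => z.2.1) hn2) t
    rw [← h]
    exact dec J (by have := ((hS n hn1).1 t).1; omega)
  box := by
    intro n hn t j hj
    obtain ⟨hn1, hn2⟩ := mem_filter.1 hn
    have h : Nat.log 2 (cx (n t) j) = Nat.log 2 (cx (n₀ t) j) :=
      congrFun (congrArg (fun z => z.2.2) hn2) (t, ⟨j, hj⟩)
    rw [← h]
    have h1 := cx_pos (n t) j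
    refine ⟨Nat.pow_log_le_self 2 (by omega), ?_⟩
    rw [← pow_succ']
    exact Nat.lt_pow_succ_log_self one_lt_two _
  eqn := fun n hn => (hS n (mem_filter.1 hn).1).2.2.1
  cop := fun n hn => (hS n (mem_filter.1 hn).1).2.1
  big := by
    intro n hn
    obtain ⟨hn1, hn2⟩ := mem_filter.1 hn
    have h : Nat.clog 2 (n 2) = Nat.clog 2 (n₀ 2) := congrArg (fun z => z.1) hn2
    obtain ⟨h1, -, h3, h4, -⟩ := hS n hn1
    rw [← h]
    have := h1 0; have := h1 1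
    exact ⟨h4, clog_bounds (by omega)⟩

lemma mkBox_ms (J : ℕ) (lam : ℝ) (hlam : 0 ≤ lam) (X : ℕ) (S : Finset (Fin 3 → ℕ))
    (hS : ∀ n ∈ S, Good lam X n) (n₀ : Fin 3 → ℕ) (hn₀ : n₀ ∈ S) :
    ms (mkBox J lam X S hS n₀ hn₀).v 0 (Icc 1 J) + ms (mkBox J lam X S hS n₀ hn₀).v 1 (Icc 1 J) +
      ms (mkBox J lam X S hS n₀ hn₀).v 2 (Icc 1 J) ≤ lam := by
  set B := mkBox J lam X S hS n₀ hn₀ with hB
  have hmem : n₀ ∈ B.S := mem_filter.2 ⟨hn₀, rfl⟩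
  have hY := BoxLem.Y_pos B
  apply BoxLem.le_of_rpow_le B
  rw [Real.rpow_add hY, Real.rpow_add hY, BoxLem.rpow_ms, BoxLem.rpow_ms, BoxLem.rpow_ms]
  have h1 : ∀ t, ∏ j ∈ Icc 1 J, B.P t j ≤ ∏ p ∈ (n₀ t).primeFactors, p := fun t =>
    (prod_le_prod' fun j hj => (B.box n₀ hmem t j hj).1).trans (prod_cx_le J (n₀ t))
  have h2 : ∏ p ∈ (n₀ 0 * n₀ 1 * n₀ 2).primeFactors, p = (∏ p ∈ (n₀ 0).primeFactors, p) *
      (∏ p ∈ (n₀ 1).primeFactors, p) * ∏ p ∈ (n₀ 2).primeFactors, p := by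
    rw [rad_mul (Nat.Coprime.mul_left (BoxLem.cop3 hmem (by decide)) (BoxLem.cop3 hmem (by decide))),
      rad_mul (BoxLem.cop3 hmem (by decide))]
  have h3 : (∏ j ∈ Icc 1 J, B.P 0 j) * (∏ j ∈ Icc 1 J, B.P 1 j) * (∏ j ∈ Icc 1 J, B.P 2 j) ≤
      ∏ p ∈ (n₀ 0 * n₀ 1 * n₀ 2).primeFactors, p := by
    rw [h2]
    exact Nat.mul_le_mul (Nat.mul_le_mul (h1 0) (h1 1)) (h1 2)
  have h4 := (hS n₀ hn₀).2.2.2.2
  have h5 : (n₀ 2 : ℝ) ^ lam ≤ (B.Y : ℝ) ^ lam :=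
    Real.rpow_le_rpow (by positivity) (by exact_mod_cast BoxLem.n_le hmem 2) hlam
  refine le_trans ?_ (h4.trans h5)
  exact_mod_cast h3

lemma card_keys (J : ℕ) (lam : ℝ) (X : ℕ) (S : Finset (Fin 3 → ℕ)) (hS : ∀ n ∈ S, Good lam X n) :
    ∃ Fu : Finset ℕ, (∀ y ∈ Fu, 1 ≤ y ∧ y ≤ X ∧ ∀ p : ℕ, p.Prime → p ∣ y → p ^ (J + 1) ∣ y) ∧
      (S.image (key J)).card ≤ (Nat.log 2 X + 2) ^ (3 * J + 1) * Fu.card ^ 3 := by
  classical
  refine ⟨(Icc 1 X).filter (fun y => ∀ p : ℕ, p.Prime → p ∣ y → p ^ (J + 1) ∣ y), ?_, ?_⟩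
  · intro y hy
    obtain ⟨h1, h2⟩ := mem_filter.1 hy
    exact ⟨(mem_Icc.1 h1).1, (mem_Icc.1 h1).2, h2⟩
  set Fu := (Icc 1 X).filter (fun y => ∀ p : ℕ, p.Prime → p ∣ y → p ^ (J + 1) ∣ y) with hFu
  have hsub : S.image (key J) ⊆ range (Nat.log 2 X + 2) ×ˢ Fintype.piFinset (fun _ : Fin 3 => Fu) ×ˢ
      Fintype.piFinset (fun _ : Fin 3 × (Icc 1 J) => range (Nat.log 2 X + 2)) := by
    intro w hw
    obtain ⟨n, hn, rfl⟩ := mem_image.1 hw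
    have h1 := (hS n hn).1
    refine mem_product.2 ⟨mem_range.2 ?_, mem_product.2 ⟨Fintype.mem_piFinset.2 fun t => ?_,
      Fintype.mem_piFinset.2 fun i => mem_range.2 ?_⟩⟩
    · show Nat.clog 2 (n 2) < _
      have h2 : Nat.clog 2 (n 2) ≤ Nat.log 2 X + 1 :=
        Nat.clog_le_of_le_pow ((h1 2).2.trans (Nat.lt_pow_succ_log_self one_lt_two X).le)
      omega
    · show cy J (n t) ∈ Fu
      have h2 := h1 t
      exact mem_filter.2 ⟨mem_Icc.2 ⟨cy_pos _ _, (cy_le J (by omega)).trans h2.2⟩,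
        fun p hp h => cy_full J _ p hp h⟩
    · show Nat.log 2 (cx (n i.1) i.2) < _
      have h2 := h1 i.1
      have h3 : Nat.log 2 (cx (n i.1) i.2) ≤ Nat.log 2 X :=
        Nat.log_mono_right ((cx_le (by omega) _).trans h2.2)
      omega
  refine (card_le_card hsub).trans (le_of_eq ?_)
  rw [card_product, card_product, Fintype.card_piFinset, Fintype.card_piFinset]
  simp only [card_range, prod_const, card_univ, Fintype.card_fin, Fintype.card_prod,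
    Fintype.card_coe, Nat.card_Icc, Nat.add_sub_cancel]
  ring

theorem good_bound (J : ℕ) (lam a η θ : ℝ) (hlam : 0 ≤ lam) (ha : 0 ≤ a) (hη : 0 < η)
    (C₁ : ℝ) (hC₁ : 0 < C₁)
    (hfull : ∀ X : ℕ, 1 ≤ X → ∀ S : Finset ℕ,
      (∀ y ∈ S, 1 ≤ y ∧ y ≤ X ∧ ∀ p : ℕ, p.Prime → p ∣ y → p ^ (J + 1) ∣ y) →
      (S.card : ℝ) ≤ C₁ * (X : ℝ) ^ θ)
    (C₂ : ℝ) (hC₂ : 0 < C₂)
    (hbox : ∀ B : Box J, ms B.v 0 (Icc 1 J) + ms B.v 1 (Icc 1 J) + ms B.v 2 (Icc 1 J) ≤ lam →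
      (B.S.card : ℝ) ≤ C₂ * (B.Y : ℝ) ^ a) :
    ∃ C : ℝ, 0 < C ∧ ∀ X : ℕ, 1 ≤ X → ∀ S : Finset (Fin 3 → ℕ), (∀ n ∈ S, Good lam X n) →
      (S.card : ℝ) ≤ C * (X : ℝ) ^ (η * (3 * J + 1 : ℕ) + θ * (3 : ℕ) + a) := by
  classical
  obtain ⟨C₀, hC₀, hlog⟩ := log_le η hη
  refine ⟨C₀ ^ (3 * J + 1) * C₁ ^ 3 * (C₂ * 2 ^ a), by positivity, fun X hX S hS => ?_⟩
  have hX0 : (0 : ℝ) < X := by exact_mod_cast hX
  have hfib : ∀ n₀ ∈ S, ((S.filter (fun n => key J n = key J n₀)).card : ℝ) ≤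
      C₂ * (2 ^ a * (X : ℝ) ^ a) := by
    intro n₀ hn₀
    have h := hbox (mkBox J lam X S hS n₀ hn₀) (mkBox_ms J lam hlam X S hS n₀ hn₀)
    refine le_trans h (mul_le_mul_of_nonneg_left ?_ hC₂.le)
    rw [← Real.mul_rpow (by norm_num) hX0.le]
    refine Real.rpow_le_rpow (by positivity) ?_ ha
    have h2 := ((mkBox J lam X S hS n₀ hn₀).big n₀ (mem_filter.2 ⟨hn₀, rfl⟩)).2.2
    have h3 := ((hS n₀ hn₀).1 2).2
    have h4 : (mkBox J lam X S hS n₀ hn₀).Y ≤ 2 * X := by omega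
    exact_mod_cast h4
  have h1 := BoxLem.card_le_fib S (key J) _ hfib
  obtain ⟨Fu, hFu, hk⟩ := card_keys J lam X S hS
  have h2 : ((S.image (key J)).card : ℝ) ≤
      (C₀ * (X : ℝ) ^ η) ^ (3 * J + 1) * (C₁ * (X : ℝ) ^ θ) ^ 3 := by
    calc ((S.image (key J)).card : ℝ)
        ≤ ((Nat.log 2 X + 2 : ℕ) : ℝ) ^ (3 * J + 1) * (Fu.card : ℝ) ^ 3 := by exact_mod_cast hk
      _ ≤ _ := by
        have := hlog X hX
        have := hfull X hX Fu hFu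
        gcongr
  refine h1.trans ((mul_le_mul_of_nonneg_right h2 (by positivity)).trans (le_of_eq ?_))
  rw [Real.rpow_add hX0, Real.rpow_add hX0, Real.rpow_mul_natCast hX0.le,
    Real.rpow_mul_natCast hX0.le]
  ring

open Classical in
theorem count_le (lam : ℝ) (X : ℕ) (b : ℝ)
    (h : ∀ S : Finset (Fin 3 → ℕ), (∀ n ∈ S, Good lam X n) → (S.card : ℝ) ≤ b) :
    (((Icc 1 X ×ˢ Icc 1 X ×ˢ Icc 1 X).filter (fun q : ℕ × ℕ × ℕ =>
          Nat.Coprime q.1 q.2.1 ∧ q.1 + q.2.1 = q.2.2 ∧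
          ((∏ p ∈ (q.1 * q.2.1 * q.2.2).primeFactors, p : ℕ) : ℝ) ≤ (q.2.2 : ℝ) ^ lam)).card : ℝ)
        ≤ 2 * b := by
  set T := (Icc 1 X ×ˢ Icc 1 X ×ˢ Icc 1 X).filter (fun q : ℕ × ℕ × ℕ =>
          Nat.Coprime q.1 q.2.1 ∧ q.1 + q.2.1 = q.2.2 ∧
          ((∏ p ∈ (q.1 * q.2.1 * q.2.2).primeFactors, p : ℕ) : ℝ) ≤ (q.2.2 : ℝ) ^ lam) with hT
  have hmem : ∀ q ∈ T, (1 ≤ q.1 ∧ q.1 ≤ X) ∧ (1 ≤ q.2.1 ∧ q.2.1 ≤ X) ∧ (1 ≤ q.2.2 ∧ q.2.2 ≤ X) ∧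
      Nat.Coprime q.1 q.2.1 ∧ q.1 + q.2.1 = q.2.2 ∧
          ((∏ p ∈ (q.1 * q.2.1 * q.2.2).primeFactors, p : ℕ) : ℝ) ≤ (q.2.2 : ℝ) ^ lam := by
    intro q hq
    obtain ⟨h1, h2⟩ := mem_filter.1 hq
    simp only [mem_product, mem_Icc] at h1
    exact ⟨h1.1, h1.2.1, h1.2.2, h2⟩
  have e1 := h ((T.filter (fun q => q.1 ≤ q.2.1)).image (fun q => ![q.1, q.2.1, q.2.2])) (by
    intro n hn
    obtain ⟨q, hq, rfl⟩ := mem_image.1 hn
    obtain ⟨hq1, hq2⟩ := mem_filter.1 hq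
    obtain ⟨h1, h2, h3, h4, h5, h6⟩ := hmem q hq1
    refine ⟨fun t => ?_, h4, h5, hq2, h6⟩
    fin_cases t
    exacts [h1, h2, h3])
  have e2 := h ((T.filter (fun q => ¬ q.1 ≤ q.2.1)).image (fun q => ![q.2.1, q.1, q.2.2])) (by
    intro n hn
    obtain ⟨q, hq, rfl⟩ := mem_image.1 hn
    obtain ⟨hq1, hq2⟩ := mem_filter.1 hq
    obtain ⟨h1, h2, h3, h4, h5, h6⟩ := hmem q hq1
    refine ⟨fun t => ?_, h4.symm, (add_comm _ _).trans h5, (not_le.1 hq2).le, ?_⟩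
    · fin_cases t
      exacts [h2, h1, h3]
    · rw [mul_comm q.1] at h6
      exact h6)
  rw [card_image_of_injective _ (by
    rintro ⟨a, b, c⟩ ⟨a', b', c'⟩ hq
    have h0 := congrFun hq 0
    have h1 := congrFun hq 1
    have h2 := congrFun hq 2
    simp at h0 h1 h2
    simp [h0, h1, h2])] at e1 e2
  have e3 : (T.card : ℝ) = (T.filter (fun q => q.1 ≤ q.2.1)).card +
      (T.filter (fun q => ¬ q.1 ≤ q.2.1)).card := by
    exact_mod_cast (card_filter_add_card_filter_not (s := T) (fun q => q.1 ≤ q.2.1)).symm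
  linarith

end Pool.Agent.P.MP_7aad9f_nt.Exc.MainLem
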