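import Pool.Agent.P.MP_7aad9f_nt.ExcC
import Pool.Agent.P.MP_7aad9f_nt.ExcF
import Pool.Agent.P.MP_7aad9f_nt.ExcCover
import Pool.Agent.P.MP_7aad9f_nt.ExcBoxM
import Pool.Agent.P.MP_7aad9f_nt.ExcMainLem

/-! The bound for one box and the main counting theorem. -/

namespace Pool.Agent.P.MP_7aad9f_nt.Exc
open Finset

theorem box_bound (J : ℕ) (hJ : 5 ≤ J) (ε : ℝ) (hε : 0 < ε) :
    ∃ C : ℝ, 0 < C ∧ ∀ (B : Box J) (lam : ℝ), 1 ≤ lam → lam ≤ 6 / 5 →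
      ms B.v 0 (Icc 1 J) + ms B.v 1 (Icc 1 J) + ms B.v 2 (Icc 1 J) ≤ lam →
      (B.S.card : ℝ) ≤ C * (B.Y : ℝ) ^ (lam / 2 + 1 / 18 + ε) := by
  obtain ⟨Kmax, hcov⟩ := cover_full J hJ (ε / 2) (by positivity)
  obtain ⟨C₁, hC₁, H₁⟩ := boxC J (ε / 2) (by positivity)
  obtain ⟨C₂, hC₂, H₂⟩ := boxF J (ε / 2) (by positivity)
  obtain ⟨C₃, hC₃, H₃⟩ := boxM J Kmax (ε / 2) (by positivity)
  refine ⟨1 + C₁ + C₂ + C₃, by positivity, fun B lam h1 h2 hms => ?_⟩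
  have hY := BoxLem.Y_pos B
  have fin : ∀ C a : ℝ, 0 < C → C ≤ 1 + C₁ + C₂ + C₃ → a ≤ lam / 2 + 1 / 18 + ε →
      (B.S.card : ℝ) ≤ C * (B.Y : ℝ) ^ a →
      (B.S.card : ℝ) ≤ (1 + C₁ + C₂ + C₃) * (B.Y : ℝ) ^ (lam / 2 + 1 / 18 + ε) := by
    intro C a hC hC' ha h
    exact h.trans (mul_le_mul hC' (BoxLem.rpow_mono B ha) (by positivity) (by positivity))
  rcases B.S.eq_empty_or_nonempty with hS | hS
  · rw [hS, card_empty, Nat.cast_zero]; positivity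
  obtain ⟨r, s, t, hrs, hrt, hst, h⟩ := hcov B.v B.σ lam (BoxLem.v_nonneg B)
    (BoxLem.σ_le_one hS) h1 h2 (BoxLem.wt_le_sz hS) hms
  rcases h with h | ⟨K, fl, p, Fs, Ft, hK, hp1, hpJ, hFs, hFt, hds, hdt, h⟩ |
    ⟨p, Fs, hp2, hpJ, hFs, hds, h⟩ | ⟨K, fl, k, hK, hadm, h⟩
  · exact fin 1 _ one_pos (by linarith) (by linarith : exT J B.v s t ≤ _)
      (by rw [one_mul]; exact boxT J B s t hst)
  · exact fin C₁ _ hC₁ (by linarith) (by linarith)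
      (H₁ B r s t hrs hrt hst K fl p Fs Ft hK hp1 hpJ hFs hFt hds hdt)
  · exact fin C₂ _ hC₂ (by linarith) (by linarith) (H₂ B r s t hrs hrt hst p Fs hp2 hpJ hFs hds)
  · exact fin C₃ _ hC₃ (by linarith) (by linarith) (H₃ B r s t hrs hrt hst K fl k hK hadm)

open Classical in
theorem main (lam : ℝ) (h1 : 1 ≤ lam) (h2 : lam ≤ 6 / 5) (ε : ℝ) (hε : 0 < ε) :
    ∃ C : ℝ, ∀ X : ℕ, 1 ≤ X →
      (((Icc 1 X ×ˢ Icc 1 X ×ˢ Icc 1 X).filter (fun q : ℕ × ℕ × ℕ =>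
          Nat.Coprime q.1 q.2.1 ∧ q.1 + q.2.1 = q.2.2 ∧
          ((∏ p ∈ (q.1 * q.2.1 * q.2.2).primeFactors, p : ℕ) : ℝ) ≤ (q.2.2 : ℝ) ^ lam)).card : ℝ)
        ≤ C * (X : ℝ) ^ (lam / 2 + 1 / 18 + ε) := by
  set J : ℕ := max 5 ⌈12 / ε⌉₊ with hJdef
  have hJ : 5 ≤ J := le_max_left _ _
  have hJ2 : 12 / ε ≤ (J : ℝ) + 1 := by
    have h3 : (⌈12 / ε⌉₊ : ℝ) ≤ J := by exact_mod_cast le_max_right 5 ⌈12 / ε⌉₊
    linarith [Nat.le_ceil (12 / ε)]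
  have hJ3 : 1 / ((J : ℝ) + 1) ≤ ε / 12 := by
    rw [div_le_iff₀ hε] at hJ2
    rw [div_le_div_iff₀ (by positivity) (by norm_num)]
    linarith
  obtain ⟨C₁, hC₁, H₁⟩ := card_full_le J (ε / 12) (by positivity)
  obtain ⟨C₂, hC₂, H₂⟩ := box_bound J hJ (ε / 4) (by positivity)
  obtain ⟨C, hC, H⟩ := MainLem.good_bound J lam (lam / 2 + 1 / 18 + ε / 4)
    (ε / 4 / ((3 * J + 1 : ℕ) : ℝ)) (1 / ((J : ℝ) + 1) + ε / 12) (by linarith) (by positivity)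
    (by positivity) C₁ hC₁ H₁ C₂ hC₂ (fun B hB => H₂ B lam h1 h2 hB)
  refine ⟨2 * C, fun X hX => ?_⟩
  refine (MainLem.count_le lam X _ (H X hX)).trans ?_
  rw [mul_assoc]
  have hX1 : (1 : ℝ) ≤ X := by exact_mod_cast hX
  have hexp : ε / 4 / ((3 * J + 1 : ℕ) : ℝ) * ((3 * J + 1 : ℕ) : ℝ) +
      (1 / ((J : ℝ) + 1) + ε / 12) * ((3 : ℕ) : ℝ) + (lam / 2 + 1 / 18 + ε / 4) ≤
      lam / 2 + 1 / 18 + ε := by
    rw [div_mul_cancel₀ _ (by positivity)]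
    push_cast
    linarith
  have := Real.rpow_le_rpow_of_exponent_le hX1 hexp
  gcongr

end Pool.Agent.P.MP_7aad9f_nt.Exc
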