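import Mathlib

set_option autoImplicit false

open MeasureTheory UnitAddTorus Finset
open scoped ComplexConjugate

noncomputable section

namespace Pool.Agent.P.MP_7aad9f_nt

attribute [local instance] instMeasureSpaceUnitAddCircle

instance instHaarUAC : Measure.IsAddHaarMeasure (volume : Measure UnitAddCircle) :=
  inferInstanceAs (Measure.IsAddHaarMeasure AddCircle.haarAddCircle)

instance instProbUAC : IsProbabilityMeasure (volume : Measure UnitAddCircle) :=
  inferInstanceAs (IsProbabilityMeasure AddCircle.haarAddCircle)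

variable {ι : Type} [Fintype ι]

lemma cont_integrable {E : Type} [NormedAddCommGroup E] {f : UnitAddTorus ι → E}
    (hf : Continuous f) : Integrable f :=
  hf.integrable_of_hasCompactSupport (HasCompactSupport.of_compactSpace f)

lemma mFourier_add_right (a : ι → ℤ) (x t : UnitAddTorus ι) :
    mFourier a (x + t) = mFourier a x * mFourier a t := by
  simp only [mFourier, ContinuousMap.coe_mk, Pi.add_apply, ← Finset.prod_mul_distrib]
  refine Finset.prod_congr rfl fun i _ => ?_
  simp only [fourier_apply, smul_add, AddCircle.toCircle_add, Circle.coe_mul]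

lemma norm_mFourier_apply (a : ι → ℤ) (x : UnitAddTorus ι) : ‖mFourier a x‖ = 1 := by
  simp only [mFourier, fourier_apply, ContinuousMap.coe_mk, norm_prod, Circle.norm_coe,
    Finset.prod_const_one]

lemma coeff_translate (G : UnitAddTorus ι → ℂ) (t : UnitAddTorus ι) (a : ι → ℤ) :
    mFourierCoeff (fun x => G (x + t)) a = mFourier a t * mFourierCoeff G a := by
  unfold mFourierCoeff
  rw [← integral_add_right_eq_self (fun x => mFourier (-a) x • G x) t, ← integral_const_mul]
  refine integral_congr_ae (ae_of_all _ fun x => ?_)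
  simp only [smul_eq_mul, mFourier_add_right]
  have h : mFourier a t * mFourier (-a) t = 1 := by
    rw [← mFourier_add, add_neg_cancel, mFourier_zero]; rfl
  linear_combination (-(mFourier (-a) x * G (x + t))) * h

lemma hasSum_autocorr (G : C(UnitAddTorus ι, ℂ)) (t : UnitAddTorus ι) :
    HasSum (fun a => ((‖mFourierCoeff G a‖ ^ 2 : ℝ) : ℂ) * mFourier a t)
      (∫ x, conj (G x) * G (x + t)) := by
  let G' : C(UnitAddTorus ι, ℂ) := ⟨fun x => G (x + t), by fun_prop⟩
  have h := hasSum_prod_mFourierCoeff (ContinuousMap.toLp 2 volume ℂ G)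
    (ContinuousMap.toLp 2 volume ℂ G')
  simp only [mFourierCoeff_toLp] at h
  have h2 : ∫ x, conj ((ContinuousMap.toLp 2 volume ℂ G) x) * (ContinuousMap.toLp 2 volume ℂ G') x
      = ∫ x, conj (G x) * G (x + t) := by
    refine integral_congr_ae ?_
    filter_upwards [ContinuousMap.coeFn_toLp (p := 2) (𝕜 := ℂ) volume G,
      ContinuousMap.coeFn_toLp (p := 2) (𝕜 := ℂ) volume G'] with x h1 h2
    rw [h1, h2]; rfl
  rw [h2] at h
  convert h using 2 with a
  have : mFourierCoeff G' a = mFourier a t * mFourierCoeff G a := coeff_translate G t a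
  rw [this, Complex.ofReal_pow, ← Complex.conj_mul']
  ring

lemma hasSum_sq (G : C(UnitAddTorus ι, ℂ)) :
    HasSum (fun a => ‖mFourierCoeff G a‖ ^ 2) (∫ x, ‖G x‖ ^ 2) := by
  have h := hasSum_sq_mFourierCoeff (ContinuousMap.toLp 2 volume ℂ G)
  simp only [mFourierCoeff_toLp] at h
  have h2 : ∫ x, ‖(ContinuousMap.toLp 2 volume ℂ G) x‖ ^ 2 = ∫ x, ‖G x‖ ^ 2 := by
    refine integral_congr_ae ?_
    filter_upwards [ContinuousMap.coeFn_toLp (p := 2) (𝕜 := ℂ) volume G] with x h1
    rw [h1]
  rwa [h2] at h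

/-- Upper bound for the smoothed autocorrelation. -/
lemma upper (G : UnitAddTorus ι → ℝ) (hG : Continuous G) (P : UnitAddTorus ι → ℝ)
    (hP : Continuous P) (κ : ℝ) (hκ : 0 ≤ κ) (hP1 : ∫ t, P t = 1)
    (hk : ∀ a : ι → ℤ, a ≠ 0 → mFourierCoeff (fun x => (G x : ℂ)) a ≠ 0 →
      ‖∫ t, mFourier a t * (P t : ℂ)‖ ≤ κ) :
    Integrable (fun t => (∫ x, G x * G (x + t)) * P t) ∧
    ∫ t, (∫ x, G x * G (x + t)) * P t ≤ (∫ x, G x) ^ 2 + κ * ∫ x, G x ^ 2 := by
  classical
  let Gc : C(UnitAddTorus ι, ℂ) := ⟨fun x => (G x : ℂ), by fun_prop⟩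
  set c : (ι → ℤ) → ℝ := fun a => ‖mFourierCoeff Gc a‖ ^ 2 with hc
  have hcs : HasSum c (∫ x, G x ^ 2) := by
    have := hasSum_sq Gc
    convert this using 3 with x
    simp [Gc]
  have hc0 : ∀ a, 0 ≤ c a := fun a => by positivity
  have hR : ∀ t, (((∫ x, G x * G (x + t) : ℝ)) : ℂ) = ∑' a, (c a : ℂ) * mFourier a t := by
    intro t
    rw [(hasSum_autocorr Gc t).tsum_eq, ← integral_complex_ofReal]
    refine integral_congr_ae (ae_of_all _ fun x => ?_)
    simp [Gc]
  have hRc : Continuous fun t => ∫ x, G x * G (x + t) := by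
    have h1 : Continuous fun t => ∑' a, (c a : ℂ) * mFourier a t := by
      refine continuous_tsum (u := c) (fun a => by fun_prop) hcs.summable fun a t => ?_
      rw [norm_mul, norm_mFourier_apply, mul_one, Complex.norm_real, Real.norm_of_nonneg (hc0 a)]
    have h2 : (fun t => ∫ x, G x * G (x + t)) = fun t => (∑' a, (c a : ℂ) * mFourier a t).re := by
      ext t; rw [← hR, Complex.ofReal_re]
    rw [h2]
    exact Complex.continuous_re.comp h1
  refine ⟨cont_integrable (hRc.mul hP), ?_⟩
  have hs := hasSum_integral_of_summable_integral_norm (μ := (volume : Measure (UnitAddTorus ι)))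
    (F := fun a t => (c a : ℂ) * mFourier a t * (P t : ℂ))
    (fun a => cont_integrable (by fun_prop)) (by
      refine (hcs.summable.mul_right (∫ t, ‖P t‖)).congr fun a => ?_
      rw [← integral_const_mul]
      refine integral_congr_ae (ae_of_all _ fun t => ?_)
      simp only [norm_mul, norm_mFourier_apply, mul_one, Complex.norm_real,
        Real.norm_of_nonneg (hc0 a)])
  have h3 : ∫ t, ∑' a, (c a : ℂ) * mFourier a t * (P t : ℂ) =
      ((∫ t, (∫ x, G x * G (x + t)) * P t : ℝ) : ℂ) := by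
    rw [← integral_complex_ofReal]
    refine integral_congr_ae (ae_of_all _ fun t => ?_)
    simp only [tsum_mul_right, ← hR]
    simp
  rw [h3] at hs
  have hs2 := Complex.reCLM.hasSum hs
  simp only [Complex.reCLM_apply, Complex.ofReal_re] at hs2
  have hb : HasSum (fun a => (if a = 0 then c 0 else 0) + κ * c a)
      (c 0 + κ * ∫ x, G x ^ 2) := (hasSum_ite_eq (0 : ι → ℤ) (c 0)).add (hcs.mul_left κ)
  have hc00 : c 0 = (∫ x, G x) ^ 2 := by
    simp only [hc, mFourierCoeff, neg_zero, mFourier_zero, ContinuousMap.one_apply, one_smul, Gc,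
      ContinuousMap.coe_mk]
    rw [integral_complex_ofReal]
    simp
  rw [← hc00]
  refine hasSum_le (fun a => ?_) hs2 hb
  have h4 : ∫ t, (c a : ℂ) * mFourier a t * (P t : ℂ) =
      (c a : ℂ) * ∫ t, mFourier a t * (P t : ℂ) := by
    rw [← integral_const_mul]
    exact integral_congr_ae (ae_of_all _ fun t => by ring)
  rw [h4, Complex.re_ofReal_mul]
  by_cases ha : a = 0
  · subst ha
    simp only [mFourier_zero, ContinuousMap.one_apply, one_mul, if_true]
    rw [integral_complex_ofReal, hP1]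
    have := mul_nonneg hκ (hc0 0)
    simp only [Complex.ofReal_re, mul_one]
    linarith
  · rw [if_neg ha, zero_add, mul_comm κ]
    by_cases hz : mFourierCoeff Gc a = 0
    · simp [hc, hz]
    · exact mul_le_mul_of_nonneg_left ((Complex.re_le_norm _).trans (hk a ha hz)) (hc0 a)

lemma rpow_sum_le {C : Type} (s : Finset C) (f : C → ℝ) (hf : ∀ c, 0 ≤ f c) {q : ℝ}
    (hq0 : 0 < q) (hq1 : q ≤ 1) : (∑ c ∈ s, f c) ^ q ≤ ∑ c ∈ s, f c ^ q := by
  classical
  induction s using Finset.induction_on with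
  | empty => simp [Real.zero_rpow hq0.ne']
  | insert a s ha ih =>
    rw [Finset.sum_insert ha, Finset.sum_insert ha]
    exact (Real.rpow_add_le_add_rpow (hf a) (Finset.sum_nonneg fun c _ => hf c) hq0.le hq1).trans
      (by linarith)

/-- The abstract spectral inequality. -/
theorem spectral {C : Type} [Fintype C] [AddCommGroup C] (θ : C → UnitAddTorus ι)
    (hθ : ∀ c c', θ (c + c') = θ c + θ c')
    (P : UnitAddTorus ι → ℝ) (hP : Continuous P) (hP0 : ∀ t, 0 ≤ P t) (hP1 : ∫ t, P t = 1)
    (κ : ℝ) (hκ : 0 ≤ κ)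
    (hk : ∀ a : ι → ℤ, a ≠ 0 → (∀ c, mFourier a (θ c) = 1) →
      ‖∫ t, mFourier a t * (P t : ℂ)‖ ≤ κ)
    (g : UnitAddTorus ι → ℝ) (hg : Continuous g) (hg0 : ∀ x, 0 ≤ g x)
    (h : UnitAddTorus ι → ℝ) (hh : Continuous h)
    (hgh : ∀ t, h t * ∫ x, g x ^ 2 ≤ ∫ x, g x * g (x + t))
    (p : ℝ) (hp1 : 1 ≤ p) (hp2 : p ≤ 2) :
    (Fintype.card C : ℝ) * ((∫ t, h t * P t) - κ) * ∫ x, g x ^ 2 ≤
      ((Fintype.card C : ℝ) * ∫ x, g x ^ p) ^ (2 / p) := by
  set M : ℝ := (Fintype.card C : ℝ) with hM
  set G : UnitAddTorus ι → ℝ := fun x => √(∑ c, g (x + θ c) ^ 2) with hG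
  have hGc : Continuous G := by
    rw [hG]; fun_prop
  have hG0 : ∀ x, 0 ≤ G x := fun x => Real.sqrt_nonneg _
  have hGinv : ∀ c x, G (x + θ c) = G x := by
    intro c x
    simp only [hG]
    congr 1
    rw [← Equiv.sum_comp (Equiv.addLeft c) (fun c' => g (x + θ c') ^ 2)]
    refine Finset.sum_congr rfl fun c' _ => ?_
    simp [hθ, add_assoc]
  have hsum : ∀ f : UnitAddTorus ι → ℝ, Continuous f →
      ∫ x, ∑ c, f (x + θ c) = M * ∫ x, f x := by
    intro f hf
    rw [integral_finsetSum _ fun c _ => cont_integrable (by fun_prop)]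
    simp only [integral_add_right_eq_self, Finset.sum_const, Finset.card_univ, nsmul_eq_mul, hM]
  have hG2 : ∫ x, G x ^ 2 = M * ∫ x, g x ^ 2 := by
    rw [← hsum (fun x => g x ^ 2) (by fun_prop)]
    refine integral_congr_ae (ae_of_all _ fun x => ?_)
    simp only [hG]
    exact Real.sq_sqrt (Finset.sum_nonneg fun c _ => sq_nonneg _)
  obtain ⟨hint, hup⟩ := upper G hGc P hP κ hκ hP1 (by
    intro a ha hne
    refine hk a ha fun c => ?_
    have := coeff_translate (fun x => (G x : ℂ)) (θ c) a
    simp only [hGinv] at this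
    exact mul_right_cancel₀ hne (by rw [← this, one_mul]))
  have hlow : M * (∫ t, h t * P t) * ∫ x, g x ^ 2 ≤ ∫ t, (∫ x, G x * G (x + t)) * P t := by
    have e : M * (∫ t, h t * P t) * ∫ x, g x ^ 2 = ∫ t, (M * (h t * ∫ x, g x ^ 2)) * P t := by
      generalize (∫ x, g x ^ 2) = I
      rw [← integral_const_mul, ← integral_mul_const]
      exact integral_congr_ae (ae_of_all _ fun t => by ring)
    rw [e]
    refine integral_mono (cont_integrable (by fun_prop)) hint fun t => ?_
    refine mul_le_mul_of_nonneg_right ?_ (hP0 t)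
    calc M * (h t * ∫ x, g x ^ 2) ≤ M * ∫ x, g x * g (x + t) :=
          mul_le_mul_of_nonneg_left (hgh t) (by positivity)
      _ = ∫ x, ∑ c, g (x + θ c) * g (x + θ c + t) :=
          (hsum (fun x => g x * g (x + t)) (by fun_prop)).symm
      _ ≤ ∫ x, G x * G (x + t) := by
          refine integral_mono (cont_integrable (by fun_prop)) (cont_integrable (by fun_prop))
            fun x => ?_
          have := Real.sum_mul_le_sqrt_mul_sqrt Finset.univ (fun c => g (x + θ c))
            (fun c => g (x + t + θ c))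
          simp only [add_right_comm x _ t]
          exact this
  have hp0 : 0 < p := by linarith
  have hgp : Continuous fun x => g x ^ p := hg.rpow_const fun x => Or.inr hp0.le
  have hJ : (∫ x, G x) ^ p ≤ M * ∫ x, g x ^ p := by
    have h1 : (∫ x, G x) ^ p ≤ ∫ x, G x ^ p :=
      (convexOn_rpow hp1).map_integral_le (f := G) (μ := volume)
        (Real.continuous_rpow_const hp0.le).continuousOn isClosed_Ici
        (ae_of_all _ hG0) (cont_integrable hGc)
        (cont_integrable (hGc.rpow_const fun x => Or.inr hp0.le))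
    refine h1.trans ?_
    rw [← hsum _ hgp]
    refine integral_mono (cont_integrable (hGc.rpow_const fun x => Or.inr hp0.le))
      (cont_integrable (continuous_finsetSum _ fun c _ => hgp.comp (by fun_prop))) fun x => ?_
    simp only [hG]
    rw [Real.sqrt_eq_rpow, ← Real.rpow_mul (Finset.sum_nonneg fun c _ => sq_nonneg _)]
    refine (rpow_sum_le _ _ (fun c => sq_nonneg _) (by positivity) (by linarith)).trans
      (le_of_eq ?_)
    refine Finset.sum_congr rfl fun c _ => ?_
    rw [← Real.rpow_natCast, ← Real.rpow_mul (hg0 _)]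
    congr 1; push_cast; ring
  have hI0 : 0 ≤ ∫ x, G x := integral_nonneg hG0
  have hJ2 : (∫ x, G x) ^ 2 ≤ (M * ∫ x, g x ^ p) ^ (2 / p) := by
    have := Real.rpow_le_rpow (Real.rpow_nonneg hI0 p) hJ (show 0 ≤ 2 / p by positivity)
    rwa [← Real.rpow_mul hI0, mul_div_cancel₀ _ hp0.ne', Real.rpow_two] at this
  rw [hG2] at hup
  nlinarith

end Pool.Agent.P.MP_7aad9f_nt
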