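import Pool.Agent.P.MP_7aad9f_nt.Poisson
import Pool.Agent.P.MP_7aad9f_nt.Spectral

set_option autoImplicit false

open MeasureTheory AddCircle Real

noncomputable section

namespace Pool.Agent.P.MP_7aad9f_nt

lemma gauss_eq (c : ℝ) : ∫ t : UnitAddCircle, exp (-c * ‖t‖ ^ 2) ∂haarAddCircle =
    ∫ x in Set.Ioc (-(1 / 2) : ℝ) (1 / 2), exp (-c * x ^ 2) := by
  rw [circ_integral, ← intervalIntegral.integral_of_le (by norm_num)]
  refine intervalIntegral.integral_congr fun x hx => ?_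
  rw [Set.uIcc_of_le (by norm_num)] at hx
  rw [norm_coe_of_le (abs_le.2 hx), sq_abs]

lemma gauss_le {c : ℝ} (hc : 0 < c) :
    ∫ t : UnitAddCircle, exp (-c * ‖t‖ ^ 2) ∂haarAddCircle ≤ √(π / c) := by
  rw [gauss_eq, ← integral_gaussian]
  exact setIntegral_le_integral (integrable_exp_neg_mul_sq hc) (ae_of_all _ fun x => (exp_pos _).le)

lemma gauss_ge {c : ℝ} (hc : 0 < c) :
    √(π / c) * (1 - 16 / c) ≤ ∫ t : UnitAddCircle, exp (-c * ‖t‖ ^ 2) ∂haarAddCircle := by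
  have h1 := integral_add_compl (μ := volume) (s := Set.Ioc (-(1 / 2) : ℝ) (1 / 2))
    measurableSet_Ioc (integrable_exp_neg_mul_sq hc)
  rw [integral_gaussian] at h1
  have hc2 : 0 < c / 2 := by positivity
  have h2 : ∫ x in (Set.Ioc (-(1 / 2) : ℝ) (1 / 2))ᶜ, exp (-c * x ^ 2) ≤
      ∫ x in (Set.Ioc (-(1 / 2) : ℝ) (1 / 2))ᶜ, exp (-(c / 8)) * exp (-(c / 2) * x ^ 2) := by
    refine setIntegral_mono_on (integrable_exp_neg_mul_sq hc).integrableOn
      ((integrable_exp_neg_mul_sq hc2).const_mul _).integrableOn measurableSet_Ioc.compl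
      fun x hx => ?_
    rw [← exp_add, exp_le_exp]
    have : 1 / 4 ≤ x ^ 2 := by
      simp only [Set.mem_compl_iff, Set.mem_Ioc, not_and_or, not_lt, not_le] at hx
      rcases hx with hx | hx <;> nlinarith
    nlinarith
  have h3 : ∫ x in (Set.Ioc (-(1 / 2) : ℝ) (1 / 2))ᶜ, exp (-(c / 8)) * exp (-(c / 2) * x ^ 2) ≤
      exp (-(c / 8)) * √(π / (c / 2)) := by
    rw [← integral_gaussian, ← integral_const_mul]
    exact setIntegral_le_integral ((integrable_exp_neg_mul_sq hc2).const_mul _)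
      (ae_of_all _ fun x => by positivity)
  have h4 : √(π / (c / 2)) ≤ 2 * √(π / c) := by
    rw [show (2 : ℝ) * √(π / c) = √(2 ^ 2 * (π / c)) by
      rw [sqrt_mul (by positivity), sqrt_sq (by positivity)]]
    refine sqrt_le_sqrt ?_
    have : 0 < π / c := by positivity
    rw [show π / (c / 2) = 2 * (π / c) by field_simp]
    linarith
  have h5 : exp (-(c / 8)) ≤ 8 / c := by
    rw [exp_neg, ← one_div, div_le_div_iff₀ (exp_pos _) hc]
    linarith [add_one_le_exp (c / 8)]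
  have h6 : exp (-(c / 8)) * √(π / (c / 2)) ≤ 8 / c * (2 * √(π / c)) :=
    mul_le_mul h5 h4 (by positivity) (by positivity)
  rw [gauss_eq]
  have : √(π / c) * (1 - 16 / c) = √(π / c) - 8 / c * (2 * √(π / c)) := by ring
  linarith

lemma exists_rep (x : UnitAddCircle) : ∃ y : ℝ, (y : UnitAddCircle) = x ∧ |y| = ‖x‖ := by
  induction x using QuotientAddGroup.induction_on with
  | H z =>
    refine ⟨z - round z, ?_, (UnitAddCircle.norm_eq).symm⟩
    rw [AddCircle.coe_sub, sub_eq_self, AddCircle.coe_eq_zero_iff]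
    exact ⟨round z, by simp⟩

lemma norm_coe_le (y : ℝ) : ‖(y : UnitAddCircle)‖ ≤ |y| := QuotientAddGroup.norm_mk_le_norm

lemma exists_half (t : UnitAddCircle) : ∃ s : UnitAddCircle, s + s = t ∧
    ∀ z : UnitAddCircle, ‖z - s‖ ^ 2 + ‖z + s‖ ^ 2 ≤ 2 * ‖z‖ ^ 2 + ‖t‖ ^ 2 / 2 := by
  obtain ⟨τ, rfl, hτ⟩ := exists_rep t
  refine ⟨((τ / 2 : ℝ) : UnitAddCircle), by rw [← AddCircle.coe_add, add_halves], fun z => ?_⟩
  obtain ⟨ζ, rfl, hζ⟩ := exists_rep z
  rw [← hτ, ← hζ, ← AddCircle.coe_sub, ← AddCircle.coe_add, sq_abs, sq_abs]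
  have h1 := pow_le_pow_left₀ (norm_nonneg _) (norm_coe_le (ζ - τ / 2)) 2
  have h2 := pow_le_pow_left₀ (norm_nonneg _) (norm_coe_le (ζ + τ / 2)) 2
  rw [sq_abs] at h1 h2
  nlinarith

attribute [local instance] instMeasureSpaceUnitAddCircle

variable {ι : Type} [Fintype ι]

/-- Product of truncated Gaussians on the torus. -/
def gs (b : ι → ℝ) (x : UnitAddTorus ι) : ℝ := ∏ j, exp (-b j * ‖x j‖ ^ 2)

lemma gs_cont (b : ι → ℝ) : Continuous (gs b) := by
  unfold gs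
  fun_prop

lemma gs_pos (b : ι → ℝ) (x : UnitAddTorus ι) : 0 < gs b x :=
  Finset.prod_pos fun _ _ => exp_pos _

lemma gs_rpow (b : ι → ℝ) (p : ℝ) (x : UnitAddTorus ι) :
    gs b x ^ p = gs (fun j => p * b j) x := by
  unfold gs
  rw [← Real.finsetProd_rpow _ _ fun _ _ => (exp_pos _).le]
  refine Finset.prod_congr rfl fun j _ => ?_
  rw [← exp_mul]
  congr 1
  ring

lemma gs_sq (b : ι → ℝ) (x : UnitAddTorus ι) : gs b x ^ 2 = gs (fun j => 2 * b j) x := by
  rw [← gs_rpow, rpow_two]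

lemma gs_integral (b : ι → ℝ) :
    ∫ x, gs b x = ∏ j, ∫ t : UnitAddCircle, exp (-b j * ‖t‖ ^ 2) ∂haarAddCircle :=
  integral_fintype_prod_volume_eq_prod (fun j (t : UnitAddCircle) => exp (-b j * ‖t‖ ^ 2))

lemma gs_autocorr (b : ι → ℝ) (hb : ∀ j, 0 ≤ b j) (t : UnitAddTorus ι) :
    gs b t * ∫ x, gs (fun j => 2 * b j) x ^ 2 ≤
      ∫ x, gs (fun j => 2 * b j) x * gs (fun j => 2 * b j) (x + t) := by
  choose s hs hs' using fun j => exists_half (t j)
  have hc := gs_cont (fun j => 2 * b j)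
  rw [← integral_sub_right_eq_self
    (fun x => gs (fun j => 2 * b j) x * gs (fun j => 2 * b j) (x + t)) (s : UnitAddTorus ι),
    ← integral_const_mul]
  refine integral_mono (cont_integrable (by fun_prop)) (cont_integrable (by fun_prop)) fun z => ?_
  simp only [gs_sq]
  unfold gs
  rw [← Finset.prod_mul_distrib, ← Finset.prod_mul_distrib]
  refine Finset.prod_le_prod (fun _ _ => by positivity) fun j _ => ?_
  rw [← exp_add, ← exp_add, exp_le_exp]
  have : (z - s + t) j = z j + s j := by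
    simp only [Pi.add_apply, Pi.sub_apply, ← hs j]
    abel
  rw [this, Pi.sub_apply]
  have h1 := mul_le_mul_of_nonneg_left (hs' j (z j)) (hb j)
  nlinarith

/-- Product of Poisson kernels on the torus. -/
def pks (ρ : ι → ℝ) (x : UnitAddTorus ι) : ℝ := ∏ j, pk (ρ j) (x j)

lemma pks_cont {ρ : ι → ℝ} (h0 : ∀ j, 0 ≤ ρ j) (h1 : ∀ j, ρ j < 1) : Continuous (pks ρ) :=
  continuous_finsetProd _ fun j _ => (pk_cont (h0 j) (h1 j)).comp (continuous_apply j)

lemma pks_nonneg {ρ : ι → ℝ} (h0 : ∀ j, 0 ≤ ρ j) (h1 : ∀ j, ρ j < 1) (x : UnitAddTorus ι) :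
    0 ≤ pks ρ x :=
  Finset.prod_nonneg fun j _ => pk_nonneg (h0 j) (h1 j) _

lemma pks_integral {ρ : ι → ℝ} (h0 : ∀ j, 0 ≤ ρ j) (h1 : ∀ j, ρ j < 1) : ∫ x, pks ρ x = 1 := by
  have := integral_fintype_prod_volume_eq_prod (fun j (t : UnitAddCircle) => pk (ρ j) t)
  exact this.trans (Finset.prod_eq_one fun j _ => pk_integral (h0 j) (h1 j))

lemma pks_coeff {ρ : ι → ℝ} (h0 : ∀ j, 0 ≤ ρ j) (h1 : ∀ j, ρ j < 1) (a : ι → ℤ) :
    ‖∫ t, UnitAddTorus.mFourier a t * (pks ρ t : ℂ)‖ = ∏ j, ρ j ^ (a j).natAbs := by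
  have := integral_fintype_prod_volume_eq_prod
    (fun j (t : UnitAddCircle) => fourier (a j) t * (pk (ρ j) t : ℂ))
  simp only [UnitAddTorus.mFourier, ContinuousMap.coe_mk, pks, Complex.ofReal_prod,
    ← Finset.prod_mul_distrib]
  rw [this, norm_prod]
  refine Finset.prod_congr rfl fun j _ => ?_
  have h := pk_coeff (h0 j) (h1 j) (a j)
  rw [show (∫ t : UnitAddCircle, fourier (a j) t * (pk (ρ j) t : ℂ)) = _ from h, norm_pow,
    Complex.norm_real, Real.norm_eq_abs, abs_of_nonneg (h0 j)]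

lemma gs_pks (b ρ : ι → ℝ) : ∫ t, gs b t * pks ρ t =
    ∏ j, ∫ t : UnitAddCircle, exp (-b j * ‖t‖ ^ 2) * pk (ρ j) t ∂haarAddCircle := by
  simp only [gs, pks, ← Finset.prod_mul_distrib]
  exact integral_fintype_prod_volume_eq_prod
    (fun j (t : UnitAddCircle) => exp (-b j * ‖t‖ ^ 2) * pk (ρ j) t)

omit [Fintype ι] in
lemma one_sub_sum_le_prod (s : Finset ι) (f y : ι → ℝ) (hy : ∀ j, 0 ≤ y j) (hf : ∀ j, 0 ≤ f j)
    (h : ∀ j, 1 - y j ≤ f j) : 1 - ∑ j ∈ s, y j ≤ ∏ j ∈ s, f j := by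
  classical
  induction s using Finset.induction_on with
  | empty => simp
  | insert a s ha ih =>
    rw [Finset.sum_insert ha, Finset.prod_insert ha]
    have h1 : 0 ≤ ∑ j ∈ s, y j := Finset.sum_nonneg fun j _ => hy j
    have h2 : 0 ≤ ∏ j ∈ s, f j := Finset.prod_nonneg fun j _ => hf j
    rcases le_total (1 - y a) 0 with h3 | h3
    · nlinarith [mul_nonneg (hf a) h2]
    · nlinarith [mul_le_mul_of_nonneg_right (h a) h2, mul_le_mul_of_nonneg_left ih h3,
        mul_nonneg (hy a) h1]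

end Pool.Agent.P.MP_7aad9f_nt
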