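import Pool.Agent.P.MP_7aad9f_nt.Gauss

set_option autoImplicit false

open MeasureTheory AddCircle Real

noncomputable section

namespace Pool.Agent.P.MP_7aad9f_nt

attribute [local instance] instMeasureSpaceUnitAddCircle

variable {ι : Type} [Fintype ι]

lemma dvd_of_mFourier (K : ℕ) [NeZero K] (v a : ι → ℤ)
    (h : UnitAddTorus.mFourier a (fun j => ZMod.toAddCircle ((1 : ZMod K) * (v j : ZMod K))) = 1) :
    (K : ℤ) ∣ ∑ j, a j * v j := by
  have h1 : ∀ s : Finset ι, ∏ j ∈ s, fourier (a j) (ZMod.toAddCircle ((1 : ZMod K) * (v j : ZMod K)))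
      = (toCircle (ZMod.toAddCircle ((∑ j ∈ s, a j * v j : ℤ) : ZMod K)) : ℂ) := by
    classical
    intro s
    induction s using Finset.induction_on with
    | empty => simp
    | insert j s hj ih =>
      rw [Finset.prod_insert hj, Finset.sum_insert hj, ih, Int.cast_add, map_add, toCircle_add,
        Circle.coe_mul, fourier_apply, ← map_zsmul, one_mul, zsmul_eq_mul, Int.cast_mul]
  simp only [UnitAddTorus.mFourier, ContinuousMap.coe_mk] at h
  rw [h1, Circle.coe_eq_one, ← toCircle_zero (T := (1 : ℝ))] at h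
  rw [← ZMod.intCast_zmod_eq_zero_iff_dvd, ← ZMod.toAddCircle_eq_zero]
  exact injective_toCircle one_ne_zero h

lemma core (K : ℕ) [NeZero K] (v : ι → ℤ) (u σ : ι → ℝ) (η τ gap : ℝ)
    (hu : ∀ j, 0 < u j) (hσ0 : ∀ j, 0 < σ j) (hσ1 : ∀ j, σ j < 1)
    (hk : ∀ a : ι → ℤ, a ≠ 0 → (K : ℤ) ∣ ∑ j, a j * v j → η ≤ ∑ j, σ j * |(a j : ℝ)|)
    (hτ0 : 0 < τ) (hτ1 : τ ≤ 1) (htail : ∀ j, exp (-τ ^ 2) ≤ 1 - 16 * u j ^ 2 / π)
    (hgap0 : 0 < gap)
    (hgap : gap + exp (-η) + ∑ j, σ j / (2 * (1 - σ j)) * (1 / (π * u j) + 1) ≤ 1) :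
    log gap - Fintype.card ι * (τ ^ 2 + τ * (1 + τ) / 2) ≤ τ * (log K + ∑ j, log (u j)) := by
  set b : ι → ℝ := fun j => π / (4 * u j ^ 2) with hb
  have hb0 : ∀ j, 0 < b j := fun j => by have := hu j; positivity
  set ρ : ι → ℝ := fun j => 1 - σ j with hρ
  have hρ0 : ∀ j, 0 < ρ j := fun j => sub_pos.2 (hσ1 j)
  have hρ1 : ∀ j, ρ j < 1 := fun j => sub_lt_self _ (hσ0 j)
  have hρ0' : ∀ j, 0 ≤ ρ j := fun j => (hρ0 j).le
  have hK : (0 : ℝ) < K := by exact_mod_cast Nat.pos_of_ne_zero (NeZero.ne K)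
  have hS := spectral (C := ZMod K) (fun c j => ZMod.toAddCircle (c * (v j : ZMod K)))
    (fun c c' => by ext j; simp [add_mul]) (pks ρ) (pks_cont hρ0' hρ1) (pks_nonneg hρ0' hρ1)
    (pks_integral hρ0' hρ1) (exp (-η)) (exp_pos _).le
    (fun a ha h => by
      rw [pks_coeff hρ0' hρ1]
      have h1 := hk a ha (dvd_of_mFourier K v a (h 1))
      calc _ ≤ ∏ j, exp (-(σ j * |(a j : ℝ)|)) := by
            refine Finset.prod_le_prod (fun j _ => pow_nonneg (hρ0' j) _) fun j _ => ?_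
            rw [show -(σ j * |(a j : ℝ)|) = ((a j).natAbs : ℝ) * (-σ j) by
              rw [Nat.cast_natAbs, Int.cast_abs]; ring, exp_nat_mul]
            refine pow_le_pow_left₀ (hρ0' j) ?_ _
            linarith [add_one_le_exp (-σ j)]
        _ ≤ _ := by
            rw [← exp_sum, exp_le_exp, Finset.sum_neg_distrib]
            linarith)
    (gs fun j => 2 * b j) (gs_cont _) (fun x => (gs_pos _ x).le) (gs b) (gs_cont _)
    (gs_autocorr b fun j => (hb0 j).le) (2 / (1 + τ))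
    (by rw [le_div_iff₀ (by linarith)]; linarith)
    (by rw [div_le_iff₀ (by linarith)]; linarith)
  rw [ZMod.card, show 2 / (2 / (1 + τ)) = 1 + τ by field_simp] at hS
  simp only [gs_sq, gs_rpow, gs_integral, gs_pks] at hS
  have h1 : gap ≤ ∏ j, (∫ t : UnitAddCircle, exp (-b j * ‖t‖ ^ 2) * pk (ρ j) t ∂haarAddCircle)
      - exp (-η) := by
    have := one_sub_sum_le_prod Finset.univ
      (fun j => ∫ t : UnitAddCircle, exp (-b j * ‖t‖ ^ 2) * pk (ρ j) t ∂haarAddCircle)
      (fun j => σ j / (2 * (1 - σ j)) * (1 / (π * u j) + 1))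
      (fun j => by have := hu j; have := hσ0 j; have := hρ0 j; positivity)
      (fun j => integral_nonneg fun t => mul_nonneg (exp_pos _).le (pk_nonneg (hρ0' j) (hρ1 j) t))
      (fun j => by
        refine le_trans ?_ (pk_gauss (hρ0 j) (hρ1 j) (hb0 j))
        have h1 := hu j
        have h2 := hσ0 j
        have h3 : 0 < 1 - σ j := hρ0 j
        have h4 : √(π * b j) = π / (2 * u j) := by
          rw [show π * b j = (π / (2 * u j)) ^ 2 by simp only [hb]; field_simp; norm_num,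
            sqrt_sq (by positivity)]
        rw [h4, show 2 * (π / (2 * u j)) / π ^ 2 = 1 / (π * u j) by field_simp,
          sub_le_sub_iff_left]
        refine mul_le_mul_of_nonneg_right ?_ (by positivity)
        simp only [hρ]
        rw [div_le_div_iff₀ (by positivity) (by positivity)]
        nlinarith [mul_pos h3 (mul_pos h2 h2)])
    linarith
  have h2 : ∏ j, u j * exp (-τ ^ 2) ≤
      ∏ j, ∫ t : UnitAddCircle, exp (-(2 * (2 * b j)) * ‖t‖ ^ 2) ∂haarAddCircle := by
    refine Finset.prod_le_prod (fun j _ => by have := hu j; positivity) fun j _ => ?_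
    have h1 := hu j
    refine le_trans ?_ (gauss_ge (by have := hb0 j; positivity))
    rw [show π / (2 * (2 * b j)) = u j ^ 2 by simp only [hb]; field_simp; norm_num,
      sqrt_sq h1.le, show 16 / (2 * (2 * b j)) = 16 * u j ^ 2 / π by
        simp only [hb]; field_simp; norm_num]
    exact mul_le_mul_of_nonneg_left (htail j) h1.le
  have h3 : ∏ j, ∫ t : UnitAddCircle, exp (-(2 / (1 + τ) * (2 * b j)) * ‖t‖ ^ 2) ∂haarAddCircle ≤
      ∏ j, u j * exp (τ / 2) := by
    refine Finset.prod_le_prod (fun j _ => integral_nonneg fun t => (exp_pos _).le) fun j _ => ?_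
    have h1 := hu j
    refine (gauss_le (by have := hb0 j; positivity)).trans ?_
    rw [show π / (2 / (1 + τ) * (2 * b j)) = u j ^ 2 * (1 + τ) by
      simp only [hb]; field_simp; norm_num, sqrt_mul (by positivity), sqrt_sq h1.le, exp_half]
    exact mul_le_mul_of_nonneg_left (sqrt_le_sqrt (by linarith [add_one_le_exp τ])) h1.le
  have hp2 : 0 < ∏ j, u j * exp (-τ ^ 2) := Finset.prod_pos fun j _ => by have := hu j; positivity
  have hp3 : 0 < ∏ j, u j * exp (τ / 2) := Finset.prod_pos fun j _ => by have := hu j; positivity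
  have h4 : K * gap * ∏ j, u j * exp (-τ ^ 2) ≤ (K * ∏ j, u j * exp (τ / 2)) ^ (1 + τ) := by
    refine le_trans ?_ (hS.trans (rpow_le_rpow ?_ (mul_le_mul_of_nonneg_left h3 hK.le)
      (by linarith)))
    · exact mul_le_mul (mul_le_mul_of_nonneg_left h1 hK.le) h2 hp2.le
        (mul_nonneg hK.le (hgap0.le.trans h1))
    · exact mul_nonneg hK.le
        (Finset.prod_nonneg fun j _ => integral_nonneg fun t => (exp_pos _).le)
  have h5 := log_le_log (by positivity) h4
  have hl : ∀ w : ℝ, log (∏ j, u j * exp w) = ∑ j, log (u j) + Fintype.card ι * w := by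
    intro w
    rw [log_prod fun j _ => by have := hu j; positivity]
    simp only [fun j => log_mul (hu j).ne' (exp_pos w).ne', log_exp, Finset.sum_add_distrib,
      Finset.sum_const, Finset.card_univ, nsmul_eq_mul]
  rw [log_rpow (by positivity), log_mul (by positivity) hp2.ne', log_mul hK.ne' hgap0.ne',
    log_mul hK.ne' hp3.ne', hl, hl] at h5
  nlinarith

theorem lattice (D : ℝ) (hD0 : 0 < D) (hD : D < 2 * π * exp (-1 / 2)) :
    ∃ R C : ℝ, ∀ (ι : Type) [Fintype ι] (K : ℕ) [NeZero K] (v : ι → ℤ) (ℓ : ι → ℝ) (r : ℝ),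
      0 < Fintype.card ι → (∀ j, 0 < ℓ j) → (∀ j, ℓ j * Fintype.card ι * R ≤ r) → 0 < r →
      (∀ a : ι → ℤ, a ≠ 0 → (K : ℤ) ∣ ∑ j, a j * v j → r ≤ ∑ j, ℓ j * |(a j : ℝ)|) →
      Fintype.card ι * log (D * r / Fintype.card ι) - C ≤ log K + ∑ j, log (ℓ j) := by
  obtain ⟨ε, hε0, hε1, hε⟩ : ∃ ε : ℝ, 0 < ε ∧ ε ≤ 1 / 2 ∧
      D ≤ 2 * π * (1 - ε) * exp (-1 / 2 - 3 * ε / 2) := by
    have hc : Continuous fun ε : ℝ => 2 * π * (1 - ε) * exp (-1 / 2 - 3 * ε / 2) := by fun_prop
    have h1 : ∀ᶠ ε in nhds (0 : ℝ), D < 2 * π * (1 - ε) * exp (-1 / 2 - 3 * ε / 2) :=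
      hc.continuousAt.eventually (lt_mem_nhds (by simpa using hD))
    have h2 : ∀ᶠ ε in nhdsWithin (0 : ℝ) (Set.Ioi 0), ε ∈ Set.Ioc (0 : ℝ) (1 / 2) :=
      Ioc_mem_nhdsGT (by norm_num)
    obtain ⟨ε, h3, h4⟩ := ((h1.filter_mono nhdsWithin_le_nhds).and h2).exists
    exact ⟨ε, h4.1, h4.2, h3.le⟩
  have hδ : 0 < 1 - exp (-ε ^ 2) := sub_pos.2 (exp_lt_one_iff.2 (by nlinarith))
  have hδ1 : 1 - exp (-ε ^ 2) ≤ 1 := by linarith [exp_pos (-ε ^ 2)]
  set δ := 1 - exp (-ε ^ 2) with hδd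
  refine ⟨3 / ε + 1 / δ, -log (ε ^ 2 / 16) / ε, ?_⟩
  intro ι _ K _ v ℓ r hn hℓ hR hr hk
  set n : ℝ := ((Fintype.card ι : ℕ) : ℝ) with hnd
  have hn1 : 1 ≤ n := by rw [hnd]; exact_mod_cast hn
  have hε' : 0 < 1 - ε := by linarith
  have hw : ∀ j, ℓ j * n / r ≤ ε / 3 ∧ ℓ j * n / r ≤ δ := by
    intro j
    have h1 := hR j
    have h2 := hℓ j
    have h3 : 0 < ℓ j * n * (3 / ε) := by positivity
    have h4 : 0 < ℓ j * n * (1 / δ) := by positivity
    rw [div_le_iff₀ hr, div_le_iff₀ hr]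
    constructor
    · have : ℓ j * n * (3 / ε) ≤ r := by nlinarith
      have h5 := mul_le_mul_of_nonneg_left this (by positivity : 0 ≤ ε / 3)
      rwa [show ε / 3 * (ℓ j * n * (3 / ε)) = ℓ j * n by field_simp] at h5
    · have : ℓ j * n * (1 / δ) ≤ r := by nlinarith
      have h5 := mul_le_mul_of_nonneg_left this hδ.le
      rwa [show δ * (ℓ j * n * (1 / δ)) = ℓ j * n by field_simp] at h5
  have hσ : ∀ j, ε / 4 * ℓ j / r ≤ ε / 4 * (ε / 3) / n := by
    intro j
    have h1 := mul_le_mul_of_nonneg_left (hw j).1 (by positivity : 0 ≤ ε / 4 / n)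
    rwa [show ε / 4 / n * (ℓ j * n / r) = ε / 4 * ℓ j / r by field_simp,
      show ε / 4 / n * (ε / 3) = ε / 4 * (ε / 3) / n by ring] at h1
  have hσ' : ∀ j, ε / 4 * ℓ j / r ≤ ε / 4 := by
    intro j
    refine (hσ j).trans ?_
    rw [div_le_iff₀ (by linarith)]
    nlinarith
  have hc := core K v (fun j => n * ℓ j / (2 * (1 - ε) * π * r)) (fun j => ε / 4 * ℓ j / r)
    (ε / 4) ε (ε ^ 2 / 16) (fun j => by have := hℓ j; positivity)
    (fun j => by have := hℓ j; positivity) (fun j => by linarith [hσ' j])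
    (fun a ha h => by
      have h1 := mul_le_mul_of_nonneg_left (hk a ha h) (by positivity : 0 ≤ ε / 4 / r)
      rw [show ε / 4 / r * r = ε / 4 by field_simp, Finset.mul_sum] at h1
      refine h1.trans (le_of_eq (Finset.sum_congr rfl fun j _ => by ring)))
    hε0 (by linarith)
    (fun j => by
      have h1 := (hw j).2
      have h2 := hℓ j
      have h3 : 0 < ℓ j * n / r := by positivity
      have h4 : n * ℓ j / (2 * (1 - ε) * π * r) ≤ ℓ j * n / r / 3 := by
        rw [show n * ℓ j / (2 * (1 - ε) * π * r) = ℓ j * n / r / (2 * (1 - ε) * π) by field_simp]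
        exact div_le_div_of_nonneg_left h3.le (by norm_num) (by nlinarith [pi_gt_three])
      have h5 := pow_le_pow_left₀ (by positivity) h4 2
      have h6 : 16 * (n * ℓ j / (2 * (1 - ε) * π * r)) ^ 2 / π ≤ δ := by
        rw [div_le_iff₀ pi_pos]
        nlinarith [pi_gt_three]
      linarith)
    (by positivity)
    (by
      have h1 : exp (-(ε / 4)) ≤ 1 - ε / 4 + (ε / 4) ^ 2 := by
        rw [exp_neg, ← one_div, div_le_iff₀ (exp_pos _)]
        have h2 := add_one_le_exp (ε / 4)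
        have h3 : 0 ≤ 1 - ε / 4 + (ε / 4) ^ 2 := by nlinarith
        nlinarith [mul_le_mul_of_nonneg_left h2 h3, pow_pos hε0 3]
      have h2 : ∑ j, ε / 4 * ℓ j / r / (2 * (1 - ε / 4 * ℓ j / r)) *
          (1 / (π * (n * ℓ j / (2 * (1 - ε) * π * r))) + 1) ≤
          ∑ _j : ι, ε / 4 * (1 - ε / 2) / n := by
        refine Finset.sum_le_sum fun j _ => ?_
        have h2 := hℓ j
        have h3 := hσ j
        have h4 := hσ' j
        have h5 : 0 < 1 - ε / 4 * ℓ j / r := by linarith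
        rw [show ε / 4 * ℓ j / r / (2 * (1 - ε / 4 * ℓ j / r)) *
          (1 / (π * (n * ℓ j / (2 * (1 - ε) * π * r))) + 1) =
          (ε / 4 * (1 - ε) / n + ε / 4 * ℓ j / r / 2) / (1 - ε / 4 * ℓ j / r) by field_simp,
          div_le_iff₀ h5]
        have h6 : ε / 4 * (1 - ε / 2) / n * (1 - ε / 4) ≤
            ε / 4 * (1 - ε / 2) / n * (1 - ε / 4 * ℓ j / r) :=
          mul_le_mul_of_nonneg_left (by linarith) (by
            have : 0 < 1 - ε / 2 := by linarith
            positivity)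
        refine le_trans ?_ h6
        have h7 : ε / 4 / n * (1 - ε + ε / 6) ≤ ε / 4 / n * ((1 - ε / 2) * (1 - ε / 4)) :=
          mul_le_mul_of_nonneg_left (by nlinarith) (by positivity)
        have e1 : ε / 4 / n * (1 - ε + ε / 6) = ε / 4 * (1 - ε) / n + ε / 4 * (ε / 3) / n / 2 := by
          ring
        have e2 : ε / 4 / n * ((1 - ε / 2) * (1 - ε / 4)) = ε / 4 * (1 - ε / 2) / n * (1 - ε / 4) := by
          ring
        linarith
      rw [Finset.sum_const, Finset.card_univ, nsmul_eq_mul, ← hnd,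
        show n * (ε / 4 * (1 - ε / 2) / n) = ε / 4 * (1 - ε / 2) by field_simp] at h2
      nlinarith)
  rw [← hnd] at hc
  have h1 : ∑ j, log (n * ℓ j / (2 * (1 - ε) * π * r)) =
      ∑ j, log (ℓ j) - n * log (2 * π * (1 - ε) * r / n) := by
    rw [show n * log (2 * π * (1 - ε) * r / n) = ∑ _j : ι, log (2 * π * (1 - ε) * r / n) by
      rw [Finset.sum_const, Finset.card_univ, nsmul_eq_mul], ← Finset.sum_sub_distrib]
    refine Finset.sum_congr rfl fun j _ => ?_
    have h2 := hℓ j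
    rw [← log_div h2.ne' (by positivity)]
    congr 1
    field_simp
  have h2 : log (D * r / n) ≤ log (2 * π * (1 - ε) * r / n) + (-1 / 2 - 3 * ε / 2) := by
    rw [← log_exp (-1 / 2 - 3 * ε / 2), ← log_mul (by positivity) (by positivity)]
    refine log_le_log (by positivity) ?_
    have := mul_le_mul_of_nonneg_right hε (by positivity : 0 ≤ r / n)
    calc _ = D * (r / n) := by ring
      _ ≤ _ := this
      _ = _ := by ring
  rw [h1] at hc
  have h3 := mul_le_mul_of_nonneg_left h2 (by positivity : 0 ≤ ε * n)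
  refine le_of_mul_le_mul_left ?_ hε0
  rw [mul_sub, show ε * (-log (ε ^ 2 / 16) / ε) = -log (ε ^ 2 / 16) by field_simp]
  nlinarith

end Pool.Agent.P.MP_7aad9f_nt
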