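import Pool.Agent.P.MP_7aad9f_nt.Triple
import Pool.Agent.P.MP_7aad9f_nt.Lattice

set_option autoImplicit false

open Real Finset Filter

noncomputable section

namespace Pool.Agent.P.MP_7aad9f_nt

/-- For every `D < 2π/√e`, the primes up to `N` give an abc triple with explicit gain. -/
lemma step (D : ℝ) (hD0 : 0 < D) (hD : D < 2 * π * exp (-1 / 2)) :
    ∃ R C : ℝ, ∀ N : ℕ, 2 ≤ N → R ≤ N → ∀ n r : ℝ, n = #(Nat.primesLE N) →
      r = exp 1 * n * N * log N / D → C ≤ n → ∃ (x y z : ℕ) (η : ℝ), 0 < x ∧ 0 < y ∧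
        Nat.Coprime x y ∧ x + y = z ∧ 0 < η ∧ 1 ≤ η * z ∧ log z ≤ (r + η) / 2 ∧
        log η ≤ -(n + AA N - C - 2 * log r) ∧
        ((∏ p ∈ (x * y * z).primeFactors, p : ℕ) : ℝ) ≤ z * exp (-(n + AA N - C - 2 * log r)) := by
  obtain ⟨R, C, hL⟩ := lattice D hD0 hD
  refine ⟨R * D, C + 3, fun N hN2 hR n r hn hr hC => ?_⟩
  have hN : (2 : ℝ) ≤ N := by exact_mod_cast hN2
  have hlog : 0 < log (N : ℝ) := log_pos (by linarith)
  have hcard : 0 < #(Nat.primesLE N) := card_pos.2 ⟨2, Nat.mem_primesLE.2 ⟨hN2, Nat.prime_two⟩⟩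
  have hn0 : 0 < n := by rw [hn]; exact_mod_cast hcard
  have hr0 : 0 < r := by rw [hr]; positivity
  have hl0 : ∀ j : Nat.primesLE N, 0 < log ((j : ℕ) : ℝ) := fun j =>
    log_pos (by linarith [(two_le_cast j.2).1])
  have hl1 : ∀ j : Nat.primesLE N, log ((j : ℕ) : ℝ) ≤ log N := fun j =>
    log_le_log (by linarith [(two_le_cast j.2).1]) (two_le_cast j.2).2
  set θ := ∑ p ∈ Nat.primesLE N, log p with hθ
  have hθ0 : 0 ≤ θ := sum_nonneg fun p _ => by positivity
  set T := n * log (D * r / n) - C - ∑ j : Nat.primesLE N, log (log (j : ℕ)) with hT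
  have hT1 : n + AA N + θ - C ≤ T := by
    have h1 : log (D * r / n) = 1 + log N + log (log N) := by
      rw [show D * r / n = exp 1 * N * log N by rw [hr]; field_simp,
        log_mul (by positivity) hlog.ne', log_mul (by positivity) (by positivity), log_exp]
    have h2 : AA N + θ = n * log N := by
      rw [AA, hθ, ← sum_add_distrib, hn, ← nsmul_eq_mul, ← sum_const]
      refine sum_congr rfl fun p hp => ?_
      rw [log_div (by linarith) (by linarith [(two_le_cast hp).1])]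
      ring
    have h3 : ∑ j : Nat.primesLE N, log (log (j : ℕ)) ≤ n * log (log N) := by
      rw [hn, ← Fintype.card_coe, ← nsmul_eq_mul, ← card_univ, ← sum_const]
      exact sum_le_sum fun j _ => log_le_log (hl0 j) (hl1 j)
    rw [hT, h1]
    linarith
  have hA := AA_nonneg N
  have hE : 1 ≤ exp (T - 1) := one_le_exp (by linarith)
  set K := ⌊exp (T - 1)⌋₊ with hK
  have hK0 : 0 < K := Nat.floor_pos.2 hE
  have hK' : (1 : ℝ) ≤ K := by exact_mod_cast hK0
  have hK1 : log K ≤ T - 1 := by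
    rw [log_le_iff_le_exp (by linarith)]
    exact Nat.floor_le (by positivity)
  have hK2 : T - 1 - log 2 ≤ log K := by
    rw [sub_le_iff_le_add, ← log_mul (by linarith) (by norm_num), le_log_iff_exp_le (by linarith)]
    linarith [Nat.lt_floor_add_one (exp (T - 1))]
  have : NeZero K := ⟨hK0.ne'⟩
  obtain ⟨a, ha, hd, h1⟩ : ∃ a : Nat.primesLE N → ℤ, a ≠ 0 ∧
      (K : ℤ) ∣ ∑ j, a j * ⌊log (j : ℕ) * K / r⌋ ∧
      ∑ j : Nat.primesLE N, log (j : ℕ) * |(a j : ℝ)| < r := by
    by_contra hcon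
    push Not at hcon
    have := hL (Nat.primesLE N) K (fun j => ⌊log (j : ℕ) * K / r⌋) (fun j => log (j : ℕ)) r
      (by rwa [Fintype.card_coe]) hl0 (fun j => by
        rw [Fintype.card_coe, ← hn, hr, le_div_iff₀ hD0]
        have h1 : log (j : ℕ) * n * N ≤ exp 1 * n * N * log N := by
          have h2 := mul_le_mul (hl1 j) (one_le_exp zero_le_one) zero_le_one hlog.le
          have h3 := mul_le_mul_of_nonneg_right h2 (by positivity : 0 ≤ n * N)
          linarith
        have h2 := mul_le_mul_of_nonneg_left hR (mul_pos (hl0 j) hn0).le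
        linarith) hr0 hcon
    rw [Fintype.card_coe, ← hn] at this
    linarith
  obtain ⟨x, y, z, hx, hy, hxy, hz, h2, h3, h4⟩ := triple N K hK0 r hr0 a ha hd h1
  have hη : log (2 * r ^ 2 / K) + θ ≤ -(n + AA N - (C + 3) - 2 * log r) := by
    rw [log_div (by positivity) (by linarith), log_mul (by norm_num) (by positivity), log_pow]
    push_cast
    linarith [log_two_lt_d9]
  refine ⟨x, y, z, _, hx, hy, hxy, hz, by positivity, h2, h3, by linarith, h4.trans ?_⟩
  rw [mul_right_comm, mul_comm, ← exp_log (x := 2 * r ^ 2 / K) (by positivity), ← exp_add]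
  exact mul_le_mul_of_nonneg_left (exp_le_exp.2 hη) (by positivity)

lemma endgame {κ l n N A L r D : ℝ} (hκ : κ ≤ l ^ 4 * (8 * √π * exp (-3 / 4))) (hl : 0 < l)
    (hn : 0 < n) (hN : 1 < N) (hD : D = l ^ 2 * (2 * π * exp (-1 / 2)))
    (hr : r = exp 1 * n * N * log N / D) (hA : l * N ≤ log N * A) (hL : exp 2 ≤ L)
    (hLr : L ≤ r / (2 * l ^ 2)) (hlr : 2 * l * log N ≤ log (r / (2 * l ^ 2))) :
    κ * √L / log L ≤ l * n + A := by
  have hlog := log_pos hN
  have he : 1 < exp 2 := one_lt_exp_iff.2 two_pos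
  have hL0 : 0 < L := by linarith
  have hlL : 0 < log L := log_pos (by linarith)
  have h1 : log (r / (2 * l ^ 2)) / √(r / (2 * l ^ 2)) ≤ log L / √L :=
    log_div_sqrt_antitoneOn hL (hL.trans hLr) hLr
  set u := √(n * N / log N) with hu
  have hu0 : 0 < u := by positivity
  have hu2 : u ^ 2 = n * N / log N := sq_sqrt (by positivity)
  set κ₀ := 8 * √π * exp (-3 / 4) with hκ₀
  have hκ₀0 : 0 < κ₀ := by positivity
  have hκ2 : κ₀ ^ 2 * exp 1 = 64 * π * exp (-1 / 2) := by
    rw [hκ₀, mul_pow, mul_pow, sq_sqrt pi_pos.le, ← exp_nat_mul, mul_assoc, ← exp_add]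
    norm_num
  have h2 : √(r / (2 * l ^ 2)) = 4 * u * log N / (l ^ 2 * κ₀) := by
    rw [← sqrt_sq (x := 4 * u * log N / (l ^ 2 * κ₀)) (by positivity)]
    congr 1
    rw [div_pow, mul_pow, mul_pow, hu2, hr, hD]
    have hw := exp_pos (-1 / 2)
    generalize exp (-1 / 2) = w at hκ2 hw ⊢
    field_simp
    linear_combination hκ2
  have h3 : √L / log L ≤ 2 * u / (l ^ 3 * κ₀) := by
    have h4 : 2 * l * log N / √(r / (2 * l ^ 2)) ≤ log L / √L :=
      (div_le_div_of_nonneg_right hlr (sqrt_nonneg _)).trans h1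
    rw [h2, show 2 * l * log N / (4 * u * log N / (l ^ 2 * κ₀)) = (l ^ 3 * κ₀) / (2 * u) by
      field_simp; norm_num, div_le_div_iff₀ (by positivity) (by positivity)] at h4
    rw [div_le_div_iff₀ hlL (by positivity)]
    linarith
  have hA0 : 0 < A := by
    by_contra h
    nlinarith [mul_nonneg hlog.le (neg_nonneg.2 (not_lt.1 h))]
  have h4 : 2 * l * u ≤ l * n + A := by
    refine abs_le_of_sq_le_sq' ?_ (by positivity) |>.2
    have h5 : l * u ^ 2 ≤ n * A := by
      rw [hu2, ← mul_div_assoc, div_le_iff₀ hlog]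
      nlinarith
    nlinarith [sq_nonneg (l * n - A), mul_le_mul_of_nonneg_left h5 hl.le]
  calc κ * √L / log L = κ * (√L / log L) := by ring
    _ ≤ l ^ 4 * κ₀ * (√L / log L) := mul_le_mul_of_nonneg_right hκ (by positivity)
    _ ≤ l ^ 4 * κ₀ * (2 * u / (l ^ 3 * κ₀)) := mul_le_mul_of_nonneg_left h3 (by positivity)
    _ = 2 * l * u := by field_simp
    _ ≤ _ := h4

theorem main (κ : ℝ) (hκ : κ < 8 * √π * exp (-3 / 4)) (M : ℝ) :
    ∃ x y z : ℕ, 0 < x ∧ 0 < y ∧ Nat.Coprime x y ∧ x + y = z ∧ M < z ∧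
      ((∏ p ∈ (x * y * z).primeFactors, p : ℕ) : ℝ) * exp (κ * √(log z) / log (log z)) < z := by
  obtain ⟨l, hl0, hl1, hl⟩ : ∃ l : ℝ, 0 < l ∧ l < 1 ∧ κ ≤ l ^ 4 * (8 * √π * exp (-3 / 4)) := by
    have hc : Continuous fun l : ℝ => l ^ 4 * (8 * √π * exp (-3 / 4)) := by fun_prop
    have h1 : ∀ᶠ l in nhds (1 : ℝ), κ < l ^ 4 * (8 * √π * exp (-3 / 4)) :=
      hc.continuousAt.eventually (lt_mem_nhds (by simpa using hκ))
    have h2 : ∀ᶠ l in nhdsWithin (1 : ℝ) (Set.Iio 1), l ∈ Set.Ioo (0 : ℝ) 1 :=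
      Ioo_mem_nhdsLT one_pos
    obtain ⟨l, h3, h4⟩ := ((h1.filter_mono nhdsWithin_le_nhds).and h2).exists
    exact ⟨l, h4.1, h4.2, h3.le⟩
  have hl2 : l ^ 2 < 1 := by nlinarith
  set D := l ^ 2 * (2 * π * exp (-1 / 2)) with hD
  have hD0 : 0 < D := by positivity
  obtain ⟨R, C, hS⟩ := step D hD0 (mul_lt_of_lt_one_left (by positivity) hl2)
  have hlim : Tendsto (fun N : ℕ => log (N : ℝ)) atTop atTop :=
    tendsto_log_atTop.comp tendsto_natCast_atTop_atTop
  have hδ : 0 < (1 - l) / 15 := by linarith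
  have hsq := tendsto_natCast_atTop_atTop.eventually
    ((isLittleO_pow_log_id_atTop (n := 2)).bound hδ)
  obtain ⟨N, hA, e1, e2, e3, e4, e5, e6, e7⟩ := ((frequently_AA hl0 hl1).and_eventually
    (hsq.and ((eventually_ge_atTop 2).and
    ((tendsto_natCast_atTop_atTop.eventually_ge_atTop R).and
    ((tendsto_natCast_atTop_atTop.eventually_ge_atTop (D / (1 - l ^ 2))).and
    ((hlim.eventually_ge_atTop (|C| + 2 * |log D| + 2)).and
    ((hlim.eventually_ge_atTop ((exp 2 + |M|) / l)).and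
    (hlim.eventually_ge_atTop (|log (4 * D)| / (2 * (1 - l))))))))))).exists
  have hN : (2 : ℝ) ≤ N := by exact_mod_cast e2
  set L := log (N : ℝ) with hL
  have hL1 : 2 ≤ L := by linarith [abs_nonneg C, abs_nonneg (log D)]
  rw [id, Real.norm_eq_abs, Real.norm_eq_abs, abs_of_nonneg (sq_nonneg _),
    abs_of_nonneg (by linarith)] at e1
  set n : ℝ := ((#(Nat.primesLE N) : ℕ) : ℝ) with hn
  have hn1 : N ≤ 2 * (n * L) := by
    have h1 := Chebyshev.pi_ge N
    rw [← Nat.primesLE_card_eq_primeCounting, ← hn, div_le_iff₀ (by linarith)] at h1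
    have h2 : log ((N : ℝ) + 1) ≤ 1 + L := by
      have := log_le_log (by linarith) (show (N : ℝ) + 1 ≤ 2 * N by linarith)
      rw [log_mul (by norm_num) (by linarith)] at this
      linarith [log_two_lt_d9]
    have h3 := mul_le_mul_of_nonneg_left log_two_gt_d9.le (show (0 : ℝ) ≤ N by linarith)
    nlinarith
  have hn2 : (n : ℝ) ≤ N := by
    have : #(Nat.primesLE N) ≤ #(Ioc 0 N) := card_le_card fun p hp =>
      mem_Ioc.2 ⟨(Nat.prime_of_mem_primesLE hp).pos, Nat.le_of_mem_primesLE hp⟩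
    rw [Nat.card_Ioc] at this
    rw [hn]
    exact_mod_cast this
  have hn3 : 7 * L < (1 - l) * n := by
    refine lt_of_mul_lt_mul_right ?_ (show 0 ≤ L by linarith)
    have := mul_le_mul_of_nonneg_left hn1 (show 0 ≤ 1 - l by linarith)
    nlinarith
  have hn0 : 0 < n := by nlinarith
  have hn4 : L ≤ n := by nlinarith
  set r := exp 1 * n * N * L / D with hr
  have hr0 : 0 < r := by positivity
  have hr1 : log r ≤ 1 + 3 * L + |log D| := by
    have h1 : log n ≤ L := log_le_log hn0 hn2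
    have h2 : log L ≤ L := by linarith [log_le_sub_one_of_pos (show 0 < L by linarith)]
    rw [hr, log_div (by positivity) hD0.ne', log_mul (by positivity) (by positivity),
      log_mul (by positivity) (by positivity), log_mul (by positivity) (by positivity), log_exp]
    linarith [neg_abs_le (log D)]
  have hr2 : (N : ℝ) ^ 2 / D ≤ r := by
    refine div_le_div_of_nonneg_right ?_ hD0.le
    have h1 : 2 * (n * L) ≤ exp 1 * (n * L) :=
      mul_le_mul_of_nonneg_right (by linarith [add_one_le_exp 1]) (by positivity)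
    nlinarith
  obtain ⟨x, y, z, η, hx, hy, hxy, hz, hη0, h1, h2, h3, h4⟩ :=
    hS N e2 e3 n r hn hr (by linarith [le_abs_self C, abs_nonneg (log D)])
  clear hS hsq hlim
  have hG : l * n + AA N < n + AA N - C - 2 * log r := by linarith [le_abs_self C]
  have hA0 := AA_nonneg N
  have hz0 : (0 : ℝ) < z := by exact_mod_cast (show 0 < z by omega)
  have hz1 : l * n ≤ log z := by
    have := log_nonneg h1
    rw [log_mul hη0.ne' hz0.ne'] at this
    linarith
  have hz2 : exp 2 + |M| ≤ log z := by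
    rw [div_le_iff₀ hl0] at e6
    linarith [mul_le_mul_of_nonneg_left hn4 hl0.le]
  have hη1 : η ≤ 1 := by
    rw [← log_nonpos_iff hη0.le]
    linarith [mul_pos hl0 hn0]
  have hr3 : l ^ 2 * (r + 1) ≤ r := by
    have h5 : D / (1 - l ^ 2) ≤ (N : ℝ) ^ 2 := e4.trans (le_self_pow₀ (by linarith) two_ne_zero)
    rw [div_le_iff₀ (by linarith)] at h5
    rw [div_le_iff₀ hD0] at hr2
    have h6 : D * 1 ≤ D * (r * (1 - l ^ 2)) := by
      linarith [mul_le_mul_of_nonneg_right hr2 (show 0 ≤ 1 - l ^ 2 by linarith)]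
    have h7 := le_of_mul_le_mul_left h6 hD0
    linarith
  have h5 := endgame (L := log z) hl hl0 hn0 (show (1 : ℝ) < N by linarith) hD hr hA
    (by linarith [abs_nonneg M])
    (by
      rw [le_div_iff₀ (by positivity)]
      linarith [mul_le_mul_of_nonneg_left (show log z ≤ (r + 1) / 2 by linarith) (sq_nonneg l)])
    (by
      have h6 : (N : ℝ) ^ 2 / (4 * D) ≤ r / (2 * l ^ 2) := by
        rw [show (N : ℝ) ^ 2 / (4 * D) = (N : ℝ) ^ 2 / D / 4 by field_simp]
        exact div_le_div₀ hr0.le hr2 (by positivity) (by linarith)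
      have h7 := log_le_log (by positivity) h6
      rw [log_div (by positivity) (by positivity), log_pow] at h7
      rw [div_le_iff₀ (by linarith)] at e7
      push_cast at h7
      linarith [le_abs_self (log (4 * D))])
  refine ⟨x, y, z, hx, hy, hxy, hz, ?_, ?_⟩
  · linarith [log_le_sub_one_of_pos hz0, le_abs_self M, exp_pos 2]
  · refine (mul_le_mul_of_nonneg_right h4 (exp_pos _).le).trans_lt ?_
    rw [mul_assoc, ← exp_add]
    exact mul_lt_of_lt_one_right hz0 (exp_lt_one_iff.2 (by linarith))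

end Pool.Agent.P.MP_7aad9f_nt
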