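import Mathlib

set_option autoImplicit false

open Real Finset Filter

noncomputable section

namespace Pool.Agent.P.MP_7aad9f_nt

/-- The sum of `log (N / p)` over the primes `p ≤ N`. -/
def AA (N : ℕ) : ℝ := ∑ p ∈ Nat.primesLE N, log ((N : ℝ) / p)

lemma two_le_cast {p N : ℕ} (hp : p ∈ Nat.primesLE N) : (2 : ℝ) ≤ p ∧ (p : ℝ) ≤ N :=
  ⟨by exact_mod_cast Nat.two_le_of_mem_primesLE hp, by exact_mod_cast Nat.le_of_mem_primesLE hp⟩

lemma log_div_nonneg {p N : ℕ} (hp : p ∈ Nat.primesLE N) : 0 ≤ log ((N : ℝ) / p) := by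
  have h := two_le_cast hp
  exact log_nonneg (by rw [le_div_iff₀ (by linarith)]; linarith)

lemma AA_nonneg (N : ℕ) : 0 ≤ AA N := sum_nonneg fun _ hp => log_div_nonneg hp

lemma mertens_one {N : ℕ} (hN : 0 < N) :
    log N - 1 ≤ ∑ p ∈ Nat.primesLE N, log p / ((p : ℝ) - 1) := by
  have hN' : (0 : ℝ) < N := by exact_mod_cast hN
  have hf : (0 : ℝ) < N.factorial := by exact_mod_cast N.factorial_pos
  have h1 := log_le_log (by positivity) (pow_div_factorial_le_exp (N : ℝ) hN'.le N)
  rw [log_exp, log_div (by positivity) hf.ne', log_pow] at h1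
  have h2 : log (N.factorial : ℝ) ≤ N * ∑ p ∈ Nat.primesLE N, log p / ((p : ℝ) - 1) := by
    rw [log_nat_eq_sum_factorization, Finsupp.sum, mul_sum]
    calc _ ≤ ∑ p ∈ Nat.primesLE N, (N.factorial.factorization p : ℝ) * log p := by
          refine sum_le_sum_of_subset_of_nonneg (fun p hp => ?_) fun p hp _ => by positivity
          rw [Nat.support_factorization] at hp
          have hp' := Nat.prime_of_mem_primeFactors hp
          exact Nat.mem_primesLE.2 ⟨hp'.dvd_factorial.1 (Nat.dvd_of_mem_primeFactors hp), hp'⟩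
      _ ≤ _ := by
          refine sum_le_sum fun p hp => ?_
          have hp' := Nat.prime_of_mem_primesLE hp
          have h3 := Nat.factorization_factorial_le_div_pred hp' N
          have h4 : (N.factorial.factorization p : ℝ) ≤ N / ((p : ℝ) - 1) := by
            refine (Nat.cast_le.2 h3).trans (Nat.cast_div_le.trans (le_of_eq ?_))
            rw [Nat.cast_pred hp'.pos]
          calc _ ≤ N / ((p : ℝ) - 1) * log p := mul_le_mul_of_nonneg_right h4 (by positivity)
            _ = _ := by ring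
  refine le_of_mul_le_mul_left ?_ hN'
  linarith

lemma mertens_two {μ : ℝ} (h0 : 0 < μ) (h1 : μ < 1) : ∃ C : ℝ, ∀ N : ℕ, 0 < N →
    μ * log N - C ≤ ∑ p ∈ Nat.primesLE N, log p / p := by
  obtain ⟨P, hP⟩ := exists_nat_ge (1 / (1 - μ))
  refine ⟨μ + P, fun N hN => ?_⟩
  have h2 := mul_le_mul_of_nonneg_left (mertens_one hN) h0.le
  have h3 : μ * ∑ p ∈ Nat.primesLE N, log p / ((p : ℝ) - 1) ≤
      ∑ p ∈ Nat.primesLE N, (log p / p + if p < P then 1 else 0) := by
    rw [mul_sum]
    refine sum_le_sum fun p hp => ?_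
    have h := (two_le_cast hp).1
    have hl : 0 ≤ log (p : ℝ) := by positivity
    split_ifs with hpP
    · have h4 : log p / ((p : ℝ) - 1) ≤ 1 := by
        rw [div_le_one (by linarith)]
        exact log_le_sub_one_of_pos (by linarith)
      have h5 : 0 ≤ log p / ((p : ℝ) - 1) := div_nonneg hl (by linarith)
      have h6 : 0 ≤ log p / (p : ℝ) := by positivity
      nlinarith
    · have h4 : (P : ℝ) ≤ p := by exact_mod_cast not_lt.1 hpP
      have h5 : 1 ≤ (1 - μ) * p := by
        have := hP.trans h4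
        rw [div_le_iff₀ (by linarith)] at this
        linarith
      rw [add_zero, ← mul_div_assoc, div_le_div_iff₀ (by linarith) (by linarith)]
      nlinarith
  rw [sum_add_distrib, sum_boole] at h3
  have h4 : ((#{p ∈ Nat.primesLE N | p < P} : ℕ) : ℝ) ≤ P := by
    have : #{p ∈ Nat.primesLE N | p < P} ≤ #(range P) :=
      card_le_card fun p hp => mem_range.2 (mem_filter.1 hp).2
    rw [card_range] at this
    exact_mod_cast this
  linarith

lemma log_succ_ge {k : ℝ} (hk : 0 < k) : 1 / (k + 1) ≤ log (k + 1) - log k := by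
  rw [← log_div (by positivity) hk.ne']
  have := one_sub_inv_le_log_of_pos (x := (k + 1) / k) (by positivity)
  refine le_trans (le_of_eq ?_) this
  field_simp
  ring

lemma telescope {p : ℕ} (hp : 0 < p) (N : ℕ) (hN : p ≤ N) :
    1 / (p : ℝ) - (1 + log ((N : ℝ) / p)) / N ≤
      ∑ k ∈ Ico p N, log (((k + 1 : ℕ) : ℝ) / p) / (k : ℝ) ^ 2 := by
  have hp' : (0 : ℝ) < p := by exact_mod_cast hp
  induction N, hN using Nat.le_induction with
  | base => simp [hp'.ne']
  | succ k hk ih =>
    rw [sum_Ico_succ_top hk]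
    have hk' : (p : ℝ) ≤ k := by exact_mod_cast hk
    have hk0 : (0 : ℝ) < k := by linarith
    have hd := log_succ_ge hk0
    have hu : 0 ≤ log k - log p := sub_nonneg.2 (log_le_log hp' hk')
    push_cast at ih ⊢
    rw [log_div hk0.ne' hp'.ne'] at ih
    rw [log_div (by positivity) hp'.ne']
    set u := log k - log p with hu'
    set d := log (k + 1) - log k with hd'
    have e : log (k + 1) - log p = u + d := by rw [hu', hd']; ring
    rw [e]
    suffices (1 + u) / k - (1 + (u + d)) / (k + 1) ≤ (u + d) / (k : ℝ) ^ 2 by linarith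
    rw [div_le_iff₀ (by positivity)] at hd
    rw [div_sub_div _ _ hk0.ne' (by positivity), div_le_div_iff₀ (by positivity) (by positivity)]
    have hd0 : 0 < d := by nlinarith
    have h1 : 0 ≤ k * u := by positivity
    have h2 : 0 ≤ k * k * (d * (k + 1) - 1) := mul_nonneg (by positivity) (by linarith)
    have h3 : 0 ≤ k * (d * (k + 1) - 1) := mul_nonneg (by positivity) (by linarith)
    have h4 : 0 ≤ (k : ℝ) * (k * k * (d * (k + 1) - 1)) := by positivity
    have h5 : (0 : ℝ) < k + 1 := by positivity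
    refine le_of_mul_le_mul_left ?_ h5
    nlinarith

lemma sum_weight (N : ℕ) (hN : 1 ≤ N) :
    ∑ k ∈ Ico 1 N, ((k : ℝ) + 1) / (k : ℝ) ^ 2 ≤ log N + 3 - 3 / N := by
  induction N, hN using Nat.le_induction with
  | base => simp
  | succ k hk ih =>
    rw [sum_Ico_succ_top hk]
    have hk' : (1 : ℝ) ≤ k := by exact_mod_cast hk
    have hd := log_succ_ge (k := k) (by linarith)
    push_cast
    suffices ((k : ℝ) + 1) / (k : ℝ) ^ 2 ≤ 1 / (k + 1) + 3 / k - 3 / (k + 1) by linarith
    rw [show 1 / ((k : ℝ) + 1) + 3 / k - 3 / (k + 1) = (k + 3) / (k * (k + 1)) by field_simp; ring,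
      div_le_div_iff₀ (by positivity) (by positivity)]
    nlinarith

lemma abel_two (N : ℕ) (hN : 0 < N) :
    ∑ p ∈ Nat.primesLE N, log p / p ≤ log 4 + log N * AA N / N +
      ∑ k ∈ Ico 1 N, log ((k + 1 : ℕ) : ℝ) * AA (k + 1) / (k : ℝ) ^ 2 := by
  have hN' : (0 : ℝ) < N := by exact_mod_cast hN
  have h1 : ∑ p ∈ Nat.primesLE N, log p / p ≤ ∑ p ∈ Nat.primesLE N,
      (log p / N + log N * log ((N : ℝ) / p) / N + ∑ k ∈ Ico 1 N,
        if p ≤ k then log p * log (((k + 1 : ℕ) : ℝ) / p) / (k : ℝ) ^ 2 else 0) := by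
    refine sum_le_sum fun p hp => ?_
    have hp2 := two_le_cast hp
    have hp0 := (Nat.prime_of_mem_primesLE hp).pos
    have hl : 0 ≤ log (p : ℝ) := by positivity
    have h2 := mul_le_mul_of_nonneg_left (telescope hp0 N (Nat.le_of_mem_primesLE hp)) hl
    have h3 : {k ∈ Ico 1 N | p ≤ k} = Ico p N := by
      ext k
      simp only [mem_filter, mem_Ico]
      omega
    rw [← sum_filter, h3]
    rw [mul_sum] at h2
    simp only [← mul_div_assoc] at h2
    have h4 : log p * log ((N : ℝ) / p) / N ≤ log N * log ((N : ℝ) / p) / N :=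
      div_le_div_of_nonneg_right (mul_le_mul_of_nonneg_right
        (log_le_log (by linarith) hp2.2) (log_div_nonneg hp)) hN'.le
    have e : log p * (1 / (p : ℝ) - (1 + log ((N : ℝ) / p)) / N) =
        log p / p - log p / N - log p * log ((N : ℝ) / p) / N := by ring
    linarith
  refine h1.trans ?_
  rw [sum_add_distrib, sum_add_distrib, sum_comm, ← sum_div, ← sum_div, ← mul_sum,
    ← Chebyshev.theta_eq_sum_primesLE_log]
  refine add_le_add (add_le_add ?_ le_rfl) (sum_le_sum fun k hk => ?_)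
  · rw [div_le_iff₀ hN']
    exact Chebyshev.theta_le_log4_mul_x hN'.le
  · rw [← sum_filter, ← sum_div, AA, mul_sum]
    refine div_le_div_of_nonneg_right ?_ (by positivity)
    have hsub : {p ∈ Nat.primesLE N | p ≤ k} ⊆ Nat.primesLE (k + 1) := fun p hp =>
      Nat.mem_primesLE.2 ⟨(mem_filter.1 hp).2.trans k.le_succ,
        Nat.prime_of_mem_primesLE (mem_filter.1 hp).1⟩
    refine le_trans (sum_le_sum fun p hp => ?_) (sum_le_sum_of_subset_of_nonneg hsub
      fun p hp _ => mul_nonneg (by positivity) (log_div_nonneg hp))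
    have hp2 := two_le_cast (hsub hp)
    exact mul_le_mul_of_nonneg_right (log_le_log (by linarith) hp2.2) (log_div_nonneg (hsub hp))

theorem frequently_AA {l : ℝ} (h0 : 0 < l) (h1 : l < 1) :
    ∃ᶠ N : ℕ in atTop, l * N ≤ log N * AA N := by
  intro hcon
  obtain ⟨N₀, hN₀⟩ := eventually_atTop.1 hcon
  obtain ⟨C, hC⟩ := mertens_two (μ := (1 + l) / 2) (by linarith) (by linarith)
  set f : ℕ → ℝ := fun k => log ((k + 1 : ℕ) : ℝ) * AA (k + 1) / (k : ℝ) ^ 2 with hf
  have hf0 : ∀ k, 0 ≤ f k := fun k =>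
    div_nonneg (mul_nonneg (by positivity) (AA_nonneg _)) (by positivity)
  have hlim : Tendsto (fun N : ℕ => log (N : ℝ)) atTop atTop :=
    tendsto_log_atTop.comp tendsto_natCast_atTop_atTop
  obtain ⟨N, hN1, hN2, hN3⟩ := ((hlim.eventually_gt_atTop
    ((C + log 4 + 4 + ∑ k ∈ range N₀, f k) / ((1 - l) / 2))).and
    ((eventually_ge_atTop N₀).and (eventually_ge_atTop 1))).exists
  have hN' : (0 : ℝ) < N := by exact_mod_cast hN3
  have h2 := (hC N hN3).trans (abel_two N hN3)
  have h3 : log N * AA N / N ≤ 1 := by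
    rw [div_le_one hN']
    have := not_le.1 (hN₀ N hN2)
    nlinarith
  have h4 : ∑ k ∈ Ico 1 N, f k ≤ ∑ k ∈ Ico 1 N,
      (l * (((k : ℝ) + 1) / (k : ℝ) ^ 2) + if k < N₀ then f k else 0) := by
    refine sum_le_sum fun k hk => ?_
    split_ifs with h
    · have : 0 ≤ l * (((k : ℝ) + 1) / (k : ℝ) ^ 2) := by positivity
      linarith
    · have := not_le.1 (hN₀ (k + 1) (by omega))
      rw [add_zero, ← mul_div_assoc]
      refine div_le_div_of_nonneg_right ?_ (by positivity)
      push_cast at this ⊢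
      exact this.le
  rw [sum_add_distrib, ← mul_sum, ← sum_filter] at h4
  have h5 : ∑ k ∈ Ico 1 N with k < N₀, f k ≤ ∑ k ∈ range N₀, f k :=
    sum_le_sum_of_subset_of_nonneg (fun k hk => mem_range.2 (mem_filter.1 hk).2)
      fun k _ _ => hf0 k
  have h6 := mul_le_mul_of_nonneg_left (sum_weight N hN3) h0.le
  have h7 : 0 ≤ l * (3 / N) := by positivity
  rw [div_lt_iff₀ (by linarith)] at hN1
  change _ ≤ _ + _ + ∑ k ∈ Ico 1 N, f k at h2
  nlinarith

end Pool.Agent.P.MP_7aad9f_nt
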