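import Mathlib

set_option autoImplicit false

open MeasureTheory AddCircle Real
open scoped ComplexConjugate

noncomputable section

namespace Pool.Agent.P.MP_7aad9f_nt

lemma circ_integrable {E : Type} [NormedAddCommGroup E] {f : UnitAddCircle → E}
    (hf : Continuous f) : Integrable f haarAddCircle :=
  hf.integrable_of_hasCompactSupport (HasCompactSupport.of_compactSpace f)

lemma circ_integral (f : UnitAddCircle → ℝ) :
    ∫ t, f t ∂haarAddCircle = ∫ x in (-(1 / 2) : ℝ)..(1 / 2), f x := by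
  rw [integral_haarAddCircle, ← UnitAddCircle.intervalIntegral_preimage (-(1 / 2)) f]
  norm_num

lemma norm_coe_of_le {x : ℝ} (hx : |x| ≤ 1 / 2) : ‖(x : UnitAddCircle)‖ = |x| := by
  rw [AddCircle.norm_coe_eq_abs_iff (1 : ℝ) one_ne_zero]
  simpa using hx

lemma integral_fourier (a : ℤ) :
    ∫ t : UnitAddCircle, fourier a t ∂haarAddCircle = if a = 0 then 1 else 0 := by
  have h := congrFun (fourierCoeff_fourier (T := 1) a) 0
  simp only [fourierCoeff, neg_zero, fourier_zero, one_smul] at h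
  rw [h, Pi.single_apply]
  simp only [eq_comm]

lemma norm_fourier_apply (a : ℤ) (t : UnitAddCircle) : ‖fourier a t‖ = 1 := by
  rw [fourier_apply, Circle.norm_coe]

lemma den_ne {ρ : ℝ} (h0 : 0 ≤ ρ) (t : UnitAddCircle) :
    1 - ρ ≤ ‖1 - (ρ : ℂ) * fourier 1 t‖ := by
  have := norm_sub_norm_le (1 : ℂ) ((ρ : ℂ) * fourier 1 t)
  rwa [norm_one, norm_mul, norm_fourier_apply, mul_one, Complex.norm_real, Real.norm_eq_abs,
    abs_of_nonneg h0] at this

lemma den_ne' {ρ : ℝ} (h0 : 0 ≤ ρ) (h1 : ρ < 1) (t : UnitAddCircle) :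
    1 - (ρ : ℂ) * fourier 1 t ≠ 0 := by
  intro h
  have := den_ne h0 t
  rw [h, norm_zero] at this
  linarith

/-- Fourier coefficients of the Cauchy kernel. -/
def cc (ρ : ℝ) (a : ℤ) : ℂ :=
  ∫ t : UnitAddCircle, fourier a t / (1 - (ρ : ℂ) * fourier 1 t) ∂haarAddCircle

lemma cc_cont {ρ : ℝ} (h0 : 0 ≤ ρ) (h1 : ρ < 1) (a : ℤ) :
    Continuous fun t : UnitAddCircle => fourier a t / (1 - (ρ : ℂ) * fourier 1 t) :=
  Continuous.div (by fun_prop) (by fun_prop) (den_ne' h0 h1)

lemma cc_rec {ρ : ℝ} (h0 : 0 ≤ ρ) (h1 : ρ < 1) (a : ℤ) :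
    cc ρ a = (if a = 0 then 1 else 0) + ρ * cc ρ (a + 1) := by
  rw [← integral_fourier, cc, cc, ← integral_const_mul, ← integral_add
    (circ_integrable (by fun_prop)) ((circ_integrable (cc_cont h0 h1 _)).const_mul _)]
  refine integral_congr_ae (ae_of_all _ fun t => ?_)
  have := den_ne' h0 h1 t
  simp only [fourier_add]
  field_simp
  ring

lemma cc_bound {ρ : ℝ} (h0 : 0 ≤ ρ) (h1 : ρ < 1) (a : ℤ) : ‖cc ρ a‖ ≤ (1 - ρ)⁻¹ := by
  have := norm_integral_le_of_norm_le_const (μ := (haarAddCircle : Measure UnitAddCircle))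
    (f := fun t : UnitAddCircle => fourier a t / (1 - (ρ : ℂ) * fourier 1 t)) (C := (1 - ρ)⁻¹)
    (ae_of_all _ fun t => by
      rw [norm_div, norm_fourier_apply, one_div]
      exact inv_anti₀ (by linarith) (den_ne h0 t))
  simpa [cc] using this

lemma cc_pos {ρ : ℝ} (h0 : 0 ≤ ρ) (h1 : ρ < 1) (a : ℤ) (ha : 0 < a) : cc ρ a = 0 := by
  have key : ∀ n : ℕ, ∀ a : ℤ, 0 < a → ‖cc ρ a‖ ≤ ρ ^ n * (1 - ρ)⁻¹ := by
    intro n
    induction n with
    | zero => intro a _; simpa using cc_bound h0 h1 a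
    | succ n ih =>
      intro a ha
      rw [cc_rec h0 h1, if_neg ha.ne', zero_add, norm_mul, Complex.norm_real, Real.norm_eq_abs,
        abs_of_nonneg h0, pow_succ', mul_assoc]
      exact mul_le_mul_of_nonneg_left (ih _ (by omega)) h0
  have hl := (tendsto_pow_atTop_nhds_zero_of_lt_one h0 h1).mul_const (1 - ρ)⁻¹
  rw [zero_mul] at hl
  exact norm_le_zero_iff.1 (ge_of_tendsto' hl fun n => key n a ha)

lemma cc_neg {ρ : ℝ} (h0 : 0 ≤ ρ) (h1 : ρ < 1) (n : ℕ) : cc ρ (-(n : ℤ)) = (ρ : ℂ) ^ n := by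
  induction n with
  | zero => rw [cc_rec h0 h1, cc_pos h0 h1 _ (by simp)]; simp
  | succ n ih =>
    rw [cc_rec h0 h1, if_neg (by omega), zero_add, pow_succ', ← ih]
    congr 2
    push_cast; ring

/-- The Poisson kernel on the circle. -/
def pk (ρ : ℝ) (t : UnitAddCircle) : ℝ := (1 - ρ ^ 2) / ‖1 - (ρ : ℂ) * fourier 1 t‖ ^ 2

lemma pk_cont {ρ : ℝ} (h0 : 0 ≤ ρ) (h1 : ρ < 1) : Continuous (pk ρ) :=
  Continuous.div (by fun_prop) (by fun_prop)
    fun t => pow_ne_zero _ (norm_ne_zero_iff.2 (den_ne' h0 h1 t))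

lemma pk_nonneg {ρ : ℝ} (h0 : 0 ≤ ρ) (h1 : ρ < 1) (t : UnitAddCircle) : 0 ≤ pk ρ t :=
  div_nonneg (by nlinarith) (by positivity)

lemma pk_eq {ρ : ℝ} (h0 : 0 ≤ ρ) (h1 : ρ < 1) (a : ℤ) (t : UnitAddCircle) :
    fourier a t * (pk ρ t : ℂ) = fourier a t / (1 - (ρ : ℂ) * fourier 1 t) +
      conj (fourier (-a) t / (1 - (ρ : ℂ) * fourier 1 t)) - fourier a t := by
  have h := den_ne' h0 h1 t
  have h' : 1 - (ρ : ℂ) * conj (fourier 1 t) ≠ 0 := by
    intro h2
    apply h
    have := congrArg conj h2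
    simpa using this
  have he : fourier 1 t * conj (fourier 1 t) = 1 := by
    rw [Complex.mul_conj, Complex.normSq_eq_norm_sq, norm_fourier_apply]; simp
  have hn : ((‖1 - (ρ : ℂ) * fourier 1 t‖ : ℝ) : ℂ) ^ 2 =
      (1 - (ρ : ℂ) * fourier 1 t) * (1 - (ρ : ℂ) * conj (fourier 1 t)) := by
    rw [← Complex.mul_conj']
    simp
  rw [fourier_neg, map_div₀, Complex.conj_conj, pk]
  push_cast
  rw [hn]
  simp only [map_sub, map_one, map_mul, Complex.conj_ofReal]
  field_simp
  linear_combination ((ρ : ℂ) ^ 2) * he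

lemma pk_coeff {ρ : ℝ} (h0 : 0 ≤ ρ) (h1 : ρ < 1) (a : ℤ) :
    ∫ t : UnitAddCircle, fourier a t * (pk ρ t : ℂ) ∂haarAddCircle = (ρ : ℂ) ^ a.natAbs := by
  simp_rw [pk_eq h0 h1]
  rw [integral_sub, integral_add, integral_conj, integral_fourier]
  · change cc ρ a + conj (cc ρ (-a)) - _ = _
    rcases lt_trichotomy a 0 with ha | rfl | ha
    · rw [cc_pos h0 h1 (-a) (by omega), if_neg ha.ne, ← cc_neg h0 h1]
      have : -(a.natAbs : ℤ) = a := by omega
      rw [this]; simp
    · have := cc_neg h0 h1 0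
      simp only [Nat.cast_zero, neg_zero, pow_zero] at this
      simp [this]
    · have : -a = -(a.natAbs : ℤ) := by omega
      rw [cc_pos h0 h1 a ha, if_neg ha.ne', this, cc_neg h0 h1]
      simp
  · exact circ_integrable (cc_cont h0 h1 _)
  · exact circ_integrable (Complex.continuous_conj.comp (cc_cont h0 h1 _))
  · exact circ_integrable ((cc_cont h0 h1 _).add (Complex.continuous_conj.comp (cc_cont h0 h1 _)))
  · exact circ_integrable (by fun_prop)

lemma pk_integral {ρ : ℝ} (h0 : 0 ≤ ρ) (h1 : ρ < 1) :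
    ∫ t : UnitAddCircle, pk ρ t ∂haarAddCircle = 1 := by
  have := pk_coeff h0 h1 0
  simp only [fourier_zero, one_mul, Int.natAbs_zero, pow_zero] at this
  rw [integral_complex_ofReal] at this
  exact_mod_cast this

lemma den_sq (ρ x : ℝ) :
    ‖1 - (ρ : ℂ) * fourier 1 (x : UnitAddCircle)‖ ^ 2 = (1 - ρ) ^ 2 + 4 * ρ * sin (π * x) ^ 2 := by
  rw [fourier_coe_apply]
  have : (2 * π * Complex.I * ((1 : ℤ) : ℂ) * x / ((1 : ℝ) : ℂ)) = ((2 * (π * x) : ℝ) : ℂ) * Complex.I := by
    push_cast; ring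
  rw [this, ← Complex.normSq_eq_norm_sq, Complex.normSq_apply]
  simp only [Complex.sub_re, Complex.one_re, Complex.sub_im, Complex.one_im, Complex.re_ofReal_mul,
    Complex.im_ofReal_mul, Complex.exp_ofReal_mul_I_re, Complex.exp_ofReal_mul_I_im]
  have h1 := sin_sq_add_cos_sq (2 * (π * x))
  have h2 := cos_two_mul (π * x)
  have h3 := sin_sq_add_cos_sq (π * x)
  linear_combination ρ ^ 2 * h1 - 2 * ρ * h2 - 4 * ρ * h3

lemma sq_le_sin_sq {y : ℝ} (hy : |y| ≤ π / 2) : y ^ 2 ≤ sin y ^ 2 * (1 + y ^ 2) := by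
  have key : ∀ z : ℝ, 0 ≤ z → z ≤ π / 2 → z ^ 2 ≤ sin z ^ 2 * (1 + z ^ 2) := by
    intro z h0 h1
    have hc : 0 ≤ cos z := cos_nonneg_of_neg_pi_div_two_le_of_le (by linarith) h1
    have h : z * cos z ≤ sin z := by
      rcases h1.eq_or_lt with rfl | h1
      · simp
      · have hc' : 0 < cos z := cos_pos_of_mem_Ioo ⟨by linarith, h1⟩
        have := le_tan h0 h1
        rwa [tan_eq_sin_div_cos, le_div_iff₀ hc'] at this
    have h2 : (z * cos z) ^ 2 ≤ sin z ^ 2 := pow_le_pow_left₀ (by positivity) h 2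
    have h3 := sin_sq_add_cos_sq z
    nlinarith
  rcases le_total 0 y with h | h
  · exact key y h (by rwa [abs_of_nonneg h] at hy)
  · have := key (-y) (by linarith) (by rwa [abs_of_nonpos h] at hy)
    simpa using this

lemma int_sing {b : ℝ} (hb : 0 < b) :
    ∫ x in (0 : ℝ)..(1 / 2), (1 - exp (-b * x ^ 2)) / x ^ 2 ≤ √(π * b) := by
  have hbound : ∀ x : ℝ, 0 ≤ 1 - exp (-b * x ^ 2) ∧ 1 - exp (-b * x ^ 2) ≤ b * x ^ 2 := by
    intro x
    have h1 : exp (-b * x ^ 2) ≤ 1 := exp_le_one_iff.2 (by nlinarith [sq_nonneg x])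
    have h2 := add_one_le_exp (-b * x ^ 2)
    constructor <;> linarith
  have hint : IntervalIntegrable (fun x : ℝ => (1 - exp (-b * x ^ 2)) / x ^ 2) volume 0 (1 / 2) := by
    refine (intervalIntegrable_const (c := b)).mono_fun'
      (Measurable.aestronglyMeasurable (by fun_prop)) (ae_of_all _ fun x => ?_)
    rcases eq_or_ne x 0 with rfl | hx
    · simp [hb.le]
    · have := hbound x
      simp only
      rw [Real.norm_eq_abs, abs_of_nonneg (div_nonneg this.1 (by positivity)),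
        div_le_iff₀ (by positivity)]
      exact this.2
  have hg : IntervalIntegrable (fun x : ℝ => 2 * b * exp (-b * x ^ 2)) volume 0 (1 / 2) :=
    Continuous.intervalIntegrable (by fun_prop) _ _
  have hcont : ContinuousOn (fun x : ℝ => -(1 - exp (-b * x ^ 2)) / x) (Set.Icc 0 (1 / 2)) := by
    intro x hx
    rcases eq_or_ne x 0 with rfl | hx0
    · refine ContinuousAt.continuousWithinAt ?_
      have : Filter.Tendsto (fun x : ℝ => b * |x|) (nhds 0) (nhds 0) := by
        have : Continuous fun x : ℝ => b * |x| := by fun_prop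
        simpa using this.tendsto 0
      rw [ContinuousAt]
      simp only [div_zero]
      refine squeeze_zero_norm (fun y => ?_) this
      rcases eq_or_ne y 0 with rfl | hy
      · simp
      · have := hbound y
        rw [norm_div, norm_neg, Real.norm_eq_abs, Real.norm_eq_abs, abs_of_nonneg this.1,
          div_le_iff₀ (abs_pos.2 hy), mul_assoc, ← sq, sq_abs]
        exact this.2
    · exact (ContinuousAt.div (by fun_prop) (by fun_prop) hx0).continuousWithinAt
  have hderiv : ∀ x ∈ Set.Ioo (0 : ℝ) (1 / 2),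
      HasDerivAt (fun x : ℝ => -(1 - exp (-b * x ^ 2)) / x)
        ((1 - exp (-b * x ^ 2)) / x ^ 2 - 2 * b * exp (-b * x ^ 2)) x := by
    intro x hx
    have h1 : HasDerivAt (fun x : ℝ => -b * x ^ 2) (-b * (2 * x)) x := by
      simpa using (hasDerivAt_pow 2 x).const_mul (-b)
    have h2 := ((h1.exp.const_sub 1).neg).div (hasDerivAt_id x) hx.1.ne'
    refine h2.congr_deriv ?_
    have := hx.1.ne'
    simp only [id, Pi.neg_apply]
    field_simp
    ring
  have hftc := intervalIntegral.integral_eq_sub_of_hasDerivAt_of_le (by norm_num) hcont hderiv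
    (hint.sub hg)
  rw [intervalIntegral.integral_sub hint hg] at hftc
  have h3 : ∫ x in (0 : ℝ)..(1 / 2), 2 * b * exp (-b * x ^ 2) ≤ √(π * b) := by
    rw [intervalIntegral.integral_const_mul, intervalIntegral.integral_of_le (by norm_num)]
    have h4 : ∫ x in Set.Ioc (0 : ℝ) (1 / 2), exp (-b * x ^ 2) ≤
        ∫ x in Set.Ioi (0 : ℝ), exp (-b * x ^ 2) :=
      setIntegral_mono_set (integrable_exp_neg_mul_sq hb).integrableOn
        (ae_of_all _ fun x => (exp_pos _).le) (Set.Ioc_subset_Ioi_self).eventuallyLE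
    rw [integral_gaussian_Ioi] at h4
    have h5 : √(π * b) = b * √(π / b) := by
      rw [show π * b = b ^ 2 * (π / b) by field_simp, sqrt_mul (by positivity), sqrt_sq hb.le]
    rw [h5]
    nlinarith
  have h6 := (hbound (1 / 2)).1
  simp only [div_zero, sub_zero] at hftc
  have : -(1 - exp (-b * (1 / 2) ^ 2)) / (1 / 2) ≤ 0 := by
    apply div_nonpos_of_nonpos_of_nonneg <;> linarith
  linarith

lemma pk_gauss {ρ b : ℝ} (h0 : 0 < ρ) (h1 : ρ < 1) (hb : 0 < b) :
    1 - (1 - ρ ^ 2) / (4 * ρ) * (2 * √(π * b) / π ^ 2 + 1) ≤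
      ∫ t : UnitAddCircle, exp (-b * ‖t‖ ^ 2) * pk ρ t ∂haarAddCircle := by
  have hc := pk_cont h0.le h1
  have hA : 0 ≤ (1 - ρ ^ 2) / (4 * ρ) := div_nonneg (by nlinarith) (by positivity)
  have hbound : ∀ x : ℝ, 0 ≤ 1 - exp (-b * x ^ 2) ∧ 1 - exp (-b * x ^ 2) ≤ b * x ^ 2 := by
    intro x
    have h1 : exp (-b * x ^ 2) ≤ 1 := exp_le_one_iff.2 (by nlinarith [sq_nonneg x])
    have h2 := add_one_le_exp (-b * x ^ 2)
    constructor <;> linarith
  have hint : ∀ u v : ℝ,
      IntervalIntegrable (fun x : ℝ => (1 - exp (-b * x ^ 2)) / x ^ 2) volume u v := by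
    intro u v
    refine (intervalIntegrable_const (c := b)).mono_fun'
      (Measurable.aestronglyMeasurable (by fun_prop)) (ae_of_all _ fun x => ?_)
    rcases eq_or_ne x 0 with rfl | hx
    · simp [hb.le]
    · have := hbound x
      simp only
      rw [Real.norm_eq_abs, abs_of_nonneg (div_nonneg this.1 (by positivity)),
        div_le_iff₀ (by positivity)]
      exact this.2
  have h2 : ∫ t : UnitAddCircle, exp (-b * ‖t‖ ^ 2) * pk ρ t ∂haarAddCircle =
      1 - ∫ t : UnitAddCircle, (1 - exp (-b * ‖t‖ ^ 2)) * pk ρ t ∂haarAddCircle := by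
    simp_rw [sub_mul, one_mul]
    rw [integral_sub (circ_integrable hc) (circ_integrable (by fun_prop)), pk_integral h0.le h1]
    ring
  rw [h2, circ_integral, sub_le_sub_iff_left]
  have h3 : ∫ x in (-(1 / 2) : ℝ)..(1 / 2), (1 - exp (-b * x ^ 2)) / x ^ 2 ≤ 2 * √(π * b) := by
    rw [← intervalIntegral.integral_add_adjacent_intervals (hint _ 0) (hint 0 _)]
    have := intervalIntegral.integral_comp_neg (a := 0) (b := 1 / 2)
      (fun x : ℝ => (1 - exp (-b * x ^ 2)) / x ^ 2)
    simp only [neg_sq, neg_zero] at this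
    rw [← this]
    linarith [int_sing hb]
  calc _ ≤ ∫ x in (-(1 / 2) : ℝ)..(1 / 2),
        (1 - ρ ^ 2) / (4 * ρ) * ((1 - exp (-b * x ^ 2)) / x ^ 2 / π ^ 2 + 1) := by
        refine intervalIntegral.integral_mono_on (by norm_num)
          (Continuous.intervalIntegrable (by fun_prop) _ _)
          ((((hint _ _).div_const _).add intervalIntegrable_const).const_mul _) fun x hx => ?_
        have hx' : |x| ≤ 1 / 2 := abs_le.2 hx
        rw [norm_coe_of_le hx', sq_abs]
        rcases eq_or_ne x 0 with rfl | hx0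
        · simpa using hA
        have hs := sq_le_sin_sq (y := π * x) (by
          rw [abs_mul, abs_of_pos pi_pos]; nlinarith [pi_pos])
        have hpx : 0 < (π * x) ^ 2 := by positivity
        have hsin : 0 < sin (π * x) ^ 2 := by
          by_contra h
          have : sin (π * x) ^ 2 = 0 := le_antisymm (not_lt.1 h) (sq_nonneg _)
          rw [this] at hs
          linarith
        have hp : pk ρ x ≤ (1 - ρ ^ 2) / (4 * ρ) * (1 / (π * x) ^ 2 + 1) := by
          rw [pk, den_sq]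
          calc _ ≤ (1 - ρ ^ 2) / (4 * ρ * sin (π * x) ^ 2) :=
                div_le_div_of_nonneg_left (by nlinarith) (by positivity)
                  (by nlinarith [sq_nonneg (1 - ρ)])
            _ = (1 - ρ ^ 2) / (4 * ρ) * (1 / sin (π * x) ^ 2) := by field_simp
            _ ≤ _ := by
                refine mul_le_mul_of_nonneg_left ?_ hA
                rw [div_add_one hpx.ne', div_le_div_iff₀ hsin hpx]
                linarith
        have hb' := hbound x
        calc _ ≤ (1 - exp (-b * x ^ 2)) * ((1 - ρ ^ 2) / (4 * ρ) * (1 / (π * x) ^ 2 + 1)) :=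
              mul_le_mul_of_nonneg_left hp hb'.1
          _ = (1 - ρ ^ 2) / (4 * ρ) *
              ((1 - exp (-b * x ^ 2)) / x ^ 2 / π ^ 2 + (1 - exp (-b * x ^ 2))) := by
              field_simp
          _ ≤ _ := by
              refine mul_le_mul_of_nonneg_left ?_ hA
              linarith [exp_pos (-b * x ^ 2)]
    _ ≤ _ := by
        rw [intervalIntegral.integral_const_mul, intervalIntegral.integral_add
          ((hint _ _).div_const _) intervalIntegrable_const, intervalIntegral.integral_div]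
        refine mul_le_mul_of_nonneg_left ?_ hA
        simp only [intervalIntegral.integral_const, smul_eq_mul]
        have := div_le_div_of_nonneg_right h3 (sq_nonneg π)
        linarith

end Pool.Agent.P.MP_7aad9f_nt
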