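import Pool.Agent.P.MP_7aad9f_nt.SubDefs

/-! Three elementary arithmetic facts. -/

set_option autoImplicit false

namespace Pool.Agent.P.MP_7aad9f_nt.Sub

open Finset

theorem arith_rad_pos (c : ℕ) : 0 < rad c :=
  prod_pos fun _ hp => (Nat.prime_of_mem_primeFactors hp).pos

theorem arith_eq_prod {c : ℕ} (hc : 0 < c) : c = ∏ p ∈ c.primeFactors, p ^ c.factorization p :=
  (Nat.prod_factorization_pow_eq_self hc.ne').symm

theorem mod_ : S_MOD := by
  intro c ϑ hc hϑ
  refine ⟨∏ p ∈ c.primeFactors, p ^ (c.factorization p / ϑ), ?_, ?_⟩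
  · conv_rhs => rw [arith_eq_prod hc]
    rw [← prod_pow]
    refine prod_dvd_prod_of_dvd _ _ fun p _ => ?_
    rw [← pow_mul]
    exact pow_dvd_pow _ (Nat.div_mul_le_self _ _)
  · conv_lhs => rw [arith_eq_prod hc]
    rw [rad, ← prod_mul_distrib, ← prod_pow]
    refine prod_le_prod' fun p hp => ?_
    rw [← pow_succ, ← pow_mul]
    refine Nat.pow_le_pow_right (Nat.prime_of_mem_primeFactors hp).pos ?_
    rw [mul_comm]
    exact (Nat.lt_mul_div_succ _ hϑ).le

theorem arith_totient (c : ℕ) : rad c ≤ 2 ^ c.primeFactors.card * (rad c).totient := by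
  have h1 : (rad c).primeFactors = c.primeFactors :=
    Nat.primeFactors_prod fun _ hp => Nat.prime_of_mem_primeFactors hp
  have h2 := Nat.totient_mul_prod_primeFactors (rad c)
  rw [h1, ← rad, mul_comm] at h2
  rw [Nat.eq_of_mul_eq_mul_left (arith_rad_pos c) h2, rad, ← prod_const, ← prod_mul_distrib]
  refine prod_le_prod' fun p hp => ?_
  have := (Nat.prime_of_mem_primeFactors hp).two_le
  omega

theorem arith_coprime {c t : ℕ} (hc : 0 < c) (h : Nat.Coprime (rad c) t) : Nat.Coprime t c := by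
  refine Nat.coprime_of_dvd fun p hp h1 h2 => ?_
  have h3 : p ∣ rad c := dvd_prod_of_mem _ (Nat.mem_primeFactors.2 ⟨hp, h2, hc.ne'⟩)
  exact hp.one_lt.ne' (Nat.eq_one_of_dvd_coprimes h h3 h1)

theorem arith_card (q : ℕ) (i : ℕ) :
    ((Ico 1 (1 + q * i)).filter fun t => Nat.Coprime q t).card = i * q.totient := by
  induction i with
  | zero => simp
  | succ i ih =>
    rw [← Ico_union_Ico_eq_Ico (b := 1 + q * i) (by omega) (by rw [mul_add]; omega), filter_union,
      card_union_of_disjoint (disjoint_filter_filter (Ico_disjoint_Ico_consecutive _ _ _)), ih,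
      mul_add, mul_one, ← add_assoc, Nat.filter_coprime_Ico_eq_totient, add_mul, one_mul]

theorem tset : S_TSET := by
  intro c Y hc hY
  have hq := arith_rad_pos c
  refine ⟨(Ico 1 (1 + rad c * (Y / rad c))).filter fun t => Nat.Coprime (rad c) t,
    fun t ht => ?_, ?_⟩
  · rw [mem_filter, mem_Ico] at ht
    have := Nat.mul_div_le Y (rad c)
    exact ⟨ht.1.1, by omega, arith_coprime hc ht.2⟩
  · rw [arith_card]
    have h1 := Nat.lt_mul_div_succ Y hq
    have h2 : 0 < Y / rad c := Nat.div_pos hY hq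
    calc Y ≤ rad c * (2 * (Y / rad c)) := h1.le.trans (Nat.mul_le_mul_left _ (by omega))
      _ ≤ 2 ^ c.primeFactors.card * (rad c).totient * (2 * (Y / rad c)) :=
        Nat.mul_le_mul_right _ (arith_totient c)
      _ = _ := by ring

theorem omega_ : S_OMEGA := by
  intro n ε hε
  obtain ⟨P, hP⟩ := Filter.eventually_atTop.1
    (((tendsto_rpow_atTop hε).comp tendsto_natCast_atTop_atTop).eventually_ge_atTop (n : ℝ))
  have h1 : (1 : ℝ) ≤ max 1 (n : ℝ) := le_max_left _ _
  refine ⟨(max 1 (n : ℝ)) ^ P, by positivity, fun N => ?_⟩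
  have h2 : (∏ p ∈ N.primeFactors, if p < P then max 1 (n : ℝ) else 1) ≤ (max 1 (n : ℝ)) ^ P := by
    rw [prod_ite, prod_const_one, mul_one, prod_const]
    refine pow_le_pow_right₀ h1 ?_
    exact (card_le_card fun p hp => mem_range.2 (mem_filter.1 hp).2).trans (card_range P).le
  refine le_trans ?_ (mul_le_mul_of_nonneg_right h2 (by positivity))
  rw [rad, Nat.cast_prod, ← Real.finsetProd_rpow _ _ fun p _ => Nat.cast_nonneg p,
    ← prod_mul_distrib, ← prod_const]
  refine prod_le_prod (fun _ _ => Nat.cast_nonneg n) fun p hp => ?_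
  split_ifs with h
  · have h3 : (1 : ℝ) ≤ (p : ℝ) ^ ε :=
      Real.one_le_rpow (by exact_mod_cast (Nat.prime_of_mem_primeFactors hp).pos) hε.le
    exact (le_max_right _ _).trans (le_mul_of_one_le_right (by positivity) h3)
  · rw [one_mul]
    exact hP p (not_lt.1 h)

end Pool.Agent.P.MP_7aad9f_nt.Sub
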