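import Pool.Agent.P.MP_7aad9f_nt.SubDefs

/-! The zero lemma in one variable. -/

open Polynomial

namespace Pool.Agent.P.MP_7aad9f_nt.Sub

theorem base_sb (α : Fin 1 → ℚ) (wt : Fin 1 → ℕ) (F : MvPolynomial (Fin 1) ℤ) :
    sb α wt (fun _ => 1) F = ((MvPolynomial.uniqueAlgEquiv ℤ (Fin 1) F).map
      (Int.castRingHom ℚ)).comp (C (α 0) + X ^ wt 0) := by
  induction F using MvPolynomial.induction_on with
  | C a => simp [sb]
  | add p q hp hq => rw [map_add, map_add, Polynomial.map_add, add_comp, hp, hq]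
  | mul_X p i hp =>
    obtain rfl : i = 0 := Subsingleton.elim _ _
    rw [map_mul, map_mul, Polynomial.map_mul, mul_comp, hp]
    congr 1
    simp [sb, MvPolynomial.uniqueAlgEquiv]

theorem base_prim (a : ℚ) : (C (a.den : ℤ) * X - C a.num : ℤ[X]).IsPrimitive := by
  intro r hr
  rw [C_dvd_iff_dvd_coeff] at hr
  have h0 := hr 0
  have h1 := hr 1
  simp only [coeff_sub, coeff_C_mul, coeff_X_zero, mul_zero, coeff_C_zero, zero_sub, dvd_neg,
    coeff_X_one, mul_one, coeff_C_succ, sub_zero] at h0 h1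
  exact (Int.isCoprime_iff_gcd_eq_one.2 (show Int.gcd a.num a.den = 1 from a.reduced)).isUnit_of_dvd'
    h0 h1

theorem base_prim_pow (a : ℚ) (e : ℕ) :
    ((C (a.den : ℤ) * X - C a.num : ℤ[X]) ^ e).IsPrimitive := by
  induction e with
  | zero => simp
  | succ e ih =>
    rw [pow_succ]
    exact ih.mul (base_prim a)

theorem base_den (a : ℚ) (e : ℕ) (f : ℤ[X]) (h : (X - C a) ^ e ∣ f.map (Int.castRingHom ℚ)) :
    (a.den : ℤ) ^ e ∣ f.leadingCoeff := by
  have hd : (a.den : ℚ) ≠ 0 := Nat.cast_ne_zero.2 a.den_nz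
  have h1 : (C (a.den : ℤ) * X - C a.num : ℤ[X]).map (Int.castRingHom ℚ) =
      C (a.den : ℚ) * (X - C a) := by
    rw [mul_sub, ← C_mul, Rat.den_mul_eq_num]
    simp
  have h2 : (C (a.den : ℤ) * X - C a.num : ℤ[X]) ^ e ∣ f := by
    rw [IsPrimitive.Int.dvd_iff_map_cast_dvd_map_cast _ _ (base_prim_pow a e), Polynomial.map_pow,
      h1, mul_pow]
    exact ((isUnit_C.2 hd.isUnit).pow e).mul_left_dvd.2 h
  have h3 := leadingCoeff_dvd_leadingCoeff h2
  rwa [leadingCoeff_pow, sub_eq_add_neg, ← C_neg,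
    leadingCoeff_linear (Int.natCast_ne_zero.2 a.den_nz)] at h3

theorem base : S_BASE := by
  intro α wt m F hw hF hO
  set f := MvPolynomial.uniqueAlgEquiv ℤ (Fin 1) F with hf
  have hf0 : f ≠ 0 := (map_ne_zero_iff _ (MvPolynomial.uniqueAlgEquiv ℤ (Fin 1)).injective).2 hF
  have hq0 : f.map (Int.castRingHom ℚ) ≠ 0 :=
    (Polynomial.map_ne_zero_iff (Int.castRingHom ℚ).injective_int).2 hf0
  obtain ⟨q, hq, hq'⟩ := exists_eq_pow_rootMultiplicity_mul_and_not_dvd _ hq0 (α 0)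
  set e := (f.map (Int.castRingHom ℚ)).rootMultiplicity (α 0)
  refine ⟨e, ?_, ?_⟩
  · by_contra hlt
    have h1 := hO fun _ => 1
    rw [base_sb, ← hf, hq, mul_comp, pow_comp, sub_comp, X_comp, C_comp, add_sub_cancel_left,
      ← pow_mul, X_pow_dvd_iff] at h1
    have h2 := h1 (0 + wt 0 * e) (by rw [zero_add, mul_comm]; omega)
    rw [coeff_X_pow_mul, coeff_zero_eq_eval_zero, eval_comp] at h2
    simp only [eval_add, eval_C, eval_pow, eval_X, zero_pow hw.ne', add_zero] at h2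
    exact hq' (dvd_iff_isRoot.2 h2)
  · have h1 := base_den (α 0) e f ⟨q, hq⟩
    have h2 : f.leadingCoeff ≠ 0 := leadingCoeff_ne_zero.2 hf0
    have h3 : (α 0).den ^ e ≤ f.leadingCoeff.natAbs := by
      have := Int.natAbs_dvd_natAbs.2 h1
      rw [Int.natAbs_pow, Int.natAbs_natCast] at this
      exact Nat.le_of_dvd (Int.natAbs_pos.2 h2) this
    rw [leadingCoeff, hf, MvPolynomial.coeff_uniqueAlgEquiv] at h2 h3
    exact h3.trans (Finset.single_le_sum (f := fun d => (F.coeff d).natAbs)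
      (fun _ _ => Nat.zero_le _) (MvPolynomial.mem_support_iff.2 h2))

end Pool.Agent.P.MP_7aad9f_nt.Sub
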