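import Pool.Agent.P.MP_7aad9f_nt.SubZL

set_option autoImplicit false

open Polynomial

namespace Pool.Agent.P.MP_7aad9f_nt.Sub

lemma core_two_pow_le (t : ℕ) : (2 : ℝ) ^ t ≤ Real.exp t := by
  have h5 : (2 : ℝ) ≤ Real.exp 1 := by linarith [Real.add_one_le_exp (1 : ℝ)]
  calc (2 : ℝ) ^ t ≤ Real.exp 1 ^ t := by gcongr
    _ = Real.exp t := by rw [← Real.exp_nat_mul, mul_one]

lemma core_poly {n : ℕ} {ι : Type} (P : Finset ι) (y : ι → Fin n → ℕ) (lam : ι → ℤ)
    (hy : Set.InjOn y P) (Φ : MvPolynomial (Fin n) ℤ)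
    (hΦ : Φ = ∑ p ∈ P, MvPolynomial.monomial (Finsupp.equivFunOnFinite.symm (y p)) (lam p)) :
    (∀ p ∈ P, Φ.coeff (Finsupp.equivFunOnFinite.symm (y p)) = lam p) ∧
    (∀ d ∈ Φ.support, ∃ p ∈ P, d = Finsupp.equivFunOnFinite.symm (y p)) ∧
    nrm Φ ≤ ∑ p ∈ P, (lam p).natAbs := by
  classical
  have hinj : ∀ p ∈ P, ∀ p' ∈ P, (Finsupp.equivFunOnFinite.symm (y p) : Fin n →₀ ℕ) =
      Finsupp.equivFunOnFinite.symm (y p') → p = p' := fun p hp p' hp' h =>
    hy hp hp' (Finsupp.equivFunOnFinite.symm.injective h)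
  have h1 : ∀ p ∈ P, Φ.coeff (Finsupp.equivFunOnFinite.symm (y p)) = lam p := by
    intro p hp
    rw [hΦ, MvPolynomial.coeff_sum, Finset.sum_eq_single p]
    · simp
    · intro p' hp' hne
      rw [MvPolynomial.coeff_monomial, if_neg]
      exact fun h => hne (hinj _ hp' _ hp h)
    · exact fun h => absurd hp h
  have h2 : ∀ d ∈ Φ.support, ∃ p ∈ P, d = Finsupp.equivFunOnFinite.symm (y p) := by
    intro d hd
    by_contra hcon
    rw [MvPolynomial.mem_support_iff, hΦ, MvPolynomial.coeff_sum] at hd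
    apply hd
    refine Finset.sum_eq_zero fun p hp => ?_
    rw [MvPolynomial.coeff_monomial, if_neg]
    exact fun h => hcon ⟨p, hp, h.symm⟩
  refine ⟨h1, h2, ?_⟩
  have h3 : Φ.support ⊆ P.image fun p => (Finsupp.equivFunOnFinite.symm (y p) : Fin n →₀ ℕ) := by
    intro d hd
    obtain ⟨p, hp, rfl⟩ := h2 d hd
    exact Finset.mem_image_of_mem _ hp
  calc nrm Φ ≤ ∑ d ∈ P.image fun p => (Finsupp.equivFunOnFinite.symm (y p) : Fin n →₀ ℕ),
        (Φ.coeff d).natAbs := Finset.sum_le_sum_of_subset h3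
    _ = ∑ p ∈ P, (lam p).natAbs := by
      rw [Finset.sum_image hinj]
      exact Finset.sum_congr rfl fun p hp => by rw [h1 p hp]

lemma core_mem_simplex {k Z : ℕ} {z : Fin k → ℕ} (h : z ∈ simplex k Z) :
    (∀ i, z i ≤ Z) ∧ ∑ i, z i ≤ Z := by
  simp only [simplex, Finset.mem_filter, Fintype.mem_piFinset, Finset.mem_range] at h
  exact ⟨fun i => Nat.lt_succ_iff.mp (h.1 i), h.2⟩

/-- numerical heart of the choice of parameters -/
lemma core_num (κ β μ ϑ ω Z ω1 k : ℝ) (hκ : 0 < κ) (hκ1 : κ < 1) (hω : 0 < ω)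
    (hZ : Z ≤ (1 + 3 * κ / 8) * ω) (hk : k ≤ Z) (hβ : β * ϑ ≤ κ / 8 * ω) (hω1 : ω1 ≤ κ / 4 * ω)
    (hμ : 64 / κ + 1 ≤ μ) (hZ0 : 0 ≤ Z) :
    (2 * (Z + k) + 4 * Z) + (β * ϑ + (1 - κ) * Z) * μ < (ω - ω1) * μ := by
  have hμ0 : 0 < μ := lt_of_lt_of_le (by positivity) hμ
  have h1 : 64 + κ ≤ κ * μ := by
    have := mul_le_mul_of_nonneg_left hμ hκ.le
    rwa [mul_add, mul_div_cancel₀ _ hκ.ne', mul_one] at this
  have h2 : (1 - κ) * Z ≤ (1 - 5 * κ / 8) * ω := by
    calc (1 - κ) * Z ≤ (1 - κ) * ((1 + 3 * κ / 8) * ω) := by gcongr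
      _ ≤ _ := by nlinarith [mul_pos (mul_pos hκ hκ) hω]
  have h3 : κ / 4 * ω ≤ (ω - ω1) - (β * ϑ + (1 - κ) * Z) := by nlinarith
  have h4 : κ / 4 * ω * μ ≤ ((ω - ω1) - (β * ϑ + (1 - κ) * Z)) * μ := by gcongr
  have h5 : Z ≤ 2 * ω := by nlinarith
  have h6 : (64 + κ) * ω ≤ κ * μ * ω := by gcongr
  nlinarith [mul_pos hκ hω]

theorem core (hZL : S_ZL) (hSIEGEL : S_SIEGEL) (hVANISH : S_VANISH) : S_CORE := by
  classical
  intro κ β hκ hκ1 hβ
  set l : ℕ := ⌈8 * β / κ⌉₊ with hl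
  have hl1 : 8 * β / κ ≤ l := Nat.le_ceil _
  have hl0 : 0 < l := Nat.ceil_pos.mpr (by positivity)
  set ρ : ℝ := 1 + κ / 4 with hρ
  obtain ⟨k, hk⟩ := pow_unbounded_of_one_lt (2 * (l : ℝ)) (show 1 < ρ by linarith)
  obtain ⟨D', μZ, HZ⟩ := hZL k (κ / 16) 6 (by positivity) (by linarith) (by norm_num)
  set ϑ0 : ℕ := ⌈8 * (ρ * k + 1) / κ⌉₊ with hϑ0
  refine ⟨k, max D' (max ϑ0 1), max μZ (64 / κ + 1), ?_⟩
  intro m a b y0 y g ha hb hab hμ hμb hdvd hy0 hy hy0m hym hg hG HT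
  set ϑ := g (Fin.last k) with hϑ
  set D := max D' (max ϑ0 1) with hD
  have hDϑ : D < ϑ := by
    have := hG (Pi.single (Fin.last k) 1) (by
      intro h
      have := congrFun h (Fin.last k)
      simp at this) (by
      intro r
      have h1 : (1 : ℤ) ≤ D := by exact_mod_cast le_max_of_le_right (le_max_right _ _)
      by_cases hr : r = Fin.last k
      · subst hr; simpa using h1
      · simp [Pi.single_eq_of_ne hr])
    simp only [Pi.single_apply, mul_ite, mul_one, mul_zero, Finset.sum_ite_eq', Finset.mem_univ,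
      if_true, Nat.abs_cast] at this
    exact_mod_cast this
  have hϑpos : 0 < ϑ := by omega
  have hϑ0' : 8 * (ρ * k + 1) / κ ≤ ϑ := by
    have h1 : ϑ0 ≤ ϑ := le_trans (le_max_of_le_right (le_max_left _ _)) hDϑ.le
    exact (Nat.le_ceil _).trans (by exact_mod_cast h1)
  set ω : ℕ := l * ϑ with hω
  have hϑω : ϑ ≤ ω := Nat.le_mul_of_pos_left _ hl0
  have hϑω' : (ϑ : ℝ) ≤ ω := by exact_mod_cast hϑω
  have hϑR : (0 : ℝ) < ϑ := by exact_mod_cast hϑpos
  have hωR : (0 : ℝ) < ω := lt_of_lt_of_le hϑR hϑω'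
  have hk0 : (0 : ℝ) ≤ k := by positivity
  have hρk : ρ * k + 1 ≤ κ / 8 * ω := by
    rw [div_le_iff₀ hκ] at hϑ0'
    nlinarith
  set Z : ℕ := ⌈ρ * (ω + k)⌉₊ with hZ
  have hZ1 : ρ * (ω + k) ≤ Z := Nat.le_ceil _
  have hZ2 : (Z : ℝ) ≤ (1 + 3 * κ / 8) * ω := by
    have := (Nat.ceil_lt_add_one (show 0 ≤ ρ * (ω + k) by positivity)).le
    rw [← hZ] at this
    nlinarith
  have hωZ' : (ω : ℝ) + k ≤ Z := by nlinarith
  have hϑZ : ϑ ≤ Z := by
    have : (ϑ : ℝ) ≤ Z := by linarith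
    exact_mod_cast this
  set ω1 : ℕ := ⌈κ / 8 * ω⌉₊ with hω1
  have hω11 : κ / 8 * ω ≤ ω1 := Nat.le_ceil _
  have hω12 : (ω1 : ℝ) ≤ κ / 4 * ω := by
    have := (Nat.ceil_lt_add_one (show 0 ≤ κ / 8 * ω by positivity)).le
    rw [← hω1] at this
    nlinarith [mul_nonneg (show 0 ≤ ρ by linarith) hk0]
  have hω13 : ω1 ≤ ω := by
    have : (ω1 : ℝ) ≤ ω := by nlinarith
    exact_mod_cast this
  set x : (Fin k → ℕ) → ℕ := fun z => Z - (∑ i, g i.castSucc * z i) / ϑ with hx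
  have hxZ : ∀ z, x z ≤ Z := fun z => Nat.sub_le _ _
  obtain ⟨hcard, lam, ⟨z0, hz0, hlam0⟩, hlam, hvan⟩ :=
    hSIEGEL k l ω Z ρ x hl0 (by linarith) hZ1 hk.le hxZ
  obtain ⟨G, hGm, HG⟩ := HT Z
  have hslab : ∀ z ∈ simplex k Z, ϑ * Z ≤ ϑ * x z + ∑ i, g i.castSucc * z i ∧
      ϑ * x z + ∑ i, g i.castSucc * z i ≤ ϑ * Z + ϑ := by
    intro z hz
    have h1 : ∑ i, g i.castSucc * z i ≤ ϑ * Z := by
      calc ∑ i, g i.castSucc * z i ≤ ∑ i, ϑ * z i :=
            Finset.sum_le_sum fun i _ => Nat.mul_le_mul_right _ (hg i)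
        _ = ϑ * ∑ i, z i := by rw [Finset.mul_sum]
        _ ≤ ϑ * Z := Nat.mul_le_mul_left _ (core_mem_simplex hz).2
    set s := ∑ i, g i.castSucc * z i with hs
    have h2 : s / ϑ ≤ Z := Nat.div_le_of_le_mul h1
    have h3 := Nat.div_add_mod s ϑ
    have h4 := Nat.mod_lt s hϑpos
    have h5 : ϑ * x z + ϑ * (s / ϑ) = ϑ * Z := by
      rw [← mul_add]
      congr 1
      simp only [hx, ← hs]
      omega
    omega
  have hΓex : ∀ z : Fin k → ℕ, ∃ Γ : ℕ, z ∈ simplex k Z →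
      a ^ x z * b ^ (Z - x z) * ((∏ i, y i ^ z i) * y0 ^ (Z - ∑ i, z i)) = G * Γ ∧
        (Γ : ℝ) ≤ Real.exp ((β * ϑ + (1 - κ) * Z) * Real.log m) := by
    intro z
    by_cases hz : z ∈ simplex k Z
    · obtain ⟨Γ, h⟩ := HG (x z) z (core_mem_simplex hz).2 (hxZ z) (hslab z hz).1
        (by rw [mul_add, mul_one]; exact (hslab z hz).2)
      exact ⟨Γ, fun _ => h⟩
    · exact ⟨0, fun h => absurd h hz⟩
  choose Γ hΓ using hΓex
  set yv : (Fin k → ℕ) → Fin (k + 1) → ℕ := fun z => Fin.snoc (α := fun _ => ℕ) z (x z) with hyv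
  set av : Fin (k + 1) → ℤ := Fin.snoc (α := fun _ => ℤ) (fun i => (y i : ℤ)) (-(a : ℤ)) with hav
  set bv : Fin (k + 1) → ℤ := Fin.snoc (α := fun _ => ℤ) (fun _ => (y0 : ℤ)) (b : ℤ) with hbv
  set wt : Fin (k + 1) → ℕ := Fin.snoc (α := fun _ => ℕ) (fun _ => 1) ϑ with hwt
  have hav0 : ∀ r, av r ≠ 0 := by
    intro r
    refine Fin.lastCases ?_ (fun i => ?_) r
    · simp [hav, ha.ne']
    · simp [hav, (hy i).ne']
  have hbv0 : ∀ r, bv r ≠ 0 := by
    intro r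
    refine Fin.lastCases ?_ (fun i => ?_) r
    · simp [hbv, hb.ne']
    · simp [hbv, hy0.ne']
  have hyvZ : ∀ z ∈ simplex k Z, ∀ r, yv z r ≤ Z := by
    intro z hz r
    refine Fin.lastCases ?_ (fun i => ?_) r
    · simpa [hyv] using hxZ z
    · simpa [hyv] using (core_mem_simplex hz).1 i
  have hμ1 : 64 / κ + 1 ≤ Real.log m := (le_max_right _ _).trans hμ
  have hm0 : 0 < m := by
    rcases Nat.eq_zero_or_pos m with h | h
    · rw [h] at hμ1
      have : (0 : ℝ) < 64 / κ + 1 := by positivity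
      simp at hμ1
      linarith
    · exact h
  have hlamR : ∀ z, (|lam z| : ℝ) ≤ 2 ^ (Z + k) * 4 ^ Z := fun z => by exact_mod_cast hlam z
  have hcardR : ((simplex k Z).card : ℝ) ≤ 2 ^ (Z + k) := by exact_mod_cast hcard
  have h4Z : (4 : ℝ) ^ Z = 2 ^ (2 * Z) := by rw [pow_mul]; norm_num
  have hOrd := hVANISH (k + 1) (Fin k → ℕ) (simplex k Z) yv lam (fun z => (-1) ^ x z * (Γ z : ℤ))
    av bv wt m Z ω ω1 ((y0 : ℤ) ^ (k * Z) * G) ((y0 : ℤ) ^ Z) hav0 hbv0 (by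
      intro r
      refine Fin.lastCases ?_ (fun i => ?_) r
      · simp only [hav, hbv, hwt, Fin.snoc_last]
        have h1 : ((m ^ ϑ : ℕ) : ℤ) ∣ ((a + b : ℕ) : ℤ) := Int.natCast_dvd_natCast.mpr hdvd
        push_cast at h1
        rw [show -(a : ℤ) - b = -(a + b) by ring]
        exact h1.neg_right
      · simp only [hav, hbv, hwt, Fin.snoc_castSucc, pow_one]
        exact (hym i).symm.dvd) hyvZ
    (IsCoprime.mul_left (Nat.isCoprime_iff_coprime.mpr hy0m).pow_left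
      (Nat.isCoprime_iff_coprime.mpr hGm)) (pow_ne_zero _ (by exact_mod_cast hy0.ne')) (by
      intro z hz
      have h1 := (hΓ z hz).1
      have h2 : (a : ℤ) ^ x z * (b : ℤ) ^ (Z - x z) *
          ((∏ i, (y i : ℤ) ^ z i) * (y0 : ℤ) ^ (Z - ∑ i, z i)) = G * Γ z := by exact_mod_cast h1
      have h3 : ∑ i, (Z - z i) + ∑ i, z i = k * Z := by
        rw [← Finset.sum_add_distrib]
        rw [Finset.sum_congr rfl fun i _ => Nat.sub_add_cancel ((core_mem_simplex hz).1 i)]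
        simp
      have h4 := (core_mem_simplex hz).2
      have h5 : (y0 : ℤ) ^ Z * (y0 : ℤ) ^ (∑ i, (Z - z i)) =
          (y0 : ℤ) ^ (k * Z) * (y0 : ℤ) ^ (Z - ∑ i, z i) := by
        rw [← pow_add, ← pow_add]
        congr 1
        omega
      rw [Fin.prod_univ_castSucc]
      simp only [hav, hbv, hyv, Fin.snoc_last, Fin.snoc_castSucc]
      rw [Finset.prod_mul_distrib, Finset.prod_pow_eq_pow_sum, neg_pow]
      linear_combination ((-1) ^ x z * (y0 : ℤ) ^ (k * Z)) * h2 +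
        ((-1) ^ x z * (a : ℤ) ^ x z * (b : ℤ) ^ (Z - x z) * ∏ i, (y i : ℤ) ^ z i) * h5) (by
      intro lv hlv
      rw [Fin.sum_univ_castSucc] at hlv
      simp only [hwt, Fin.snoc_last, Fin.snoc_castSucc, one_mul] at hlv
      have h1 : lv (Fin.last k) < l := by
        by_contra hc
        have : ω ≤ ϑ * lv (Fin.last k) := by
          rw [hω, mul_comm]
          exact Nat.mul_le_mul_left _ (not_lt.mp hc)
        omega
      rw [← hvan (lv (Fin.last k)) (fun i => lv i.castSucc) h1 (by omega)]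
      refine Finset.sum_congr rfl fun z _ => ?_
      rw [Fin.prod_univ_castSucc]
      simp only [hyv, Fin.snoc_last, Fin.snoc_castSucc]
      rw [mul_comm ((x z).choose _)]) (by
      have hterm : ∀ z ∈ simplex k Z,
          (|(lam z : ℝ)| * 2 ^ (∑ r, yv z r) * |(-1) ^ x z * (Γ z : ℝ)|) ≤
            2 ^ (Z + k) * 4 ^ Z * 2 ^ (2 * Z) *
              Real.exp ((β * ϑ + (1 - κ) * Z) * Real.log m) := by
        intro z hz
        have h1 : ∑ r, yv z r ≤ 2 * Z := by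
          rw [Fin.sum_univ_castSucc]
          simp only [hyv, Fin.snoc_last, Fin.snoc_castSucc]
          have := (core_mem_simplex hz).2
          have := hxZ z
          omega
        have h2 : |(-1) ^ x z * (Γ z : ℝ)| = Γ z := by
          rw [abs_mul, abs_pow, abs_neg, abs_one, one_pow, one_mul, Nat.abs_cast]
        rw [h2]
        have h3 : (2 : ℝ) ^ (∑ r, yv z r) ≤ 2 ^ (2 * Z) := pow_le_pow_right₀ (by norm_num) h1
        have h4 := (hΓ z hz).2
        have h5 := hlamR z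
        gcongr
      have hsum := Finset.sum_le_card_nsmul _ _ _ hterm
      rw [nsmul_eq_mul] at hsum
      have hnum := core_num κ β (Real.log m) ϑ ω Z ω1 k hκ hκ1 hωR hZ2 (by linarith) (by
        rw [div_le_iff₀ hκ] at hl1
        rw [hω]
        push_cast
        nlinarith) hω12 hμ1 (by positivity)
      have hpow : ((m : ℝ)) ^ (ω - ω1) = Real.exp ((ω - ω1) * Real.log m) := by
        rw [← Nat.cast_sub hω13, Real.exp_nat_mul, Real.exp_log (by exact_mod_cast hm0)]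
      have hfin : ((simplex k Z).card : ℝ) * (2 ^ (Z + k) * 4 ^ Z * 2 ^ (2 * Z) *
          Real.exp ((β * ϑ + (1 - κ) * Z) * Real.log m)) < (m : ℝ) ^ (ω - ω1) := by
        calc ((simplex k Z).card : ℝ) * (2 ^ (Z + k) * 4 ^ Z * 2 ^ (2 * Z) *
              Real.exp ((β * ϑ + (1 - κ) * Z) * Real.log m))
            ≤ 2 ^ (Z + k) * (2 ^ (Z + k) * 4 ^ Z * 2 ^ (2 * Z) *
              Real.exp ((β * ϑ + (1 - κ) * Z) * Real.log m)) := by gcongr
          _ = 2 ^ (2 * (Z + k) + 4 * Z) * Real.exp ((β * ϑ + (1 - κ) * Z) * Real.log m) := by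
            rw [h4Z]; ring
          _ ≤ Real.exp ((2 * (Z + k) + 4 * Z : ℕ) : ℝ) *
              Real.exp ((β * ϑ + (1 - κ) * Z) * Real.log m) := by
            gcongr; exact core_two_pow_le _
          _ < _ := by
            rw [hpow, ← Real.exp_add, Real.exp_lt_exp]
            push_cast
            exact hnum
      have := lt_of_le_of_lt hsum hfin
      exact_mod_cast this)
  obtain ⟨hc1, hc2, hc3⟩ := core_poly (simplex k Z) yv lam (by
    intro z _ z' _ h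
    funext i
    have := congrFun h i.castSucc
    simpa [hyv] using this) _ rfl
  refine HZ (fun r => (av r : ℚ) / bv r) wt g ((ϑ : ℤ) * Z) Z ω1 _ ?_ ?_ ?_
    (zl_gen_mono hG (le_max_left _ _)) ?_ (by omega) ?_ ?_ ?_ ?_ hOrd
  · intro r
    exact div_ne_zero (by exact_mod_cast hav0 r) (by exact_mod_cast hbv0 r)
  · intro i
    simp [hwt]
  · simpa [hwt] using hϑpos
  · have h1 : (((-(a : ℤ) : ℤ) : ℚ) / ((b : ℤ) : ℚ)).den = b := by
      have := Rat.den_div_eq_of_coprime (a := -(a : ℤ)) (b := (b : ℤ)) (by exact_mod_cast hb)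
        (by simpa using hab)
      exact_mod_cast this
    simp only [hav, hbv, hwt, Fin.snoc_last]
    rw [h1]
    exact le_trans (mul_le_mul_of_nonneg_right (le_max_left _ _) hϑR.le) hμb
  · intro h
    have := hc1 z0 hz0
    rw [h] at this
    exact hlam0 (by simpa using this.symm)
  · intro d hd
    obtain ⟨z, hz, rfl⟩ := hc2 d hd
    have h1 : ∑ r, (g r : ℤ) * ((Finsupp.equivFunOnFinite.symm (yv z) : Fin (k + 1) →₀ ℕ) r : ℕ) =
        ((ϑ * x z + ∑ i, g i.castSucc * z i : ℕ) : ℤ) := by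
      rw [Fin.sum_univ_castSucc]
      simp only [Finsupp.equivFunOnFinite_symm_apply_apply, hyv, Fin.snoc_last, Fin.snoc_castSucc]
      push_cast
      ring
    refine ⟨fun r => by simpa using hyvZ z hz r, ?_, ?_⟩
    · rw [h1]
      exact_mod_cast (hslab z hz).1
    · rw [h1]
      have := (hslab z hz).2
      have h2 : ϑ * x z + ∑ i, g i.castSucc * z i ≤ ϑ * Z + Z := by omega
      exact_mod_cast h2
  · have h1 : ((∑ z ∈ simplex k Z, (lam z).natAbs : ℕ) : ℝ) ≤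
        (simplex k Z).card * (2 ^ (Z + k) * 4 ^ Z) := by
      rw [← nsmul_eq_mul]
      push_cast
      refine Finset.sum_le_card_nsmul _ _ _ fun z _ => ?_
      rw [Nat.cast_natAbs]
      push_cast
      exact hlamR z
    have hkZ : k ≤ Z := by
      have : (k : ℝ) ≤ Z := by linarith
      exact_mod_cast this
    calc _ ≤ ((∑ z ∈ simplex k Z, (lam z).natAbs : ℕ) : ℝ) := by exact_mod_cast hc3
      _ ≤ (simplex k Z).card * (2 ^ (Z + k) * 4 ^ Z) := h1
      _ ≤ 2 ^ (Z + k) * (2 ^ (Z + k) * 4 ^ Z) := by gcongr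
      _ = 2 ^ (2 * (Z + k) + 2 * Z) := by rw [h4Z]; ring
      _ ≤ 2 ^ (6 * Z) := pow_le_pow_right₀ (by norm_num) (by omega)
      _ ≤ _ := by
        have := core_two_pow_le (6 * Z)
        push_cast at this
        exact this
  · nlinarith

end Pool.Agent.P.MP_7aad9f_nt.Sub
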