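import Mathlib

/-! Interface for the bound `log c ≤ K * rad(abc)^ε`.  Every `S_*` is proved in its own file. -/

set_option autoImplicit false

open Polynomial

namespace Pool.Agent.P.MP_7aad9f_nt.Sub

/-- The substitution `X_r ↦ α r + b r * X ^ wt r`. -/
noncomputable def sb {n : ℕ} (α : Fin n → ℚ) (wt : Fin n → ℕ) (b : Fin n → ℚ) :
    MvPolynomial (Fin n) ℤ →+* ℚ[X] :=
  MvPolynomial.eval₂Hom (Int.castRingHom ℚ[X]) (fun r => C (α r) + C (b r) * X ^ wt r)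

/-- `F` vanishes at `α` to weighted order at least `m`. -/
def Ord {n : ℕ} (α : Fin n → ℚ) (wt : Fin n → ℕ) (m : ℕ) (F : MvPolynomial (Fin n) ℤ) : Prop :=
  ∀ b : Fin n → ℚ, (X : ℚ[X]) ^ m ∣ sb α wt b F

/-- Evaluation at the rational point `α`. -/
noncomputable def evl {n : ℕ} (α : Fin n → ℚ) : MvPolynomial (Fin n) ℤ →+* ℚ :=
  MvPolynomial.eval₂Hom (Int.castRingHom ℚ) α

/-- The exponents of `F` lie in the box `[0, Z]^n` and in the slab `lo ≤ g · d ≤ lo + Z`. -/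
def Supp {n : ℕ} (g : Fin n → ℕ) (lo : ℤ) (Z : ℕ) (F : MvPolynomial (Fin n) ℤ) : Prop :=
  ∀ d ∈ F.support, (∀ r, d r ≤ Z) ∧ lo ≤ ∑ r, (g r : ℤ) * d r ∧ ∑ r, (g r : ℤ) * d r ≤ lo + Z

/-- Sum of the absolute values of the coefficients. -/
noncomputable def nrm {n : ℕ} (F : MvPolynomial (Fin n) ℤ) : ℕ :=
  ∑ d ∈ F.support, (F.coeff d).natAbs

/-- No small integer relation between the `g r`. -/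
def Gen {n : ℕ} (D : ℕ) (g : Fin n → ℕ) : Prop :=
  ∀ c : Fin n → ℤ, c ≠ 0 → (∀ r, |c r| ≤ D) → (D : ℤ) < |∑ r, (g r : ℤ) * c r|

/-- The simplex `z ≥ 0, ∑ z ≤ Z`. -/
def simplex (k Z : ℕ) : Finset (Fin k → ℕ) :=
  (Fintype.piFinset fun _ => Finset.range (Z + 1)).filter fun z => ∑ i, z i ≤ Z

/-- The radical. -/
def rad (N : ℕ) : ℕ := ∏ p ∈ N.primeFactors, p

/-- `ϑ` times the exponent of `ℓ` in `a ^ (j / ϑ) * b ^ (1 - j / ϑ)`. -/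
def nu (a b ϑ j ℓ : ℕ) : ℕ := j * a.factorization ℓ + (ϑ - j) * b.factorization ℓ

/-- Integer approximation to `a ^ (j / ϑ) * b ^ (1 - j / ϑ)`. -/
def wj (a b ϑ j : ℕ) : ℕ := ∏ ℓ ∈ (a * b).primeFactors, ℓ ^ (nu a b ϑ j ℓ / ϑ)

/-! ### Zero lemma pieces -/

def S_TOP : Prop :=
  ∀ (n : ℕ) (g : Fin n → ℕ) (lo : ℤ) (Z D e : ℕ) (α : Fin n → ℚ) (F Q : MvPolynomial (Fin n) ℤ),
    1 ≤ Z → F ≠ 0 → Supp g lo Z F → Gen D g → (∀ r, α r ≠ 0) → evl α Q = 0 → Q ^ e ∣ F →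
      e * D < Z

def S_GREEDY : Prop :=
  ∀ (R : Type) [CommRing R] [IsDomain R] [UniqueFactorizationMonoid R] [CharZero R]
    (F : R[X]) (ev : R[X] →+* ℚ) (e0 : ℕ), F ≠ 0 → ev X ≠ 0 →
    (∀ Q : R[X], Prime Q → 0 < Q.natDegree → ev Q = 0 → ∀ e : ℕ, Q ^ e ∣ F → e < e0) →
    ∃ F₂ : R[X],
      F₂ ∈ Submodule.span ℤ {P : R[X] | ∃ e < e0, P = X ^ e * hasseDeriv e F} ∧
      (∀ i : ℕ, ∃ κ : ℤ, |κ| ≤ 8 ^ F.natDegree ∧ F₂.coeff i = κ • F.coeff i) ∧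
      ∀ Q : R[X], Prime Q → 0 < Q.natDegree → Q ∣ F → Q ∣ F₂ → ev Q ≠ 0

def S_SYLV : Prop :=
  ∀ (R : Type) [CommRing R] [IsDomain R] [UniqueFactorizationMonoid R]
    (F₁ F₂ : R[X]) (ev : R[X] →+* ℚ), F₁ ≠ 0 →
    (∀ Q : R[X], Prime Q → 0 < Q.natDegree → Q ∣ F₁ → Q ∣ F₂ → ev Q ≠ 0) →
    ∃ (N : ℕ) (G : R[X]) (q : Fin N → R[X]) (r : Fin N → ℕ),
      0 < N ∧ N ≤ F₁.natDegree + F₂.natDegree + 1 ∧ ev G ≠ 0 ∧ (∀ ρ, (q ρ).natDegree < N) ∧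
      (∀ ρ, G * q ρ = X ^ r ρ * F₁ ∨ G * q ρ = X ^ r ρ * F₂) ∧
      (Matrix.of fun (ρ c : Fin N) => (q ρ).coeff c).det ≠ 0

def S_TRI : Prop :=
  ∀ (R : Type) [CommRing R] (N : ℕ) (q : Fin N → R[X]), (∀ ρ, (q ρ).natDegree < N) →
    (∀ G : R[X], (Matrix.of fun (ρ c : Fin N) => (G * q ρ).coeff (c + G.natDegree)).det =
      G.leadingCoeff ^ N * (Matrix.of fun (ρ c : Fin N) => (q ρ).coeff c).det) ∧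
    ∀ v : R, (Matrix.of fun (ρ c : Fin N) => (taylor v (q ρ)).coeff c).det =
      (Matrix.of fun (ρ c : Fin N) => (q ρ).coeff c).det

def S_ORD1 : Prop :=
  ∀ (n : ℕ) (α : Fin (n + 1) → ℚ) (wt : Fin (n + 1) → ℕ) (m : ℕ), wt 0 = 1 →
    ∀ P : (MvPolynomial (Fin n) ℤ)[X],
      Ord α wt m ((MvPolynomial.finSuccEquiv ℤ n).symm P) →
      (∀ e : ℕ, Ord α wt (m - e) ((MvPolynomial.finSuccEquiv ℤ n).symm (hasseDeriv e P))) ∧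
      ∀ (b : Fin n → ℚ) (c : ℕ), (X : ℚ[X]) ^ (m - c) ∣
        (taylor (C (α 0)) (P.map (sb (Fin.tail α) (Fin.tail wt) b))).coeff c

def S_ORD2 : Prop :=
  ∀ (n : ℕ) (α : Fin n → ℚ) (wt : Fin n → ℕ) (m : ℕ), (∀ r, 0 < wt r) →
    ∀ G F : MvPolynomial (Fin n) ℤ, evl α G ≠ 0 → Ord α wt m (G * F) → Ord α wt m F

def S_SIZE : Prop :=
  ∀ (n : ℕ) (g : Fin (n + 1) → ℕ) (lo : ℤ) (Z : ℕ) (F : MvPolynomial (Fin (n + 1)) ℤ)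
    (N K g0 : ℕ) (r : Fin N → ℕ) (M : Matrix (Fin N) (Fin N) (MvPolynomial (Fin n) ℤ)),
    Supp g lo Z F →
    (∀ ρ c, M ρ c = 0 ∨ ∃ (κ : ℤ) (i : ℕ), |κ| ≤ K ∧ i + r ρ = c + g0 ∧
      M ρ c = κ • (MvPolynomial.finSuccEquiv ℤ n F).coeff i) →
    (∃ lo' : ℤ, Supp (Fin.tail g) lo' (N * Z) M.det) ∧
      nrm M.det ≤ N.factorial * (K * nrm F) ^ N

def S_BASE : Prop :=
  ∀ (α : Fin 1 → ℚ) (wt : Fin 1 → ℕ) (m : ℕ) (F : MvPolynomial (Fin 1) ℤ),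
    0 < wt 0 → F ≠ 0 → Ord α wt m F → ∃ e : ℕ, m ≤ e * wt 0 ∧ (α 0).den ^ e ≤ nrm F

/-- The arithmetic zero lemma. -/
def S_ZL : Prop :=
  ∀ (k : ℕ) (ε C : ℝ), 0 < ε → ε ≤ 1 → 0 ≤ C → ∃ (D : ℕ) (μ0 : ℝ),
    ∀ (α : Fin (k + 1) → ℚ) (wt g : Fin (k + 1) → ℕ) (lo : ℤ) (Z m : ℕ)
      (F : MvPolynomial (Fin (k + 1)) ℤ),
      (∀ r, α r ≠ 0) → (∀ i : Fin k, wt i.castSucc = 1) → 0 < wt (Fin.last k) → Gen D g →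
      μ0 * wt (Fin.last k) ≤ Real.log (α (Fin.last k)).den → 1 ≤ Z → F ≠ 0 → Supp g lo Z F →
      (nrm F : ℝ) ≤ Real.exp (C * Z) → ε * Z ≤ m → Ord α wt m F → False

/-! ### Auxiliary polynomial -/

def S_SIEGEL : Prop :=
  ∀ (k l ω Z : ℕ) (ρ : ℝ) (x : (Fin k → ℕ) → ℕ), 0 < l → 1 ≤ ρ → ρ * (ω + k) ≤ Z →
    2 * (l : ℝ) ≤ ρ ^ k → (∀ z, x z ≤ Z) →
    (simplex k Z).card ≤ 2 ^ (Z + k) ∧
    ∃ lam : (Fin k → ℕ) → ℤ, (∃ z ∈ simplex k Z, lam z ≠ 0) ∧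
      (∀ z, |lam z| ≤ 2 ^ (Z + k) * 4 ^ Z) ∧
      ∀ (j : ℕ) (i : Fin k → ℕ), j < l → ∑ s, i s ≤ ω →
        ∑ z ∈ simplex k Z, lam z * (((x z).choose j * ∏ s, (z s).choose (i s) : ℕ) : ℤ) = 0

def S_VANISH : Prop :=
  ∀ (n : ℕ) (ι : Type) (P : Finset ι) (y : ι → Fin n → ℕ) (lam Γ : ι → ℤ) (a b : Fin n → ℤ)
    (wt : Fin n → ℕ) (m Z ω ω1 : ℕ) (G G' : ℤ),
    (∀ r, a r ≠ 0) → (∀ r, b r ≠ 0) → (∀ r, (m : ℤ) ^ wt r ∣ a r - b r) →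
    (∀ p ∈ P, ∀ r, y p r ≤ Z) → IsCoprime G (m : ℤ) → G' ≠ 0 →
    (∀ p ∈ P, G' * ∏ r, (a r ^ y p r * b r ^ (Z - y p r)) = G * Γ p) →
    (∀ l : Fin n → ℕ, ∑ r, wt r * l r < ω →
      ∑ p ∈ P, lam p * ((∏ r, (y p r).choose (l r) : ℕ) : ℤ) = 0) →
    ∑ p ∈ P, |lam p| * 2 ^ (∑ r, y p r) * |Γ p| < (m : ℤ) ^ (ω - ω1) →
    Ord (fun r => (a r : ℚ) / b r) wt ω1
      (∑ p ∈ P, MvPolynomial.monomial (Finsupp.equivFunOnFinite.symm (y p)) (lam p))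

/-- The core contradiction. -/
def S_CORE : Prop :=
  ∀ κ β : ℝ, 0 < κ → κ < 1 → 0 < β → ∃ (k D : ℕ) (μ0 : ℝ),
    ∀ (m a b y0 : ℕ) (y : Fin k → ℕ) (g : Fin (k + 1) → ℕ),
      0 < a → 0 < b → Nat.Coprime a b → μ0 ≤ Real.log m →
      μ0 * g (Fin.last k) ≤ Real.log b → m ^ g (Fin.last k) ∣ a + b →
      0 < y0 → (∀ i, 0 < y i) → Nat.Coprime y0 m → (∀ i, y i ≡ y0 [MOD m]) →
      (∀ i : Fin k, g i.castSucc ≤ g (Fin.last k)) → Gen D g →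
      (∀ Z : ℕ, ∃ G : ℕ, Nat.Coprime G m ∧ ∀ (x : ℕ) (z : Fin k → ℕ), ∑ i, z i ≤ Z → x ≤ Z →
        g (Fin.last k) * Z ≤ g (Fin.last k) * x + ∑ i, g i.castSucc * z i →
        g (Fin.last k) * x + ∑ i, g i.castSucc * z i ≤ g (Fin.last k) * (Z + 1) →
        ∃ Γ : ℕ, a ^ x * b ^ (Z - x) * ((∏ i, y i ^ z i) * y0 ^ (Z - ∑ i, z i)) = G * Γ ∧
          (Γ : ℝ) ≤ Real.exp ((β * g (Fin.last k) + (1 - κ) * Z) * Real.log m)) →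
      False

/-! ### Pigeonhole and arithmetic pieces -/

def S_GENSEL : Prop :=
  ∀ k D : ℕ, ∃ M : ℕ, ∀ (ϑ : ℕ) (E : Finset ℕ), D < ϑ → M < E.card →
    ∃ j0 ∈ E, ∃ g : Fin (k + 1) → ℕ, g (Fin.last k) = ϑ ∧
      (∀ i : Fin k, j0 + g i.castSucc ∈ E) ∧ Gen D g

def S_PIGEON : Prop :=
  ∀ (a b m ϑ n Y M : ℕ) (T : Finset ℕ), 0 < ϑ → 0 < n → Y < m → (∀ t ∈ T, t ≤ Y) →
    Nat.Coprime (a * b) m → M * m * n ^ (a * b).primeFactors.card < ϑ * T.card →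
    ∃ (E : Finset ℕ) (t : ℕ → ℕ), M < E.card ∧ (∀ j ∈ E, j < ϑ ∧ t j ∈ T) ∧
      (∀ j ∈ E, ∀ j' ∈ E, t j * wj a b ϑ j ≡ t j' * wj a b ϑ j' [MOD m]) ∧
      ∀ j ∈ E, ∀ j' ∈ E, ∀ ℓ ∈ (a * b).primeFactors,
        n * (nu a b ϑ j ℓ % ϑ) ≤ n * (nu a b ϑ j' ℓ % ϑ) + ϑ

def S_HEIGHT : Prop :=
  ∀ (a b ϑ n Y k j0 t0 Z : ℕ) (j t : Fin k → ℕ), 0 < a → 0 < b → 0 < ϑ → 0 < n →
    j0 ≤ ϑ → (∀ i, j0 + j i ≤ ϑ) → t0 ≤ Y → (∀ i, t i ≤ Y) →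
    (∀ ℓ ∈ (a * b).primeFactors, ∀ i,
      n * (nu a b ϑ (j0 + j i) ℓ % ϑ) ≤ n * (nu a b ϑ j0 ℓ % ϑ) + ϑ ∧
      n * (nu a b ϑ j0 ℓ % ϑ) ≤ n * (nu a b ϑ (j0 + j i) ℓ % ϑ) + ϑ) →
    ∃ G : ℕ, (∀ m : ℕ, Nat.Coprime (a * b) m → Nat.Coprime G m) ∧
      ∀ (x : ℕ) (z : Fin k → ℕ), ∑ i, z i ≤ Z → x ≤ Z →
        ϑ * Z ≤ ϑ * x + ∑ i, j i * z i → ϑ * x + ∑ i, j i * z i ≤ ϑ * (Z + 1) →
        ∃ Γ : ℕ, a ^ x * b ^ (Z - x) * ((∏ i, (t i * wj a b ϑ (j0 + j i)) ^ z i) *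
            (t0 * wj a b ϑ j0) ^ (Z - ∑ i, z i)) = G * Γ ∧
          (Γ : ℝ) ≤ (Y : ℝ) ^ Z * (a * b) * Real.exp (2 * Z * Real.log (rad (a * b)) / n)

def S_MOD : Prop :=
  ∀ c ϑ : ℕ, 0 < c → 0 < ϑ → ∃ m : ℕ, m ^ ϑ ∣ c ∧ c ≤ (m * rad c) ^ ϑ

def S_TSET : Prop :=
  ∀ c Y : ℕ, 0 < c → rad c ≤ Y → ∃ T : Finset ℕ,
    (∀ t ∈ T, 0 < t ∧ t ≤ Y ∧ Nat.Coprime t c) ∧ Y ≤ 2 * 2 ^ c.primeFactors.card * T.card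

def S_OMEGA : Prop :=
  ∀ (n : ℕ) (ε : ℝ), 0 < ε → ∃ C : ℝ, 0 < C ∧ ∀ N : ℕ,
    (n : ℝ) ^ N.primeFactors.card ≤ C * (rad N : ℝ) ^ ε

def S_MAIN : Prop :=
  ∀ ε : ℝ, 0 < ε → ∃ K : ℝ, ∀ a b c : ℕ, 0 < a → 0 < b → Nat.Coprime a b → a + b = c →
    Real.log c ≤ K * (rad (a * b * c) : ℝ) ^ ε

end Pool.Agent.P.MP_7aad9f_nt.Sub
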