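import Pool.Agent.P.MP_7aad9f_nt.SubDefs

/-! Choosing exponents without small integer relations. -/

set_option autoImplicit false

namespace Pool.Agent.P.MP_7aad9f_nt.Sub

theorem gensel_piece (D : ℕ) (E : Finset ℕ) (c s : ℤ) (hc : c ≠ 0) :
    (E.filter fun j : ℕ => |(j : ℤ) * c + s| ≤ D).card ≤ 2 * D + 1 := by
  have h1 : (Finset.Icc (-(D : ℤ)) D).card = 2 * D + 1 := by
    rw [Int.card_Icc]; omega
  rw [← h1]
  refine Finset.card_le_card_of_injOn (fun j : ℕ => (j : ℤ) * c + s) (fun j hj => ?_) ?_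
  · have := (Finset.mem_filter.1 hj).2
    rw [abs_le] at this
    exact Finset.mem_coe.2 (Finset.mem_Icc.2 this)
  · intro j _ j' _ h
    have h2 : (j : ℤ) * c = j' * c := add_right_cancel h
    exact_mod_cast mul_right_cancel₀ hc h2

theorem gensel_aux (D k : ℕ) : ∃ M : ℕ, ∀ (ϑ : ℕ) (E : Finset ℕ), D < ϑ → M < E.card →
    ∃ g : Fin (k + 1) → ℕ, g (Fin.last k) = ϑ ∧ (∀ i : Fin k, g i.castSucc ∈ E) ∧ Gen D g := by
  classical
  induction k with
  | zero =>
    refine ⟨0, fun ϑ E hD _ => ⟨fun _ => ϑ, rfl, fun i => i.elim0, ?_⟩⟩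
    intro c hc _
    have h0 : c 0 ≠ 0 := by
      intro h
      apply hc
      funext r
      exact Fin.cases h (fun r => r.elim0) r
    have h1 : 1 ≤ |c 0| := Int.one_le_abs h0
    have h2 : (D : ℤ) < ϑ := by exact_mod_cast hD
    rw [Fin.sum_univ_succ, Fin.sum_univ_zero, add_zero, abs_mul, abs_of_nonneg (by positivity)]
    nlinarith
  | succ k ih =>
    obtain ⟨M, hM⟩ := ih
    refine ⟨max M ((2 * D + 1) ^ (k + 2) * (2 * D + 1)), fun ϑ E hD hE => ?_⟩
    obtain ⟨g, hg1, hg2, hg3⟩ := hM ϑ E hD (lt_of_le_of_lt (le_max_left _ _) hE)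
    let Cs : Finset (Fin (k + 2) → ℤ) :=
      (Fintype.piFinset fun _ : Fin (k + 2) => Finset.Icc (-(D : ℤ)) D).filter fun c => c 0 ≠ 0
    let Bad : Finset ℕ := Cs.biUnion fun c =>
      E.filter fun j : ℕ => |(j : ℤ) * c 0 + ∑ r, (g r : ℤ) * c r.succ| ≤ D
    have hCs : Cs.card ≤ (2 * D + 1) ^ (k + 2) := by
      refine (Finset.card_filter_le _ _).trans ?_
      have h1 : (Finset.Icc (-(D : ℤ)) D).card = 2 * D + 1 := by
        rw [Int.card_Icc]; omega
      rw [Fintype.card_piFinset]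
      simp [h1]
    have hcard : Bad.card ≤ (2 * D + 1) ^ (k + 2) * (2 * D + 1) := by
      refine (Finset.card_biUnion_le_card_mul Cs _ (2 * D + 1) fun c hc => ?_).trans
        (Nat.mul_le_mul_right _ hCs)
      exact gensel_piece D E _ _ (Finset.mem_filter.1 hc).2
    obtain ⟨j, hjE, hjB⟩ : ∃ j ∈ E, j ∉ Bad :=
      Finset.exists_mem_notMem_of_card_lt_card
        (lt_of_le_of_lt (hcard.trans (le_max_right _ _)) hE)
    refine ⟨Fin.cons j g, ?_, fun i => ?_, ?_⟩
    · rw [← Fin.succ_last, Fin.cons_succ, hg1]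
    · refine Fin.cases ?_ (fun i => ?_) i
      · simpa using hjE
      · rw [← Fin.succ_castSucc, Fin.cons_succ]
        exact hg2 i
    · intro c hc hD'
      rw [Fin.sum_univ_succ]
      simp only [Fin.cons_zero, Fin.cons_succ]
      by_cases h0 : c 0 = 0
      · rw [h0, mul_zero, zero_add]
        refine hg3 (fun r => c r.succ) (fun h => hc ?_) fun r => hD' _
        funext r
        exact Fin.cases h0 (fun r => congrFun h r) r
      · by_contra hn
        apply hjB
        refine Finset.mem_biUnion.2 ⟨c, Finset.mem_filter.2 ⟨?_, h0⟩,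
          Finset.mem_filter.2 ⟨hjE, not_lt.1 hn⟩⟩
        exact Fintype.mem_piFinset.2 fun r => Finset.mem_Icc.2 (abs_le.1 (hD' r))

theorem gensel : S_GENSEL := by
  intro k D
  obtain ⟨M, hM⟩ := gensel_aux D k
  refine ⟨M, fun ϑ E hD hE => ?_⟩
  have hne : E.Nonempty := Finset.card_pos.1 (by omega)
  have hcard : (E.image fun j => j - E.min' hne).card = E.card := by
    refine Finset.card_image_of_injOn fun j hj j' hj' h => ?_
    have h1 := E.min'_le j hj
    have h2 := E.min'_le j' hj'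
    omega
  obtain ⟨g, hg1, hg2, hg3⟩ := hM ϑ (E.image fun j => j - E.min' hne) hD (hcard ▸ hE)
  refine ⟨E.min' hne, E.min'_mem hne, g, hg1, fun i => ?_, hg3⟩
  obtain ⟨j, hj, h⟩ := Finset.mem_image.1 (hg2 i)
  have h1 := E.min'_le j hj
  have h2 : E.min' hne + g i.castSucc = j := by omega
  rw [h2]
  exact hj

end Pool.Agent.P.MP_7aad9f_nt.Sub
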