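import Pool.Agent.P.MP_7aad9f_nt.SubDefs

/-! The greedy choice of a second polynomial without common vanishing factor. -/

set_option autoImplicit false

open Polynomial

namespace Pool.Agent.P.MP_7aad9f_nt.Sub

theorem greedy_avoid {α β : Type} (bad : α → β → Prop) (M : List α) :
    (∀ q ∈ M, ∀ a b, bad q a → bad q b → a = b) → ∀ s : Finset β, M.length < s.card →
      ∃ a ∈ s, ∀ q ∈ M, ¬ bad q a := by
  classical
  induction M with
  | nil =>
    intro _ s hs
    obtain ⟨a, ha⟩ := Finset.card_pos.1 hs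
    exact ⟨a, ha, fun q hq => absurd hq List.not_mem_nil⟩
  | cons q M ih =>
    intro h s hs
    have h' : ∀ q ∈ M, ∀ a b, bad q a → bad q b → a = b :=
      fun q' hq' => h q' (List.mem_cons_of_mem _ hq')
    rw [List.length_cons] at hs
    by_cases hq : ∃ a0, bad q a0
    · obtain ⟨a0, ha0⟩ := hq
      have h1 := Finset.pred_card_le_card_erase (s := s) (a := a0)
      obtain ⟨a, ha, ha'⟩ := ih h' (s.erase a0) (by omega)
      refine ⟨a, Finset.mem_of_mem_erase ha, fun q' hq' => ?_⟩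
      rcases List.mem_cons.1 hq' with rfl | hq'
      · exact fun hb => Finset.ne_of_mem_erase ha (h _ List.mem_cons_self _ _ hb ha0)
      · exact ha' q' hq'
    · obtain ⟨a, ha, ha'⟩ := ih h' s (by omega)
      refine ⟨a, ha, fun q' hq' => ?_⟩
      rcases List.mem_cons.1 hq' with rfl | hq'
      · exact fun hb => hq ⟨a, hb⟩
      · exact ha' q' hq'

section

variable {R : Type} [CommRing R]

theorem greedy_iter (Q H : R[X]) (i : ℕ) : ∀ n : ℕ, ∃ K : R[X],
    derivative^[i] (Q ^ (n + i) * H) =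
      Q ^ n * (((n + i).descFactorial i : R[X]) * derivative Q ^ i * H + Q * K) := by
  induction i with
  | zero => exact fun n => ⟨0, by simp⟩
  | succ i ih =>
    intro n
    obtain ⟨K, hK⟩ := ih (n + 1)
    refine ⟨((n + 1 : ℕ) : R[X]) * derivative Q * K +
      derivative (((n + 1 + i).descFactorial i : R[X]) * derivative Q ^ i * H + Q * K), ?_⟩
    have e : n + (i + 1) = n + 1 + i := by omega
    rw [Function.iterate_succ_apply', e, hK, derivative_mul, derivative_pow_succ,
      Nat.descFactorial_succ, show n + 1 + i - i = n + 1 by omega]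
    simp only [map_add, map_natCast, map_one, Nat.cast_mul, Nat.cast_add, Nat.cast_one]
    ring

variable [IsDomain R] [CharZero R]

theorem greedy_not_dvd_int {Q : R[X]} (hd : 0 < Q.natDegree) {c : ℤ} (hc : c ≠ 0) :
    ¬ Q ∣ (c : R[X]) := fun h => by
  have h1 := natDegree_le_of_dvd h (Int.cast_ne_zero.2 hc)
  rw [natDegree_intCast] at h1
  omega

theorem greedy_not_dvd_hasse {Q H : R[X]} (hQ : Prime Q) (hd : 0 < Q.natDegree) (hH : ¬ Q ∣ H)
    (e : ℕ) : ¬ Q ∣ hasseDeriv e (Q ^ e * H) := fun h => by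
  obtain ⟨K, hK⟩ := greedy_iter Q H e 0
  rw [zero_add, pow_zero, one_mul, Nat.descFactorial_self] at hK
  have h1 : derivative^[e] (Q ^ e * H) = e.factorial • hasseDeriv e (Q ^ e * H) :=
    (congrFun (factorial_smul_hasseDeriv (R := R) e) _).symm
  have h2 : Q ∣ (e.factorial : R[X]) * derivative Q ^ e * H + Q * K := by
    rw [← hK, h1, nsmul_eq_mul]
    exact h.mul_left _
  have h3 := (dvd_add_left (dvd_mul_right Q K)).1 h2
  rcases hQ.dvd_or_dvd h3 with h4 | h4
  · rcases hQ.dvd_or_dvd h4 with h5 | h5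
    · exact greedy_not_dvd_int hd (c := e.factorial) (by exact_mod_cast e.factorial_ne_zero)
        (by exact_mod_cast h5)
    · have h6 := hQ.dvd_of_dvd_pow h5
      have h7 : derivative Q ≠ 0 := fun h0 => hd.ne' (derivative_eq_zero.1 h0)
      have h8 := natDegree_le_of_dvd h6 h7
      have h9 := natDegree_derivative_lt hd.ne'
      omega
  · exact hH h4

omit [IsDomain R] [CharZero R] in
theorem greedy_coeff (F : R[X]) (e i : ℕ) :
    (X ^ e * hasseDeriv e F).coeff i = (i.choose e : ℤ) • F.coeff i := by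
  rw [coeff_X_pow_mul']
  split_ifs with h
  · rw [hasseDeriv_coeff, Nat.sub_add_cancel h]
    simp
  · rw [Nat.choose_eq_zero_of_lt (by omega)]
    simp

theorem greedy_list [UniqueFactorizationMonoid R] (F : R[X]) (ev : R[X] →+* ℚ) (e0 : ℕ)
    (hF : F ≠ 0) (hX : ev X ≠ 0)
    (he : ∀ Q : R[X], Prime Q → 0 < Q.natDegree → ev Q = 0 → ∀ e : ℕ, Q ^ e ∣ F → e < e0)
    (L : List R[X]) : (∀ Q ∈ L, Prime Q ∧ 0 < Q.natDegree ∧ ev Q = 0) →
    ∃ F₂ : R[X],
      F₂ ∈ Submodule.span ℤ {P : R[X] | ∃ e < e0, P = X ^ e * hasseDeriv e F} ∧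
      (∀ i : ℕ, ∃ κ : ℤ, (i ≤ F.natDegree → |κ| ≤ (L.length : ℤ) ^ 2 * 2 ^ F.natDegree) ∧
        F₂.coeff i = κ • F.coeff i) ∧
      ∀ Q ∈ L, ¬ Q ∣ F₂ := by
  induction L with
  | nil =>
    exact fun _ => ⟨0, Submodule.zero_mem _, fun i => ⟨0, fun _ => by simp, by simp⟩,
      fun Q hQ => absurd hQ List.not_mem_nil⟩
  | cons Q L ih =>
    intro hL
    obtain ⟨F₂, h1, h2, h3⟩ := ih fun Q' hQ' => hL Q' (List.mem_cons_of_mem _ hQ')
    obtain ⟨hQ, hd, hev⟩ := hL Q List.mem_cons_self
    obtain ⟨e, H, hH, hFe⟩ := WfDvdMonoid.max_power_factor hF hQ.irreducible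
    have he' : e < e0 := he Q hQ hd hev e ⟨H, hFe⟩
    have hD : ¬ Q ∣ X ^ e * hasseDeriv e F := fun h => by
      rcases hQ.dvd_or_dvd h with h | h
      · obtain ⟨c, hc⟩ := hQ.dvd_of_dvd_pow h
        exact hX (by rw [hc, map_mul, hev, zero_mul])
      · rw [hFe] at h
        exact greedy_not_dvd_hasse hQ hd hH e h
    have hmem : X ^ e * hasseDeriv e F ∈
        Submodule.span ℤ {P : R[X] | ∃ e < e0, P = X ^ e * hasseDeriv e F} :=
      Submodule.subset_span ⟨e, he', rfl⟩
    have hco := greedy_coeff F e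
    generalize X ^ e * hasseDeriv e F = D at hD hmem hco
    obtain ⟨a, ha, ha'⟩ := greedy_avoid (fun (P : R[X]) (a : ℕ) => P ∣ F₂ + (a : ℤ) • D) (Q :: L)
      (fun P hP a b h4 h5 => by
        by_contra hab
        obtain ⟨hP1, hP2, -⟩ := hL P hP
        have h6 : P ∣ (((a : ℤ) - b : ℤ) : R[X]) * D := by
          have := dvd_sub h4 h5
          rwa [add_sub_add_left_eq_sub, ← sub_smul, zsmul_eq_mul] at this
        have h7 : P ∣ D := (hP1.dvd_or_dvd h6).resolve_left
          (greedy_not_dvd_int hP2 (sub_ne_zero.2 (by exact_mod_cast hab)))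
        rcases List.mem_cons.1 hP with rfl | hP
        · exact hD h7
        · refine h3 P hP ((dvd_add_left ?_).1 h4)
          rw [zsmul_eq_mul]
          exact h7.mul_left _)
      (Finset.range ((Q :: L).length + 1)) (by simp)
    refine ⟨F₂ + (a : ℤ) • D, Submodule.add_mem _ h1 (Submodule.smul_mem _ _ hmem), fun i => ?_,
      ha'⟩
    obtain ⟨κ, h4, h5⟩ := h2 i
    refine ⟨κ + a * (i.choose e : ℤ), fun hi => ?_, ?_⟩
    · have h6 := h4 hi
      have h7 : i.choose e ≤ 2 ^ F.natDegree :=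
        (Nat.choose_le_two_pow i e).trans (Nat.pow_le_pow_right two_pos hi)
      have h8 : a ≤ L.length + 1 := by
        have := Finset.mem_range.1 ha
        rw [List.length_cons] at this
        omega
      have h9 : (a : ℤ) * (i.choose e : ℤ) ≤ (L.length + 1 : ℤ) * 2 ^ F.natDegree := by
        exact_mod_cast Nat.mul_le_mul h8 h7
      have h10 : (0 : ℤ) ≤ (a : ℤ) * (i.choose e : ℤ) := by positivity
      have h11 : (0 : ℤ) ≤ (L.length : ℤ) * 2 ^ F.natDegree := by positivity
      refine (abs_add_le _ _).trans ?_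
      rw [abs_of_nonneg h10, List.length_cons]
      push_cast
      nlinarith
    · rw [coeff_add, coeff_smul, h5, hco, add_smul, mul_smul]

end

theorem greedy : S_GREEDY := by
  classical
  intro R _ _ _ _ F ev e0 hF hX he
  let s := (UniqueFactorizationMonoid.factors F).filter fun Q => 0 < Q.natDegree ∧ ev Q = 0
  have hs : ∀ Q ∈ s, Prime Q ∧ 0 < Q.natDegree ∧ ev Q = 0 := fun Q hQ =>
    ⟨UniqueFactorizationMonoid.prime_of_factor Q (Multiset.mem_filter.1 hQ).1,
      (Multiset.mem_filter.1 hQ).2⟩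
  have hcard : s.card ≤ F.natDegree := by
    have h1 : s.prod ∣ F := (Multiset.prod_dvd_prod_of_le (Multiset.filter_le _ _)).trans
      (UniqueFactorizationMonoid.factors_prod hF).dvd
    have h2 := natDegree_le_of_dvd h1 hF
    rw [natDegree_multiset_prod s fun h => (hs 0 h).1.ne_zero rfl] at h2
    have h3 := Multiset.card_nsmul_le_sum (s := s.map natDegree) (a := 1) fun x hx => by
      obtain ⟨Q, hQ, rfl⟩ := Multiset.mem_map.1 hx
      exact (hs Q hQ).2.1
    rw [Multiset.card_map, smul_eq_mul, mul_one] at h3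
    omega
  obtain ⟨F₂, h1, h2, h3⟩ := greedy_list F ev e0 hF hX he s.toList fun Q hQ =>
    hs Q (Multiset.mem_toList.1 hQ)
  refine ⟨F₂, h1, fun i => ?_, fun Q hQ hd hQF hQ2 hev => ?_⟩
  · obtain ⟨κ, h4, h5⟩ := h2 i
    rcases le_or_gt i F.natDegree with hi | hi
    · refine ⟨κ, (h4 hi).trans ?_, h5⟩
      rw [Multiset.length_toList]
      have h6 : s.card ≤ 2 ^ F.natDegree := hcard.trans Nat.lt_two_pow_self.le
      have h7 : s.card ^ 2 * 2 ^ F.natDegree ≤ 8 ^ F.natDegree := by
        refine (Nat.mul_le_mul_right _ (Nat.pow_le_pow_left h6 2)).trans (le_of_eq ?_)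
        rw [← pow_succ, ← pow_mul, mul_comm, pow_mul]
        norm_num
      exact_mod_cast h7
    · exact ⟨0, by simp, by rw [h5, coeff_eq_zero_of_natDegree_lt hi, smul_zero, smul_zero]⟩
  · obtain ⟨P, hP, hPQ⟩ := UniqueFactorizationMonoid.exists_mem_factors_of_dvd hF hQ.irreducible hQF
    refine h3 P (Multiset.mem_toList.2 (Multiset.mem_filter.2 ⟨hP, ?_, ?_⟩)) (hPQ.symm.dvd.trans hQ2)
    · rwa [← natDegree_eq_of_degree_eq (degree_eq_degree_of_associated hPQ)]
    · obtain ⟨c, hc⟩ := hPQ.dvd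
      rw [hc, map_mul, hev, zero_mul]

end Pool.Agent.P.MP_7aad9f_nt.Sub
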