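import Pool.Agent.P.MP_7aad9f_nt.SubDefs

set_option autoImplicit false

namespace Pool.Agent.P.MP_7aad9f_nt.Sub

lemma main_rad_pos (N : ℕ) : 0 < rad N :=
  Finset.prod_pos fun _ hp => (Nat.prime_of_mem_primeFactors hp).pos

lemma main_rad_le {N N' : ℕ} (h : N ∣ N') (hN' : N' ≠ 0) : rad N ≤ rad N' :=
  Finset.prod_le_prod_of_subset_of_one_le' (Nat.primeFactors_mono h hN')
    fun _ hp _ => (Nat.prime_of_mem_primeFactors hp).one_le

lemma main_wj_pos (a b ϑ j : ℕ) : 0 < wj a b ϑ j :=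
  Finset.prod_pos fun _ hp => pow_pos (Nat.prime_of_mem_primeFactors hp).pos _

lemma main_wj_coprime (a b ϑ j m : ℕ) (h : Nat.Coprime (a * b) m) : Nat.Coprime (wj a b ϑ j) m :=
  Nat.Coprime.prod_left fun _ hp =>
    Nat.Coprime.pow_left _ (Nat.Coprime.coprime_dvd_left (Nat.dvd_of_mem_primeFactors hp) h)

lemma main_bound (hCORE : S_CORE) (hGENSEL : S_GENSEL) (hPIGEON : S_PIGEON) (hHEIGHT : S_HEIGHT)
    (hMOD : S_MOD) (hTSET : S_TSET) (κ : ℝ) (hκ : 0 < κ) (hκ1 : κ ≤ 1 / 4) :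
    ∃ (n : ℕ) (L0 C : ℝ), 1 ≤ L0 ∧ 0 ≤ C ∧ ∀ (a b c : ℕ) (L : ℝ), 0 < a → a ≤ b →
      Nat.Coprime a b → a + b = c → L0 ≤ L → Real.log (rad (a * b * c)) ≤ L →
      Real.log c ≤ C * L * ((n : ℝ) ^ (a * b * c).primeFactors.card * Real.exp (16 * κ * L)) := by
  obtain ⟨k, D, μ0, HC⟩ := hCORE κ 6 hκ (by linarith) (by norm_num)
  obtain ⟨M, HG⟩ := hGENSEL k D
  set n : ℕ := ⌈1 / κ⌉₊ with hn
  have hn1 : 1 / κ ≤ n := Nat.le_ceil _
  have hn0 : 0 < n := Nat.ceil_pos.mpr (by positivity)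
  have hnR : (1 : ℝ) ≤ n := by exact_mod_cast hn0
  refine ⟨2 * n, max μ0 1, 8 * (D + 1 + 4 * M), le_max_right _ _, by positivity, ?_⟩
  intro a b c L ha hab hcop habc hL0 hL
  have hb : 0 < b := by omega
  have hc : 0 < c := by omega
  have hL1 : 1 ≤ L := (le_max_right _ _).trans hL0
  have hLμ : μ0 ≤ L := (le_max_left _ _).trans hL0
  have hne : a * b * c ≠ 0 := by positivity
  set ω := (a * b * c).primeFactors.card with hω
  set H := Real.log c with hH
  set W : ℝ := ((2 * n : ℕ) : ℝ) ^ ω * Real.exp (16 * κ * L) with hW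
  have hW1 : 1 ≤ W := by
    have h1 : (1 : ℝ) ≤ ((2 * n : ℕ) : ℝ) ^ ω := one_le_pow₀ (by push_cast; linarith)
    have h2 : 1 ≤ Real.exp (16 * κ * L) := Real.one_le_exp (by positivity)
    exact one_le_mul_of_one_le_of_one_le h1 h2
  have hDM : (0 : ℝ) ≤ D := by positivity
  have hMM : (0 : ℝ) ≤ M := by positivity
  have hLW : L ≤ L * W := le_mul_of_one_le_right (by linarith) hW1
  by_cases hH8 : H < 8 * L
  · nlinarith [mul_nonneg hDM (show 0 ≤ L * W by positivity),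
      mul_nonneg hMM (show 0 ≤ L * W by positivity)]
  replace hH8 := not_lt.mp hH8
  set ϑ : ℕ := ⌊H / (4 * L)⌋₊ with hϑ
  have hϑ2 : 2 ≤ ϑ := by
    rw [hϑ]
    apply Nat.le_floor
    rw [le_div_iff₀ (by positivity)]
    push_cast
    linarith
  have hϑR : (2 : ℝ) ≤ ϑ := by exact_mod_cast hϑ2
  have hϑa : 4 * L * ϑ ≤ H := by
    have := Nat.floor_le (show 0 ≤ H / (4 * L) from div_nonneg (by linarith) (by linarith))
    rw [← hϑ, le_div_iff₀ (by positivity)] at this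
    linarith
  have hϑb : H ≤ 8 * L * ϑ := by
    have := Nat.lt_floor_add_one (H / (4 * L))
    rw [← hϑ, div_lt_iff₀ (by positivity)] at this
    nlinarith
  suffices hs : (ϑ : ℝ) ≤ (D + 1 + 4 * M) * W by
    calc H ≤ 8 * L * ϑ := hϑb
      _ ≤ 8 * L * ((D + 1 + 4 * M) * W) := by gcongr
      _ = _ := by ring
  by_cases hDϑ : ϑ ≤ D
  · have : (ϑ : ℝ) ≤ D := by exact_mod_cast hDϑ
    nlinarith
  replace hDϑ := not_le.mp hDϑ
  obtain ⟨m, hm1, hm2⟩ := hMOD c ϑ hc (by omega)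
  have hm0 : 0 < m := by
    rcases Nat.eq_zero_or_pos m with h | h
    · rw [h, zero_pow (by omega), zero_dvd_iff] at hm1
      omega
    · exact h
  have hmR : (0 : ℝ) < m := by exact_mod_cast hm0
  have hcR : (0 : ℝ) < c := by exact_mod_cast hc
  set μ := Real.log m with hμ
  have hlograd : ∀ N : ℕ, N ∣ a * b * c → Real.log (rad N) ≤ L := by
    intro N hN
    refine le_trans (Real.log_le_log (by exact_mod_cast main_rad_pos N) ?_) hL
    exact_mod_cast main_rad_le hN hne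
  have hradc := hlograd c (Dvd.intro_left _ rfl)
  have hradab := hlograd (a * b) (Dvd.intro _ rfl)
  have hradcR : (0 : ℝ) < rad c := by exact_mod_cast main_rad_pos c
  have hμ3 : 3 * L ≤ μ := by
    have h1 : H ≤ ϑ * (μ + Real.log (rad c)) := by
      rw [hμ, ← Real.log_mul hmR.ne' hradcR.ne', ← Real.log_pow]
      exact Real.log_le_log hcR (by exact_mod_cast hm2)
    have h2 : (ϑ : ℝ) * (4 * L) ≤ ϑ * (μ + L) := by nlinarith
    have := le_of_mul_le_mul_left h2 (by linarith)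
    linarith
  have hμ8 : μ ≤ 8 * L := by
    have h1 : ϑ * μ ≤ H := by
      rw [hμ, ← Real.log_pow]
      exact Real.log_le_log (by positivity) (by exact_mod_cast Nat.le_of_dvd hc hm1)
    have h2 : (ϑ : ℝ) * μ ≤ ϑ * (8 * L) := by linarith
    exact le_of_mul_le_mul_left h2 (by linarith)
  have hmexp : (m : ℝ) = Real.exp μ := (Real.exp_log hmR).symm
  set Y : ℕ := ⌊Real.exp ((1 - 2 * κ) * μ)⌋₊ with hY
  have hY1 : (Y : ℝ) ≤ Real.exp ((1 - 2 * κ) * μ) := Nat.floor_le (Real.exp_pos _).le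
  have hYc : rad c ≤ Y := by
    apply Nat.le_floor
    rw [← Real.exp_log hradcR, Real.exp_le_exp]
    nlinarith
  have hYm : Y < m := by
    have : (Y : ℝ) < m := by
      refine lt_of_le_of_lt hY1 ?_
      rw [hmexp, Real.exp_lt_exp]
      nlinarith
    exact_mod_cast this
  have hY2 : Real.exp ((1 - 2 * κ) * μ) ≤ 2 * Y := by
    have h1 := Nat.lt_floor_add_one (Real.exp ((1 - 2 * κ) * μ))
    rw [← hY] at h1
    have h2 : (1 : ℝ) ≤ Y := by exact_mod_cast lt_of_lt_of_le (main_rad_pos c) hYc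
    linarith
  obtain ⟨T, hT, hTc⟩ := hTSET c Y hc hYc
  have hmc : m ∣ c := (dvd_pow_self m (by omega)).trans hm1
  have habm : Nat.Coprime (a * b) m := by
    refine Nat.Coprime.coprime_dvd_right hmc (Nat.Coprime.mul_left ?_ ?_)
    · rw [← habc]; simpa using hcop
    · rw [← habc]; simpa using hcop.symm
  have hkey : ϑ * T.card ≤ M * m * n ^ (a * b).primeFactors.card := by
    by_contra hcon
    obtain ⟨E, t, hE, hEt, hEm, hEf⟩ := hPIGEON a b m ϑ n Y M T (by omega) hn0 hYm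
      (fun t ht => (hT t ht).2.1) habm (not_le.mp hcon)
    obtain ⟨j0, hj0, g, hg1, hg2, hg3⟩ := HG ϑ E hDϑ hE
    refine HC m a b (t j0 * wj a b ϑ j0)
      (fun i => t (j0 + g i.castSucc) * wj a b ϑ (j0 + g i.castSucc)) g ha hb hcop
      (by linarith) ?_ (by rw [hg1, habc]; exact hm1)
      (Nat.mul_pos (hT _ (hEt _ hj0).2).1 (main_wj_pos _ _ _ _))
      (fun i => Nat.mul_pos (hT _ (hEt _ (hg2 i)).2).1 (main_wj_pos _ _ _ _))
      (Nat.Coprime.mul_left (Nat.Coprime.coprime_dvd_right hmc (hT _ (hEt _ hj0).2).2.2)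
        (main_wj_coprime _ _ _ _ _ habm))
      (fun i => hEm _ (hg2 i) _ hj0) (fun i => ?_) hg3 ?_
    · rw [hg1]
      have h1 : H ≤ Real.log 2 + Real.log b := by
        rw [← Real.log_mul (by norm_num) (by positivity)]
        refine Real.log_le_log hcR ?_
        have : c ≤ 2 * b := by omega
        exact_mod_cast this
      have h2 : Real.log 2 ≤ 1 := by linarith [Real.log_le_sub_one_of_pos (show (0:ℝ) < 2 by norm_num)]
      have h3 : μ0 * ϑ ≤ L * ϑ := by gcongr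
      nlinarith
    · have := (hEt _ (hg2 i)).1
      omega
    · intro Z
      obtain ⟨G, hG1, hG2⟩ := hHEIGHT a b ϑ n Y k j0 (t j0) Z (fun i => g i.castSucc)
        (fun i => t (j0 + g i.castSucc)) ha hb (by omega) hn0 (hEt _ hj0).1.le
        (fun i => (hEt _ (hg2 i)).1.le) (hT _ (hEt _ hj0).2).2.1
        (fun i => (hT _ (hEt _ (hg2 i)).2).2.1)
        (fun ℓ hℓ i => ⟨hEf _ (hg2 i) _ hj0 ℓ hℓ, hEf _ hj0 _ (hg2 i) ℓ hℓ⟩)
      refine ⟨G, hG1 m habm, ?_⟩
      intro x z h1 h2 h3 h4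
      rw [hg1] at h3 h4 ⊢
      obtain ⟨Γ, hΓ1, hΓ2⟩ := hG2 x z h1 h2 h3 h4
      refine ⟨Γ, hΓ1, hΓ2.trans ?_⟩
      have hZ0 : (0 : ℝ) ≤ Z := by positivity
      have e1 : (Y : ℝ) ^ Z ≤ Real.exp (Z * ((1 - 2 * κ) * μ)) := by
        rw [Real.exp_nat_mul]
        gcongr
      have e2 : (a : ℝ) * b ≤ Real.exp (6 * ϑ * μ) := by
        have h5 : (a : ℝ) ≤ c := by exact_mod_cast (by omega : a ≤ c)
        have h6 : (b : ℝ) ≤ c := by exact_mod_cast (by omega : b ≤ c)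
        calc (a : ℝ) * b ≤ c * c := by gcongr
          _ = Real.exp (H + H) := by rw [Real.exp_add, hH, Real.exp_log hcR]
          _ ≤ _ := by
            rw [Real.exp_le_exp]
            nlinarith
      have e3 : Real.exp (2 * Z * Real.log (rad (a * b)) / n) ≤ Real.exp (Z * (κ * μ)) := by
        rw [Real.exp_le_exp, div_le_iff₀ (by linarith)]
        have h5 : 1 ≤ κ * n := by
          rw [div_le_iff₀ hκ] at hn1
          linarith
        have h6 : 2 * Real.log (rad (a * b)) ≤ κ * μ * n := by nlinarith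
        nlinarith
      calc (Y : ℝ) ^ Z * (a * b) * Real.exp (2 * Z * Real.log (rad (a * b)) / n)
          ≤ Real.exp (Z * ((1 - 2 * κ) * μ)) * Real.exp (6 * ϑ * μ) *
            Real.exp (Z * (κ * μ)) := by gcongr
        _ = _ := by
          rw [← Real.exp_add, ← Real.exp_add]
          congr 1
          ring
  have hωc : c.primeFactors.card ≤ ω :=
    Finset.card_le_card (Nat.primeFactors_mono (Dvd.intro_left _ rfl) hne)
  have hωab : (a * b).primeFactors.card ≤ ω :=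
    Finset.card_le_card (Nat.primeFactors_mono (Dvd.intro _ rfl) hne)
  have hk2 : ϑ * Y ≤ 2 * M * (2 * n) ^ ω * m := by
    calc ϑ * Y ≤ ϑ * (2 * 2 ^ c.primeFactors.card * T.card) := Nat.mul_le_mul_left _ hTc
      _ = 2 * 2 ^ c.primeFactors.card * (ϑ * T.card) := by ring
      _ ≤ 2 * 2 ^ ω * (M * m * n ^ ω) := by
        refine Nat.mul_le_mul (Nat.mul_le_mul_left _ (Nat.pow_le_pow_right (by norm_num) hωc))
          (hkey.trans (Nat.mul_le_mul_left _ (Nat.pow_le_pow_right hn0 hωab)))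
      _ = _ := by rw [mul_pow]; ring
  have hk3 : (ϑ : ℝ) * Y ≤ 2 * M * ((2 * n : ℕ) : ℝ) ^ ω * m := by exact_mod_cast hk2
  have hk4 : (ϑ : ℝ) * Real.exp ((1 - 2 * κ) * μ) ≤
      (4 * M * W) * Real.exp ((1 - 2 * κ) * μ) := by
    have h1 : (m : ℝ) ≤ Real.exp (16 * κ * L) * Real.exp ((1 - 2 * κ) * μ) := by
      rw [hmexp, ← Real.exp_add, Real.exp_le_exp]
      nlinarith
    calc (ϑ : ℝ) * Real.exp ((1 - 2 * κ) * μ) ≤ ϑ * (2 * Y) := by gcongr
      _ = 2 * (ϑ * Y) := by ring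
      _ ≤ 2 * (2 * M * ((2 * n : ℕ) : ℝ) ^ ω * m) := by gcongr
      _ ≤ 2 * (2 * M * ((2 * n : ℕ) : ℝ) ^ ω *
          (Real.exp (16 * κ * L) * Real.exp ((1 - 2 * κ) * μ))) := by gcongr
      _ = _ := by rw [hW]; ring
  have hk5 := le_of_mul_le_mul_right hk4 (Real.exp_pos _)
  nlinarith

theorem main_of (hCORE : S_CORE) (hGENSEL : S_GENSEL) (hPIGEON : S_PIGEON) (hHEIGHT : S_HEIGHT)
    (hMOD : S_MOD) (hTSET : S_TSET) (hOMEGA : S_OMEGA) : S_MAIN := by
  intro ε hε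
  set κ := min (ε / 48) (1 / 4) with hκ
  have hκ0 : 0 < κ := lt_min (by positivity) (by norm_num)
  have hκ1 : κ ≤ 1 / 4 := min_le_right _ _
  have hκ2 : κ ≤ ε / 48 := min_le_left _ _
  obtain ⟨n, L0, C, hL0, hC, HB⟩ := main_bound hCORE hGENSEL hPIGEON hHEIGHT hMOD hTSET κ hκ0 hκ1
  obtain ⟨C', hC', HO⟩ := hOMEGA n (ε / 3) (by positivity)
  refine ⟨C * (L0 + 3 / ε) * (C' * Real.exp (4 * L0)), ?_⟩
  have key : ∀ a b c : ℕ, 0 < a → a ≤ b → Nat.Coprime a b → a + b = c →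
      Real.log c ≤ C * (L0 + 3 / ε) * (C' * Real.exp (4 * L0)) * (rad (a * b * c) : ℝ) ^ ε := by
    intro a b c ha hab hcop habc
    set R : ℝ := (rad (a * b * c) : ℝ) with hR
    have hR1 : 1 ≤ R := by rw [hR]; exact_mod_cast main_rad_pos _
    have hR0 : 0 < R := by linarith
    have hlog : 0 ≤ Real.log R := Real.log_nonneg hR1
    have h0 := HB a b c (L0 + Real.log R) ha hab hcop habc (by linarith) (by linarith)
    have hS1 : 1 ≤ R ^ (ε / 3) := Real.one_le_rpow hR1 (by positivity)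
    have h1 : L0 + Real.log R ≤ (L0 + 3 / ε) * R ^ (ε / 3) := by
      have h2 := Real.log_le_rpow_div hR0.le (show 0 < ε / 3 by positivity)
      have h3 : R ^ (ε / 3) / (ε / 3) = 3 / ε * R ^ (ε / 3) := by field_simp
      nlinarith
    have h2 : Real.exp (16 * κ * (L0 + Real.log R)) ≤ Real.exp (4 * L0) * R ^ (ε / 3) := by
      rw [Real.rpow_def_of_pos hR0, ← Real.exp_add, Real.exp_le_exp]
      nlinarith
    have h3 := HO (a * b * c)
    have h4 : R ^ ε = R ^ (ε / 3) * R ^ (ε / 3) * R ^ (ε / 3) := by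
      rw [← Real.rpow_add hR0, ← Real.rpow_add hR0]
      congr 1
      ring
    calc Real.log c ≤ C * (L0 + Real.log R) * ((n : ℝ) ^ (a * b * c).primeFactors.card *
          Real.exp (16 * κ * (L0 + Real.log R))) := h0
      _ ≤ C * ((L0 + 3 / ε) * R ^ (ε / 3)) * ((C' * R ^ (ε / 3)) *
          (Real.exp (4 * L0) * R ^ (ε / 3))) := by gcongr
      _ = _ := by rw [h4]; ring
  intro a b c ha hb hcop habc
  rcases le_total a b with h | h
  · exact key a b c ha h hcop habc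
  · have := key b a c hb h hcop.symm (by omega)
    rwa [mul_comm b a] at this

end Pool.Agent.P.MP_7aad9f_nt.Sub
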