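import Pool.Agent.P.MP_7aad9f_nt.SubDefs

/-! Weighted order of vanishing: derivatives, Taylor coefficients and cancellation. -/

set_option autoImplicit false

open Polynomial

namespace Pool.Agent.P.MP_7aad9f_nt.Sub

theorem ord_key {n : ℕ} (α : Fin (n + 1) → ℚ) (wt : Fin (n + 1) → ℕ) (h : wt 0 = 1)
    (b : Fin (n + 1) → ℚ) (P : (MvPolynomial (Fin n) ℤ)[X]) :
    sb α wt b ((MvPolynomial.finSuccEquiv ℤ n).symm P) =
      eval (C (b 0) * X) (taylor (C (α 0))
        (P.map (sb (Fin.tail α) (Fin.tail wt) (Fin.tail b)))) := by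
  obtain ⟨F, rfl⟩ := (MvPolynomial.finSuccEquiv ℤ n).surjective P
  rw [AlgEquiv.symm_apply_apply, taylor_eval]
  have key : sb α wt b = ((evalRingHom (C (b 0) * X + C (α 0))).comp
      (mapRingHom (sb (Fin.tail α) (Fin.tail wt) (Fin.tail b)))).comp
      (MvPolynomial.finSuccEquiv ℤ n : MvPolynomial (Fin (n + 1)) ℤ →+* _) := by
    refine MvPolynomial.ringHom_ext (fun r => by simp) fun i => ?_
    refine Fin.cases ?_ (fun j => ?_) i
    · simp [sb, MvPolynomial.finSuccEquiv_X_zero, h, add_comm]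
    · simp [sb, MvPolynomial.finSuccEquiv_X_succ, Fin.tail]
  rw [key]
  rfl

theorem ord_interp (T : ℚ[X][X]) (m : ℕ) (h : ∀ β : ℚ, (X : ℚ[X]) ^ m ∣ T.eval (C β * X))
    (c : ℕ) : (X : ℚ[X]) ^ (m - c) ∣ T.coeff c := by
  rw [X_pow_dvd_iff]
  intro d hd
  by_cases hc : T.natDegree < c
  · rw [coeff_eq_zero_of_natDegree_lt hc, coeff_zero]
  have h1 : (∑ i ∈ Finset.range (T.natDegree + 1),
      monomial i ((T.coeff i * X ^ i).coeff (d + c)) : ℚ[X]) = 0 := by
    refine Polynomial.funext fun β => ?_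
    have h2 := X_pow_dvd_iff.mp (h β) (d + c) (by omega)
    rw [eval_eq_sum_range, finsetSum_coeff] at h2
    rw [eval_zero, ← h2, eval_finsetSum]
    refine Finset.sum_congr rfl fun i _ => ?_
    rw [eval_monomial, mul_pow, ← C_pow, mul_left_comm, coeff_C_mul, mul_comm]
  have h2 := congrArg (fun p : ℚ[X] => p.coeff c) h1
  simp only [finsetSum_coeff, coeff_monomial, Finset.sum_ite_eq', Finset.mem_range, coeff_zero,
    coeff_mul_X_pow] at h2
  rwa [if_pos (by omega)] at h2

theorem ord_hasse {R S : Type} [CommRing R] [CommRing S] (f : R →+* S) (v : S) (P : R[X])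
    (e c : ℕ) : (taylor v ((hasseDeriv e P).map f)).coeff c =
      (c + e).choose c • (taylor v (P.map f)).coeff (c + e) := by
  have h : (hasseDeriv e P).map f = hasseDeriv e (P.map f) := by
    ext i
    simp [hasseDeriv_coeff]
  rw [h, taylor_coeff, taylor_coeff, ← LinearMap.comp_apply, hasseDeriv_comp,
    LinearMap.smul_apply, eval_smul]

theorem ord1 : S_ORD1 := by
  intro n α wt m h P hP
  have key : ∀ (b : Fin n → ℚ) (c : ℕ), (X : ℚ[X]) ^ (m - c) ∣
      (taylor (C (α 0)) (P.map (sb (Fin.tail α) (Fin.tail wt) b))).coeff c := fun b =>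
    ord_interp _ m fun β => by
      have h1 := hP (Fin.cons β b)
      rwa [ord_key α wt h] at h1
  refine ⟨fun e b => ?_, key⟩
  rw [ord_key α wt h, eval_eq_sum_range]
  refine Finset.dvd_sum fun c _ => ?_
  rw [ord_hasse, nsmul_eq_mul, mul_pow, mul_assoc]
  refine Dvd.dvd.mul_left ?_ _
  refine (pow_dvd_pow X (show m - e ≤ m - (c + e) + c by omega)).trans ?_
  rw [pow_add]
  exact mul_dvd_mul (key _ _) (dvd_mul_left _ _)

theorem ord2 : S_ORD2 := by
  intro n α wt m h G F hG hF b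
  have key : (evalRingHom (0 : ℚ)).comp (sb α wt b) = evl α :=
    MvPolynomial.ringHom_ext (fun r => by simp) fun i => by simp [sb, evl, (h i).ne']
  have h1 := hF b
  rw [map_mul] at h1
  refine prime_X.pow_dvd_of_dvd_mul_left m (fun h2 => hG ?_) h1
  rw [X_dvd_iff, coeff_zero_eq_eval_zero] at h2
  rw [← key]
  exact h2

end Pool.Agent.P.MP_7aad9f_nt.Sub
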