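import Pool.Agent.P.MP_7aad9f_nt.SubDefs

/-! The pigeonhole step. -/

namespace Pool.Agent.P.MP_7aad9f_nt.Sub

lemma pigeon_cop {a b m : ℕ} (ϑ j : ℕ) (h : Nat.Coprime (a * b) m) :
    Nat.Coprime m (wj a b ϑ j) :=
  Nat.Coprime.prod_right fun _ hl =>
    (Nat.Coprime.coprime_dvd_left (Nat.dvd_of_mem_primeFactors hl) h).symm.pow_right _

lemma pigeon_div {x y ϑ : ℕ} (h0 : 0 < ϑ) (h : x / ϑ = y / ϑ) : x ≤ y + ϑ := by
  have h1 := Nat.div_add_mod x ϑ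
  have h2 := Nat.div_add_mod y ϑ
  have h3 := Nat.mod_lt x h0
  rw [h] at h1
  omega

theorem pigeon : S_PIGEON := by
  classical
  intro a b m ϑ n Y M T hϑ hn hY hT hc hlt
  let f : ℕ × ℕ → ℕ × ((a * b).primeFactors → ℕ) := fun p =>
    ((p.2 * wj a b ϑ p.1) % m, fun l => n * (nu a b ϑ p.1 l % ϑ) / ϑ)
  obtain ⟨y, -, hy⟩ := Finset.exists_lt_card_fiber_of_mul_lt_card_of_maps_to
    (s := Finset.range ϑ ×ˢ T)
    (t := Finset.range m ×ˢ Fintype.piFinset fun _ : (a * b).primeFactors => Finset.range n)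
    (f := f) (n := M)
    (fun p _ => Finset.mem_product.2 ⟨Finset.mem_range.2 (Nat.mod_lt _ (by omega)),
      Fintype.mem_piFinset.2 fun l => Finset.mem_range.2
        ((Nat.div_lt_iff_lt_mul hϑ).2 (Nat.mul_lt_mul_of_pos_left (Nat.mod_lt _ hϑ) hn))⟩)
    (by simpa [mul_comm, mul_left_comm, mul_assoc] using hlt)
  set P := (Finset.range ϑ ×ˢ T).filter fun p => f p = y with hP
  have hm : ∀ p ∈ P, p.1 < ϑ ∧ p.2 ∈ T ∧ f p = y := fun p hp => by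
    simpa [hP, and_assoc] using hp
  have hinj : Set.InjOn Prod.fst (P : Set (ℕ × ℕ)) := by
    rintro ⟨j, t⟩ hp ⟨j', t'⟩ hp' (rfl : j = j')
    obtain ⟨-, h1, h2⟩ := hm _ hp
    obtain ⟨-, h3, h4⟩ := hm _ hp'
    have h5 : t * wj a b ϑ j ≡ t' * wj a b ϑ j [MOD m] := congrArg Prod.fst (h2.trans h4.symm)
    have h6 := Nat.ModEq.cancel_right_of_coprime (pigeon_cop ϑ j hc) h5
    rw [Nat.ModEq.eq_of_lt_of_lt h6 ((hT t h1).trans_lt hY) ((hT t' h3).trans_lt hY)]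
  have hex : ∀ j : ℕ, ∃ t : ℕ, j ∈ P.image Prod.fst → (j, t) ∈ P := fun j => by
    by_cases h : j ∈ P.image Prod.fst
    · obtain ⟨p, hp, rfl⟩ := Finset.mem_image.1 h
      exact ⟨p.2, fun _ => hp⟩
    · exact ⟨0, fun h' => absurd h' h⟩
  choose t ht using hex
  have he : ∀ j ∈ P.image Prod.fst, ∀ j' ∈ P.image Prod.fst, f (j, t j) = f (j', t j') :=
    fun j hj j' hj' => (hm _ (ht j hj)).2.2.trans (hm _ (ht j' hj')).2.2.symm
  refine ⟨P.image Prod.fst, t, by rwa [Finset.card_image_of_injOn hinj],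
    fun j hj => ⟨(hm _ (ht j hj)).1, (hm _ (ht j hj)).2.1⟩,
    fun j hj j' hj' => congrArg Prod.fst (he j hj j' hj'), fun j hj j' hj' l hl => ?_⟩
  exact pigeon_div hϑ (congrFun (congrArg Prod.snd (he j hj j' hj')) ⟨l, hl⟩)

end Pool.Agent.P.MP_7aad9f_nt.Sub
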