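import Pool.Agent.P.MP_7aad9f_nt.SubDefs

/-! Support and size of the elimination determinant. -/

set_option autoImplicit false

open MvPolynomial

namespace Pool.Agent.P.MP_7aad9f_nt.Sub

variable {n : ℕ}

theorem size_nrm_sub (F : MvPolynomial (Fin n) ℤ) {s : Finset (Fin n →₀ ℕ)} (h : F.support ⊆ s) :
    nrm F = ∑ d ∈ s, (F.coeff d).natAbs :=
  Finset.sum_subset h fun d _ hd => by simp [notMem_support_iff.1 hd]

theorem size_nrm_add (F G : MvPolynomial (Fin n) ℤ) : nrm (F + G) ≤ nrm F + nrm G := by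
  rw [size_nrm_sub (F + G) support_add, size_nrm_sub F (s := F.support ∪ G.support)
    Finset.subset_union_left, size_nrm_sub G (s := F.support ∪ G.support)
    Finset.subset_union_right, ← Finset.sum_add_distrib]
  exact Finset.sum_le_sum fun d _ => by rw [coeff_add]; exact Int.natAbs_add_le _ _

theorem size_nrm_sum {ι : Type*} (s : Finset ι) (F : ι → MvPolynomial (Fin n) ℤ) :
    nrm (∑ i ∈ s, F i) ≤ ∑ i ∈ s, nrm (F i) :=
  Finset.le_sum_of_subadditive nrm (by simp [nrm]) size_nrm_add s F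

theorem size_nrm_monomial (d : Fin n →₀ ℕ) (a : ℤ) : nrm (monomial d a) = a.natAbs := by
  rw [size_nrm_sub _ support_monomial_subset]
  simp

theorem size_nrm_mul (F G : MvPolynomial (Fin n) ℤ) : nrm (F * G) ≤ nrm F * nrm G := by
  conv_lhs => rw [F.as_sum, G.as_sum, Finset.sum_mul_sum]
  rw [nrm.eq_1 F, nrm.eq_1 G, Finset.sum_mul_sum]
  refine (size_nrm_sum _ _).trans (Finset.sum_le_sum fun d _ => ?_)
  refine (size_nrm_sum _ _).trans (Finset.sum_le_sum fun e _ => ?_)
  rw [monomial_mul, size_nrm_monomial, Int.natAbs_mul]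

theorem size_nrm_smul (k : ℤ) (F : MvPolynomial (Fin n) ℤ) : nrm (k • F) ≤ k.natAbs * nrm F := by
  rw [size_nrm_sub _ support_smul, nrm, Finset.mul_sum]
  exact Finset.sum_le_sum fun d _ => by rw [coeff_smul, smul_eq_mul, Int.natAbs_mul]

theorem size_nrm_prod {ι : Type*} (s : Finset ι) (F : ι → MvPolynomial (Fin n) ℤ) :
    nrm (∏ i ∈ s, F i) ≤ ∏ i ∈ s, nrm (F i) := by
  classical
  induction s using Finset.induction_on with
  | empty => simpa using (size_nrm_monomial (0 : Fin n →₀ ℕ) 1).le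
  | insert a s ha ih =>
    rw [Finset.prod_insert ha, Finset.prod_insert ha]
    exact (size_nrm_mul _ _).trans (Nat.mul_le_mul_left _ ih)

theorem size_nrm_coeff (F : MvPolynomial (Fin (n + 1)) ℤ) (i : ℕ) :
    nrm ((finSuccEquiv ℤ n F).coeff i) ≤ nrm F := by
  have hinj : Function.Injective (Finsupp.cons i : (Fin n →₀ ℕ) → Fin (n + 1) →₀ ℕ) :=
    fun d e h => by rw [← Finsupp.tail_cons i d, h, Finsupp.tail_cons]
  unfold nrm
  simp only [finSuccEquiv_coeff_coeff]
  rw [← Finset.sum_image (f := fun d => (F.coeff d).natAbs) hinj.injOn]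
  refine Finset.sum_le_sum_of_subset fun d hd => ?_
  obtain ⟨e, he, rfl⟩ := Finset.mem_image.1 hd
  exact mem_support_coeff_finSuccEquiv.1 he

variable {g : Fin n → ℕ}

theorem size_supp_smul {lo : ℤ} {Z : ℕ} {F : MvPolynomial (Fin n) ℤ} (k : ℤ) (h : Supp g lo Z F) :
    Supp g lo Z (k • F) := fun d hd => h d (support_smul hd)

theorem size_supp_sum {ι : Type*} {lo : ℤ} {Z : ℕ} (s : Finset ι) (F : ι → MvPolynomial (Fin n) ℤ)
    (h : ∀ i ∈ s, Supp g lo Z (F i)) : Supp g lo Z (∑ i ∈ s, F i) := by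
  intro d hd
  obtain ⟨i, hi, hd'⟩ := Finset.mem_biUnion.1 (support_sum hd)
  exact h i hi d hd'

theorem size_supp_mul {lo lo' : ℤ} {Z Z' : ℕ} {F G : MvPolynomial (Fin n) ℤ} (h : Supp g lo Z F)
    (h' : Supp g lo' Z' G) : Supp g (lo + lo') (Z + Z') (F * G) := by
  intro d hd
  obtain ⟨a, ha, b, hb, rfl⟩ := Finset.mem_add.1 (support_mul F G hd)
  obtain ⟨a1, a2, a3⟩ := h a ha
  obtain ⟨b1, b2, b3⟩ := h' b hb
  refine ⟨fun r => Nat.add_le_add (a1 r) (b1 r), ?_⟩
  simp only [Finsupp.add_apply, Nat.cast_add, mul_add, Finset.sum_add_distrib]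
  constructor <;> omega

theorem size_supp_prod {ι : Type*} (s : Finset ι) (lo : ι → ℤ) (Z : ℕ)
    (F : ι → MvPolynomial (Fin n) ℤ) (h : ∀ i, Supp g (lo i) Z (F i)) :
    Supp g (∑ i ∈ s, lo i) (s.card * Z) (∏ i ∈ s, F i) := by
  classical
  induction s using Finset.induction_on with
  | empty =>
    intro d hd
    have : d = 0 := by simpa using support_monomial_subset (s := 0) (a := (1 : ℤ)) hd
    simp [this]
  | insert a s ha ih =>
    rw [Finset.prod_insert ha, Finset.sum_insert ha, Finset.card_insert_of_notMem ha, add_mul,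
      one_mul, add_comm _ Z]
    exact size_supp_mul (h a) ih

theorem size_supp_coeff {g : Fin (n + 1) → ℕ} {lo : ℤ} {Z : ℕ} {F : MvPolynomial (Fin (n + 1)) ℤ}
    (h : Supp g lo Z F) (i : ℕ) :
    Supp (Fin.tail g) (lo - g 0 * i) Z ((finSuccEquiv ℤ n F).coeff i) := by
  intro d hd
  obtain ⟨h1, h2, h3⟩ := h _ (mem_support_coeff_finSuccEquiv.1 hd)
  simp only [Fin.sum_univ_succ, Finsupp.cons_zero, Finsupp.cons_succ] at h2 h3
  refine ⟨fun r => by simpa using h1 r.succ, ?_⟩
  simp only [Fin.tail]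
  constructor <;> omega

theorem size : S_SIZE := by
  intro n g lo Z F N K g0 r M hF hM
  have h1 : ∀ ρ c : Fin N,
      Supp (Fin.tail g) (lo - g 0 * ((c : ℕ) + g0) + g 0 * r ρ) Z (M ρ c) := by
    intro ρ c
    rcases hM ρ c with h | ⟨κ, i, -, hi, h⟩
    · rw [h]
      intro d hd
      simp at hd
    · have e : ((c : ℕ) : ℤ) + g0 = i + r ρ := by exact_mod_cast hi.symm
      rw [h, e, show lo - g 0 * ((i : ℤ) + r ρ) + g 0 * r ρ = lo - g 0 * i by ring]
      exact size_supp_smul κ (size_supp_coeff hF i)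
  have h2 : ∀ ρ c : Fin N, nrm (M ρ c) ≤ K * nrm F := by
    intro ρ c
    rcases hM ρ c with h | ⟨κ, i, hk, -, h⟩
    · simp [h, nrm]
    · rw [h]
      refine (size_nrm_smul _ _).trans (Nat.mul_le_mul ?_ (size_nrm_coeff F i))
      rw [← Int.natCast_natAbs] at hk
      exact_mod_cast hk
  rw [Matrix.det_apply]
  simp only [Units.smul_def]
  refine ⟨⟨∑ c : Fin N, (lo - g 0 * ((c : ℕ) + g0) + g 0 * r c),
    size_supp_sum _ _ fun σ _ => size_supp_smul _ ?_⟩, ?_⟩
  · have := size_supp_prod Finset.univ _ Z _ fun c => h1 (σ c) c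
    rw [Finset.card_univ, Fintype.card_fin, Finset.sum_add_distrib,
      Equiv.sum_comp σ fun c => (g 0 : ℤ) * r c, ← Finset.sum_add_distrib] at this
    exact this
  · refine (size_nrm_sum _ _).trans ((Finset.sum_le_card_nsmul _ _ ((K * nrm F) ^ N)
      fun σ _ => ?_).trans ?_)
    · refine (size_nrm_smul _ _).trans ?_
      rw [Int.units_natAbs, one_mul]
      refine (size_nrm_prod _ _).trans ((Finset.prod_le_pow_card _ _ _ fun c _ => h2 _ c).trans ?_)
      simp
    · simp [Fintype.card_perm]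

end Pool.Agent.P.MP_7aad9f_nt.Sub
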