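import Pool.Agent.P.MP_7aad9f_nt.SubDefs

/-! A non-vanishing Sylvester type determinant. -/

open Polynomial

namespace Pool.Agent.P.MP_7aad9f_nt.Sub

theorem sylv_strip {R : Type} [CommRing R] [IsDomain R] (ev : R[X] →+* ℚ) (n : ℕ) :
    ∀ F₁ F₂ : R[X], F₁.natDegree = n → F₁ ≠ 0 →
      (∀ Q : R[X], Prime Q → 0 < Q.natDegree → Q ∣ F₁ → Q ∣ F₂ → ev Q ≠ 0) →
      ∃ G F₁' F₂' : R[X], F₁ = G * F₁' ∧ F₂ = G * F₂' ∧ ev G ≠ 0 ∧
        ∀ Q : R[X], Prime Q → 0 < Q.natDegree → Q ∣ F₁' → ¬ Q ∣ F₂' := by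
  induction n using Nat.strong_induction_on with
  | _ n ih =>
    intro F₁ F₂ hn h0 h
    by_cases hc : ∃ Q : R[X], Prime Q ∧ 0 < Q.natDegree ∧ Q ∣ F₁ ∧ Q ∣ F₂
    · obtain ⟨Q, hQ, hd, ⟨A, rfl⟩, ⟨B, rfl⟩⟩ := hc
      have hA : A ≠ 0 := right_ne_zero_of_mul h0
      rw [natDegree_mul hQ.ne_zero hA] at hn
      obtain ⟨G, A', B', rfl, rfl, hG, hP⟩ := ih A.natDegree (by omega) A B rfl hA
        fun P hP hP' h1 h2 => h P hP hP' (h1.mul_left _) (h2.mul_left _)
      refine ⟨Q * G, A', B', by ring, by ring, ?_, hP⟩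
      rw [map_mul]
      exact mul_ne_zero (h Q hQ hd (dvd_mul_right _ _) (dvd_mul_right _ _)) hG
    · exact ⟨1, F₁, F₂, by simp, by simp, by simp, fun Q h1 h2 h3 h4 => hc ⟨Q, h1, h2, h3, h4⟩⟩

theorem sylv_deg {R : Type} [CommRing R] [IsDomain R] [UniqueFactorizationMonoid R]
    (H F : R[X]) : ∀ b : R[X], b ≠ 0 → F ∣ b * H →
      (∀ Q : R[X], Prime Q → 0 < Q.natDegree → Q ∣ F → ¬ Q ∣ H) → F.natDegree ≤ b.natDegree := by
  induction F using UniqueFactorizationMonoid.induction_on_prime with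
  | h₁ => intros; simp
  | h₂ u hu => intros; simp [natDegree_eq_zero_of_isUnit hu]
  | h₃ F Q hF hQ ih =>
    intro b hb hd h
    have h' : ∀ P : R[X], Prime P → 0 < P.natDegree → P ∣ F → ¬ P ∣ H :=
      fun P h1 h2 h3 => h P h1 h2 (h3.mul_left _)
    rw [natDegree_mul hQ.ne_zero hF]
    rcases Nat.eq_zero_or_pos Q.natDegree with h0 | h0
    · rw [h0, zero_add]
      exact ih b hb ((dvd_mul_left _ _).trans hd) h'
    · obtain ⟨b', rfl⟩ := (hQ.dvd_or_dvd ((dvd_mul_right _ _).trans hd)).resolve_right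
        (h Q hQ h0 (dvd_mul_right _ _))
      have hb' : b' ≠ 0 := right_ne_zero_of_mul hb
      rw [mul_assoc, mul_dvd_mul_iff_left hQ.ne_zero] at hd
      rw [natDegree_mul hQ.ne_zero hb']
      exact Nat.add_le_add_left (ih b' hb' hd h') _

theorem sylv : S_SYLV := by
  intro R _ _ _ F₁ F₂ ev h0 h
  obtain ⟨G, A, B, rfl, rfl, hG, hP⟩ := sylv_strip ev _ F₁ F₂ rfl h0 h
  have hA : A ≠ 0 := right_ne_zero_of_mul h0
  have hG0 : G ≠ 0 := left_ne_zero_of_mul h0
  set n1 := A.natDegree with hn1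
  set n2 := B.natDegree with hn2
  let r : Fin (n1 + n2 + 1) → ℕ := fun ρ => if ρ.1 ≤ n2 then ρ.1 else ρ.1 - n2 - 1
  let q : Fin (n1 + n2 + 1) → R[X] := fun ρ => X ^ r ρ * if ρ.1 ≤ n2 then A else B
  have hq : ∀ ρ, (q ρ).natDegree < n1 + n2 + 1 := fun ρ => by
    refine natDegree_mul_le.trans_lt ?_
    have := ρ.2
    rw [natDegree_X_pow]
    simp only [r]
    split_ifs <;> omega
  refine ⟨n1 + n2 + 1, G, q, r, by omega, ?_, hG, hq, fun ρ => ?_, fun hdet => ?_⟩
  · have h1 : n1 ≤ (G * A).natDegree := by rw [natDegree_mul hG0 hA]; omega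
    have h2 : n2 ≤ (G * B).natDegree := by
      rcases eq_or_ne B 0 with hB | hB
      · simp [hn2, hB]
      · rw [natDegree_mul hG0 hB]; omega
    omega
  · simp only [q]
    split_ifs
    · left; ring
    · right; ring
  · obtain ⟨w, hw, hw0⟩ := Matrix.exists_vecMul_eq_zero_iff.2 hdet
    have h1 : ∑ ρ, C (w ρ) * q ρ = 0 := by
      ext c
      rw [finsetSum_coeff, coeff_zero]
      simp only [coeff_C_mul]
      by_cases hc : c < n1 + n2 + 1
      · exact congrFun hw0 ⟨c, hc⟩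
      · exact Finset.sum_eq_zero fun ρ _ => by
          rw [coeff_eq_zero_of_natDegree_lt ((hq ρ).trans_le (by omega)), mul_zero]
    let a : R[X] := ∑ ρ, if ρ.1 ≤ n2 then monomial (r ρ) (w ρ) else 0
    let b : R[X] := ∑ ρ, if ρ.1 ≤ n2 then 0 else monomial (r ρ) (w ρ)
    have h2 : a * A + b * B = 0 := by
      rw [← h1, Finset.sum_mul, Finset.sum_mul, ← Finset.sum_add_distrib]
      refine Finset.sum_congr rfl fun ρ _ => ?_
      simp only [q, ← C_mul_X_pow_eq_monomial]
      split_ifs <;> ring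
    have hb : b = 0 := by
      by_contra hb
      have h3 := sylv_deg B A b hb ⟨-a, by linear_combination h2⟩ hP
      refine hb (leadingCoeff_eq_zero.1 ?_)
      rw [leadingCoeff]
      generalize b.natDegree = i at h3
      rw [finsetSum_coeff]
      refine Finset.sum_eq_zero fun ρ _ => ?_
      have := ρ.2
      split_ifs with hρ
      · simp
      · rw [coeff_monomial, if_neg (by simp only [r, if_neg hρ]; omega)]
    have ha : a = 0 := by
      rw [hb, zero_mul, add_zero] at h2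
      exact (mul_eq_zero.1 h2).resolve_right hA
    refine hw (funext fun ρ => ?_)
    by_cases hρ : ρ.1 ≤ n2
    · have h4 : a.coeff (r ρ) = w ρ := by
        rw [finsetSum_coeff, Finset.sum_eq_single ρ (fun σ _ hσ => ?_) (by simp), if_pos hρ,
          coeff_monomial_same]
        split_ifs with hσ'
        · rw [coeff_monomial, if_neg]
          simp only [r, if_pos hρ, if_pos hσ']
          exact fun e => hσ (Fin.ext e)
        · simp
      rw [← h4, ha]; simp
    · have h4 : b.coeff (r ρ) = w ρ := by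
        rw [finsetSum_coeff, Finset.sum_eq_single ρ (fun σ _ hσ => ?_) (by simp), if_neg hρ,
          coeff_monomial_same]
        split_ifs with hσ'
        · simp
        · rw [coeff_monomial, if_neg]
          simp only [r, if_neg hρ, if_neg hσ']
          exact fun e => hσ (Fin.ext (by omega))
      rw [← h4, hb]; simp

end Pool.Agent.P.MP_7aad9f_nt.Sub
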