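import Pool.Agent.P.MP_7aad9f_nt.SubDefs

set_option autoImplicit false

open Polynomial

namespace Pool.Agent.P.MP_7aad9f_nt.Sub

lemma tri2_aux {R : Type} [CommRing R] (N : ℕ) (q : Fin N → R[X]) (hq : ∀ ρ, (q ρ).natDegree < N)
    (L : R[X] →ₗ[R] R[X]) (g : ℕ) (lam : R)
    (h0 : ∀ c c' : ℕ, c < c' → (L (X ^ c)).coeff (c' + g) = 0)
    (h1 : ∀ c : ℕ, (L (X ^ c)).coeff (c + g) = lam) :
    (Matrix.of fun (ρ c : Fin N) => (L (q ρ)).coeff (c + g)).det =
      lam ^ N * (Matrix.of fun (ρ c : Fin N) => (q ρ).coeff c).det := by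
  have hM : (Matrix.of fun (ρ c : Fin N) => (L (q ρ)).coeff (c + g)) =
      (Matrix.of fun (ρ c : Fin N) => (q ρ).coeff c) *
        (Matrix.of fun (c c' : Fin N) => (L (X ^ (c : ℕ))).coeff (c' + g)) := by
    ext ρ c'
    rw [Matrix.mul_apply]
    simp only [Matrix.of_apply]
    conv_lhs => rw [(q ρ).as_sum_range' N (hq ρ), map_sum, finset_sum_coeff,
      ← Fin.sum_univ_eq_sum_range (fun i => (L (monomial i ((q ρ).coeff i))).coeff (c' + g)) N]
    refine Finset.sum_congr rfl fun c _ => ?_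
    rw [← smul_X_eq_monomial, map_smul, coeff_smul, smul_eq_mul]
  rw [hM, Matrix.det_mul, mul_comm]
  congr 1
  rw [Matrix.det_of_lowerTriangular]
  · simp [h1]
  · intro c c' h
    exact h0 c c' h

theorem tri2 : S_TRI := by
  intro R _ N q hq
  refine ⟨fun G => ?_, fun v => ?_⟩
  · refine tri2_aux N q hq (LinearMap.mulLeft R G) G.natDegree G.leadingCoeff ?_ ?_
    · intro c c' h
      rw [LinearMap.mulLeft_apply, coeff_mul_X_pow', if_pos (by omega)]
      exact coeff_eq_zero_of_natDegree_lt (by omega)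
    · intro c
      rw [LinearMap.mulLeft_apply, coeff_mul_X_pow', if_pos (by omega), Nat.add_sub_cancel_left,
        leadingCoeff]
  · have := tri2_aux N q hq (taylor v) 0 1 (by
      intro c c' h
      rw [taylor_X_pow, coeff_X_add_C_pow, add_zero, Nat.choose_eq_zero_of_lt h]
      simp) (by
      intro c
      rw [taylor_X_pow, coeff_X_add_C_pow]
      simp)
    simpa using this

end Pool.Agent.P.MP_7aad9f_nt.Sub
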