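import Pool.Agent.P.MP_7aad9f_nt.SubDefs

/-! The auxiliary polynomial vanishes to high order. -/

set_option autoImplicit false

open Polynomial Finset

namespace Pool.Agent.P.MP_7aad9f_nt.Sub

theorem vanish_add_pow {R : Type*} [CommRing R] (u v : R) {y Z : ℕ} (h : y ≤ Z) :
    (u + v) ^ y = ∑ l ∈ range (Z + 1), (y.choose l : R) * u ^ (y - l) * v ^ l := by
  rw [add_comm u v, add_pow]
  rw [← Finset.sum_subset (s₁ := range (y + 1)) (s₂ := range (Z + 1))
    (range_subset_range.2 (by omega))]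
  · exact Finset.sum_congr rfl fun l _ => by ring
  · intro l _ hl
    rw [Nat.choose_eq_zero_of_lt (by simpa using hl)]
    simp

theorem vanish_one {R : Type*} [CommRing R] (b h : R) (l0 : ℕ) {y Z : ℕ} (hy : y ≤ Z) :
    (y.choose l0 : R) * (b + h) ^ (y - l0) * b ^ (Z - y) =
      ∑ l ∈ range (Z + 1), (y.choose l : R) * ((l.choose l0 : R) * h ^ (l - l0) * b ^ (Z - l)) := by
  have hz : ∀ l, l ∉ Ico l0 (y + 1) →
      (y.choose l : R) * ((l.choose l0 : R) * h ^ (l - l0) * b ^ (Z - l)) = 0 := by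
    intro l hl
    rw [mem_Ico] at hl
    by_cases h1 : l < l0
    · rw [Nat.choose_eq_zero_of_lt h1]
      simp
    · rw [Nat.choose_eq_zero_of_lt (n := y) (by omega)]
      simp
  rw [← Finset.sum_subset (s₁ := Ico l0 (y + 1)) (fun l hl => by
    rw [mem_Ico] at hl
    rw [mem_range]
    omega) (fun l _ hl => hz l hl)]
  by_cases h0 : y < l0
  · rw [Nat.choose_eq_zero_of_lt h0, Ico_eq_empty (by omega)]
    simp
  obtain ⟨d, rfl⟩ : ∃ d, y = l0 + d := ⟨y - l0, by omega⟩
  obtain ⟨e, rfl⟩ : ∃ e, Z = l0 + d + e := ⟨Z - (l0 + d), by omega⟩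
  rw [Finset.sum_Ico_eq_sum_range, show l0 + d + 1 - l0 = d + 1 by omega, Nat.add_sub_cancel_left,
    Nat.add_sub_cancel_left, add_comm b h, add_pow, Finset.mul_sum, Finset.sum_mul]
  refine Finset.sum_congr rfl fun i hi => ?_
  rw [mem_range] at hi
  have h1 := Nat.choose_mul (n := l0 + d) (k := l0 + i) (s := l0) (by omega)
  rw [Nat.add_sub_cancel_left, Nat.add_sub_cancel_left] at h1
  have h2 : ((l0 + d).choose (l0 + i) : R) * ((l0 + i).choose l0 : R) =
      ((l0 + d).choose l0 : R) * (d.choose i : R) := by exact_mod_cast congrArg Nat.cast h1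
  rw [Nat.add_sub_cancel_left, show l0 + d + e - (l0 + i) = (d - i) + e by omega, pow_add]
  linear_combination (-(h ^ i * b ^ (d - i) * b ^ e)) * h2

theorem vanish : S_VANISH := by
  intro n ι P y lam Γ a b wt m Z ω ω1 G G' ha hb hm hy hG hG' hΓ hl hlt
  have main : ∀ l0 : Fin n → ℕ, ∑ r, wt r * l0 r < ω1 →
      ∑ p ∈ P, (lam p : ℚ) * ∏ r, (((y p r).choose (l0 r) : ℚ) *
        ((a r : ℚ) / b r) ^ (y p r - l0 r)) = 0 := by
    intro l0 hl0
    set E : ℤ := ∑ p ∈ P, lam p * ∏ r, (((y p r).choose (l0 r) : ℤ) * a r ^ (y p r - l0 r) *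
      b r ^ (Z - y p r)) with hE
    have hE1 : E = ∑ l ∈ Fintype.piFinset fun _ : Fin n => range (Z + 1),
        (∑ p ∈ P, lam p * ((∏ r, (y p r).choose (l r) : ℕ) : ℤ)) *
          ∏ r, (((l r).choose (l0 r) : ℤ) * (a r - b r) ^ (l r - l0 r) * b r ^ (Z - l r)) := by
      simp_rw [Finset.sum_mul]
      rw [hE, Finset.sum_comm]
      refine Finset.sum_congr rfl fun p hp => ?_
      have h1 : ∀ r, ((y p r).choose (l0 r) : ℤ) * a r ^ (y p r - l0 r) * b r ^ (Z - y p r) =
          ∑ l ∈ range (Z + 1), ((y p r).choose l : ℤ) *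
            ((l.choose (l0 r) : ℤ) * (a r - b r) ^ (l - l0 r) * b r ^ (Z - l)) := fun r => by
        rw [← vanish_one (b r) (a r - b r) (l0 r) (hy p hp r), add_sub_cancel]
      simp_rw [h1]
      rw [Finset.prod_univ_sum, Finset.mul_sum]
      refine Finset.sum_congr rfl fun l _ => ?_
      rw [Finset.prod_mul_distrib, Nat.cast_prod, mul_assoc]
    have hdvd : (m : ℤ) ^ (ω - ω1) ∣ E := by
      rw [hE1]
      refine Finset.dvd_sum fun l _ => ?_
      by_cases h1 : ∑ r, wt r * l r < ω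
      · rw [hl l h1, zero_mul]
        exact dvd_zero _
      have h2 : ω - ω1 ≤ ∑ r, wt r * (l r - l0 r) := by
        have h3 : ∑ r, wt r * l r ≤ ∑ r, wt r * (l r - l0 r) + ∑ r, wt r * l0 r := by
          rw [← Finset.sum_add_distrib]
          refine Finset.sum_le_sum fun r _ => ?_
          rw [← mul_add]
          exact Nat.mul_le_mul_left _ (by omega)
        omega
      refine Dvd.dvd.mul_left ((pow_dvd_pow _ h2).trans ?_) _
      rw [← Finset.prod_pow_eq_pow_sum]
      refine Finset.prod_dvd_prod_of_dvd _ _ fun r _ => ?_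
      rw [pow_mul]
      exact ((pow_dvd_pow_of_dvd (hm r) _).mul_left _).mul_right _
    set N : ℤ := ∑ p ∈ P, lam p * (∏ r, ((y p r).choose (l0 r) : ℤ)) * Γ p with hN
    have hEN : G' * (∏ r, a r ^ l0 r) * E = G * N := by
      rw [hE, hN, Finset.mul_sum, Finset.mul_sum]
      refine Finset.sum_congr rfl fun p hp => ?_
      have h1 : (∏ r, a r ^ l0 r) * ∏ r, (((y p r).choose (l0 r) : ℤ) * a r ^ (y p r - l0 r) *
          b r ^ (Z - y p r)) = (∏ r, ((y p r).choose (l0 r) : ℤ)) *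
            ∏ r, (a r ^ y p r * b r ^ (Z - y p r)) := by
        rw [← Finset.prod_mul_distrib, ← Finset.prod_mul_distrib]
        refine Finset.prod_congr rfl fun r _ => ?_
        by_cases h2 : y p r < l0 r
        · rw [Nat.choose_eq_zero_of_lt h2]
          simp
        · rw [← pow_mul_pow_sub (a r) (not_lt.1 h2)]
          ring
      linear_combination (G' * lam p) * h1 +
        (lam p * ∏ r, ((y p r).choose (l0 r) : ℤ)) * hΓ p hp
    have hN0 : N = 0 := by
      refine Int.eq_zero_of_abs_lt_dvd ((hG.symm.pow_left (m := ω - ω1)).dvd_of_dvd_mul_left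
        (hEN ▸ hdvd.mul_left _)) (lt_of_le_of_lt ?_ hlt)
      refine (Finset.abs_sum_le_sum_abs _ _).trans (Finset.sum_le_sum fun p _ => ?_)
      rw [abs_mul, abs_mul, abs_of_nonneg (a := ∏ r, ((y p r).choose (l0 r) : ℤ)) (by positivity),
        ← Finset.prod_pow_eq_pow_sum]
      gcongr with r
      exact_mod_cast Nat.choose_le_two_pow _ _
    have hE0 : E = 0 := by
      rw [hN0, mul_zero] at hEN
      exact (mul_eq_zero.1 hEN).resolve_left
        (mul_ne_zero hG' (Finset.prod_ne_zero_iff.2 fun r _ => pow_ne_zero _ (ha r)))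
    have hb' : ∀ r, (b r : ℚ) ≠ 0 := fun r => Int.cast_ne_zero.2 (hb r)
    apply mul_right_cancel₀ (b := ∏ r, (b r : ℚ) ^ (Z - l0 r))
      (Finset.prod_ne_zero_iff.2 fun r _ => pow_ne_zero _ (hb' r))
    rw [zero_mul, ← Int.cast_zero, ← hE0, hE, Finset.sum_mul]
    push_cast
    refine Finset.sum_congr rfl fun p hp => ?_
    rw [mul_assoc, ← Finset.prod_mul_distrib]
    congr 1
    refine Finset.prod_congr rfl fun r _ => ?_
    by_cases h2 : y p r < l0 r
    · rw [Nat.choose_eq_zero_of_lt h2]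
      simp
    · have h3 := hy p hp r
      have h4 := hb' r
      rw [show Z - l0 r = (y p r - l0 r) + (Z - y p r) by omega, pow_add, div_pow]
      field_simp
  intro be
  have h1 : sb (fun r => (a r : ℚ) / b r) wt be
      (∑ p ∈ P, MvPolynomial.monomial (Finsupp.equivFunOnFinite.symm (y p)) (lam p)) =
      ∑ l ∈ Fintype.piFinset fun _ : Fin n => range (Z + 1),
        C (∑ p ∈ P, (lam p : ℚ) * ∏ r, (((y p r).choose (l r) : ℚ) *
          ((a r : ℚ) / b r) ^ (y p r - l r))) * ∏ r, (C (be r) * X ^ wt r) ^ l r := by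
    simp_rw [map_sum, Finset.sum_mul]
    rw [Finset.sum_comm]
    refine Finset.sum_congr rfl fun p hp => ?_
    rw [sb, MvPolynomial.eval₂Hom_monomial, Finsupp.prod_fintype _ _ (fun _ => pow_zero _)]
    simp_rw [Finsupp.equivFunOnFinite_symm_apply_apply, fun r => vanish_add_pow
      (C ((a r : ℚ) / b r)) (C (be r) * X ^ wt r) (hy p hp r)]
    rw [Finset.prod_univ_sum, Finset.mul_sum]
    refine Finset.sum_congr rfl fun l _ => ?_
    rw [Finset.prod_mul_distrib, map_mul, map_prod, mul_assoc]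
    simp
  rw [h1]
  refine Finset.dvd_sum fun l _ => ?_
  by_cases h2 : ∑ r, wt r * l r < ω1
  · rw [main l h2, map_zero, zero_mul]
    exact dvd_zero _
  refine Dvd.dvd.mul_left ((pow_dvd_pow _ (not_lt.1 h2)).trans ?_) _
  rw [← Finset.prod_pow_eq_pow_sum]
  refine Finset.prod_dvd_prod_of_dvd _ _ fun r _ => ?_
  rw [pow_mul]
  exact pow_dvd_pow_of_dvd (Dvd.intro_left _ rfl) _

end Pool.Agent.P.MP_7aad9f_nt.Sub
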