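import Pool.Agent.P.MP_7aad9f_nt.SubTOP
import Pool.Agent.P.MP_7aad9f_nt.SubGREEDY
import Pool.Agent.P.MP_7aad9f_nt.SubSYLV
import Pool.Agent.P.MP_7aad9f_nt.SubTRI2
import Pool.Agent.P.MP_7aad9f_nt.SubORD
import Pool.Agent.P.MP_7aad9f_nt.SubSIZE
import Pool.Agent.P.MP_7aad9f_nt.SubBASE
import Pool.Agent.P.MP_7aad9f_nt.SubSIEGEL
import Pool.Agent.P.MP_7aad9f_nt.SubVANISH
import Pool.Agent.P.MP_7aad9f_nt.SubGENSEL
import Pool.Agent.P.MP_7aad9f_nt.SubPIGEON
import Pool.Agent.P.MP_7aad9f_nt.SubHEIGHT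
import Pool.Agent.P.MP_7aad9f_nt.SubARITH
import Pool.Agent.P.MP_7aad9f_nt.SubCORE
import Pool.Agent.P.MP_7aad9f_nt.SubMAIN

set_option autoImplicit false

namespace Pool.Agent.P.MP_7aad9f_nt.Sub

theorem zl_final : S_ZL := zl top greedy sylv tri2 ord1 ord2 size base

theorem core_final : S_CORE := core zl_final siegel vanish

theorem main_final : S_MAIN := main_of core_final gensel pigeon height mod_ tset omega_

end Pool.Agent.P.MP_7aad9f_nt.Sub
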