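import Pool.Agent.P.MP_7aad9f_nt.SubDefs

/-! The common factor of the monomials in the slab. -/

set_option autoImplicit false

namespace Pool.Agent.P.MP_7aad9f_nt.Sub

/-- The exponent of `ℓ`. -/
def height_f (a b ϑ : ℕ) {k : ℕ} (j0 Z : ℕ) (j : Fin k → ℕ) (x : ℕ) (z : Fin k → ℕ) (ℓ : ℕ) : ℕ :=
  x * a.factorization ℓ + (Z - x) * b.factorization ℓ +
    (∑ i, z i * (nu a b ϑ (j0 + j i) ℓ / ϑ) + (Z - ∑ i, z i) * (nu a b ϑ j0 ℓ / ϑ))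

theorem height_prod_left {a b : ℕ} (ha : 0 < a) (hb : 0 < b) :
    ∏ ℓ ∈ (a * b).primeFactors, ℓ ^ a.factorization ℓ = a := by
  conv_rhs => rw [← Nat.prod_factorization_pow_eq_self ha.ne']
  rw [Finsupp.prod]
  refine (Finset.prod_subset ?_ fun ℓ _ h => ?_).symm
  · rw [Nat.support_factorization]
    exact Nat.primeFactors_mono (dvd_mul_right a b) (Nat.mul_pos ha hb).ne'
  · rw [Finsupp.notMem_support_iff.1 h, pow_zero]

theorem height_prod_right {a b : ℕ} (ha : 0 < a) (hb : 0 < b) :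
    ∏ ℓ ∈ (a * b).primeFactors, ℓ ^ b.factorization ℓ = b := by
  rw [mul_comm, height_prod_left hb ha]

theorem height_factor {a b : ℕ} (ha : 0 < a) (hb : 0 < b) (ϑ : ℕ) {k : ℕ} (j0 t0 Z : ℕ)
    (j t : Fin k → ℕ) (x : ℕ) (z : Fin k → ℕ) :
    a ^ x * b ^ (Z - x) * ((∏ i, (t i * wj a b ϑ (j0 + j i)) ^ z i) *
      (t0 * wj a b ϑ j0) ^ (Z - ∑ i, z i)) =
    ((∏ i, t i ^ z i) * t0 ^ (Z - ∑ i, z i)) *
      ∏ ℓ ∈ (a * b).primeFactors, ℓ ^ height_f a b ϑ j0 Z j x z ℓ := by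
  have h1 : a ^ x = ∏ ℓ ∈ (a * b).primeFactors, ℓ ^ (x * a.factorization ℓ) := by
    conv_lhs => rw [← height_prod_left ha hb]
    rw [← Finset.prod_pow]
    exact Finset.prod_congr rfl fun ℓ _ => by rw [← pow_mul, mul_comm]
  have h2 : b ^ (Z - x) = ∏ ℓ ∈ (a * b).primeFactors, ℓ ^ ((Z - x) * b.factorization ℓ) := by
    conv_lhs => rw [← height_prod_right ha hb]
    rw [← Finset.prod_pow]
    exact Finset.prod_congr rfl fun ℓ _ => by rw [← pow_mul, mul_comm]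
  have h3 : ∀ s e : ℕ, wj a b ϑ s ^ e =
      ∏ ℓ ∈ (a * b).primeFactors, ℓ ^ (e * (nu a b ϑ s ℓ / ϑ)) := fun s e => by
    rw [wj, ← Finset.prod_pow]
    exact Finset.prod_congr rfl fun ℓ _ => by rw [← pow_mul, mul_comm]
  have h4 : ∏ i, wj a b ϑ (j0 + j i) ^ z i =
      ∏ ℓ ∈ (a * b).primeFactors, ℓ ^ (∑ i, z i * (nu a b ϑ (j0 + j i) ℓ / ϑ)) := by
    simp only [h3]
    rw [Finset.prod_comm]
    exact Finset.prod_congr rfl fun ℓ _ => Finset.prod_pow_eq_pow_sum _ _ _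
  simp only [height_f, pow_add, mul_pow, Finset.prod_mul_distrib]
  rw [← h1, ← h2, ← h4, ← h3]
  ring

theorem height_eq (a b : ℕ) {ϑ k j0 Z : ℕ} {j : Fin k → ℕ} (h0 : j0 ≤ ϑ) (hj : ∀ i, j0 + j i ≤ ϑ)
    {x : ℕ} {z : Fin k → ℕ} (hz : ∑ i, z i ≤ Z) (hx : x ≤ Z) (ℓ : ℕ) :
    (ϑ : ℤ) * height_f a b ϑ j0 Z j x z ℓ =
      a.factorization ℓ * ((ϑ * x + ∑ i, j i * z i : ℕ) + Z * j0) +
        b.factorization ℓ * (2 * ϑ * Z - (ϑ * x + ∑ i, j i * z i : ℕ) - Z * j0) -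
        Z * (nu a b ϑ j0 ℓ % ϑ : ℕ) -
        ∑ i, (z i : ℤ) * ((nu a b ϑ (j0 + j i) ℓ % ϑ : ℕ) - (nu a b ϑ j0 ℓ % ϑ : ℕ)) := by
  have e : ∀ s, s ≤ ϑ → (ϑ : ℤ) * (nu a b ϑ s ℓ / ϑ : ℕ) =
      s * a.factorization ℓ + (ϑ - s) * b.factorization ℓ - (nu a b ϑ s ℓ % ϑ : ℕ) := by
    intro s hs
    have h1 : ((ϑ * (nu a b ϑ s ℓ / ϑ) + nu a b ϑ s ℓ % ϑ : ℕ) : ℤ) = (nu a b ϑ s ℓ : ℕ) := by
      rw [Nat.div_add_mod]
    have h2 : ((nu a b ϑ s ℓ : ℕ) : ℤ) = s * a.factorization ℓ + (ϑ - s) * b.factorization ℓ := by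
      rw [nu, Nat.cast_add, Nat.cast_mul, Nat.cast_mul, Nat.cast_sub hs]
    rw [Nat.cast_add, Nat.cast_mul, h2] at h1
    linear_combination h1
  have e1 : (ϑ : ℤ) * ∑ i, (z i : ℤ) * (nu a b ϑ (j0 + j i) ℓ / ϑ : ℕ) =
      (∑ i, (z i : ℤ)) * (ϑ * (nu a b ϑ j0 ℓ / ϑ : ℕ)) +
        (∑ i, (j i : ℤ) * z i) * (a.factorization ℓ - b.factorization ℓ) -
        ∑ i, (z i : ℤ) * ((nu a b ϑ (j0 + j i) ℓ % ϑ : ℕ) - (nu a b ϑ j0 ℓ % ϑ : ℕ)) := by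
    rw [Finset.mul_sum, Finset.sum_mul, Finset.sum_mul, ← Finset.sum_add_distrib,
      ← Finset.sum_sub_distrib]
    refine Finset.sum_congr rfl fun i _ => ?_
    have h1 := e _ (hj i)
    rw [Nat.cast_add] at h1
    linear_combination (z i : ℤ) * h1 - (z i : ℤ) * e _ h0
  simp only [height_f, Nat.cast_add, Nat.cast_mul, Nat.cast_sub hz, Nat.cast_sub hx, Nat.cast_sum]
  linear_combination e1 + (Z : ℤ) * e _ h0

theorem height_rem {ϑ n k Z : ℕ} {z : Fin k → ℕ} (hz : ∑ i, z i ≤ Z) (r : Fin k → ℕ) (r0 : ℕ)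
    (h : ∀ i, n * r i ≤ n * r0 + ϑ ∧ n * r0 ≤ n * r i + ϑ) :
    |(n : ℤ) * ∑ i, (z i : ℤ) * ((r i : ℤ) - r0)| ≤ Z * ϑ := by
  rw [Finset.mul_sum]
  refine (Finset.abs_sum_le_sum_abs _ _).trans ?_
  have h1 : ∑ i, (z i : ℤ) * ϑ ≤ Z * ϑ := by
    rw [← Finset.sum_mul]
    exact mul_le_mul_of_nonneg_right (by exact_mod_cast hz) (Int.natCast_nonneg _)
  refine (Finset.sum_le_sum fun i _ => ?_).trans h1
  have h2 : (n : ℤ) * r i ≤ n * r0 + ϑ := by exact_mod_cast (h i).1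
  have h3 : (n : ℤ) * r0 ≤ n * r i + ϑ := by exact_mod_cast (h i).2
  rw [mul_left_comm, abs_mul, Nat.abs_cast]
  refine mul_le_mul_of_nonneg_left (abs_le.2 ⟨?_, ?_⟩) (Int.natCast_nonneg _)
  · linarith
  · linarith

theorem height_arith {ϑ n Z f f' u v W W' A B R R' : ℤ} (hϑ : 0 < ϑ) (hn : 0 < n) (hu : 0 ≤ u)
    (hv : 0 ≤ v) (h1 : ϑ * f = u * (W + A) + v * (B - W - A) - R)
    (h2 : ϑ * f' = u * (W' + A) + v * (B - W' - A) - R') (h3 : W - W' ≤ ϑ) (h4 : W' - W ≤ ϑ)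
    (h5 : n * (R' - R) ≤ 2 * Z * ϑ) : n * f ≤ n * f' + n * (u + v) + 2 * Z := by
  refine le_of_mul_le_mul_left ?_ hϑ
  have h6 := mul_le_mul_of_nonneg_left h3 (mul_nonneg hn.le hu)
  have h7 := mul_le_mul_of_nonneg_left h4 (mul_nonneg hn.le hv)
  have h8 : ϑ * (n * f) - ϑ * (n * f') = n * u * (W - W') + n * v * (W' - W) + n * (R' - R) := by
    linear_combination n * h1 - n * h2
  nlinarith

theorem height_pow_le {ℓ e s n Z : ℕ} (hℓ : 1 ≤ ℓ) (hn : 0 < n) (h : n * e ≤ n * s + 2 * Z) :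
    (ℓ : ℝ) ^ e ≤ (ℓ : ℝ) ^ s * Real.exp (2 * Z * Real.log ℓ / n) := by
  have h0 : (0 : ℝ) < ℓ := by exact_mod_cast hℓ
  have h1 : 0 ≤ Real.log ℓ := Real.log_natCast_nonneg ℓ
  have h2 : (0 : ℝ) < n := by exact_mod_cast hn
  have h3 : (n : ℝ) * e ≤ n * s + 2 * Z := by exact_mod_cast h
  rw [← Real.exp_log (pow_pos h0 e), ← Real.exp_log (pow_pos h0 s), ← Real.exp_add,
    Real.exp_le_exp, Real.log_pow, Real.log_pow, ← sub_le_iff_le_add', le_div_iff₀ h2]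
  nlinarith [mul_le_mul_of_nonneg_right h3 h1]

theorem height : S_HEIGHT := by
  intro a b ϑ n Y k j0 t0 Z j t ha hb hϑ hn h0 hj ht0 ht hr
  let V : ℕ → (Fin k → ℕ) → Prop := fun x z => ∑ i, z i ≤ Z ∧ x ≤ Z ∧
    ϑ * Z ≤ ϑ * x + ∑ i, j i * z i ∧ ϑ * x + ∑ i, j i * z i ≤ ϑ * (Z + 1)
  let L : ℕ → ℕ := fun ℓ => sInf {e | ∃ x z, V x z ∧ height_f a b ϑ j0 Z j x z ℓ = e}
  refine ⟨∏ ℓ ∈ (a * b).primeFactors, ℓ ^ L ℓ, fun m hm => ?_, fun x z hz hx h1 h2 => ?_⟩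
  · exact Nat.Coprime.prod_left fun ℓ hℓ =>
      (Nat.Coprime.coprime_dvd_left (Nat.dvd_of_mem_primeFactors hℓ) hm).pow_left _
  have hL : ∀ ℓ, L ℓ ≤ height_f a b ϑ j0 Z j x z ℓ := fun ℓ =>
    Nat.sInf_le ⟨x, z, ⟨hz, hx, h1, h2⟩, rfl⟩
  have hL' : ∀ ℓ ∈ (a * b).primeFactors, n * (height_f a b ϑ j0 Z j x z ℓ - L ℓ) ≤
      n * (a.factorization ℓ + b.factorization ℓ) + 2 * Z := by
    intro ℓ hℓ
    obtain ⟨x', z', ⟨hz', hx', h1', h2'⟩, h3⟩ : L ℓ ∈ {e | ∃ x z, V x z ∧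
      height_f a b ϑ j0 Z j x z ℓ = e} := Nat.sInf_mem ⟨_, x, z, ⟨hz, hx, h1, h2⟩, rfl⟩
    have e1 := height_eq a b h0 hj hz hx ℓ
    have e2 := height_eq a b h0 hj hz' hx' ℓ
    have r1 := abs_le.1 (height_rem hz _ _ (hr ℓ hℓ))
    have r2 := abs_le.1 (height_rem hz' _ _ (hr ℓ hℓ))
    rw [h3, sub_sub] at e2
    rw [sub_sub] at e1
    have h4 := height_arith (n := n) (Z := Z) (by exact_mod_cast hϑ) (by exact_mod_cast hn)
      (Int.natCast_nonneg _) (Int.natCast_nonneg _) e1 e2 (by zify at h1 h2 h1' h2' ⊢; linarith)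
      (by zify at h1 h2 h1' h2' ⊢; linarith) (by linarith [r1.1, r2.2])
    zify [hL ℓ]
    linarith
  refine ⟨((∏ i, t i ^ z i) * t0 ^ (Z - ∑ i, z i)) *
    ∏ ℓ ∈ (a * b).primeFactors, ℓ ^ (height_f a b ϑ j0 Z j x z ℓ - L ℓ), ?_, ?_⟩
  · rw [height_factor ha hb, mul_left_comm, ← Finset.prod_mul_distrib]
    congr 1
    exact Finset.prod_congr rfl fun ℓ _ => by rw [← pow_add, Nat.add_sub_cancel' (hL ℓ)]
  · have h3 : (∏ i, t i ^ z i) * t0 ^ (Z - ∑ i, z i) ≤ Y ^ Z := by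
      conv_rhs => rw [← Nat.add_sub_cancel' hz, pow_add, ← Finset.prod_pow_eq_pow_sum]
      exact Nat.mul_le_mul (Finset.prod_le_prod' fun i _ => Nat.pow_le_pow_left (ht i) _)
        (Nat.pow_le_pow_left ht0 _)
    have h4 : ∏ ℓ ∈ (a * b).primeFactors, (ℓ : ℝ) ^ (height_f a b ϑ j0 Z j x z ℓ - L ℓ) ≤
        ∏ ℓ ∈ (a * b).primeFactors, ((ℓ : ℝ) ^ (a.factorization ℓ + b.factorization ℓ) *
          Real.exp (2 * Z * Real.log ℓ / n)) :=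
      Finset.prod_le_prod (fun ℓ _ => by positivity) fun ℓ hℓ =>
        height_pow_le (Nat.pos_of_mem_primeFactors hℓ) hn (hL' ℓ hℓ)
    have h5 : ∏ ℓ ∈ (a * b).primeFactors, (ℓ : ℝ) ^ (a.factorization ℓ + b.factorization ℓ) =
        a * b := by
      simp only [pow_add, Finset.prod_mul_distrib]
      exact_mod_cast congrArg₂ (· * ·) (height_prod_left ha hb) (height_prod_right ha hb)
    have h6 : ∏ ℓ ∈ (a * b).primeFactors, Real.exp (2 * Z * Real.log ℓ / n) =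
        Real.exp (2 * Z * Real.log (rad (a * b)) / n) := by
      rw [← Real.exp_sum, rad, Nat.cast_prod, Real.log_prod fun ℓ hℓ => by
        exact_mod_cast (Nat.pos_of_mem_primeFactors hℓ).ne', Finset.mul_sum, Finset.sum_div]
    rw [Finset.prod_mul_distrib, h5, h6] at h4
    rw [Nat.cast_mul, mul_assoc, Nat.cast_prod]
    simp only [Nat.cast_pow]
    exact mul_le_mul (by exact_mod_cast h3) h4 (by positivity) (by positivity)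

end Pool.Agent.P.MP_7aad9f_nt.Sub
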