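import Pool.Agent.P.MP_7aad9f_nt.SubDefs

/-! The width of the Newton polytope of a repeated factor. -/

set_option autoImplicit false

namespace Pool.Agent.P.MP_7aad9f_nt.Sub

open MvPolynomial

theorem top_mul {n : ℕ} (l : (Fin n →₀ ℕ) →+ ℤ) (f h : MvPolynomial (Fin n) ℤ)
    {a b : Fin n →₀ ℕ} (ha : a ∈ f.support) (hb : b ∈ h.support) :
    ∃ d ∈ (f * h).support, l a + l b ≤ l d := by
  classical
  obtain ⟨a1, ha1, hA⟩ := f.support.exists_max_image l ⟨a, ha⟩
  obtain ⟨b1, hb1, hB⟩ := h.support.exists_max_image l ⟨b, hb⟩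
  obtain ⟨a0, ha0, b0, hb0, hu⟩ := UniqueSums.uniqueAdd_of_nonempty
    (A := f.support.filter fun x => l x = l a1) (B := h.support.filter fun x => l x = l b1)
    ⟨a1, by simp only [Finset.mem_filter, ha1, and_self]⟩
    ⟨b1, by simp only [Finset.mem_filter, hb1, and_self]⟩
  rw [Finset.mem_filter] at ha0 hb0
  refine ⟨a0 + b0, ?_, ?_⟩
  · rw [mem_support_iff, coeff_mul, Finset.sum_eq_single (a0, b0)]
    · exact mul_ne_zero (mem_support_iff.1 ha0.1) (mem_support_iff.1 hb0.1)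
    · rintro ⟨x, y⟩ hxy hne
      by_contra hc
      have hx : x ∈ f.support := mem_support_iff.2 (left_ne_zero_of_mul hc)
      have hy : y ∈ h.support := mem_support_iff.2 (right_ne_zero_of_mul hc)
      have e : x + y = a0 + b0 := by simpa using hxy
      have e2 := congrArg l e
      rw [map_add, map_add, ha0.2, hb0.2] at e2
      have h1 := hA x hx
      have h2 := hB y hy
      obtain ⟨rfl, rfl⟩ := hu (Finset.mem_filter.2 ⟨hx, by linarith⟩)
        (Finset.mem_filter.2 ⟨hy, by linarith⟩) e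
      exact hne rfl
    · intro hc
      exact absurd (by simp) hc
  · rw [map_add, ha0.2, hb0.2]
    exact add_le_add (hA a ha) (hB b hb)

theorem top_pow {n : ℕ} (l : (Fin n →₀ ℕ) →+ ℤ) (Q H : MvPolynomial (Fin n) ℤ)
    {a b : Fin n →₀ ℕ} (ha : a ∈ Q.support) (hb : b ∈ H.support) (e : ℕ) :
    ∃ d ∈ (Q ^ e * H).support, e * l a + l b ≤ l d := by
  induction e with
  | zero => exact ⟨b, by simpa using hb, by simp⟩
  | succ e ih =>
    obtain ⟨d, hd, h1⟩ := ih
    obtain ⟨d', hd', h2⟩ := top_mul l Q (Q ^ e * H) ha hd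
    refine ⟨d', by rwa [pow_succ', mul_assoc], ?_⟩
    push_cast
    linarith

theorem top_width {n : ℕ} (l : (Fin n →₀ ℕ) →+ ℤ) (Q H : MvPolynomial (Fin n) ℤ) (e : ℕ)
    (lo Z : ℤ) (hH : H ≠ 0) (hF : ∀ d ∈ (Q ^ e * H).support, lo ≤ l d ∧ l d ≤ lo + Z)
    {a a' : Fin n →₀ ℕ} (ha : a ∈ Q.support) (ha' : a' ∈ Q.support) :
    e * (l a - l a') ≤ Z := by
  obtain ⟨b, hb⟩ := support_nonempty.2 hH
  obtain ⟨d, hd, h1⟩ := top_pow l Q H ha hb e
  obtain ⟨d', hd', h2⟩ := top_pow (-l) Q H ha' hb e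
  have h3 := (hF d hd).2
  have h4 := (hF d' hd').1
  simp only [AddMonoidHom.neg_apply] at h2
  linarith

theorem top_abs {x Z e D : ℤ} (he : 0 < e) (hZ : Z ≤ e * D) (h1 : e * x ≤ Z)
    (h2 : e * -x ≤ Z) : |x| ≤ D := by
  rw [abs_le]
  constructor
  · have := le_of_mul_le_mul_left (h2.trans hZ) he
    linarith
  · exact le_of_mul_le_mul_left (h1.trans hZ) he

theorem top : S_TOP := by
  intro n g lo Z D e α F Q hZ hF hS hG hα hQ hdvd
  obtain ⟨H, rfl⟩ := hdvd
  rcases Nat.eq_zero_or_pos e with rfl | he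
  · omega
  have hH : H ≠ 0 := right_ne_zero_of_mul hF
  have hQ0 : Q ≠ 0 := fun h => hF (by rw [h, zero_pow he.ne', zero_mul])
  obtain ⟨a, ha⟩ := support_nonempty.2 hQ0
  have hex : ∃ a' ∈ Q.support, a' ≠ a := by
    by_contra hc
    push Not at hc
    have hs : Q.support = {a} := Finset.eq_singleton_iff_unique_mem.2 ⟨ha, hc⟩
    have h1 : Q = monomial a (Q.coeff a) := by
      conv_lhs => rw [Q.as_sum, hs, Finset.sum_singleton]
    rw [h1, evl, eval₂Hom_monomial] at hQ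
    refine mul_ne_zero ?_ ?_ hQ
    · simpa using mem_support_iff.1 ha
    · exact Finset.prod_ne_zero_iff.2 fun r _ => pow_ne_zero _ (hα r)
  obtain ⟨a', ha', hne⟩ := hex
  by_contra hc
  have hZD : (Z : ℤ) ≤ e * D := by exact_mod_cast not_lt.1 hc
  have he' : (0 : ℤ) < e := by exact_mod_cast he
  have key : ∀ (l : (Fin n →₀ ℕ) →+ ℤ) (lo : ℤ),
      (∀ d ∈ (Q ^ e * H).support, lo ≤ l d ∧ l d ≤ lo + Z) → |l a - l a'| ≤ D := by
    intro l lo hl
    refine top_abs he' hZD (top_width l Q H e lo Z hH hl ha ha') ?_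
    rw [neg_sub]
    exact top_width l Q H e lo Z hH hl ha' ha
  let co : Fin n → (Fin n →₀ ℕ) →+ ℤ := fun r =>
    { toFun := fun d => (d r : ℤ), map_zero' := by simp, map_add' := by simp }
  let sl : (Fin n →₀ ℕ) →+ ℤ :=
    { toFun := fun d => ∑ r, (g r : ℤ) * d r
      map_zero' := by simp
      map_add' := by simp [mul_add, Finset.sum_add_distrib] }
  have h1 := hG (fun r => (a r : ℤ) - a' r) (fun h0 => hne (Finsupp.ext fun r => by
    have := congrFun h0 r
    simp only [Pi.zero_apply] at this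
    omega)) (fun r => key (co r) 0 fun d hd => ⟨Int.natCast_nonneg _, by
      have := (hS d hd).1 r
      simp only [co, AddMonoidHom.coe_mk, ZeroHom.coe_mk]
      omega⟩)
  have h2 := key sl lo fun d hd => (hS d hd).2
  simp only [sl, AddMonoidHom.coe_mk, ZeroHom.coe_mk] at h2
  simp only [mul_sub, Finset.sum_sub_distrib] at h1
  exact absurd h2 (not_le.2 h1)

end Pool.Agent.P.MP_7aad9f_nt.Sub
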