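import Pool.Agent.P.MP_7aad9f_nt.SubDefs

/-! Triangular changes of coefficient determinants. -/

set_option autoImplicit false

open Polynomial

namespace Pool.Agent.P.MP_7aad9f_nt.Sub

theorem tri_common {R : Type} [CommRing R] {N : ℕ} (q : Fin N → R[X])
    (hq : ∀ ρ, (q ρ).natDegree < N) (L : R[X] →ₗ[R] R[X]) (g : ℕ) (lam : R)
    (h0 : ∀ c c' : ℕ, c < c' → (L (X ^ c)).coeff (c' + g) = 0)
    (h1 : ∀ c : ℕ, (L (X ^ c)).coeff (c + g) = lam) :
    (Matrix.of fun (ρ c : Fin N) => (L (q ρ)).coeff (c + g)).det =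
      lam ^ N * (Matrix.of fun (ρ c : Fin N) => (q ρ).coeff c).det := by
  have hm : (Matrix.of fun (ρ c : Fin N) => (L (q ρ)).coeff (c + g)) =
      (Matrix.of fun (ρ c : Fin N) => (q ρ).coeff c) *
        Matrix.of fun (c c' : Fin N) => (L (X ^ (c : ℕ))).coeff (c' + g) := by
    ext ρ c'
    rw [Matrix.mul_apply, Matrix.of_apply]
    conv_lhs => rw [(q ρ).as_sum_range' N (hq ρ)]
    rw [map_sum, finsetSum_coeff, ← Fin.sum_univ_eq_sum_range
      (fun c => (L (monomial c ((q ρ).coeff c))).coeff (c' + g)) N]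
    refine Finset.sum_congr rfl fun c _ => ?_
    rw [← smul_X_eq_monomial, map_smul, coeff_smul, smul_eq_mul, Matrix.of_apply,
      Matrix.of_apply]
  rw [hm, Matrix.det_mul, mul_comm]
  congr 1
  rw [Matrix.det_of_isLowerTriangular]
  · simp [h1]
  · intro c c' h
    exact h0 c c' h

theorem tri : S_TRI := by
  intro R _ N q hq
  refine ⟨fun G => ?_, fun v => ?_⟩
  · refine tri_common q hq (LinearMap.mulLeft R G) G.natDegree G.leadingCoeff
      (fun c c' h => ?_) fun c => ?_
    · rw [LinearMap.mulLeft_apply, coeff_mul_X_pow', if_pos (by omega)]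
      exact coeff_eq_zero_of_natDegree_lt (by omega)
    · rw [LinearMap.mulLeft_apply, add_comm, coeff_mul_X_pow]
      rfl
  · have := tri_common q hq (taylor v) 0 1 (fun c c' h => ?_) fun c => ?_
    · simpa using this
    · rw [taylor_X_pow, coeff_X_add_C_pow, add_zero, Nat.choose_eq_zero_of_lt h]
      simp
    · rw [taylor_X_pow, coeff_X_add_C_pow]
      simp

end Pool.Agent.P.MP_7aad9f_nt.Sub
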