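import Pool.Agent.P.MP_7aad9f_nt.SubDefs

set_option autoImplicit false

open Polynomial

namespace Pool.Agent.P.MP_7aad9f_nt.Sub

lemma zl_ord_mono {n : ℕ} {α : Fin n → ℚ} {wt : Fin n → ℕ} {m m' : ℕ}
    {F : MvPolynomial (Fin n) ℤ} (h : Ord α wt m F) (hm : m' ≤ m) : Ord α wt m' F :=
  fun b => (pow_dvd_pow _ hm).trans (h b)

lemma zl_ord_mul {n : ℕ} {α : Fin n → ℚ} {wt : Fin n → ℕ} {m : ℕ}
    {F : MvPolynomial (Fin n) ℤ} (G : MvPolynomial (Fin n) ℤ) (h : Ord α wt m F) :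
    Ord α wt m (G * F) := fun b => by
  rw [map_mul]; exact (h b).mul_left _

lemma zl_gen_mono {n D D' : ℕ} {g : Fin n → ℕ} (h : Gen D g) (hD : D' ≤ D) : Gen D' g := by
  intro c hc hb
  have h1 : (D' : ℤ) ≤ D := by exact_mod_cast hD
  exact lt_of_le_of_lt h1 (h c hc fun r => (hb r).trans h1)

lemma zl_gen_tail {n D : ℕ} {g : Fin (n + 1) → ℕ} (h : Gen D g) : Gen D (Fin.tail g) := by
  intro c hc hb
  have := h (Fin.cons 0 c) (by
    intro h0
    apply hc
    funext r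
    have := congrFun h0 r.succ
    simpa using this) (by
    intro r
    refine Fin.cases ?_ (fun r => ?_) r
    · simp
    · simpa using hb r)
  rw [Fin.sum_univ_succ] at this
  simpa [Fin.tail] using this

lemma zl_det_dvd {R : Type} [CommRing R] {N : ℕ} (M : Matrix (Fin N) (Fin N) R) (d : Fin N → R)
    (h : ∀ ρ c, d c ∣ M ρ c) : (∏ c, d c) ∣ M.det := by
  rw [Matrix.det_apply]
  refine Finset.dvd_sum fun σ _ => ?_
  rw [Units.smul_def, zsmul_eq_mul]
  exact Dvd.dvd.mul_left (Finset.prod_dvd_prod_of_dvd _ _ fun c _ => h _ c) _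

lemma zl_elim (hTOP : S_TOP) (hGREEDY : S_GREEDY) (hSYLV : S_SYLV) (hTRI : S_TRI)
    (hORD1 : S_ORD1) (hORD2 : S_ORD2) (hSIZE : S_SIZE)
    {n : ℕ} (α : Fin (n + 1) → ℚ) (wt g : Fin (n + 1) → ℕ) (lo : ℤ) (Z D m m' : ℕ)
    (F : MvPolynomial (Fin (n + 1)) ℤ) (hα : ∀ r, α r ≠ 0) (hw0 : wt 0 = 1)
    (hw : ∀ r, 0 < wt r) (hG : Gen D g) (hZ : 1 ≤ Z) (hF : F ≠ 0) (hS : Supp g lo Z F)
    (hm : ∀ e : ℕ, e * D < Z → m' + e ≤ m) (hO : Ord α wt m F) :
    ∃ (N : ℕ) (R : MvPolynomial (Fin n) ℤ) (lo' : ℤ), 0 < N ∧ N ≤ 2 * Z + 1 ∧ R ≠ 0 ∧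
      Supp (Fin.tail g) lo' (N * Z) R ∧ nrm R ≤ N.factorial * (8 ^ Z * nrm F) ^ N ∧
      Ord (Fin.tail α) (Fin.tail wt) (∑ c : Fin N, (m' - c)) R := by
  classical
  set E := MvPolynomial.finSuccEquiv ℤ n with hE
  set P := E F with hP
  have hFP : E.symm P = F := by simp [hP]
  have hP0 : P ≠ 0 := by
    intro h
    apply hF
    rw [← hFP, h, map_zero]
  let ev : (MvPolynomial (Fin n) ℤ)[X] →+* ℚ := (evl α).comp (E.symm : _ →+* _)
  have hev : ∀ Q, ev Q = evl α (E.symm Q) := fun Q => rfl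
  have hXs : E.symm X = MvPolynomial.X 0 := by
    rw [AlgEquiv.symm_apply_eq, hE, MvPolynomial.finSuccEquiv_X_zero]
  have hevX : ev X ≠ 0 := by
    rw [hev, hXs]
    simpa [evl] using hα 0
  have hdeg : P.natDegree ≤ Z := by
    rw [hP, hE, MvPolynomial.natDegree_finSuccEquiv, MvPolynomial.degreeOf_le_iff]
    intro d hd
    exact (hS d hd).1 0
  have hm0 : m' ≤ m := by simpa using hm 0 (by omega)
  obtain ⟨F₂, hspan, hcoef, hcop⟩ := hGREEDY _ P ev (m - m' + 1) hP0 hevX (by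
    intro Q _ _ hQ0 e he
    have h1 : (E.symm Q) ^ e ∣ F := by
      rw [← hFP, ← map_pow]
      exact map_dvd _ he
    have := hm e (hTOP _ g lo Z D e α F _ hZ hF hS hG hα hQ0 h1)
    omega)
  have hO1 : Ord α wt m' (E.symm P) := by
    rw [hFP]; exact zl_ord_mono hO hm0
  have hO2 : Ord α wt m' (E.symm F₂) := by
    clear hcoef hcop
    induction hspan using Submodule.span_induction with
    | mem x hx =>
      obtain ⟨e, he, rfl⟩ := hx
      rw [map_mul]
      refine zl_ord_mul _ (zl_ord_mono ((hORD1 n α wt m hw0 P (hFP ▸ hO)).1 e) (by omega))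
    | zero => intro b; simp
    | add x y _ _ hx hy =>
      intro b
      rw [map_add, map_add]
      exact dvd_add (hx b) (hy b)
    | smul a x _ hx =>
      intro b
      rw [map_zsmul, map_zsmul, zsmul_eq_mul]
      exact (hx b).mul_left _
  have hdeg2 : F₂.natDegree ≤ Z := by
    rw [natDegree_le_iff_coeff_eq_zero]
    intro i hi
    obtain ⟨κ, -, hκ⟩ := hcoef i
    rw [hκ, coeff_eq_zero_of_natDegree_lt (lt_of_le_of_lt hdeg hi), smul_zero]
  obtain ⟨N, G, q, r, hN0, hN, hG0, hqd, hq, hdet⟩ := hSYLV _ P F₂ ev hP0 hcop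
  have hGne : G ≠ 0 := by
    intro h
    apply hG0
    rw [h, map_zero]
  obtain ⟨hT1, -⟩ := hTRI _ N q hqd
  have hqO : ∀ ρ, Ord α wt m' (E.symm (q ρ)) := by
    intro ρ
    refine hORD2 _ α wt m' hw (E.symm G) _ hG0 ?_
    rw [← map_mul]
    rcases hq ρ with h | h
    · rw [h, map_mul]; exact zl_ord_mul _ hO1
    · rw [h, map_mul]; exact zl_ord_mul _ hO2
  have h8 : (8 : ℤ) ^ P.natDegree ≤ ((8 ^ Z : ℕ) : ℤ) := by
    push_cast
    exact pow_le_pow_right₀ (by norm_num) hdeg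
  obtain ⟨⟨lo', hS'⟩, hn'⟩ := hSIZE n g lo Z F N (8 ^ Z) G.natDegree r
    (Matrix.of fun (ρ c : Fin N) => (G * q ρ).coeff (c + G.natDegree)) hS (by
      intro ρ c
      by_cases hle : r ρ ≤ c + G.natDegree
      · right
        rcases hq ρ with h | h
        · refine ⟨1, c + G.natDegree - r ρ, ?_, by omega, ?_⟩
          · have : (1 : ℤ) ≤ 8 ^ P.natDegree := one_le_pow₀ (by norm_num)
            simpa using this.trans h8
          · rw [Matrix.of_apply, h, coeff_X_pow_mul', if_pos hle, one_smul]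
        · obtain ⟨κ, hκ, hκ'⟩ := hcoef (c + G.natDegree - r ρ)
          refine ⟨κ, c + G.natDegree - r ρ, hκ.trans h8, by omega, ?_⟩
          rw [Matrix.of_apply, h, coeff_X_pow_mul', if_pos hle, hκ']
      · left
        rcases hq ρ with h | h
        · rw [Matrix.of_apply, h, coeff_X_pow_mul', if_neg hle]
        · rw [Matrix.of_apply, h, coeff_X_pow_mul', if_neg hle])
  refine ⟨N, _, lo', hN0, by omega, ?_, hS', hn', ?_⟩
  · rw [hT1 G]
    exact mul_ne_zero (pow_ne_zero _ (leadingCoeff_ne_zero.mpr hGne)) hdet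
  · rw [hT1 G]
    refine zl_ord_mul _ ?_
    intro b
    set φ := sb (Fin.tail α) (Fin.tail wt) b with hφ
    have h1 : φ (Matrix.of fun (ρ c : Fin N) => (q ρ).coeff c).det =
        (Matrix.of fun (ρ c : Fin N) => ((q ρ).map φ).coeff c).det := by
      rw [RingHom.map_det]
      congr 1
      ext ρ c : 2
      simp [coeff_map]
    rw [h1, ← (hTRI _ N (fun ρ => (q ρ).map φ)
      (fun ρ => lt_of_le_of_lt natDegree_map_le (hqd ρ))).2 (C (α 0)),
      ← Finset.prod_pow_eq_pow_sum]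
    refine zl_det_dvd _ _ fun ρ c => ?_
    exact (hORD1 n α wt m' hw0 (q ρ) (hqO ρ)).2 b c

lemma zl_sum_lb (N m' : ℕ) : min N m' * m' ≤ 2 * ∑ c : Fin N, (m' - c) := by
  rw [Fin.sum_univ_eq_sum_range (fun c => m' - c) N]
  have h1 : ∀ t, t ≤ m' → t * m' ≤ 2 * ∑ c ∈ Finset.range t, (m' - c) := by
    intro t
    have h2 : ∀ t, t ≤ m' → 2 * t * m' + t = 2 * ∑ c ∈ Finset.range t, (m' - c) + t * t := by
      intro t
      induction t with
      | zero => simp
      | succ t ih =>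
        intro ht
        rw [Finset.sum_range_succ]
        have := ih (by omega)
        obtain ⟨s, rfl⟩ : ∃ s, m' = t + s := ⟨m' - t, by omega⟩
        rw [Nat.add_sub_cancel_left]
        nlinarith
    intro ht
    have := h2 t ht
    nlinarith [Nat.mul_le_mul_left t ht]
  refine (h1 _ (min_le_right _ _)).trans (Nat.mul_le_mul_left _ ?_)
  exact Finset.sum_le_sum_of_subset (Finset.range_mono (min_le_left _ _))

theorem zl (hTOP : S_TOP) (hGREEDY : S_GREEDY) (hSYLV : S_SYLV) (hTRI : S_TRI)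
    (hORD1 : S_ORD1) (hORD2 : S_ORD2) (hSIZE : S_SIZE) (hBASE : S_BASE) : S_ZL := by
  intro k
  induction k with
  | zero =>
    intro ε C hε _ hC
    refine ⟨0, C / ε + 1, ?_⟩
    intro α wt g lo Z m F _ _ hw _ hμ hZ hF _ hn hm hO
    have hl : Fin.last 0 = 0 := rfl
    rw [hl] at hw hμ
    obtain ⟨e, he1, he2⟩ := hBASE α wt m F hw hF hO
    have hden : (0 : ℝ) < (α 0).den := by exact_mod_cast (α 0).den_pos
    have h1 : (e : ℝ) * Real.log (α 0).den ≤ C * Z := by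
      rw [← Real.log_pow, Real.log_le_iff_le_exp (by positivity)]
      refine le_trans ?_ hn
      exact_mod_cast he2
    have h2 : (m : ℝ) ≤ e * wt 0 := by exact_mod_cast he1
    have hZ' : (1 : ℝ) ≤ Z := by exact_mod_cast hZ
    have h3 : (0 : ℝ) ≤ C / ε + 1 := by positivity
    have h4 : (C / ε + 1) * (ε * Z) ≤ C * Z := by
      calc (C / ε + 1) * (ε * Z) ≤ (C / ε + 1) * (e * wt 0) := mul_le_mul_of_nonneg_left (hm.trans h2) h3
        _ = e * ((C / ε + 1) * wt 0) := by ring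
        _ ≤ e * Real.log (α 0).den := by gcongr
        _ ≤ C * Z := h1
    have h5 : (C / ε + 1) * (ε * Z) = C * Z + ε * Z := by field_simp
    nlinarith [mul_pos hε (lt_of_lt_of_le one_pos hZ')]
  | succ k ih =>
    intro ε C hε hε1 hC
    obtain ⟨D', μ0, H⟩ := ih (ε ^ 2 / 24) (C + 6) (by positivity) (by nlinarith) (by positivity)
    refine ⟨max D' ⌈2 / ε⌉₊, μ0, ?_⟩
    intro α wt g lo Z m F hα hw1 hwl hG hμ hZ hF hS hn hm hO
    have hZ' : (1 : ℝ) ≤ Z := by exact_mod_cast hZ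
    set m' := ⌈ε * Z / 2⌉₊ with hm'
    have hm'1 : ε * Z / 2 ≤ m' := Nat.le_ceil _
    have hm'2 : m' ≤ Z := by
      rw [hm', Nat.ceil_le]
      nlinarith
    have hw : ∀ r, 0 < wt r := by
      intro r
      refine Fin.lastCases hwl (fun i => ?_) r
      rw [hw1 i]; exact one_pos
    obtain ⟨N, R, lo', hN0, hN, hR, hS', hn', hO'⟩ := zl_elim hTOP hGREEDY hSYLV hTRI hORD1 hORD2
      hSIZE α wt g lo Z (max D' ⌈2 / ε⌉₊) m m' F hα (hw1 0) hw hG hZ hF hS (by
        intro e he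
        have h1 : (e : ℝ) * (2 / ε) < Z := by
          have h2 : (2 / ε : ℝ) ≤ ((max D' ⌈2 / ε⌉₊ : ℕ) : ℝ) :=
            (Nat.le_ceil _).trans (by exact_mod_cast le_max_right _ _)
          have h3 : (e : ℝ) * ((max D' ⌈2 / ε⌉₊ : ℕ) : ℝ) < Z := by exact_mod_cast he
          exact lt_of_le_of_lt (by gcongr) h3
        have h4 : (e : ℝ) < ε * Z / 2 := by
          rw [← mul_div_assoc, div_lt_iff₀ hε] at h1
          linarith
        have h5 : (e : ℝ) ≤ m := by linarith [mul_nonneg hε.le (le_trans zero_le_one hZ')]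
        have h6 : e ≤ m := by exact_mod_cast h5
        have h7 : m' ≤ m - e := by
          rw [hm', Nat.ceil_le, Nat.cast_sub h6]
          linarith
        omega) hO
    have hN' : (N : ℝ) ≤ 3 * Z := by
      have : N ≤ 3 * Z := by omega
      exact_mod_cast this
    have hN1 : (1 : ℝ) ≤ N := by exact_mod_cast hN0
    refine H (Fin.tail α) (Fin.tail wt) (Fin.tail g) lo' (N * Z) _ R (fun r => hα _)
      (fun i => ?_) ?_ (zl_gen_tail (zl_gen_mono hG (le_max_left _ _))) ?_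
      (Nat.mul_pos hN0 hZ) hR hS' ?_ ?_ hO'
    · have := hw1 i.succ
      rwa [← Fin.succ_castSucc] at this
    · simpa [Fin.tail] using hwl
    · simpa [Fin.tail] using hμ
    · have h1 : (nrm R : ℝ) ≤ (N.factorial : ℝ) * (8 ^ Z * nrm F) ^ N := by exact_mod_cast hn'
      have h2 : (N.factorial : ℝ) ≤ Real.exp (3 * Z) ^ N := by
        have h3 : (N.factorial : ℝ) ≤ (N : ℝ) ^ N := by exact_mod_cast Nat.factorial_le_pow N
        refine h3.trans (pow_le_pow_left₀ (by positivity) ?_ _)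
        linarith [Real.add_one_le_exp (3 * (Z : ℝ))]
      have h4 : (8 : ℝ) ^ Z ≤ Real.exp (3 * Z) := by
        rw [mul_comm, Real.exp_nat_mul]
        refine pow_le_pow_left₀ (by norm_num) ?_ _
        have h5 : (2 : ℝ) ≤ Real.exp 1 := by linarith [Real.add_one_le_exp (1 : ℝ)]
        have h6 : Real.exp 3 = Real.exp 1 ^ 3 := by rw [← Real.exp_nat_mul]; norm_num
        rw [h6]
        calc (8 : ℝ) = 2 ^ 3 := by norm_num
          _ ≤ _ := by gcongr
      calc (nrm R : ℝ) ≤ (N.factorial : ℝ) * (8 ^ Z * nrm F) ^ N := h1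
        _ ≤ Real.exp (3 * Z) ^ N * (Real.exp (3 * Z) * Real.exp (C * Z)) ^ N := by gcongr
        _ = Real.exp ((C + 6) * ((N * Z : ℕ) : ℝ)) := by
          rw [← mul_pow, ← Real.exp_add, ← Real.exp_add, ← Real.exp_nat_mul]
          congr 1
          push_cast
          ring
    · have h1 : ((min N m' : ℕ) : ℝ) * m' ≤ 2 * ((∑ c : Fin N, (m' - c) : ℕ) : ℝ) := by
        exact_mod_cast zl_sum_lb N m'
      have hm'3 : (m' : ℝ) ≤ Z := by exact_mod_cast hm'2
      have hm'0 : (0 : ℝ) ≤ m' := by positivity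
      have h2 : (N : ℝ) * m' ≤ 3 * Z * ((min N m' : ℕ) : ℝ) := by
        rcases le_total N m' with h | h
        · rw [min_eq_left h]; nlinarith
        · rw [min_eq_right h]; nlinarith
      have h3 : (N : ℝ) * (ε * Z / 2) ^ 2 ≤ N * (m' : ℝ) ^ 2 := by gcongr
      have h4 : (N : ℝ) * (m' : ℝ) ^ 2 ≤ 6 * Z * ((∑ c : Fin N, (m' - c) : ℕ) : ℝ) := by
        calc (N : ℝ) * (m' : ℝ) ^ 2 = (N * m') * m' := by ring
          _ ≤ (3 * Z * ((min N m' : ℕ) : ℝ)) * m' := by gcongr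
          _ = 3 * Z * (((min N m' : ℕ) : ℝ) * m') := by ring
          _ ≤ 3 * Z * (2 * ((∑ c : Fin N, (m' - c) : ℕ) : ℝ)) := by gcongr
          _ = _ := by ring
      have h5 : Z * (ε ^ 2 / 24 * ((N * Z : ℕ) : ℝ)) ≤ Z * ((∑ c : Fin N, (m' - c) : ℕ) : ℝ) := by
        push_cast at h4 ⊢
        nlinarith
      exact le_of_mul_le_mul_left h5 (by linarith)

end Pool.Agent.P.MP_7aad9f_nt.Sub
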