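import Pool.Agent.P.MP_7aad9f_nt.Mertens

set_option autoImplicit false

open Real Finset

noncomputable section

namespace Pool.Agent.P.MP_7aad9f_nt

lemma triple_aux (N : ℕ) (a : Nat.primesLE N → ℤ) (ha : a ≠ 0) (r η : ℝ)
    (h0 : 0 ≤ ∑ j, (a j : ℝ) * log (j : ℕ)) (h1 : ∑ j : Nat.primesLE N, log (j : ℕ) * |(a j : ℝ)| ≤ r)
    (h2 : ∑ j, (a j : ℝ) * log (j : ℕ) ≤ η) :
    ∃ x y z : ℕ, 0 < x ∧ 0 < y ∧ Nat.Coprime x y ∧ x + y = z ∧ 1 ≤ η * z ∧
      log z ≤ (r + η) / 2 ∧ ((∏ p ∈ (x * y * z).primeFactors, p : ℕ) : ℝ) ≤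
        η * z * exp (∑ p ∈ Nat.primesLE N, log p) := by
  have hp : ∀ j : Nat.primesLE N, (j : ℕ).Prime := fun j => Nat.prime_of_mem_primesLE j.2
  have hpos : ∀ e : Nat.primesLE N → ℕ, 0 < ∏ j : Nat.primesLE N, (j : ℕ) ^ e j :=
    fun e => prod_pos fun j _ => pow_pos (hp j).pos _
  have hlog : ∀ e : Nat.primesLE N → ℕ, log ((∏ j : Nat.primesLE N, (j : ℕ) ^ e j : ℕ) : ℝ) =
      ∑ j, (e j : ℝ) * log (j : ℕ) := by
    intro e
    push_cast
    rw [log_prod fun j _ => pow_ne_zero _ (by exact_mod_cast (hp j).ne_zero)]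
    simp only [log_pow]
  have hpf : ∀ e : Nat.primesLE N → ℕ,
      (∏ j : Nat.primesLE N, (j : ℕ) ^ e j).primeFactors ⊆ Nat.primesLE N := by
    intro e p hpp
    have hp' := Nat.prime_of_mem_primeFactors hpp
    obtain ⟨j, -, hj⟩ := (Prime.dvd_finsetProd_iff hp'.prime _).1 (Nat.dvd_of_mem_primeFactors hpp)
    rw [(Nat.prime_dvd_prime_iff_eq hp' (hp j)).1 (hp'.dvd_of_dvd_pow hj)]
    exact j.2
  set z := ∏ j : Nat.primesLE N, (j : ℕ) ^ (a j).toNat with hz
  set y := ∏ j : Nat.primesLE N, (j : ℕ) ^ (-a j).toNat with hy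
  have hz0 : 0 < z := hpos _
  have hy0 : 0 < y := hpos _
  have hz' : (0 : ℝ) < z := by exact_mod_cast hz0
  have hy' : (0 : ℝ) < y := by exact_mod_cast hy0
  have hsub : log z - log y = ∑ j, (a j : ℝ) * log (j : ℕ) := by
    rw [hz, hy, hlog, hlog, ← sum_sub_distrib]
    refine sum_congr rfl fun j _ => ?_
    rw [← sub_mul]
    congr 1
    exact_mod_cast Int.toNat_sub_toNat_neg (a j)
  have hadd : log z + log y = ∑ j : Nat.primesLE N, log (j : ℕ) * |(a j : ℝ)| := by
    rw [hz, hy, hlog, hlog, ← sum_add_distrib]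
    refine sum_congr rfl fun j _ => ?_
    rw [← add_mul, mul_comm, ← Int.cast_abs, ← Nat.cast_natAbs]
    congr 1
    exact_mod_cast Int.toNat_add_toNat_neg_eq_natAbs (a j)
  have hcop : Nat.Coprime z y := by
    refine Nat.Coprime.prod_left fun i _ => Nat.Coprime.prod_right fun j _ => ?_
    by_cases hij : i = j
    · subst hij
      rcases le_total (a i) 0 with h | h
      · rw [Int.toNat_eq_zero.2 h]; simp
      · rw [Int.toNat_eq_zero.2 (neg_nonpos.2 h)]; simp
    · exact Nat.coprime_pow_primes _ _ (hp i) (hp j) fun h => hij (Subtype.ext h)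
  have hle : y ≤ z := by
    have : log y ≤ log z := by linarith
    exact_mod_cast (log_le_log_iff hy' hz').1 this
  have hne : y ≠ z := by
    intro h
    have h3 : z = 1 := by rwa [h, Nat.coprime_self] at hcop
    rw [h, h3] at hadd
    simp only [Nat.cast_one, log_one, add_zero] at hadd
    have h4 := (sum_eq_zero_iff_of_nonneg fun j _ => by positivity).1 hadd.symm
    refine ha (funext fun j => ?_)
    have h5 : 0 < log ((j : ℕ) : ℝ) := log_pos (by exact_mod_cast (hp j).one_lt)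
    have h6 := (mul_eq_zero.1 (h4 j (mem_univ _))).resolve_left h5.ne'
    exact_mod_cast abs_eq_zero.1 h6
  have hx0 : 0 < z - y := Nat.sub_pos_of_lt (lt_of_le_of_ne hle hne)
  have hx : ((z - y : ℕ) : ℝ) ≤ η * z := by
    have h3 := one_sub_inv_le_log_of_pos (x := (z : ℝ) / y) (by positivity)
    rw [log_div hz'.ne' hy'.ne', inv_div] at h3
    rw [Nat.cast_sub hle, ← div_le_iff₀ hz', sub_div, div_self hz'.ne']
    linarith
  refine ⟨z - y, y, z, hx0, hy0, (Nat.coprime_sub_self_left hle).2 hcop, by omega,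
    le_trans (by exact_mod_cast hx0) hx, by linarith, ?_⟩
  have h3 : ((z - y) * y * z).primeFactors ⊆ (z - y).primeFactors ∪ Nat.primesLE N := by
    rw [Nat.primeFactors_mul (by positivity) hz0.ne', Nat.primeFactors_mul hx0.ne' hy0.ne',
      union_assoc]
    exact union_subset_union_right (union_subset (hpf _) (hpf _))
  have h4 : ∏ p ∈ ((z - y) * y * z).primeFactors, p ≤ (z - y) * ∏ p ∈ Nat.primesLE N, p := by
    have hone : ∀ p ∈ (z - y).primeFactors ∪ Nat.primesLE N, 1 ≤ p := by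
      intro p hp
      rcases mem_union.1 hp with h | h
      · exact (Nat.prime_of_mem_primeFactors h).one_le
      · exact (Nat.prime_of_mem_primesLE h).one_le
    refine (prod_le_prod_of_subset_of_one_le' h3 fun p hp _ => hone p hp).trans ?_
    refine le_trans ?_ (Nat.mul_le_mul_right _ (Nat.le_of_dvd hx0 (Nat.prod_primeFactors_dvd _)))
    rw [← prod_union_inter]
    exact Nat.le_mul_of_pos_right _ (prod_pos fun p hp => hone p (inter_subset_union hp))
  have h5 : exp (∑ p ∈ Nat.primesLE N, log p) = ((∏ p ∈ Nat.primesLE N, p : ℕ) : ℝ) := by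
    rw [exp_sum, Nat.cast_prod]
    exact prod_congr rfl fun p hp => exp_log (by linarith [(two_le_cast hp).1])
  rw [h5]
  refine le_trans (Nat.cast_le.2 h4) ?_
  rw [Nat.cast_mul]
  exact mul_le_mul_of_nonneg_right hx (by positivity)

/-- A short vector of the lattice given by rounded logarithms of primes gives an abc triple. -/
lemma triple (N K : ℕ) (hK : 0 < K) (r : ℝ) (hr : 0 < r) (a : Nat.primesLE N → ℤ) (ha : a ≠ 0)
    (hd : (K : ℤ) ∣ ∑ j, a j * ⌊log (j : ℕ) * K / r⌋)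
    (h1 : ∑ j : Nat.primesLE N, log (j : ℕ) * |(a j : ℝ)| < r) :
    ∃ x y z : ℕ, 0 < x ∧ 0 < y ∧ Nat.Coprime x y ∧ x + y = z ∧ 1 ≤ 2 * r ^ 2 / K * z ∧
      log z ≤ (r + 2 * r ^ 2 / K) / 2 ∧ ((∏ p ∈ (x * y * z).primeFactors, p : ℕ) : ℝ) ≤
        2 * r ^ 2 / K * z * exp (∑ p ∈ Nat.primesLE N, log p) := by
  have hK' : (0 : ℝ) < K := by exact_mod_cast hK
  have hl : ∀ j : Nat.primesLE N, 1 / 2 ≤ log ((j : ℕ) : ℝ) := fun j =>
    le_trans (by linarith [log_two_gt_d9]) (log_le_log two_pos (two_le_cast j.2).1)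
  have hw : ∀ j : Nat.primesLE N, 0 ≤ log ((j : ℕ) : ℝ) * K / r := fun j => by positivity
  have h2 : ∑ j, a j * ⌊log (j : ℕ) * K / r⌋ = 0 := by
    refine Int.eq_zero_of_abs_lt_dvd hd ?_
    have : |((∑ j, a j * ⌊log (j : ℕ) * K / r⌋ : ℤ) : ℝ)| < K := by
      push_cast
      refine (abs_sum_le_sum_abs _ _).trans_lt ?_
      calc _ ≤ ∑ j : Nat.primesLE N, log (j : ℕ) * |(a j : ℝ)| * (K / r) := by
            refine sum_le_sum fun j _ => ?_
            rw [abs_mul, abs_of_nonneg (a := ((⌊log (j : ℕ) * K / r⌋ : ℤ) : ℝ))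
              (by exact_mod_cast Int.floor_nonneg.2 (hw j))]
            calc _ ≤ |(a j : ℝ)| * (log (j : ℕ) * K / r) :=
                  mul_le_mul_of_nonneg_left (Int.floor_le _) (abs_nonneg _)
              _ = _ := by ring
        _ < r * (K / r) := by
            rw [← sum_mul]
            exact mul_lt_mul_of_pos_right h1 (by positivity)
        _ = K := by field_simp
    exact_mod_cast this
  have h3 : |∑ j, (a j : ℝ) * log (j : ℕ)| ≤ 2 * r ^ 2 / K := by
    have h4 : ∑ j, (a j : ℝ) * log (j : ℕ) =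
        r / K * ∑ j, (a j : ℝ) * Int.fract (log (j : ℕ) * K / r) := by
      have h5 : ∑ j, (a j : ℝ) * (⌊log (j : ℕ) * K / r⌋ : ℝ) = 0 := by exact_mod_cast h2
      simp only [Int.fract, mul_sub, sum_sub_distrib, h5, sub_zero, mul_sum]
      refine sum_congr rfl fun j _ => ?_
      field_simp
    rw [h4, abs_mul, abs_of_pos (by positivity), show 2 * r ^ 2 / K = r / K * (2 * r) by ring]
    refine mul_le_mul_of_nonneg_left ((abs_sum_le_sum_abs _ _).trans ?_) (by positivity)
    refine le_trans ?_ (mul_le_mul_of_nonneg_left h1.le two_pos.le)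
    rw [mul_sum]
    refine sum_le_sum fun j _ => ?_
    rw [abs_mul, abs_of_nonneg (Int.fract_nonneg (log (j : ℕ) * K / r))]
    have h5 := Int.fract_lt_one (log (j : ℕ) * K / r)
    have h6 := hl j
    nlinarith [abs_nonneg (a j : ℝ)]
  rcases le_total 0 (∑ j, (a j : ℝ) * log (j : ℕ)) with h | h
  · exact triple_aux N a ha r _ h h1.le (le_of_abs_le h3)
  · have e : ∑ j, ((-a) j : ℝ) * log (j : ℕ) = -∑ j, (a j : ℝ) * log (j : ℕ) := by
      simp [sum_neg_distrib]
    refine triple_aux N (-a) (neg_ne_zero.2 ha) r _ (by rw [e]; linarith) (by simpa using h1.le) ?_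
    rw [e]
    linarith [neg_le_of_abs_le h3]

end Pool.Agent.P.MP_7aad9f_nt
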